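import Mathlib

/-! Module F: abstract functional analysis of a symmetrizable compact operator. -/

set_option autoImplicit false

open Module End

namespace Pool.Agent.NP

variable {X : Type*} [NormedAddCommGroup X] [NormedSpace ℝ X]

/-- Cauchy-Schwarz for positive semidefinite forms -/
theorem form_cs (B : X →L[ℝ] X →L[ℝ] ℝ) (hsymm : ∀ x y, B x y = B y x) (hpos : ∀ x, 0 ≤ B x x)
    (x y : X) : (B x y) ^ 2 ≤ B x x * B y y := by
  have h : ∀ t : ℝ, 0 ≤ (B y y) * (t * t) + (2 * B x y) * t + B x x := by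
    intro t
    have := hpos (x + t • y)
    simp only [map_add, map_smul, _root_.add_apply, _root_.smul_apply,
      smul_eq_mul] at this
    rw [hsymm y x] at this
    linarith
  have := discrim_le_zero h
  unfold discrim at this
  nlinarith

/-- (SQ) if `A` is symmetric for a bounded positive semidefinite form and `‖A‖ ≤ 1`, then
`B(Ax,x) ≤ B(x,x)`.  Proof: `a n = B(A^n x, A^n x)` is log-convex and bounded, so `a 1 ≤ a 0`. -/
theorem sq_lemma (B : X →L[ℝ] X →L[ℝ] ℝ) (hsymm : ∀ x y, B x y = B y x) (hpos : ∀ x, 0 ≤ B x x)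
    (A : X →L[ℝ] X) (hA : ‖A‖ ≤ 1) (hAs : ∀ x y, B (A x) y = B x (A y)) (x : X) :
    B (A x) x ≤ B x x := by
  set a : ℕ → ℝ := fun n => B ((A ^ n) x) ((A ^ n) x) with ha
  have ha0 : ∀ n, 0 ≤ a n := fun n => hpos _
  have hlog : ∀ n, (a (n + 1)) ^ 2 ≤ a n * a (n + 2) := by
    intro n
    have h1 : a (n + 1) = B ((A ^ n) x) ((A ^ (n + 2)) x) := by
      simp only [ha]
      have e1 : (A ^ (n + 1)) x = A ((A ^ n) x) := by
        rw [pow_succ']; rfl
      have e2 : (A ^ (n + 2)) x = A ((A ^ (n + 1)) x) := by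
        rw [pow_succ' A (n + 1)]; rfl
      rw [e2, ← hAs, ← e1]
    rw [h1]
    exact form_cs B hsymm hpos _ _
  have hbd : ∀ n, a n ≤ ‖B‖ * (‖x‖ * ‖x‖) := by
    intro n
    have h1 : ‖(A ^ n) x‖ ≤ ‖x‖ := by
      calc ‖(A ^ n) x‖ ≤ ‖A ^ n‖ * ‖x‖ := (A ^ n).le_opNorm x
        _ ≤ 1 * ‖x‖ := by
            gcongr
            rcases Nat.eq_zero_or_pos n with rfl | hn
            · rw [pow_zero]
              exact ContinuousLinearMap.norm_id_le
            · exact (norm_pow_le' A hn).trans (pow_le_one₀ (norm_nonneg _) hA)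
        _ = ‖x‖ := one_mul _
    calc a n ≤ ‖B ((A ^ n) x) ((A ^ n) x)‖ := le_abs_self _
      _ ≤ ‖B‖ * ‖(A ^ n) x‖ * ‖(A ^ n) x‖ := B.le_opNorm₂ _ _
      _ ≤ ‖B‖ * ‖x‖ * ‖x‖ := by gcongr
      _ = _ := by ring
  have h10 : a 1 ≤ a 0 := by
    by_contra hcon
    push Not at hcon
    have hpos0 : 0 < a 0 := by
      rcases (ha0 0).eq_or_lt with h | h
      · exfalso
        have := hlog 0
        rw [← h] at this hcon
        simp only [zero_add, zero_mul] at this
        have h2 : a 1 ^ 2 = 0 := le_antisymm this (sq_nonneg _)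
        rw [pow_eq_zero_iff (by norm_num)] at h2
        rw [h2] at hcon
        exact lt_irrefl _ hcon
      · exact h
    set q := a 1 / a 0 with hq
    have hq1 : 1 < q := by rw [hq, lt_div_iff₀ hpos0, one_mul]; exact hcon
    have hind : ∀ n, 0 < a n ∧ q * a n ≤ a (n + 1) := by
      intro n
      induction n with
      | zero =>
        refine ⟨hpos0, ?_⟩
        rw [hq, zero_add]
        field_simp
        exact le_rfl
      | succ n ih =>
        obtain ⟨h1, h2⟩ := ih
        have h3 : 0 < a (n + 1) := lt_of_lt_of_le (by positivity) h2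
        refine ⟨h3, ?_⟩
        have h4 := hlog n
        -- q * a (n+1) * a n ≤ a(n+1)^2 ≤ a n * a (n+2)
        have h5 : q * a (n + 1) * a n ≤ a (n + 2) * a n := by nlinarith
        exact le_of_mul_le_mul_right h5 h1
    have hgrow : ∀ n, q ^ n * a 0 ≤ a n := by
      intro n
      induction n with
      | zero => simp
      | succ n ih =>
        have := (hind n).2
        calc q ^ (n + 1) * a 0 = q * (q ^ n * a 0) := by ring
          _ ≤ q * a n := by gcongr
          _ ≤ a (n + 1) := this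
    obtain ⟨n, hn⟩ := pow_unbounded_of_one_lt (‖B‖ * (‖x‖ * ‖x‖) / a 0) hq1
    rw [div_lt_iff₀ hpos0] at hn
    have := hgrow n
    have := hbd n
    linarith
  have h2 : (B (A x) x) ^ 2 ≤ (B x x) ^ 2 := by
    calc (B (A x) x) ^ 2 ≤ B (A x) (A x) * B x x := form_cs B hsymm hpos _ _
      _ = a 1 * a 0 := by simp [ha]
      _ ≤ a 0 * a 0 := by gcongr; exact ha0 0
      _ = (B x x) ^ 2 := by simp [ha]; ring
  exact abs_le_of_sq_le_sq' h2 (hpos x) |>.2

/-- no eigenvalue above `l0` implies `B(Tx,x) ≤ l0 B(x,x)` -/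
theorem form_le_of_no_eigenvalue [CompleteSpace X] (B : X →L[ℝ] X →L[ℝ] ℝ)
    (hsymm : ∀ x y, B x y = B y x) (hpos : ∀ x, 0 ≤ B x x)
    (T : X →L[ℝ] X) (hT : IsCompactOperator T) (hTs : ∀ x y, B (T x) y = B x (T y))
    (l0 : ℝ) (h0 : 0 < l0) (hev : ∀ t : ℝ, l0 < t → ¬ HasEigenvalue (T : End ℝ X) t) (x : X) :
    B (T x) x ≤ l0 * B x x := by
  set S : Set ℝ := {l : ℝ | l0 ≤ l ∧ ∀ x, B (T x) x ≤ l * B x x} with hS
  have hne : S.Nonempty := by
    refine ⟨l0 + ‖T‖, by linarith [norm_nonneg T], fun x => ?_⟩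
    have hl : 0 < l0 + ‖T‖ := by positivity
    have h1 := sq_lemma B hsymm hpos ((l0 + ‖T‖)⁻¹ • T) (by
      rw [norm_smul, norm_inv, Real.norm_eq_abs, abs_of_pos hl, inv_mul_le_iff₀ hl]
      linarith) (by
      intro x y
      simp only [_root_.smul_apply, map_smul, smul_eq_mul, hTs]) x
    simp only [_root_.smul_apply, map_smul, smul_eq_mul] at h1
    rwa [inv_mul_le_iff₀ hl] at h1
  have hbdd : BddBelow S := ⟨l0, fun l hl => hl.1⟩
  set s := sInf S with hs
  have hs0 : l0 ≤ s := le_csInf hne (fun l hl => hl.1)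
  have hPs : ∀ x, B (T x) x ≤ s * B x x := by
    intro x
    rcases (hpos x).eq_or_lt with h | h
    · obtain ⟨l, hl⟩ := hne
      have := hl.2 x
      rw [← h] at this ⊢
      simpa using this
    · have : B (T x) x / B x x ≤ s := by
        apply le_csInf hne
        intro l hl
        rw [div_le_iff₀ h]
        exact hl.2 x
      rwa [div_le_iff₀ h] at this
  rcases hs0.eq_or_lt with h | h
  · rw [h]; exact hPs x
  · exfalso
    have hspos : s ≠ 0 := by linarith
    rcases hT.hasEigenvalue_or_mem_resolventSet hspos with h1 | h1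
    · exact hev s h h1
    · rw [spectrum.mem_resolventSet_iff] at h1
      obtain ⟨U, hU⟩ := h1
      set M : X →L[ℝ] X := algebraMap ℝ (X →L[ℝ] X) s - T with hM
      set R : X →L[ℝ] X := ((U⁻¹ : (X →L[ℝ] X)ˣ) : X →L[ℝ] X) with hR
      have hMR : ∀ y, M (R y) = y := by
        intro y
        have : M * R = 1 := by rw [← hU, hR]; simp
        have := congrArg (fun L : X →L[ℝ] X => L y) this
        simpa using this
      have hMapp : ∀ y, M y = s • y - T y := by
        intro y
        simp [hM, Algebra.algebraMap_eq_smul_one]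
      have hMs : ∀ y z, B (M y) z = B y (M z) := by
        intro y z
        rw [hMapp, hMapp]
        simp only [map_sub, map_smul, _root_.sub_apply, _root_.smul_apply,
          hTs]
      set B' : X →L[ℝ] X →L[ℝ] ℝ := B.comp M with hB'
      have hB'app : ∀ y z, B' y z = B (M y) z := fun y z => rfl
      have hB's : ∀ y z, B' y z = B' z y := by
        intro y z
        rw [hB'app, hB'app, hMs, hsymm]
      have hB'p : ∀ y, 0 ≤ B' y y := by
        intro y
        rw [hB'app, hMapp]
        simp only [map_sub, map_smul, _root_.sub_apply, _root_.smul_apply,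
          smul_eq_mul]
        linarith [hPs y]
      set ε : ℝ := (‖R‖ + 1)⁻¹ with hε
      have hεpos : 0 < ε := by positivity
      have hkey : ∀ y, B (T y) y ≤ (s - ε) * B y y := by
        intro y
        have h2 := sq_lemma B' hB's hB'p (ε • R) (by
          rw [norm_smul, Real.norm_eq_abs, abs_of_pos hεpos, hε, inv_mul_le_iff₀ (by positivity)]
          linarith) (by
          intro y z
          simp only [_root_.smul_apply, map_smul, smul_eq_mul]
          congr 1
          rw [hB'app, hB'app, hMR, hMs, hMR]) y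
        simp only [_root_.smul_apply, map_smul, smul_eq_mul] at h2
        rw [hB'app, hB'app, hMR, hMapp] at h2
        simp only [map_sub, map_smul, _root_.sub_apply, _root_.smul_apply,
          smul_eq_mul] at h2
        linarith
      set ε' := min ε (s - l0) with hε'
      have hε'pos : 0 < ε' := lt_min hεpos (by linarith)
      have hmem : s - ε' ∈ S := by
        refine ⟨by linarith [min_le_right ε (s - l0)], fun y => ?_⟩
        have h3 := hkey y
        have h4 : ε' ≤ ε := min_le_left _ _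
        nlinarith [hpos y]
      have := csInf_le hbdd hmem
      linarith

/-- if `t ≠ 0` is no eigenvalue then `t - T` is onto -/
theorem exists_solution [CompleteSpace X] (T : X →L[ℝ] X) (hT : IsCompactOperator T) (t : ℝ)
    (ht : t ≠ 0) (hev : ¬ HasEigenvalue (T : End ℝ X) t) (f : X) : ∃ u : X, t • u - T u = f := by
  rcases hT.hasEigenvalue_or_mem_resolventSet ht with h1 | h1
  · exact absurd h1 hev
  · rw [spectrum.mem_resolventSet_iff] at h1
    obtain ⟨U, hU⟩ := h1
    refine ⟨((U⁻¹ : (X →L[ℝ] X)ˣ) : X →L[ℝ] X) f, ?_⟩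
    have : (algebraMap ℝ (X →L[ℝ] X) t - T) * ((U⁻¹ : (X →L[ℝ] X)ˣ) : X →L[ℝ] X) = 1 := by
      rw [← hU]; simp
    have := congrArg (fun L : X →L[ℝ] X => L f) this
    simpa [Algebra.algebraMap_eq_smul_one] using this

/-- the final argument: equality in the sum rule forces eigenvectors for `1/6` -/
theorem sum_rule_rigidity {ι : Type*} [Fintype ι] (B : X →L[ℝ] X →L[ℝ] ℝ)
    (hsymm : ∀ x y, B x y = B y x) (hpos : ∀ x, 0 ≤ B x x) (hdef : ∀ x, B x x = 0 → x = 0)
    (T : X →L[ℝ] X) (hTs : ∀ x y, B (T x) y = B x (T y))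
    (hle : ∀ x, B (T x) x ≤ (1 / 6) * B x x)
    (f u : ι → X) (hu : ∀ i, (1 / 2 : ℝ) • u i - T (u i) = f i) (V : ℝ)
    (h1 : ∑ i, B (u i) (f i) = 3 * V) (h2 : ∑ i, B (f i) (f i) = V) (i : ι) :
    T (u i) = (1 / 6 : ℝ) • u i := by
  set Y : ι → X := fun i => (1 / 6 : ℝ) • u i - T (u i) with hY
  have hfi : ∀ i, f i = Y i + (1 / 3 : ℝ) • u i := by
    intro i
    rw [← hu i, hY]
    module
  have hYu : ∀ i, 0 ≤ B (Y i) (u i) := by
    intro i
    simp only [hY, map_sub, map_smul, _root_.sub_apply,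
      _root_.smul_apply, smul_eq_mul]
    linarith [hle (u i)]
  have hid : ∀ i, 3 * B (f i) (f i) - B (u i) (f i) = 3 * B (Y i) (Y i) + B (Y i) (u i) := by
    intro i
    rw [hfi i]
    simp only [map_add, map_smul, _root_.add_apply, _root_.smul_apply,
      smul_eq_mul]
    rw [hsymm (u i) (Y i)]
    ring
  have hsum : ∑ i, (3 * B (Y i) (Y i) + B (Y i) (u i)) = 0 := by
    rw [← Finset.sum_congr rfl (fun i _ => hid i), Finset.sum_sub_distrib, ← Finset.mul_sum, h1, h2]
    ring
  have hz := (Finset.sum_eq_zero_iff_of_nonneg (fun i _ => by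
    have := hpos (Y i); have := hYu i; positivity)).1 hsum i (Finset.mem_univ i)
  have hYY : B (Y i) (Y i) = 0 := by
    have := hpos (Y i)
    have := hYu i
    linarith
  have := hdef _ hYY
  simp only [hY] at this
  exact (sub_eq_zero.1 this).symm

end Pool.Agent.NP
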