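import Pool.Agent.Lib_h26.Sphere2
import Pool.Agent.Lib_h26.FA

/-! Module K: assembly. -/

set_option autoImplicit false

open MeasureTheory Measure Metric Set Filter
open scoped Topology ENNReal

namespace Pool.Agent.NP

variable {g : E3 → ℝ}

/-- on mean zero functions `1/2` is no eigenvalue -/
theorem Dom.half_eig_zero (hg : Dom g) (hc : IsPreconnected (Om g)) {φ : E3 → ℝ}
    (hφ : MemLp φ 2 (surf g)) (hm : ∫ x, φ x ∂(surf g) = 0)
    (ht : Kst g φ =ᵐ[surf g] fun x => (1 / 2) * φ x) : φ =ᵐ[surf g] 0 := by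
  have hfin := hg.isFiniteMeasure_surf
  have hφ1 := hg.integrable_of_memLp hφ
  apply hg.ae_eq_zero_of_En_self hφ
  obtain ⟨hi, _⟩ := hg.integral_dpot_general hφ hφ (Om g)
  have hO := hg.integral_dpot_Om hφ hφ
  have h3 : En g φ (Kst g φ) = (1 / 2) * En g φ φ := by
    unfold En
    rw [← integral_const_mul]
    apply integral_congr_ae
    filter_upwards [ht] with x hx
    rw [hx]
    ring
  rw [h3, sub_self] at hO
  have h4 : (fun x => (inner ℝ (dpot g φ x) (dpot g φ x) : ℝ)) =ᵐ[volume.restrict (Om g)] 0 :=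
    (integral_eq_zero_iff_of_nonneg (fun x => real_inner_self_nonneg) hi).1 hO
  -- the gradient vanishes in Ω
  have hdm : ContinuousOn (dpot g φ) (Om g) := fun x hx =>
    (hg.continuousAt_dpot hφ1 (ne_of_lt hx)).continuousWithinAt
  have hzero : ∀ x ∈ Om g, dpot g φ x = 0 := by
    intro x hx
    by_contra hne
    have hopen : IsOpen {y | y ∈ Om g ∧ dpot g φ y ≠ 0} := by
      have h7 : {y | y ∈ Om g ∧ dpot g φ y ≠ 0} = Om g ∩ (dpot g φ) ⁻¹' {0}ᶜ := by
        ext y; rfl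
      rw [h7]
      exact hdm.isOpen_inter_preimage hg.isOpen_Om isOpen_compl_singleton
    have hpos : 0 < volume {y | y ∈ Om g ∧ dpot g φ y ≠ 0} :=
      hopen.measure_pos volume ⟨x, hx, hne⟩
    have hz : volume {y | y ∈ Om g ∧ dpot g φ y ≠ 0} = 0 := by
      have h8 : ∀ᵐ y, y ∈ Om g → dpot g φ y = 0 := by
        rw [← ae_restrict_iff' hg.measurableSet_Om]
        filter_upwards [h4] with y hy
        simpa using hy
      rw [ae_iff] at h8
      convert! h8 using 2
      ext y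
      simp
    rw [hz] at hpos
    exact lt_irrefl _ hpos
  -- the potential is constant in Ω
  obtain ⟨κ, hκ⟩ : ∃ κ : ℝ, ∀ x ∈ Om g, pot g φ x = κ := by
    have hd : DifferentiableOn ℝ (pot g φ) (Om g) := fun x hx =>
      (hg.hasFDerivAt_pot hφ1 (ne_of_lt hx)).differentiableAt.differentiableWithinAt
    have hz : (Om g).EqOn (fderiv ℝ (pot g φ)) 0 := by
      intro x hx
      rw [(hg.hasFDerivAt_pot hφ1 (ne_of_lt hx)).fderiv, hzero x hx]
      simp
    exact hg.isOpen_Om.exists_is_const_of_fderiv_eq_zero hc hd hz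
  -- the potential is constant on the surface
  have hpL := hg.memLp_pot hφ
  have hkey : ∀ v : E3, ∀ᵐ x ∂(surf g), (pot g φ x - κ) * nu g v x = 0 := by
    intro v
    have hint : Integrable (fun x => (pot g φ x - κ) * nu g v x) (surf g) := by
      apply Integrable.mul_bdd (c := ‖v‖)
      · exact (hg.integrable_of_memLp hpL).sub (integrable_const κ)
      · exact (hg.measurable_nu v).aestronglyMeasurable
      · exact Eventually.of_forall fun x => hg.abs_nu_le v x
    apply ae_eq_zero_of_integral_contDiff_smul_eq_zero hint.locallyIntegrable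
    intro w hw hwc
    have hw1 : ContDiff ℝ 1 w := hw.of_le (by norm_cast)
    have h1 := hg.divergence hw1 hwc v
    have h2 := hg.trace_pot hφ1 hw1 hwc v
    have e1 : ∫ x in Om g, (fderiv ℝ w x v * pot g φ x + w x * inner ℝ (dpot g φ x) v)
        = κ * ∫ x in Om g, fderiv ℝ w x v := by
      rw [← integral_const_mul]
      apply setIntegral_congr_fun hg.measurableSet_Om
      intro x hx
      simp only
      rw [hκ x hx, hzero x hx]
      simp
      ring
    rw [e1, h1, ← integral_const_mul] at h2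
    have i1 := (hg.integrable_mul_inner hw1.continuous hwc v).const_mul κ
    obtain ⟨W, hW⟩ := hw1.continuous.bounded_above_of_compact_support hwc
    have i2 : Integrable (fun x => w x * pot g φ x * inner ℝ (nrm g x) v) (surf g) := by
      apply Integrable.mul_bdd (c := ‖v‖)
      · exact (hg.integrable_of_memLp hpL).bdd_mul hw1.continuous.aestronglyMeasurable
          (Eventually.of_forall hW)
      · exact (hg.measurable_nu v).aestronglyMeasurable
      · exact Eventually.of_forall fun x => hg.abs_nu_le v x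
    have h5 : ∫ x, w x • ((pot g φ x - κ) * nu g v x) ∂(surf g)
        = ∫ x, (w x * pot g φ x * inner ℝ (nrm g x) v - κ * (w x * inner ℝ (nrm g x) v)) ∂(surf g) := by
      congr 1
      ext x
      simp only [nu, smul_eq_mul]
      ring
    rw [h5, integral_sub i2 i1, h2, sub_self]
  let b := EuclideanSpace.basisFun (Fin 3) ℝ
  have hall : ∀ᵐ x ∂(surf g), ∀ i, (pot g φ x - κ) * nu g (b i) x = 0 :=
    ae_all_iff.2 fun i => hkey (b i)
  have hpc : pot g φ =ᵐ[surf g] fun _ => κ := by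
    filter_upwards [hall, hg.ae_mem] with x hx hx0
    by_contra hne
    have h6 : ∀ i, nu g (b i) x = 0 := fun i =>
      (mul_eq_zero.1 (hx i)).resolve_left (sub_ne_zero.2 hne)
    have h7 : nrm g x = 0 := by
      rw [← b.sum_repr' (nrm g x)]
      apply Finset.sum_eq_zero
      intro i _
      have := h6 i
      unfold nu at this
      rw [real_inner_comm, this, zero_smul]
    have h8 := hg.norm_nrm hx0
    rw [h7, norm_zero] at h8
    exact zero_ne_one h8
  unfold En
  have h9 : ∫ x, pot g φ x * φ x ∂(surf g) = κ * ∫ x, φ x ∂(surf g) := by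
    rw [← integral_const_mul]
    apply integral_congr_ae
    filter_upwards [hpc] with x hx
    rw [hx]
  rw [h9, hm, mul_zero]

/-- eigenvalues of `K*` -/
def IsEig (g : E3 → ℝ) (t : ℝ) : Prop :=
  ∃ φ : E3 → ℝ, MemLp φ 2 (surf g) ∧ ¬ φ =ᵐ[surf g] 0 ∧ Kst g φ =ᵐ[surf g] fun x => t * φ x

/-- the key step: if all eigenvalues other than `1/2` are at most `1/6`, then for every `i` there is
an eigenfunction `u i` for `1/6` with `ν_i = u i / 3` -/
theorem Dom.key (hg : Dom g) (hc : IsPreconnected (Om g))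
    (H : ∀ t : ℝ, IsEig g t → t ≠ 1 / 2 → t ≤ 1 / 6) :
    IsEig g (1 / 6) ∧ ∀ i : Fin 3, ∀ x ∈ Om g,
      dpot g (nu g (EuclideanSpace.basisFun (Fin 3) ℝ i)) x
        = (1 / 3 : ℝ) • EuclideanSpace.basisFun (Fin 3) ℝ i := by
  have hfin := hg.isFiniteMeasure_surf
  set b := EuclideanSpace.basisFun (Fin 3) ℝ with hb
  obtain ⟨C1, hC1, hS1⟩ := hg.schur_Gam
  obtain ⟨C2, hC2, hS2⟩ := hg.schur_kNP
  set VL : Lp ℝ 2 (surf g) →L[ℝ] Lp ℝ 2 (surf g) := hS1.op with hVL
  set KL : Lp ℝ 2 (surf g) →L[ℝ] Lp ℝ 2 (surf g) := hS2.op with hKL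
  have hVae : ∀ f : Lp ℝ 2 (surf g), (VL f : E3 → ℝ) =ᵐ[surf g] pot g f := fun f => hS1.op_ae f
  have hKae : ∀ f : Lp ℝ 2 (surf g), (KL f : E3 → ℝ) =ᵐ[surf g] Kst g f := fun f => hS2.op_ae f
  have hKc : IsCompactOperator KL := hS2.isCompactOperator hg.finRankApprox_kNP
  -- mean zero subspace
  have hone : MemLp (fun _ : E3 => (1 : ℝ)) 2 (surf g) := memLp_const 1
  set one : Lp ℝ 2 (surf g) := hone.toLp with hone'
  have hmean : ∀ f : Lp ℝ 2 (surf g), innerSL ℝ one f = ∫ x, f x ∂(surf g) := by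
    intro f
    rw [innerSL_apply_apply, L2.inner_def]
    apply integral_congr_ae
    filter_upwards [hone.coeFn_toLp] with x hx
    rw [hone', hx]
    simp
  set X0 : Submodule ℝ (Lp ℝ 2 (surf g)) := LinearMap.ker (innerSL ℝ one : Lp ℝ 2 (surf g) →L[ℝ] ℝ).toLinearMap
    with hX0
  have hmem : ∀ f : Lp ℝ 2 (surf g), f ∈ X0 ↔ ∫ x, f x ∂(surf g) = 0 := by
    intro f
    rw [hX0, LinearMap.mem_ker, ← hmean f]
    rfl
  have hclosed : IsClosed (X0 : Set (Lp ℝ 2 (surf g))) :=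
    (innerSL ℝ one : Lp ℝ 2 (surf g) →L[ℝ] ℝ).isClosed_ker
  have hcomplete : CompleteSpace X0 := hclosed.completeSpace_coe
  have hKX : ∀ f : X0, KL f ∈ X0 := by
    intro f
    rw [hmem, integral_congr_ae (hKae f), hg.integral_Kst (hg.integrable_of_memLp (Lp.memLp _)),
      (hmem f).1 f.2, mul_zero]
  set T : X0 →L[ℝ] X0 := (KL.comp X0.subtypeL).codRestrict X0 (fun f => hKX f) with hT
  have hTae : ∀ f : X0, ((T f : Lp ℝ 2 (surf g)) : E3 → ℝ) =ᵐ[surf g] Kst g f := fun f => hKae f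
  have hTc : IsCompactOperator T :=
    (hKc.comp_clm X0.subtypeL).codRestrict (fun f => hKX f) hclosed
  set B : X0 →L[ℝ] X0 →L[ℝ] ℝ :=
    (innerSL ℝ : Lp ℝ 2 (surf g) →L[ℝ] Lp ℝ 2 (surf g) →L[ℝ] ℝ).bilinearComp (VL.comp X0.subtypeL) X0.subtypeL
    with hB
  have hBen : ∀ x y : X0, B x y = En g x y := by
    intro x y
    have h1 : B x y = inner ℝ (VL x) (y : Lp ℝ 2 (surf g)) := rfl
    rw [h1, L2.inner_def]
    unfold En
    apply integral_congr_ae
    filter_upwards [hVae x] with a ha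
    rw [ha]
    simp [mul_comm]
  have hsymm : ∀ x y, B x y = B y x := by
    intro x y
    rw [hBen, hBen]
    exact hg.En_symm (Lp.memLp _) (Lp.memLp _)
  have hpos : ∀ x, 0 ≤ B x x := by
    intro x
    rw [hBen]
    exact hg.En_self_nonneg (Lp.memLp _)
  have hdef : ∀ x, B x x = 0 → x = 0 := by
    intro x hx
    rw [hBen] at hx
    have h1 := hg.ae_eq_zero_of_En_self (Lp.memLp (x : Lp ℝ 2 (surf g))) hx
    have h2 : (x : Lp ℝ 2 (surf g)) = 0 := (Lp.eq_zero_iff_ae_eq_zero).2 h1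
    exact Subtype.ext h2
  have hEncongr : ∀ (φ ψ ψ' : E3 → ℝ), ψ =ᵐ[surf g] ψ' → En g φ ψ = En g φ ψ' := by
    intro φ ψ ψ' h
    unfold En
    apply integral_congr_ae
    filter_upwards [h] with x hx
    rw [hx]
  have hTs : ∀ x y, B (T x) y = B x (T y) := by
    intro x y
    rw [hBen, hBen]
    have h1 : En g (T x : Lp ℝ 2 (surf g)) y = En g (Kst g x) y := by
      unfold En
      rw [pot_congr (hTae x)]
    rw [h1, hEncongr _ _ _ (hTae y)]
    exact (hg.En_Kst_symm (Lp.memLp _) (Lp.memLp _)).symm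
  -- eigenvectors of T are eigenfunctions
  have heig : ∀ (t : ℝ) (f : X0), f ≠ 0 → T f = t • f →
      MemLp (f : Lp ℝ 2 (surf g)) 2 (surf g) ∧ ¬ ((f : Lp ℝ 2 (surf g)) : E3 → ℝ) =ᵐ[surf g] 0 ∧
      Kst g f =ᵐ[surf g] fun x => t * (f : Lp ℝ 2 (surf g)) x := by
    intro t f hf0 hf
    refine ⟨Lp.memLp _, ?_, ?_⟩
    · intro h
      apply hf0
      exact Subtype.ext ((Lp.eq_zero_iff_ae_eq_zero).2 h)
    · have h1 : (T f : Lp ℝ 2 (surf g)) = t • (f : Lp ℝ 2 (surf g)) := by rw [hf]; rfl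
      have h2 := hTae f
      rw [h1] at h2
      filter_upwards [h2, Lp.coeFn_smul t (f : Lp ℝ 2 (surf g))] with x hx1 hx2
      rw [← hx1, hx2]
      rfl
  have hhalf : ∀ f : X0, T f = (1 / 2 : ℝ) • f → f = 0 := by
    intro f hf
    by_contra hf0
    obtain ⟨h1, h2, h3⟩ := heig _ f hf0 hf
    exact h2 (hg.half_eig_zero hc h1 ((hmem f).1 f.2) h3)
  have hev : ∀ t : ℝ, 1 / 6 < t → ¬ Module.End.HasEigenvalue (T : Module.End ℝ X0) t := by
    intro t ht hcon
    obtain ⟨f, hf⟩ := hcon.exists_hasEigenvector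
    have hf0 : f ≠ 0 := hf.2
    have hf1 : T f = t • f := hf.apply_eq_smul
    rcases eq_or_ne t (1 / 2) with h | h
    · rw [h] at hf1
      exact hf0 (hhalf f hf1)
    · have := H t ⟨_, heig t f hf0 hf1⟩ h
      linarith
  have hev2 : ¬ Module.End.HasEigenvalue (T : Module.End ℝ X0) (1 / 2 : ℝ) := hev _ (by norm_num)
  have hle : ∀ x, B (T x) x ≤ (1 / 6) * B x x := fun x =>
    form_le_of_no_eigenvalue B hsymm hpos T hTc hTs (1 / 6) (by norm_num) hev x
  -- the normal components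
  have hfmem : ∀ i, (hg.memLp_nu (b i)).toLp ∈ X0 := by
    intro i
    rw [hmem, integral_congr_ae (hg.memLp_nu (b i)).coeFn_toLp]
    exact hg.integral_nu (b i)
  set f : Fin 3 → X0 := fun i => ⟨(hg.memLp_nu (b i)).toLp, hfmem i⟩ with hf
  have hfae : ∀ i, ((f i : Lp ℝ 2 (surf g)) : E3 → ℝ) =ᵐ[surf g] nu g (b i) := fun i =>
    (hg.memLp_nu (b i)).coeFn_toLp
  choose u hu using fun i => exists_solution T hTc (1 / 2) (by norm_num) hev2 (f i)
  have hu2 : ∀ i, (fun x => (1 / 2) * (u i : Lp ℝ 2 (surf g)) x - Kst g (u i : Lp ℝ 2 (surf g)) x)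
      =ᵐ[surf g] nu g (b i) := by
    intro i
    have h1 : (1 / 2 : ℝ) • (u i : Lp ℝ 2 (surf g)) - (T (u i) : Lp ℝ 2 (surf g)) = (f i : Lp ℝ 2 (surf g)) := by
      rw [← hu i]; rfl
    have h2 := hfae i
    rw [← h1] at h2
    filter_upwards [h2, Lp.coeFn_sub ((1 / 2 : ℝ) • (u i : Lp ℝ 2 (surf g))) (T (u i) : Lp ℝ 2 (surf g)),
      Lp.coeFn_smul (1 / 2 : ℝ) (u i : Lp ℝ 2 (surf g)), hTae (u i)] with x h3 h4 h5 h6
    rw [← h3, h4, Pi.sub_apply, h5, h6]
    rfl
  have hsol := fun i => hg.dpot_eq_of_solution (Lp.memLp (u i : Lp ℝ 2 (surf g))) (v := b i)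
    (b.norm_eq_one i) (hu2 i)
  set V : ℝ := (volume (Om g)).toReal with hV
  have hV0 : 0 < V := by
    rw [hV, ENNReal.toReal_pos_iff]
    exact ⟨hg.isOpen_Om.measure_pos volume hg.nonempty_Om, hg.volume_Om_lt_top⟩
  have hsum1 : ∑ i, B (u i) (f i) = 3 * V := by
    have h1 : ∀ i, B (u i) (f i) = V := by
      intro i
      rw [hBen, hEncongr _ _ _ (hfae i)]
      exact (hsol i).1
    simp_rw [h1]
    simp
  have hEnff : ∀ i, B (f i) (f i) = En g (nu g (b i)) (nu g (b i)) := by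
    intro i
    rw [hBen, hEncongr _ _ _ (hfae i)]
    unfold En
    rw [pot_congr (hfae i)]
  have hsum2 : ∑ i, B (f i) (f i) = V := by
    simp_rw [hEnff]
    exact hg.sum_rule_nu b
  have hrig := sum_rule_rigidity B hsymm hpos hdef T hTs hle f u hu V hsum1 hsum2
  constructor
  · -- some u i is nonzero
    obtain ⟨i, hi⟩ : ∃ i, u i ≠ 0 := by
      by_contra hcon
      push Not at hcon
      have h1 : ∑ i, B (u i) (f i) = 0 := by
        apply Finset.sum_eq_zero
        intro i _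
        rw [hcon i]
        simp
      rw [hsum1] at h1
      linarith
    exact ⟨_, heig _ (u i) hi (hrig i)⟩
  · intro i x hx
    have hxne : g x ≠ 0 := ne_of_lt hx
    have h1 : nu g (b i) =ᵐ[surf g] fun x => (1 / 3 : ℝ) * (u i : Lp ℝ 2 (surf g)) x := by
      have h2 : (T (u i) : Lp ℝ 2 (surf g)) = (1 / 6 : ℝ) • (u i : Lp ℝ 2 (surf g)) := by
        rw [hrig i]; rfl
      have h3 := hTae (u i)
      rw [h2] at h3
      filter_upwards [hu2 i, h3, Lp.coeFn_smul (1 / 6 : ℝ) (u i : Lp ℝ 2 (surf g))] with x h4 h5 h6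
      rw [← h4, ← h5, h6, Pi.smul_apply, smul_eq_mul]
      ring
    rw [dpot_congr h1]
    have h2 : dpot g (fun x => (1 / 3 : ℝ) * (u i : Lp ℝ 2 (surf g)) x) x
        = (1 / 3 : ℝ) • dpot g (u i : Lp ℝ 2 (surf g)) x := by
      unfold dpot
      rw [← integral_smul]
      congr 1
      ext1 y
      rw [smul_smul]
    rw [h2, (hsol i).2 x hx]

end Pool.Agent.NP
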