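import Mathlib

/-! Module G: Schur test and compactness of weakly singular integral operators on `L²(σ)`. -/

set_option autoImplicit false

open MeasureTheory Measure Metric Set Filter
open scoped Topology ENNReal NNReal

namespace Pool.Agent.NP

variable {α : Type*} [MeasurableSpace α]

theorem lintegral_mul_sq_le (σ : Measure α) {K F : α → ℝ≥0∞} (hK : AEMeasurable K σ)
    (hF : AEMeasurable F σ) :
    (∫⁻ y, K y * F y ∂σ) ^ 2 ≤ (∫⁻ y, K y ∂σ) * (∫⁻ y, K y * F y ^ 2 ∂σ) := by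
  have h := ENNReal.lintegral_mul_le_Lp_mul_Lq σ Real.HolderConjugate.two_two
    (f := fun y => (K y) ^ (1 / 2 : ℝ)) (g := fun y => (K y) ^ (1 / 2 : ℝ) * F y)
    (hK.pow_const _) ((hK.pow_const _).mul hF)
  have e1 : ∀ y, ((fun y => (K y) ^ (1 / 2 : ℝ)) * (fun y => (K y) ^ (1 / 2 : ℝ) * F y)) y
      = K y * F y := by
    intro y
    simp only [Pi.mul_apply]
    rw [← mul_assoc, ← ENNReal.rpow_add_of_nonneg _ _ (by norm_num) (by norm_num)]
    norm_num
  have e2 : ∀ y, ((K y) ^ (1 / 2 : ℝ)) ^ (2 : ℝ) = K y := by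
    intro y
    rw [← ENNReal.rpow_mul]; norm_num
  have e3 : ∀ y, ((K y) ^ (1 / 2 : ℝ) * F y) ^ (2 : ℝ) = K y * F y ^ 2 := by
    intro y
    rw [ENNReal.mul_rpow_of_nonneg _ _ (by norm_num), e2]
    norm_num
  simp_rw [e1, e2, e3] at h
  calc (∫⁻ y, K y * F y ∂σ) ^ 2
      ≤ ((∫⁻ y, K y ∂σ) ^ (1 / 2 : ℝ) * (∫⁻ y, K y * F y ^ 2 ∂σ) ^ (1 / 2 : ℝ)) ^ 2 := by
        gcongr
    _ = _ := by
        rw [mul_pow, ← ENNReal.rpow_natCast, ← ENNReal.rpow_natCast, ← ENNReal.rpow_mul,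
          ← ENNReal.rpow_mul]
        norm_num

variable (σ : Measure α) [IsFiniteMeasure σ]

/-- row and column bounds for a kernel -/
structure SchurBound (k : α → α → ℝ) (C : ℝ) : Prop where
  meas : Measurable (Function.uncurry k)
  row : ∀ᵐ x ∂σ, ∫⁻ y, ‖k x y‖ₑ ∂σ ≤ ENNReal.ofReal C
  col : ∀ᵐ y ∂σ, ∫⁻ x, ‖k x y‖ₑ ∂σ ≤ ENNReal.ofReal C

variable {σ}

theorem SchurBound.lintegral_sq_le {k : α → α → ℝ} {C : ℝ} (hk : SchurBound σ k C)
    {F : α → ℝ≥0∞} (hF : AEMeasurable F σ) :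
    ∫⁻ x, (∫⁻ y, ‖k x y‖ₑ * F y ∂σ) ^ 2 ∂σ ≤ ENNReal.ofReal C ^ 2 * ∫⁻ y, F y ^ 2 ∂σ := by
  have hkx : ∀ x, Measurable (fun y => ‖k x y‖ₑ) := fun x =>
    (hk.meas.comp measurable_prodMk_left).enorm
  have hky : ∀ y, Measurable (fun x => ‖k x y‖ₑ) := fun y =>
    (hk.meas.comp measurable_prodMk_right).enorm
  calc ∫⁻ x, (∫⁻ y, ‖k x y‖ₑ * F y ∂σ) ^ 2 ∂σ
      ≤ ∫⁻ x, ENNReal.ofReal C * (∫⁻ y, ‖k x y‖ₑ * F y ^ 2 ∂σ) ∂σ := by
        apply lintegral_mono_ae
        filter_upwards [hk.row] with x hx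
        refine (lintegral_mul_sq_le σ (hkx x).aemeasurable hF).trans ?_
        gcongr
    _ = ENNReal.ofReal C * ∫⁻ x, ∫⁻ y, ‖k x y‖ₑ * F y ^ 2 ∂σ ∂σ := by
        rw [lintegral_const_mul' _ _ ENNReal.ofReal_ne_top]
    _ = ENNReal.ofReal C * ∫⁻ y, ∫⁻ x, ‖k x y‖ₑ * F y ^ 2 ∂σ ∂σ := by
        rw [lintegral_lintegral_swap]
        apply AEMeasurable.mul
        · exact hk.meas.enorm.aemeasurable
        · exact (hF.pow_const 2).comp_snd
    _ = ENNReal.ofReal C * ∫⁻ y, (∫⁻ x, ‖k x y‖ₑ ∂σ) * F y ^ 2 ∂σ := by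
        congr 1
        apply lintegral_congr
        intro y
        rw [lintegral_mul_const _ (hky y)]
    _ ≤ ENNReal.ofReal C * ∫⁻ y, ENNReal.ofReal C * F y ^ 2 ∂σ := by
        gcongr 1
        apply lintegral_mono_ae
        filter_upwards [hk.col] with y hy
        gcongr
    _ = ENNReal.ofReal C ^ 2 * ∫⁻ y, F y ^ 2 ∂σ := by
        rw [lintegral_const_mul' _ _ ENNReal.ofReal_ne_top]
        ring

omit [IsFiniteMeasure σ] in
theorem lintegral_enorm_sq_eq {f : α → ℝ} : ∫⁻ y, ‖f y‖ₑ ^ 2 ∂σ = (eLpNorm f 2 σ) ^ 2 := by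
  rw [eLpNorm_eq_lintegral_rpow_enorm_toReal (by norm_num) (by norm_num)]
  rw [← ENNReal.rpow_natCast, ← ENNReal.rpow_mul]
  norm_num

theorem SchurBound.ae_lintegral_lt_top {k : α → α → ℝ} {C : ℝ} (hk : SchurBound σ k C)
    {φ : α → ℝ} (hφ : MemLp φ 2 σ) :
    ∀ᵐ x ∂σ, ∫⁻ y, ‖k x y‖ₑ * ‖φ y‖ₑ ∂σ < ⊤ := by
  have h := hk.lintegral_sq_le hφ.1.enorm
  rw [lintegral_enorm_sq_eq] at h
  have hlt : ∫⁻ x, (∫⁻ y, ‖k x y‖ₑ * ‖φ y‖ₑ ∂σ) ^ 2 ∂σ < ⊤ := by
    refine lt_of_le_of_lt h ?_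
    exact ENNReal.mul_lt_top (ENNReal.pow_lt_top ENNReal.ofReal_lt_top)
      (ENNReal.pow_lt_top hφ.2)
  have hm : AEMeasurable (fun x => (∫⁻ y, ‖k x y‖ₑ * ‖φ y‖ₑ ∂σ) ^ 2) σ := by
    apply AEMeasurable.pow_const
    apply AEMeasurable.lintegral_prod_right'
      (f := fun p : α × α => ‖k p.1 p.2‖ₑ * ‖φ p.2‖ₑ)
    exact hk.meas.enorm.aemeasurable.mul hφ.1.enorm.comp_snd
  filter_upwards [ae_lt_top' hm hlt.ne] with x hx
  by_contra hcon
  rw [not_lt, top_le_iff] at hcon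
  rw [hcon] at hx
  simp at hx

theorem SchurBound.ae_integrable {k : α → α → ℝ} {C : ℝ} (hk : SchurBound σ k C)
    {φ : α → ℝ} (hφ : MemLp φ 2 σ) : ∀ᵐ x ∂σ, Integrable (fun y => k x y * φ y) σ := by
  filter_upwards [hk.ae_lintegral_lt_top hφ] with x hx
  refine ⟨((hk.meas.comp measurable_prodMk_left).aestronglyMeasurable).mul hφ.1, ?_⟩
  unfold HasFiniteIntegral
  simpa only [enorm_mul] using hx

theorem SchurBound.aestronglyMeasurable {k : α → α → ℝ} {C : ℝ} (hk : SchurBound σ k C)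
    {φ : α → ℝ} (hφ : MemLp φ 2 σ) : AEStronglyMeasurable (fun x => ∫ y, k x y * φ y ∂σ) σ := by
  apply AEStronglyMeasurable.integral_prod_right' (f := fun p : α × α => k p.1 p.2 * φ p.2)
  exact hk.meas.aestronglyMeasurable.mul hφ.1.comp_snd

theorem SchurBound.eLpNorm_le {k : α → α → ℝ} {C : ℝ} (hk : SchurBound σ k C)
    {φ : α → ℝ} (hφ : MemLp φ 2 σ) :
    eLpNorm (fun x => ∫ y, k x y * φ y ∂σ) 2 σ ≤ ENNReal.ofReal C * eLpNorm φ 2 σ := by
  have h := hk.lintegral_sq_le hφ.1.enorm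
  rw [lintegral_enorm_sq_eq] at h
  have h2 : (eLpNorm (fun x => ∫ y, k x y * φ y ∂σ) 2 σ) ^ 2
      ≤ (ENNReal.ofReal C * eLpNorm φ 2 σ) ^ 2 := by
    rw [← lintegral_enorm_sq_eq, mul_pow]
    refine le_trans ?_ h
    apply lintegral_mono
    intro x
    simp only
    gcongr
    refine (enorm_integral_le_lintegral_enorm _).trans (le_of_eq ?_)
    simp only [enorm_mul]
  exact (ENNReal.pow_le_pow_left_iff (by norm_num)).1 h2

theorem SchurBound.memLp {k : α → α → ℝ} {C : ℝ} (hk : SchurBound σ k C)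
    {φ : α → ℝ} (hφ : MemLp φ 2 σ) : MemLp (fun x => ∫ y, k x y * φ y ∂σ) 2 σ :=
  ⟨hk.aestronglyMeasurable hφ, lt_of_le_of_lt (hk.eLpNorm_le hφ)
    (ENNReal.mul_lt_top ENNReal.ofReal_lt_top hφ.2)⟩

/-- the operator on `L²` -/
noncomputable def SchurBound.op {k : α → α → ℝ} {C : ℝ} (hk : SchurBound σ k C) :
    Lp ℝ 2 σ →L[ℝ] Lp ℝ 2 σ :=
  LinearMap.mkContinuousOfExistsBound
    { toFun := fun φ => (hk.memLp (Lp.memLp φ)).toLp _
      map_add' := by
        intro φ ψ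
        apply Lp.ext
        have h1 := (hk.memLp (Lp.memLp (φ + ψ))).coeFn_toLp
        have h2 := (hk.memLp (Lp.memLp φ)).coeFn_toLp
        have h3 := (hk.memLp (Lp.memLp ψ)).coeFn_toLp
        have h4 := Lp.coeFn_add ((hk.memLp (Lp.memLp φ)).toLp _) ((hk.memLp (Lp.memLp ψ)).toLp _)
        filter_upwards [h1, h2, h3, h4, hk.ae_integrable (Lp.memLp φ),
          hk.ae_integrable (Lp.memLp ψ)] with x e1 e2 e3 e4 i1 i2
        rw [e1, e4, Pi.add_apply, e2, e3, ← integral_add i1 i2]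
        apply integral_congr_ae
        filter_upwards [Lp.coeFn_add φ ψ] with y hy
        rw [hy, Pi.add_apply, mul_add]
      map_smul' := by
        intro c φ
        apply Lp.ext
        have h1 := (hk.memLp (Lp.memLp (c • φ))).coeFn_toLp
        have h2 := (hk.memLp (Lp.memLp φ)).coeFn_toLp
        have h4 := Lp.coeFn_smul c ((hk.memLp (Lp.memLp φ)).toLp _)
        filter_upwards [h1, h2, h4] with x e1 e2 e4
        simp only [RingHom.id_apply]
        rw [e1, e4, Pi.smul_apply, e2, smul_eq_mul, ← integral_const_mul]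
        apply integral_congr_ae
        filter_upwards [Lp.coeFn_smul c φ] with y hy
        rw [hy, Pi.smul_apply, smul_eq_mul]
        ring }
    ⟨(ENNReal.ofReal C).toReal, fun φ => by
      simp only [LinearMap.coe_mk, AddHom.coe_mk]
      rw [Lp.norm_toLp, Lp.norm_def, ← ENNReal.toReal_mul]
      apply ENNReal.toReal_mono
      · exact (ENNReal.mul_lt_top ENNReal.ofReal_lt_top (Lp.memLp φ).2).ne
      · exact hk.eLpNorm_le (Lp.memLp φ)⟩

theorem SchurBound.op_ae {k : α → α → ℝ} {C : ℝ} (hk : SchurBound σ k C) (φ : Lp ℝ 2 σ) :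
    (hk.op φ : α → ℝ) =ᵐ[σ] fun x => ∫ y, k x y * φ y ∂σ :=
  (hk.memLp (Lp.memLp φ)).coeFn_toLp

theorem SchurBound.norm_op_le {k : α → α → ℝ} {C : ℝ} (hC : 0 ≤ C) (hk : SchurBound σ k C) :
    ‖hk.op‖ ≤ C := by
  apply ContinuousLinearMap.opNorm_le_bound _ hC
  intro φ
  have : hk.op φ = (hk.memLp (Lp.memLp φ)).toLp _ := rfl
  rw [this, Lp.norm_toLp, Lp.norm_def]
  have h2 : C * (eLpNorm φ 2 σ).toReal = (ENNReal.ofReal C * eLpNorm φ 2 σ).toReal := by
    rw [ENNReal.toReal_mul, ENNReal.toReal_ofReal hC]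
  rw [h2]
  apply ENNReal.toReal_mono
  · exact (ENNReal.mul_lt_top ENNReal.ofReal_lt_top (Lp.memLp φ).2).ne
  · exact hk.eLpNorm_le (Lp.memLp φ)

/-- approximable by finite rank kernels in the Schur sense -/
def FinRankApprox (σ : Measure α) (k : α → α → ℝ) : Prop :=
  ∀ ε : ℝ, 0 < ε → ∃ (N : ℕ) (a h : Fin N → α → ℝ) (M : ℝ), (∀ j, Measurable (a j)) ∧
    (∀ j, Measurable (h j)) ∧ (∀ j x, |a j x| ≤ M) ∧ (∀ j x, |h j x| ≤ M) ∧
    SchurBound σ (fun x y => k x y - ∑ j, a j x * h j y) ε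

theorem SchurBound.isCompactOperator {k : α → α → ℝ} {C : ℝ} (hk : SchurBound σ k C)
    (happ : FinRankApprox σ k) : IsCompactOperator hk.op := by
  -- for every ε a compact operator within ε
  have key : ∀ ε : ℝ, 0 < ε → ∃ F : Lp ℝ 2 σ →L[ℝ] Lp ℝ 2 σ, IsCompactOperator F ∧ ‖hk.op - F‖ ≤ ε := by
    intro ε hε
    obtain ⟨N, a, h, M, ha, hh, haM, hhM, hS⟩ := happ ε hε
    have haL : ∀ j, MemLp (a j) 2 σ := fun j =>
      MemLp.of_bound (ha j).aestronglyMeasurable M (ae_of_all _ (fun x => haM j x))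
    have hhL : ∀ j, MemLp (h j) 2 σ := fun j =>
      MemLp.of_bound (hh j).aestronglyMeasurable M (ae_of_all _ (fun x => hhM j x))
    set F : Lp ℝ 2 σ →L[ℝ] Lp ℝ 2 σ :=
      ∑ j, ((innerSL ℝ ((hhL j).toLp (h j))).smulRight ((haL j).toLp (a j))) with hF
    have hFapp : ∀ φ : Lp ℝ 2 σ, (F φ : α → ℝ) =ᵐ[σ] fun x => ∫ y, (∑ j, a j x * h j y) * φ y ∂σ := by
      intro φ
      have h1 : F φ = ∑ j, (inner ℝ ((hhL j).toLp (h j)) φ : ℝ) • ((haL j).toLp (a j)) := by
        simp [hF]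
      have h2 : ∀ j, (inner ℝ ((hhL j).toLp (h j)) φ : ℝ) = ∫ y, h j y * φ y ∂σ := by
        intro j
        rw [L2.inner_def]
        apply integral_congr_ae
        filter_upwards [(hhL j).coeFn_toLp] with y hy
        rw [hy]
        simp [mul_comm]
      have h3 : ∀ᵐ x ∂σ, ∀ j, ((haL j).toLp (a j) : α → ℝ) x = a j x := by
        rw [ae_all_iff]
        intro j
        exact (haL j).coeFn_toLp
      have h5 : ∀ j, Integrable (fun y => h j y * φ y) σ := fun j =>
        (hhL j).integrable_mul (Lp.memLp φ)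
      have h4 : ∀ᵐ x ∂σ, (F φ : α → ℝ) x = ∑ j, (inner ℝ ((hhL j).toLp (h j)) φ : ℝ) *
          ((haL j).toLp (a j) : α → ℝ) x := by
        rw [h1]
        have h6 : ∀ s : Finset (Fin N), ∀ᵐ x ∂σ,
            ((∑ j ∈ s, (inner ℝ ((hhL j).toLp (h j)) φ : ℝ) • ((haL j).toLp (a j)) : Lp ℝ 2 σ) : α → ℝ) x
            = ∑ j ∈ s, (inner ℝ ((hhL j).toLp (h j)) φ : ℝ) * ((haL j).toLp (a j) : α → ℝ) x := by
          intro s
          induction s using Finset.induction_on with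
          | empty =>
            simp only [Finset.sum_empty]
            exact Lp.coeFn_zero _ _ _
          | insert j s hj ih =>
            rw [Finset.sum_insert hj]
            filter_upwards [ih, Lp.coeFn_add ((inner ℝ ((hhL j).toLp (h j)) φ : ℝ) • ((haL j).toLp (a j)))
              (∑ j ∈ s, (inner ℝ ((hhL j).toLp (h j)) φ : ℝ) • ((haL j).toLp (a j))),
              Lp.coeFn_smul (inner ℝ ((hhL j).toLp (h j)) φ : ℝ) ((haL j).toLp (a j))] with x e1 e2 e3
            rw [e2, Pi.add_apply, e3, e1, Finset.sum_insert hj, Pi.smul_apply, smul_eq_mul]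
        exact h6 Finset.univ
      filter_upwards [h3, h4] with x e3 e4
      rw [e4]
      simp_rw [Finset.sum_mul]
      rw [integral_finsetSum]
      · apply Finset.sum_congr rfl
        intro j _
        rw [h2, e3, mul_comm, ← integral_const_mul]
        congr 1
        ext y
        ring
      · intro j _
        have := (h5 j).const_mul (a j x)
        simpa only [mul_assoc] using this
    refine ⟨F, ?_, ?_⟩
    · rw [hF]
      have : ∀ s : Finset (Fin N), IsCompactOperator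
          ((∑ j ∈ s, ((innerSL ℝ ((hhL j).toLp (h j))).smulRight ((haL j).toLp (a j))) :
            Lp ℝ 2 σ →L[ℝ] Lp ℝ 2 σ)) := by
        intro s
        induction s using Finset.induction_on with
        | empty =>
          simp only [Finset.sum_empty]
          exact isCompactOperator_zero
        | insert j s hj ih =>
          rw [Finset.sum_insert hj]
          apply IsCompactOperator.add _ ih
          have h1 : IsCompactOperator (innerSL ℝ ((hhL j).toLp (h j)) : Lp ℝ 2 σ →L[ℝ] ℝ) :=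
            isCompactOperator_of_locallyCompactSpace_dom _
          have h2 := h1.clm_comp
            ((ContinuousLinearMap.id ℝ ℝ).smulRight ((haL j).toLp (a j)) : ℝ →L[ℝ] Lp ℝ 2 σ)
          convert! h2 using 1
      exact this Finset.univ
    · have hle : ∀ φ : Lp ℝ 2 σ, (hk.op - F) φ = hS.op φ := by
        intro φ
        apply Lp.ext
        have i1 := hk.ae_integrable (Lp.memLp φ)
        have i2 := hS.ae_integrable (Lp.memLp φ)
        have e0 : (hk.op - F) φ = hk.op φ - F φ := rfl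
        rw [e0]
        filter_upwards [Lp.coeFn_sub (hk.op φ) (F φ), hk.op_ae φ, hFapp φ, hS.op_ae φ, i1, i2]
          with x e1 e2 e3 e4 j1 j2
        rw [e1, Pi.sub_apply, e2, e3, e4, ← integral_sub j1]
        · congr 1
          ext y
          ring
        · have := j1.sub j2
          refine this.congr (ae_of_all _ (fun y => ?_))
          simp only [Pi.sub_apply]
          ring
      have : hk.op - F = hS.op := ContinuousLinearMap.ext hle
      rw [this]
      exact hS.norm_op_le hε.le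
  -- pass to the limit
  choose F hFc hFn using fun n : ℕ => key (1 / ((n : ℝ) + 1)) (by positivity)
  have hlim : Tendsto F atTop (𝓝 hk.op) := by
    rw [tendsto_iff_norm_sub_tendsto_zero]
    apply squeeze_zero (fun n => norm_nonneg _) (fun n => ?_) tendsto_one_div_add_atTop_nhds_zero_nat
    rw [norm_sub_rev]
    exact hFn n
  exact isCompactOperator_of_tendsto hlim (Eventually.of_forall hFc)

end Pool.Agent.NP
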