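import Pool.Agent.Lib_h26.LinProj

/-! Comparison of Hausdorff measure with the measure of the projection, for nearly flat sets. -/

set_option autoImplicit false

open MeasureTheory Measure Metric Set Module
open scoped Topology RealInnerProductSpace ENNReal NNReal

namespace Pool.Agent.NP

theorem muHE_image_le {X Y : Type*} [EMetricSpace X] [MeasurableSpace X] [BorelSpace X]
    [EMetricSpace Y] [MeasurableSpace Y] [BorelSpace Y] {K : ℝ≥0} {f : X → Y} {s : Set X}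
    (h : LipschitzOnWith K f s) :
    (euclideanHausdorffMeasure 2 : Measure Y) (f '' s)
      ≤ (K : ℝ≥0∞) ^ 2 * (euclideanHausdorffMeasure 2 : Measure X) s := by
  have h1 := h.hausdorffMeasure_image_le (d := 2) (by norm_num)
  simp only [euclideanHausdorffMeasure_def, Measure.smul_apply, ENNReal.smul_def, smul_eq_mul]
  calc _ ≤ (addHaarScalarFactor (volume : Measure (EuclideanSpace ℝ (Fin 2))) μH[(2:ℕ)] : ℝ≥0∞) *
        ((K : ℝ≥0∞) ^ (2 : ℝ) * μH[2] s) := by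
        gcongr
        simpa using h1
    _ = _ := by
        rw [ENNReal.rpow_ofNat]
        push_cast
        ring

theorem compare_upper {v n : E3} (hv : ‖v‖ = 1) (hn : ‖n‖ = 1) (hc : (inner ℝ n v : ℝ) ≠ 0)
    {δ : ℝ} (hδ : 0 ≤ δ) {A : Set E3}
    (hA : ∀ x ∈ A, ∀ y ∈ A, |inner ℝ n (x - y)| ≤ δ * |(inner ℝ n v : ℝ)| * ‖x - y‖) :
    ENNReal.ofReal (|(inner ℝ n v : ℝ)|⁻¹) * volume (prj v '' A)
      ≤ ENNReal.ofReal ((1 + δ) ^ 2) * euclideanHausdorffMeasure 2 A := by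
  have hfr := finrank_Hp hv
  have h1 := (tanMap v n).euclideanHausdorffMeasure_image_eq_normDet_mul_volume (prj v '' A)
  rw [hfr, normDet_tanMap hv hn hc] at h1
  rw [← h1, ← image_comp]
  have hL : LipschitzOnWith (Real.toNNReal (1 + δ)) (⇑(tanMap v n) ∘ ⇑(prj v)) A := by
    apply LipschitzOnWith.of_dist_le_mul
    intro x hx y hy
    rw [dist_eq_norm, dist_eq_norm, Real.coe_toNNReal _ (by linarith)]
    have e : (⇑(tanMap v n) ∘ ⇑(prj v)) x - (⇑(tanMap v n) ∘ ⇑(prj v)) y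
        = (x - y) - ((inner ℝ n v : ℝ)⁻¹ * inner ℝ n (x - y)) • v := by
      rw [← sub_tanMap_prj hv hc (x - y)]
      simp
    rw [e]
    calc ‖(x - y) - ((inner ℝ n v : ℝ)⁻¹ * inner ℝ n (x - y)) • v‖
        ≤ ‖x - y‖ + ‖((inner ℝ n v : ℝ)⁻¹ * inner ℝ n (x - y)) • v‖ := norm_sub_le _ _
      _ = ‖x - y‖ + |(inner ℝ n v : ℝ)|⁻¹ * |inner ℝ n (x - y)| := by
          rw [norm_smul, hv, mul_one, Real.norm_eq_abs, abs_mul, abs_inv]
      _ ≤ ‖x - y‖ + |(inner ℝ n v : ℝ)|⁻¹ * (δ * |(inner ℝ n v : ℝ)| * ‖x - y‖) := by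
          gcongr
          exact hA x hx y hy
      _ = (1 + δ) * ‖x - y‖ := by
          have : |(inner ℝ n v : ℝ)| ≠ 0 := abs_ne_zero.2 hc
          field_simp
  have h2 := muHE_image_le hL
  refine h2.trans (le_of_eq ?_)
  congr 1
  rw [ENNReal.ofReal_pow (by linarith)]
  rfl

theorem compare_lower {v n : E3} (hv : ‖v‖ = 1) (hn : ‖n‖ = 1) (hc : (inner ℝ n v : ℝ) ≠ 0)
    {δ : ℝ} (hδ : 0 ≤ δ) (hδ1 : δ < 1) {A : Set E3}
    (hA : ∀ x ∈ A, ∀ y ∈ A, |inner ℝ n (x - y)| ≤ δ * |(inner ℝ n v : ℝ)| * ‖x - y‖) :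
    ENNReal.ofReal ((1 - δ) ^ 2) * euclideanHausdorffMeasure 2 A
      ≤ ENNReal.ofReal (|(inner ℝ n v : ℝ)|⁻¹) * volume (prj v '' A) := by
  have hfr := finrank_Hp hv
  have h1 := (tanMap v n).euclideanHausdorffMeasure_image_eq_normDet_mul_volume (prj v '' A)
  rw [hfr, normDet_tanMap hv hn hc] at h1
  rw [← h1, ← image_comp]
  set h : E3 → E3 := (⇑(tanMap v n) ∘ ⇑(prj v)) with hh
  have key : ∀ x ∈ A, ∀ y ∈ A, (1 - δ) * ‖x - y‖ ≤ ‖h x - h y‖ := by
    intro x hx y hy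
    have e : h x - h y = (x - y) - ((inner ℝ n v : ℝ)⁻¹ * inner ℝ n (x - y)) • v := by
      rw [← sub_tanMap_prj hv hc (x - y)]
      simp [hh]
    rw [e]
    have h3 : ‖((inner ℝ n v : ℝ)⁻¹ * inner ℝ n (x - y)) • v‖ ≤ δ * ‖x - y‖ := by
      rw [norm_smul, hv, mul_one, Real.norm_eq_abs, abs_mul, abs_inv]
      calc |(inner ℝ n v : ℝ)|⁻¹ * |inner ℝ n (x - y)|
          ≤ |(inner ℝ n v : ℝ)|⁻¹ * (δ * |(inner ℝ n v : ℝ)| * ‖x - y‖) := by
            gcongr
            exact hA x hx y hy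
        _ = δ * ‖x - y‖ := by
          have : |(inner ℝ n v : ℝ)| ≠ 0 := abs_ne_zero.2 hc
          field_simp
    have h4 := norm_sub_norm_le (x - y) (((inner ℝ n v : ℝ)⁻¹ * inner ℝ n (x - y)) • v)
    linarith
  have hinj : InjOn h A := by
    intro x hx y hy hxy
    have := key x hx y hy
    rw [hxy, sub_self, norm_zero] at this
    have h5 : ‖x - y‖ ≤ 0 := by
      by_contra hcon
      push Not at hcon
      have := mul_pos (show (0 : ℝ) < 1 - δ by linarith) hcon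
      linarith
    exact sub_eq_zero.1 (norm_le_zero_iff.1 h5)
  rcases A.eq_empty_or_nonempty with rfl | hne
  · simp
  have : Nonempty E3 := ⟨0⟩
  set k : E3 → E3 := Function.invFunOn h A with hk
  have hkA : k '' (h '' A) = A := by
    ext x
    constructor
    · rintro ⟨_, ⟨y, hy, rfl⟩, rfl⟩
      exact Function.invFunOn_mem ⟨y, hy, rfl⟩
    · intro hx
      refine ⟨h x, ⟨x, hx, rfl⟩, ?_⟩
      exact hinj.leftInvOn_invFunOn hx
  have hL : LipschitzOnWith (Real.toNNReal ((1 - δ)⁻¹)) k (h '' A) := by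
    apply LipschitzOnWith.of_dist_le_mul
    rintro _ ⟨x, hx, rfl⟩ _ ⟨y, hy, rfl⟩
    have ex : k (h x) = x := hinj.leftInvOn_invFunOn hx
    have ey : k (h y) = y := hinj.leftInvOn_invFunOn hy
    have hpos : 0 < 1 - δ := by linarith
    rw [ex, ey, dist_eq_norm, dist_eq_norm, Real.coe_toNNReal _ (by positivity)]
    rw [inv_mul_eq_div, le_div_iff₀ hpos, mul_comm]
    exact key x hx y hy
  have h2 := muHE_image_le hL
  rw [hkA] at h2
  have hpos : 0 < 1 - δ := by linarith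
  calc ENNReal.ofReal ((1 - δ) ^ 2) * euclideanHausdorffMeasure 2 A
      ≤ ENNReal.ofReal ((1 - δ) ^ 2) * ((Real.toNNReal ((1 - δ)⁻¹) : ℝ≥0∞) ^ 2 *
          euclideanHausdorffMeasure 2 (h '' A)) := by gcongr
    _ = euclideanHausdorffMeasure 2 (h '' A) := by
        rw [← mul_assoc]
        have : ENNReal.ofReal ((1 - δ) ^ 2) * (Real.toNNReal ((1 - δ)⁻¹) : ℝ≥0∞) ^ 2 = 1 := by
          change ENNReal.ofReal ((1 - δ) ^ 2) * (ENNReal.ofReal ((1 - δ)⁻¹)) ^ 2 = 1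
          rw [← ENNReal.ofReal_pow (by positivity), ← ENNReal.ofReal_mul (by positivity)]
          rw [← mul_pow, mul_inv_cancel₀ hpos.ne']
          simp
        rw [this, one_mul]

end Pool.Agent.NP
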