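import Pool.Agent.Lib_h26.SphereArea

/-! Module H: the inside of a connected surface is connected. -/

set_option autoImplicit false

open MeasureTheory Measure Metric Set Filter
open scoped Topology

namespace Pool.Agent.NP

variable {g : E3 → ℝ}

/-- descent along `-∇g(x0)` near a surface point -/
theorem Dom.exists_descent (hg : Dom g) {x0 : E3} (hx0 : g x0 = 0) :
    ∃ (n : E3) (r s0 : ℝ), 0 < r ∧ 0 < s0 ∧
      (∀ y ∈ ball x0 r, ∀ s ∈ Icc 0 s0, g (y - s • n) ≤ g y) ∧
      (∀ y ∈ ball x0 r, g (y - s0 • n) < 0) ∧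
      (∀ s ∈ Ioc 0 s0, g (x0 - s • n) < 0) ∧ (∀ s ∈ Ioc 0 s0, 0 < g (x0 + s • n)) := by
  set n := gradient g x0 with hn
  have hnpos : 0 < ‖n‖ := hg.norm_gradient_pos hx0
  have h0 : fderiv ℝ g x0 n = ‖n‖ ^ 2 := by
    rw [← inner_gradient, ← hn, real_inner_self_eq_norm_sq]
  set c : ℝ := ‖n‖ ^ 2 / 2 with hc
  have hcpos : 0 < c := by positivity
  have hcont : Continuous (fun x => fderiv ℝ g x n) := hg.continuous_fderiv.clm_apply continuous_const
  have hev : ∀ᶠ x in 𝓝 x0, c < fderiv ℝ g x n := by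
    apply hcont.continuousAt.eventually_const_lt
    show c < fderiv ℝ g x0 n
    rw [h0, hc]
    linarith [sq_nonneg ‖n‖, show 0 < ‖n‖ ^ 2 by positivity]
  obtain ⟨r, hr, hder⟩ := Metric.eventually_nhds_iff_ball.1 hev
  set s0 : ℝ := r / (2 * (‖n‖ + 1)) with hs0
  have hs0pos : 0 < s0 := by positivity
  have hs0n : s0 * ‖n‖ < r / 2 := by
    rw [hs0, div_mul_eq_mul_div, div_lt_iff₀ (by positivity)]
    nlinarith
  -- monotonicity
  have key : ∀ y ∈ ball x0 (r / 2), ∀ s ∈ Icc 0 s0, g (y - s • n) ≤ g y - c * s := by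
    intro y hy s hs
    have hseg : ∀ t ∈ Icc 0 s0, y - t • n ∈ ball x0 r := by
      intro t ht
      rw [mem_ball, dist_eq_norm] at hy ⊢
      have : y - t • n - x0 = (y - x0) - t • n := by abel
      rw [this]
      calc ‖(y - x0) - t • n‖ ≤ ‖y - x0‖ + ‖t • n‖ := norm_sub_le _ _
        _ = ‖y - x0‖ + t * ‖n‖ := by rw [norm_smul, Real.norm_eq_abs, abs_of_nonneg ht.1]
        _ ≤ ‖y - x0‖ + s0 * ‖n‖ := by
            have := ht.2
            gcongr
        _ < r := by linarith
    have hd : ∀ t, HasDerivAt (fun t : ℝ => g (y - t • n) + c * t) (-(fderiv ℝ g (y - t • n) n) + c) t := by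
      intro t
      have h1 : HasDerivAt (fun t : ℝ => y - t • n) (-n) t := by
        have := ((hasDerivAt_id t).smul_const n).const_sub y
        simpa using this
      have h2 := (hg.differentiable (y - t • n)).hasFDerivAt.comp_hasDerivAt t h1
      have h3 : HasDerivAt (fun t : ℝ => c * t) c t := by
        simpa using (hasDerivAt_id t).const_mul c
      have := h2.add h3
      convert! this using 1
      simp
    have hanti : AntitoneOn (fun t : ℝ => g (y - t • n) + c * t) (Icc 0 s0) := by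
      apply antitoneOn_of_deriv_nonpos (convex_Icc 0 s0)
      · exact fun t _ => (hd t).continuousAt.continuousWithinAt
      · exact fun t _ => (hd t).differentiableAt.differentiableWithinAt
      · intro t ht
        rw [(hd t).deriv]
        have := hder _ (hseg t (interior_subset ht))
        linarith
    have := hanti (left_mem_Icc.2 hs0pos.le) hs hs.1
    simp only [zero_smul, sub_zero, mul_zero, add_zero] at this
    linarith
  have hev2 : ∀ᶠ y in 𝓝 x0, g y < c * s0 := by
    apply hg.continuous.continuousAt.eventually_lt_const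
    rw [hx0]; positivity
  obtain ⟨r2, hr2, hlt⟩ := Metric.eventually_nhds_iff_ball.1 hev2
  refine ⟨n, min (r / 2) r2, s0, lt_min (by positivity) hr2, hs0pos, ?_, ?_, ?_, ?_⟩
  · intro y hy s hs
    have := key y (ball_subset_ball (min_le_left _ _) hy) s hs
    have h2 : 0 ≤ c * s := mul_nonneg hcpos.le hs.1
    linarith
  · intro y hy
    have := key y (ball_subset_ball (min_le_left _ _) hy) s0 (right_mem_Icc.2 hs0pos.le)
    have := hlt y (ball_subset_ball (min_le_right _ _) hy)
    linarith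
  · intro s hs
    have := key x0 (mem_ball_self (by positivity)) s ⟨hs.1.le, hs.2⟩
    rw [hx0] at this
    have h2 : 0 < c * s := mul_pos hcpos hs.1
    linarith
  · intro s hs
    -- apply the key estimate at y = x0 + s n
    have hy : x0 + s • n ∈ ball x0 (r / 2) := by
      rw [mem_ball, dist_eq_norm, add_sub_cancel_left, norm_smul, Real.norm_eq_abs,
        abs_of_pos hs.1]
      calc s * ‖n‖ ≤ s0 * ‖n‖ := by
            have := hs.2
            gcongr
        _ < r / 2 := hs0n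
    have := key _ hy s ⟨hs.1.le, hs.2⟩
    rw [add_sub_cancel_right, hx0] at this
    have h2 : 0 < c * s := mul_pos hcpos hs.1
    linarith

theorem Dom.nonempty_Om (hg : Dom g) : (Om g).Nonempty := by
  obtain ⟨x0, hx0⟩ := hg.nonempty
  obtain ⟨n, r, s0, hr, hs0, -, -, h3, -⟩ := hg.exists_descent hx0
  exact ⟨x0 - s0 • n, h3 s0 ⟨hs0, le_rfl⟩⟩

theorem Dom.local_connected (hg : Dom g) {x0 : E3} (hx0 : g x0 = 0) :
    ∃ r > 0, ∀ y ∈ Om g ∩ ball x0 r, ∀ z ∈ Om g ∩ ball x0 r, ∃ C : Set E3, IsPreconnected C ∧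
      C ⊆ Om g ∧ y ∈ C ∧ z ∈ C := by
  obtain ⟨n, r, s0, hr, hs0, h1, h2, -, -⟩ := hg.exists_descent hx0
  refine ⟨r, hr, fun y hy z hz => ?_⟩
  have hseg : ∀ y ∈ Om g ∩ ball x0 r, IsPreconnected ((fun s : ℝ => y - s • n) '' Icc 0 s0) ∧
      (fun s : ℝ => y - s • n) '' Icc 0 s0 ⊆ Om g := by
    intro y hy
    constructor
    · apply isPreconnected_Icc.image
      fun_prop
    · rintro _ ⟨s, hs, rfl⟩
      exact lt_of_le_of_lt (h1 y hy.2 s hs) hy.1
  set D : Set E3 := (fun y : E3 => y - s0 • n) '' ball x0 r with hD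
  have hDc : IsPreconnected D := by
    apply (convex_ball x0 r).isPreconnected.image
    fun_prop
  have hDO : D ⊆ Om g := by
    rintro _ ⟨y, hy, rfl⟩
    exact h2 y hy
  have hyD : y - s0 • n ∈ D := ⟨y, hy.2, rfl⟩
  have hzD : z - s0 • n ∈ D := ⟨z, hz.2, rfl⟩
  have e1 : IsPreconnected (((fun s : ℝ => y - s • n) '' Icc 0 s0) ∪ D) :=
    (hseg y hy).1.union (y - s0 • n) ⟨s0, right_mem_Icc.2 hs0.le, rfl⟩ hyD hDc
  have e2 : IsPreconnected ((((fun s : ℝ => y - s • n) '' Icc 0 s0) ∪ D) ∪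
      ((fun s : ℝ => z - s • n) '' Icc 0 s0)) :=
    e1.union (z - s0 • n) (Or.inr hzD) ⟨s0, right_mem_Icc.2 hs0.le, rfl⟩ (hseg z hz).1
  refine ⟨_, e2, ?_, ?_, ?_⟩
  · exact union_subset (union_subset (hseg y hy).2 hDO) (hseg z hz).2
  · exact Or.inl (Or.inl ⟨0, left_mem_Icc.2 hs0.le, by simp⟩)
  · exact Or.inr ⟨0, left_mem_Icc.2 hs0.le, by simp⟩

theorem Dom.S_subset_closure (hg : Dom g) {x0 : E3} (hx0 : g x0 = 0) : x0 ∈ closure (Om g) := by
  obtain ⟨n, r, s0, hr, hs0, -, -, h3, -⟩ := hg.exists_descent hx0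
  have hlim : Tendsto (fun s : ℝ => x0 - s • n) (𝓝[>] 0) (𝓝 x0) := by
    have : Tendsto (fun s : ℝ => x0 - s • n) (𝓝 0) (𝓝 (x0 - (0 : ℝ) • n)) :=
      (continuous_const.sub (continuous_id.smul continuous_const)).tendsto _
    simp only [zero_smul, sub_zero] at this
    exact this.mono_left nhdsWithin_le_nhds
  apply mem_closure_of_tendsto hlim
  filter_upwards [Ioc_mem_nhdsGT hs0] with s hs
  exact h3 s hs

/-- Points of `Ω` near a surface point lie in one component (move along `-∇g(x0)`); the component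
map is locally constant on `S`; every component of `Ω` has a boundary point in `S`. -/
theorem Dom.isPreconnected_Om (hg : Dom g) (hS : IsPreconnected {x | g x = 0}) :
    IsPreconnected (Om g) := by
  intro u v hu hv huv hAne hBne
  by_contra hcon
  have hdisj : ∀ x, x ∈ Om g → x ∈ u → x ∈ v → False := by
    intro x h1 h2 h3
    exact hcon ⟨x, h1, h2, h3⟩
  have hAo : IsOpen (Om g ∩ u) := hg.isOpen_Om.inter hu
  have hBo : IsOpen (Om g ∩ v) := hg.isOpen_Om.inter hv
  have hclO : closure (Om g) ⊆ {x | g x ≤ 0} := by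
    apply closure_minimal
    · intro x hx
      have hx' : g x < 0 := hx
      exact hx'.le
    · exact isClosed_le hg.continuous continuous_const
  have hbdr : ∀ (p q : Set E3), IsOpen (Om g ∩ p) → IsOpen (Om g ∩ q) → Om g ⊆ p ∪ q →
      (∀ x, x ∈ Om g → x ∈ p → x ∈ q → False) → (Om g ∩ p).Nonempty →
      ({x | g x = 0} ∩ closure (Om g ∩ p)).Nonempty := by
    intro p q hpo hqo hpq hd hne
    have hnu : Om g ∩ p ≠ univ := by
      intro h
      have hb : Bornology.IsBounded (univ : Set E3) := by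
        rw [← h]
        exact hg.isBounded_Om.subset inter_subset_left
      exact NormedSpace.noncompactSpace ℝ E3 |>.noncompact_univ
        (Metric.isCompact_of_isClosed_isBounded isClosed_univ hb)
    obtain ⟨x, hx⟩ := nonempty_frontier_iff.2 ⟨hne, hnu⟩
    rw [hpo.frontier_eq] at hx
    refine ⟨x, ?_, hx.1⟩
    have hle : g x ≤ 0 := hclO (closure_mono inter_subset_left hx.1)
    rcases hle.lt_or_eq with h | h
    · exfalso
      have hxO : x ∈ Om g := h
      rcases hpq hxO with hxp | hxq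
      · exact hx.2 ⟨hxO, hxp⟩
      · have := mem_closure_iff.1 hx.1 _ hqo ⟨hxO, hxq⟩
        obtain ⟨y, hy1, hy2⟩ := this
        exact hd y hy1.1 hy2.2 hy1.2
    · exact h
  have h1 := hbdr u v hAo hBo huv hdisj hAne
  have h2 := hbdr v u hBo hAo (by rwa [union_comm]) (fun x a b c => hdisj x a c b) hBne
  have hcov : {x | g x = 0} ⊆ closure (Om g ∩ u) ∪ closure (Om g ∩ v) := by
    intro x hx
    rw [← closure_union, ← inter_union_distrib_left, inter_eq_left.2 huv]
    exact hg.S_subset_closure hx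
  obtain ⟨x, hxS, hxu, hxv⟩ := isPreconnected_closed_iff.1 hS _ _ isClosed_closure isClosed_closure
    hcov h1 h2
  obtain ⟨r, hr, hloc⟩ := hg.local_connected hxS
  obtain ⟨y, hy1, hy2⟩ := mem_closure_iff.1 hxu _ isOpen_ball (mem_ball_self hr)
  obtain ⟨z, hz1, hz2⟩ := mem_closure_iff.1 hxv _ isOpen_ball (mem_ball_self hr)
  obtain ⟨C, hC, hCO, hyC, hzC⟩ := hloc y ⟨hy2.1, hy1⟩ z ⟨hz2.1, hz1⟩
  obtain ⟨w, hwC, hwu, hwv⟩ := hC u v hu hv (hCO.trans huv) ⟨y, hyC, hy2.2⟩ ⟨z, hzC, hz2.2⟩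
  exact hdisj w (hCO hwC) hwu hwv

end Pool.Agent.NP
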