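import Pool.Agent.Lib_h26.SphereArea

/-! Cut-off functions. -/

set_option autoImplicit false

open MeasureTheory Measure Metric Set
open scoped Topology

namespace Pool.Agent.NP

/-- smooth transition from `0` (for `t ≤ 1`) to `1` (for `t ≥ 2`) -/
noncomputable def eta (t : ℝ) : ℝ := Real.smoothTransition (t - 1)

theorem contDiff_eta {n : WithTop ℕ∞} (hn : n ≤ ((⊤ : ℕ∞) : WithTop ℕ∞)) : ContDiff ℝ n eta :=
  ((Real.smoothTransition.contDiff (n := ⊤)).comp (contDiff_id.sub contDiff_const)).of_le hn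

theorem eta_zero {t : ℝ} (ht : t ≤ 1) : eta t = 0 :=
  Real.smoothTransition.zero_of_nonpos (by linarith)

theorem eta_one {t : ℝ} (ht : 2 ≤ t) : eta t = 1 :=
  Real.smoothTransition.one_of_one_le (by linarith)

theorem eta_nonneg (t : ℝ) : 0 ≤ eta t := Real.smoothTransition.nonneg _

theorem eta_le_one (t : ℝ) : eta t ≤ 1 := Real.smoothTransition.le_one _

theorem differentiable_eta : Differentiable ℝ eta :=
  (contDiff_eta (n := 1) (by norm_cast)).differentiable (by norm_num)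

theorem continuous_eta : Continuous eta := differentiable_eta.continuous

theorem continuous_deriv_eta : Continuous (deriv eta) :=
  (contDiff_eta (n := 1) (by norm_cast)).continuous_deriv (by norm_num)

theorem deriv_eta_of_le {t : ℝ} (ht : t ≤ 1) : deriv eta t = 0 := by
  have h1 : ∀ s < (1 : ℝ), deriv eta s = 0 := by
    intro s hs
    have : eta =ᶠ[𝓝 s] fun _ => (0 : ℝ) := by
      filter_upwards [Iio_mem_nhds hs] with u hu
      exact eta_zero (le_of_lt hu)
    rw [this.deriv_eq]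
    simp
  rcases lt_or_eq_of_le ht with h | h
  · exact h1 t h
  · subst h
    have hcl : IsClosed {s : ℝ | deriv eta s = 0} := isClosed_eq continuous_deriv_eta continuous_const
    have hsub : closure (Iio (1 : ℝ)) ⊆ {s : ℝ | deriv eta s = 0} :=
      hcl.closure_subset_iff.2 (fun s hs => h1 s hs)
    rw [closure_Iio] at hsub
    exact hsub (le_refl (1 : ℝ))

theorem deriv_eta_of_ge {t : ℝ} (ht : 2 ≤ t) : deriv eta t = 0 := by
  have h1 : ∀ s : ℝ, 2 < s → deriv eta s = 0 := by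
    intro s hs
    have : eta =ᶠ[𝓝 s] fun _ => (1 : ℝ) := by
      filter_upwards [Ioi_mem_nhds hs] with u hu
      exact eta_one (le_of_lt hu)
    rw [this.deriv_eq]
    simp
  rcases lt_or_eq_of_le ht with h | h
  · exact h1 t h
  · subst h
    have hcl : IsClosed {s : ℝ | deriv eta s = 0} := isClosed_eq continuous_deriv_eta continuous_const
    have hsub : closure (Ioi (2 : ℝ)) ⊆ {s : ℝ | deriv eta s = 0} :=
      hcl.closure_subset_iff.2 (fun s hs => h1 s hs)
    rw [closure_Ioi] at hsub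
    exact hsub (le_refl (2 : ℝ))

theorem exists_deriv_eta_bound : ∃ M : ℝ, 0 < M ∧ ∀ t, |deriv eta t| ≤ M := by
  obtain ⟨M, hM⟩ := (isCompact_Icc (a := (1 : ℝ)) (b := 2)).exists_bound_of_continuousOn
    continuous_deriv_eta.continuousOn
  refine ⟨|M| + 1, by positivity, fun t => ?_⟩
  by_cases h : t ∈ Icc (1 : ℝ) 2
  · have := hM t h
    rw [Real.norm_eq_abs] at this
    linarith [le_abs_self M]
  · have : deriv eta t = 0 := by
      rw [mem_Icc, not_and_or, not_le, not_le] at h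
      rcases h with h | h
      · exact deriv_eta_of_le h.le
      · exact deriv_eta_of_ge h.le
    rw [this]
    simp
    positivity

/-- bound for the derivative of `eta` -/
noncomputable def etaM : ℝ := exists_deriv_eta_bound.choose

theorem etaM_pos : 0 < etaM := exists_deriv_eta_bound.choose_spec.1

theorem abs_deriv_eta_le (t : ℝ) : |deriv eta t| ≤ etaM := exists_deriv_eta_bound.choose_spec.2 t

/-- `0` on `closedBall y ε`, `1` outside `ball y (√2 ε)` -/
noncomputable def cut (ε : ℝ) (y x : E3) : ℝ := eta (‖x - y‖ ^ 2 / ε ^ 2)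

theorem contDiff_cut {n : WithTop ℕ∞} (hn : n ≤ ((⊤ : ℕ∞) : WithTop ℕ∞)) (ε : ℝ) (y : E3) :
    ContDiff ℝ n (cut ε y) := by
  unfold cut
  exact (contDiff_eta hn).comp (((contDiff_id.sub contDiff_const).norm_sq ℝ).div_const _)

theorem contDiff_cut_one (ε : ℝ) (y : E3) : ContDiff ℝ 1 (cut ε y) :=
  contDiff_cut (by norm_cast) ε y

theorem continuous_cut (ε : ℝ) (y : E3) : Continuous (cut ε y) := (contDiff_cut_one ε y).continuous

theorem cut_nonneg (ε : ℝ) (y x : E3) : 0 ≤ cut ε y x := eta_nonneg _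

theorem cut_le_one (ε : ℝ) (y x : E3) : cut ε y x ≤ 1 := eta_le_one _

theorem cut_zero {ε : ℝ} (hε : 0 < ε) {y x : E3} (h : ‖x - y‖ ≤ ε) : cut ε y x = 0 := by
  apply eta_zero
  rw [div_le_one (by positivity)]
  exact pow_le_pow_left₀ (norm_nonneg _) h 2

theorem cut_one {ε : ℝ} (hε : 0 < ε) {y x : E3} (h : 2 * ε ^ 2 ≤ ‖x - y‖ ^ 2) : cut ε y x = 1 := by
  apply eta_one
  rw [le_div_iff₀ (by positivity)]
  exact h

theorem cut_one' {ε : ℝ} (hε : 0 < ε) {y x : E3} (h : 2 * ε ≤ ‖x - y‖) : cut ε y x = 1 := by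
  apply cut_one hε
  nlinarith

theorem hasFDerivAt_cut (ε : ℝ) (y x : E3) :
    HasFDerivAt (cut ε y)
      ((deriv eta (‖x - y‖ ^ 2 / ε ^ 2) * (2 / ε ^ 2)) • innerSL ℝ (x - y)) x := by
  have h1 : HasFDerivAt (fun x : E3 => x - y) (ContinuousLinearMap.id ℝ E3) x :=
    (hasFDerivAt_id x).sub_const y
  have h2 := (h1.norm_sq).mul_const (ε ^ 2)⁻¹
  have h3 := (differentiable_eta (‖x - y‖ ^ 2 * (ε ^ 2)⁻¹)).hasDerivAt.comp_hasFDerivAt x h2
  have e : (cut ε y) = eta ∘ fun x => ‖x - y‖ ^ 2 * (ε ^ 2)⁻¹ := by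
    ext x
    simp [cut, div_eq_mul_inv]
  rw [e]
  convert! h3 using 1
  ext v
  simp [div_eq_mul_inv]
  ring

theorem fderiv_cut (ε : ℝ) (y x v : E3) :
    fderiv ℝ (cut ε y) x v
      = deriv eta (‖x - y‖ ^ 2 / ε ^ 2) * (2 / ε ^ 2) * inner ℝ (x - y) v := by
  rw [(hasFDerivAt_cut ε y x).fderiv]
  simp [inner_sub_left]

theorem abs_fderiv_cut_le {ε : ℝ} (hε : 0 < ε) (y x v : E3) :
    |fderiv ℝ (cut ε y) x v| ≤ 4 * etaM / ε * ‖v‖ := by
  rw [fderiv_cut]
  have hM := etaM_pos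
  by_cases h : ‖x - y‖ ≤ 2 * ε
  · rw [abs_mul, abs_mul, abs_of_pos (show (0 : ℝ) < 2 / ε ^ 2 by positivity)]
    calc |deriv eta (‖x - y‖ ^ 2 / ε ^ 2)| * (2 / ε ^ 2) * |inner ℝ (x - y) v|
        ≤ etaM * (2 / ε ^ 2) * ((2 * ε) * ‖v‖) := by
          gcongr
          · exact abs_deriv_eta_le _
          · exact (abs_real_inner_le_norm _ _).trans (by gcongr)
      _ = 4 * etaM / ε * ‖v‖ := by field_simp; ring
  · push Not at h
    have : deriv eta (‖x - y‖ ^ 2 / ε ^ 2) = 0 := by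
      apply deriv_eta_of_ge
      rw [le_div_iff₀ (by positivity)]
      nlinarith
    rw [this]
    simp
    positivity

theorem hasCompactSupport_one_sub_cut {ε : ℝ} (hε : 0 < ε) (y : E3) :
    HasCompactSupport (fun x => 1 - cut ε y x) := by
  apply HasCompactSupport.intro (isCompact_closedBall y (2 * ε))
  intro x hx
  rw [mem_closedBall, not_le, dist_eq_norm] at hx
  rw [cut_one' hε hx.le]
  simp

theorem contDiff_one_sub_cut (ε : ℝ) (y : E3) : ContDiff ℝ 1 (fun x => 1 - cut ε y x) :=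
  contDiff_const.sub (contDiff_cut_one ε y)

theorem fderiv_one_sub_cut (ε : ℝ) (y x v : E3) :
    fderiv ℝ (fun x => 1 - cut ε y x) x v = - fderiv ℝ (cut ε y) x v := by
  have h := (hasFDerivAt_cut ε y x)
  rw [(h.const_sub 1).fderiv, h.fderiv]
  simp

end Pool.Agent.NP
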