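import Mathlib

/-!
Common definitions for the formalisation of the 1/6 conjecture (S05145).
-/

set_option autoImplicit false

open MeasureTheory Measure Metric Set
open scoped Topology

namespace Pool.Agent.NP

/-- three-dimensional Euclidean space -/
abbrev E3 : Type := EuclideanSpace ℝ (Fin 3)

/-- `g` is a smooth defining function of a nonempty compact surface `{g = 0}`, positive far away. -/
structure Dom (g : E3 → ℝ) : Prop where
  smooth : ContDiff ℝ ((⊤ : ℕ∞) : WithTop ℕ∞) g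
  grad_ne : ∀ x, g x = 0 → gradient g x ≠ 0
  pos_far : ∃ R : ℝ, ∀ x, R ≤ ‖x‖ → 0 < g x
  nonempty : Set.Nonempty {x | g x = 0}

/-- the open set bounded by the surface -/
def Om (g : E3 → ℝ) : Set E3 := {x | g x < 0}

/-- surface measure: Euclidean two-dimensional Hausdorff measure on `{g = 0}` -/
noncomputable def surf (g : E3 → ℝ) : Measure E3 :=
  (euclideanHausdorffMeasure 2).restrict {x | g x = 0}

/-- unit normal (outward for `Om g`) -/
noncomputable def nrm (g : E3 → ℝ) (x : E3) : E3 := ‖gradient g x‖⁻¹ • gradient g x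

/-- Newtonian kernel `1 / (4π|x-y|)` (value `0` for `x = y`) -/
noncomputable def Gam (x y : E3) : ℝ := 1 / (4 * Real.pi * ‖x - y‖)

/-- gradient in `x` of `Gam x y`: `-(x-y)/(4π|x-y|^3)` (value `0` for `x = y`) -/
noncomputable def dGam (x y : E3) : E3 := (-(1 / (4 * Real.pi * ‖x - y‖ ^ 3))) • (x - y)

/-- the kernel of `K*`: `⟨x-y, ν(x)⟩ / (4π|x-y|^3) = -⟨dGam x y, ν(x)⟩` -/
noncomputable def kNP (g : E3 → ℝ) (x y : E3) : ℝ :=
  inner ℝ (x - y) (nrm g x) / (4 * Real.pi * ‖x - y‖ ^ 3)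

/-- density of `Om g` at `y`: 1 inside, 1/2 on the surface, 0 outside -/
noncomputable def dens (g : E3 → ℝ) (y : E3) : ℝ :=
  if g y < 0 then 1 else if g y = 0 then 1 / 2 else 0

/-- single layer potential (positive kernel) -/
noncomputable def pot (g : E3 → ℝ) (φ : E3 → ℝ) (x : E3) : ℝ := ∫ y, Gam x y * φ y ∂(surf g)

/-- gradient of the single layer potential -/
noncomputable def dpot (g : E3 → ℝ) (φ : E3 → ℝ) (x : E3) : E3 := ∫ y, φ y • dGam x y ∂(surf g)

/-- the operator `K*` -/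
noncomputable def Kst (g : E3 → ℝ) (φ : E3 → ℝ) (x : E3) : ℝ := ∫ y, kNP g x y * φ y ∂(surf g)

/-- the energy form `D(φ,ψ) = ∬ φ(x)ψ(y)/(4π|x-y|)` -/
noncomputable def En (g : E3 → ℝ) (φ ψ : E3 → ℝ) : ℝ := ∫ x, pot g φ x * ψ x ∂(surf g)

end Pool.Agent.NP
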