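import Pool.Agent.Lib_h26.Compare

/-! Basic facts on `Dom`, local flatness, local comparison of measures. -/

set_option autoImplicit false

open MeasureTheory Measure Metric Set Module Filter
open scoped Topology RealInnerProductSpace ENNReal NNReal

namespace Pool.Agent.NP

theorem inner_gradient (g : E3 → ℝ) (x v : E3) : inner ℝ (gradient g x) v = fderiv ℝ g x v := by
  simp [gradient]

section basic

variable {g : E3 → ℝ}

theorem Dom.continuous (hg : Dom g) : Continuous g := hg.smooth.continuous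

theorem Dom.contDiff_one (hg : Dom g) : ContDiff ℝ 1 g := hg.smooth.of_le (by norm_cast)

theorem Dom.differentiable (hg : Dom g) : Differentiable ℝ g :=
  hg.contDiff_one.differentiable (by norm_num)

theorem Dom.continuous_fderiv (hg : Dom g) : Continuous (fderiv ℝ g) :=
  hg.contDiff_one.continuous_fderiv (by norm_num)

theorem Dom.continuous_gradient (hg : Dom g) : Continuous (gradient g) := by
  unfold gradient
  exact (InnerProductSpace.toDual ℝ E3).symm.continuous.comp hg.continuous_fderiv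

theorem Dom.isClosed_S (hg : Dom g) : IsClosed {x | g x = 0} :=
  isClosed_eq hg.continuous continuous_const

theorem Dom.measurableSet_S (hg : Dom g) : MeasurableSet {x | g x = 0} := hg.isClosed_S.measurableSet

theorem Dom.isCompact_S (hg : Dom g) : IsCompact {x | g x = 0} := by
  obtain ⟨R, hR⟩ := hg.pos_far
  refine (isCompact_closedBall (0 : E3) R).of_isClosed_subset hg.isClosed_S ?_
  intro x hx
  rw [mem_closedBall, dist_zero_right]
  by_contra h
  push Not at h
  have := hR x h.le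
  simp only [mem_ofPred_eq] at hx
  linarith

theorem Dom.isOpen_Om (hg : Dom g) : IsOpen (Om g) := isOpen_lt hg.continuous continuous_const

theorem Dom.measurableSet_Om (hg : Dom g) : MeasurableSet (Om g) := hg.isOpen_Om.measurableSet

theorem Dom.isBounded_Om (hg : Dom g) : Bornology.IsBounded (Om g) := by
  obtain ⟨R, hR⟩ := hg.pos_far
  refine (isBounded_closedBall (x := (0 : E3)) (r := R)).subset ?_
  intro x hx
  rw [mem_closedBall, dist_zero_right]
  by_contra h
  push Not at h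
  have := hR x h.le
  simp only [Om, mem_ofPred_eq] at hx
  linarith

theorem Dom.measurable_nrm (hg : Dom g) : Measurable (nrm g) := by
  unfold nrm
  have h := hg.continuous_gradient.measurable
  exact (h.norm.inv).smul h

theorem Dom.norm_gradient_pos (hg : Dom g) {x : E3} (hx : g x = 0) : 0 < ‖gradient g x‖ :=
  norm_pos_iff.2 (hg.grad_ne x hx)

theorem Dom.norm_nrm (hg : Dom g) {x : E3} (hx : g x = 0) : ‖nrm g x‖ = 1 := by
  have := hg.norm_gradient_pos hx
  unfold nrm
  rw [norm_smul, norm_inv, norm_norm]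
  field_simp

theorem Dom.norm_nrm_le (_hg : Dom g) (x : E3) : ‖nrm g x‖ ≤ 1 := by
  unfold nrm
  rw [norm_smul, norm_inv, norm_norm]
  rcases eq_or_ne ‖gradient g x‖ 0 with h | h
  · simp [h]
  · field_simp; rfl

theorem inner_nrm (g : E3 → ℝ) (x v : E3) :
    inner ℝ (nrm g x) v = ‖gradient g x‖⁻¹ * fderiv ℝ g x v := by
  unfold nrm
  rw [inner_smul_left, inner_gradient]
  simp

theorem Dom.continuousAt_nrm (hg : Dom g) {x : E3} (hx : g x = 0) : ContinuousAt (nrm g) x := by
  unfold nrm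
  have h := hg.continuous_gradient
  exact (h.norm.continuousAt.inv₀ (hg.norm_gradient_pos hx).ne').smul h.continuousAt

theorem Dom.local_flat (hg : Dom g) {x0 : E3} (hx0 : g x0 = 0) {ε : ℝ} (hε : 0 < ε) :
    ∃ r > 0, ∀ x ∈ ball x0 r, ∀ y ∈ ball x0 r, g x = 0 → g y = 0 →
      |inner ℝ (nrm g x0) (x - y)| ≤ ε * ‖x - y‖ := by
  have hG := hg.norm_gradient_pos hx0
  have h1 : HasStrictFDerivAt g (fderiv ℝ g x0) x0 :=
    (hg.contDiff_one.contDiffAt).hasStrictFDerivAt (by norm_num)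
  have h2 := h1.isLittleO.def (show 0 < ε * ‖gradient g x0‖ by positivity)
  rw [nhds_prod_eq, (nhds_basis_ball.prod_self).eventually_iff] at h2
  obtain ⟨r, hr, h3⟩ := h2
  refine ⟨r, hr, fun x hx y hy hgx hgy => ?_⟩
  have h4 := h3 (show (x, y) ∈ ball x0 r ×ˢ ball x0 r from ⟨hx, hy⟩)
  simp only [hgx, hgy, sub_zero, zero_sub, norm_neg, Real.norm_eq_abs] at h4
  rw [inner_nrm, abs_mul, abs_inv, abs_of_pos hG, inv_mul_le_iff₀ hG]
  linarith

/-- local comparison of the weighted Hausdorff measure with the measure of the projection -/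
theorem Dom.local_compare (hg : Dom g) {x0 : E3} (hx0 : g x0 = 0) {v : E3} (hv : ‖v‖ = 1)
    (hc : 0 < (inner ℝ (nrm g x0) v : ℝ)) {ε : ℝ} (hε : 0 < ε) :
    ∃ r > 0, ∀ A : Set E3, A ⊆ {x | g x = 0} → A ⊆ ball x0 r → MeasurableSet A →
      (∫⁻ x in A, ENNReal.ofReal (inner ℝ (nrm g x) v) ∂(euclideanHausdorffMeasure 2)
        ≤ ENNReal.ofReal (1 + ε) * volume (prj v '' A)) ∧
      (volume (prj v '' A) ≤ ENNReal.ofReal (1 + ε) *
        ∫⁻ x in A, ENNReal.ofReal (inner ℝ (nrm g x) v) ∂(euclideanHausdorffMeasure 2)) := by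
  set n := nrm g x0 with hn
  set c : ℝ := inner ℝ n v with hcdef
  have hnn : ‖n‖ = 1 := hg.norm_nrm hx0
  -- choose δ
  have hδ : ∃ δ : ℝ, 0 < δ ∧ δ < 1 ∧ (1 + δ) * ((1 - δ) ^ 2)⁻¹ ≤ 1 + ε ∧
      (1 + δ) ^ 2 * (1 - δ)⁻¹ ≤ 1 + ε := by
    have t1 : Tendsto (fun δ : ℝ => (1 + δ) * ((1 - δ) ^ 2)⁻¹) (𝓝[>] 0) (𝓝 ((1 + 0) * ((1 - 0) ^ 2)⁻¹)) := by
      apply Tendsto.mono_left _ nhdsWithin_le_nhds
      apply ContinuousAt.tendsto
      apply ContinuousAt.mul (by fun_prop)
      apply ContinuousAt.inv₀ (by fun_prop) (by norm_num)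
    have t2 : Tendsto (fun δ : ℝ => (1 + δ) ^ 2 * (1 - δ)⁻¹) (𝓝[>] 0) (𝓝 ((1 + 0) ^ 2 * (1 - 0)⁻¹)) := by
      apply Tendsto.mono_left _ nhdsWithin_le_nhds
      apply ContinuousAt.tendsto
      apply ContinuousAt.mul (by fun_prop)
      apply ContinuousAt.inv₀ (by fun_prop) (by norm_num)
    have e1 : ∀ᶠ δ in 𝓝[>] (0 : ℝ), (1 + δ) * ((1 - δ) ^ 2)⁻¹ < 1 + ε :=
      t1.eventually_lt_const (by norm_num; exact hε)
    have e2 : ∀ᶠ δ in 𝓝[>] (0 : ℝ), (1 + δ) ^ 2 * (1 - δ)⁻¹ < 1 + ε :=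
      t2.eventually_lt_const (by norm_num; exact hε)
    have e3 : ∀ᶠ δ in 𝓝[>] (0 : ℝ), δ < 1 :=
      (tendsto_id.mono_left nhdsWithin_le_nhds).eventually_lt_const (by norm_num)
    have e4 : ∀ᶠ δ in 𝓝[>] (0 : ℝ), 0 < δ := eventually_mem_nhdsWithin
    obtain ⟨δ, h1, h2, h3, h4⟩ := (e1.and (e2.and (e3.and e4))).exists
    exact ⟨δ, h4, h3, h1.le, h2.le⟩
  obtain ⟨δ, hδ0, hδ1, hb1, hb2⟩ := hδ
  obtain ⟨r1, hr1, hflat⟩ := hg.local_flat hx0 (show 0 < δ * c by positivity)
  -- continuity of the normal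
  have hcont : ∀ᶠ x in 𝓝 x0, |(inner ℝ (nrm g x) v : ℝ) - c| < δ * c := by
    have h1 : ContinuousAt (fun x => (inner ℝ (nrm g x) v : ℝ)) x0 :=
      (hg.continuousAt_nrm hx0).inner continuousAt_const
    have := Metric.tendsto_nhds.1 h1 (δ * c) (by positivity)
    filter_upwards [this] with x hx
    rwa [Real.dist_eq] at hx
  obtain ⟨r2, hr2, hnear⟩ := Metric.eventually_nhds_iff_ball.1 hcont
  refine ⟨min r1 r2, lt_min hr1 hr2, fun A hAS hAb hAm => ?_⟩
  have hA1 : ∀ x ∈ A, ∀ y ∈ A, |inner ℝ n (x - y)| ≤ δ * |(inner ℝ n v : ℝ)| * ‖x - y‖ := by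
    intro x hx y hy
    rw [← hcdef, abs_of_pos hc]
    exact hflat x (ball_subset_ball (min_le_left _ _) (hAb hx)) y
      (ball_subset_ball (min_le_left _ _) (hAb hy)) (hAS hx) (hAS hy)
  have hc' : (inner ℝ n v : ℝ) ≠ 0 := hc.ne'
  have hup := compare_upper hv hnn hc' hδ0.le hA1
  have hlo := compare_lower hv hnn hc' hδ0.le hδ1 hA1
  rw [← hcdef, abs_of_pos hc] at hup hlo
  have hw1 : ∀ x ∈ A, (inner ℝ (nrm g x) v : ℝ) ≤ (1 + δ) * c := by
    intro x hx
    have := hnear x (ball_subset_ball (min_le_right _ _) (hAb hx))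
    rw [abs_lt] at this
    linarith
  have hw2 : ∀ x ∈ A, (1 - δ) * c ≤ (inner ℝ (nrm g x) v : ℝ) := by
    intro x hx
    have := hnear x (ball_subset_ball (min_le_right _ _) (hAb hx))
    rw [abs_lt] at this
    linarith
  set m : ℝ≥0∞ := euclideanHausdorffMeasure 2 A with hm
  have hI1 : ∫⁻ x in A, ENNReal.ofReal (inner ℝ (nrm g x) v) ∂(euclideanHausdorffMeasure 2)
      ≤ ENNReal.ofReal ((1 + δ) * c) * m := by
    rw [← setLIntegral_const]
    exact setLIntegral_mono' hAm (fun x hx => ENNReal.ofReal_le_ofReal (hw1 x hx))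
  have hI2 : ENNReal.ofReal ((1 - δ) * c) * m ≤
      ∫⁻ x in A, ENNReal.ofReal (inner ℝ (nrm g x) v) ∂(euclideanHausdorffMeasure 2) := by
    rw [← setLIntegral_const]
    exact setLIntegral_mono' hAm (fun x hx => ENNReal.ofReal_le_ofReal (hw2 x hx))
  have hδ' : 0 < 1 - δ := by linarith
  constructor
  · calc _ ≤ ENNReal.ofReal ((1 + δ) * c) * m := hI1
      _ = ENNReal.ofReal ((1 + δ) * c * ((1 - δ) ^ 2)⁻¹) * (ENNReal.ofReal ((1 - δ) ^ 2) * m) := by
          rw [← mul_assoc, ← ENNReal.ofReal_mul (by positivity)]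
          congr 2
          field_simp
      _ ≤ ENNReal.ofReal ((1 + δ) * c * ((1 - δ) ^ 2)⁻¹) * (ENNReal.ofReal (c⁻¹) * volume (prj v '' A)) := by
          gcongr
      _ = ENNReal.ofReal ((1 + δ) * ((1 - δ) ^ 2)⁻¹) * volume (prj v '' A) := by
          rw [← mul_assoc, ← ENNReal.ofReal_mul (by positivity)]
          congr 2
          field_simp
      _ ≤ _ := by gcongr
  · calc volume (prj v '' A) = ENNReal.ofReal c * (ENNReal.ofReal (c⁻¹) * volume (prj v '' A)) := by
          rw [← mul_assoc, ← ENNReal.ofReal_mul hc.le, mul_inv_cancel₀ hc.ne']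
          simp
      _ ≤ ENNReal.ofReal c * (ENNReal.ofReal ((1 + δ) ^ 2) * m) := by gcongr
      _ = ENNReal.ofReal ((1 + δ) ^ 2 * (1 - δ)⁻¹) * (ENNReal.ofReal ((1 - δ) * c) * m) := by
          rw [← mul_assoc, ← mul_assoc, ← ENNReal.ofReal_mul (by positivity),
            ← ENNReal.ofReal_mul (by positivity)]
          congr 2
          field_simp
      _ ≤ ENNReal.ofReal (1 + ε) * _ := by gcongr

end basic

/-- global equality from local comparability -/
theorem lintegral_eq_volume_image {v : E3} {X0 : Set E3} (hinj : InjOn (prj v) X0)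
    {w : E3 → ℝ≥0∞} {μ : Measure E3}
    (hloc : ∀ ε : ℝ, 0 < ε → ∀ x ∈ X0, ∃ r > 0, ∀ A : Set E3, A ⊆ X0 → A ⊆ ball x r →
      MeasurableSet A → (∫⁻ x in A, w x ∂μ ≤ ENNReal.ofReal (1 + ε) * volume (prj v '' A)) ∧
      (volume (prj v '' A) ≤ ENNReal.ofReal (1 + ε) * ∫⁻ x in A, w x ∂μ))
    {A : Set E3} (hA : A ⊆ X0) (hAm : MeasurableSet A) :
    ∫⁻ x in A, w x ∂μ = volume (prj v '' A) := by
  have himg : ∀ B : Set E3, B ⊆ X0 → MeasurableSet B → MeasurableSet (prj v '' B) := by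
    intro B hB hBm
    exact hBm.image_of_continuousOn_injOn (prj v).continuous.continuousOn (hinj.mono hB)
  have key : ∀ ε : ℝ, 0 < ε → (∫⁻ x in A, w x ∂μ ≤ ENNReal.ofReal (1 + ε) * volume (prj v '' A)) ∧
      (volume (prj v '' A) ≤ ENNReal.ofReal (1 + ε) * ∫⁻ x in A, w x ∂μ) := by
    intro ε hε
    rcases A.eq_empty_or_nonempty with rfl | hne
    · simp
    choose! r hr hcmp using hloc ε hε
    obtain ⟨t, htA, htc, hcov⟩ := TopologicalSpace.countable_cover_nhdsWithin
      (f := fun x => ball x (r x)) (s := A)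
      (fun x hx => mem_nhdsWithin_of_mem_nhds (ball_mem_nhds x (hr x (hA hx))))
    have htne : t.Nonempty := by
      obtain ⟨x, hx⟩ := hne
      have := hcov hx
      simp only [mem_iUnion] at this
      obtain ⟨y, hy, _⟩ := this
      exact ⟨y, hy⟩
    obtain ⟨u, hu⟩ := htc.exists_eq_range htne
    set U : ℕ → Set E3 := fun k => ball (u k) (r (u k)) with hU
    set B : ℕ → Set E3 := fun k => A ∩ disjointed U k with hB
    have hBm : ∀ k, MeasurableSet (B k) := fun k =>
      hAm.inter (MeasurableSet.disjointed (fun i => measurableSet_ball) k)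
    have hBA : ∀ k, B k ⊆ A := fun k => inter_subset_left
    have hBU : ∀ k, B k ⊆ ball (u k) (r (u k)) := fun k x hx => disjointed_subset U k hx.2
    have hdisj : Pairwise (Function.onFun Disjoint B) := by
      intro i j hij
      exact ((disjoint_disjointed U) hij).mono inter_subset_right inter_subset_right
    have hAU : A = ⋃ k, B k := by
      rw [hB, ← inter_iUnion, iUnion_disjointed]
      symm
      rw [inter_eq_left]
      intro x hx
      have := hcov hx
      simp only [mem_iUnion] at this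
      obtain ⟨y, hy, hxy⟩ := this
      rw [hu] at hy
      obtain ⟨k, rfl⟩ := hy
      exact mem_iUnion.2 ⟨k, hxy⟩
    have huA : ∀ k, u k ∈ X0 := fun k => hA (htA (hu ▸ mem_range_self k))
    have e1 : ∫⁻ x in A, w x ∂μ = ∑' k, ∫⁻ x in B k, w x ∂μ := by
      conv_lhs => rw [hAU]
      exact lintegral_iUnion hBm hdisj _
    have e2 : volume (prj v '' A) = ∑' k, volume (prj v '' (B k)) := by
      conv_lhs => rw [hAU, image_iUnion]
      apply measure_iUnion
      · intro i j hij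
        rw [Function.onFun, Set.disjoint_left]
        rintro _ ⟨x, hx, rfl⟩ ⟨y, hy, hxy⟩
        have : y = x := hinj (hA (hBA j hy)) (hA (hBA i hx)) hxy
        subst this
        exact (Set.disjoint_left.1 (hdisj hij)) hx hy
      · exact fun k => himg _ ((hBA k).trans hA) (hBm k)
    have hk := fun k => hcmp (u k) (huA k) (B k) ((hBA k).trans hA) (hBU k) (hBm k)
    rw [e1, e2, ← ENNReal.tsum_mul_left, ← ENNReal.tsum_mul_left]
    exact ⟨ENNReal.tsum_le_tsum (fun k => (hk k).1), ENNReal.tsum_le_tsum (fun k => (hk k).2)⟩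
  have hlim : ∀ b : ℝ≥0∞, Tendsto (fun ε : ℝ => ENNReal.ofReal (1 + ε) * b) (𝓝[>] 0) (𝓝 b) := by
    intro b
    have h1 : Tendsto (fun ε : ℝ => ENNReal.ofReal (1 + ε)) (𝓝[>] 0) (𝓝 1) := by
      have : Tendsto (fun ε : ℝ => ENNReal.ofReal (1 + ε)) (𝓝 0) (𝓝 (ENNReal.ofReal (1 + 0))) := by
        apply ENNReal.tendsto_ofReal
        exact (continuous_const.add continuous_id).tendsto _
      simp only [add_zero, ENNReal.ofReal_one] at this
      exact this.mono_left nhdsWithin_le_nhds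
    have h2 := ENNReal.Tendsto.mul_const (b := b) h1 (Or.inl one_ne_zero)
    simpa using h2
  apply le_antisymm
  · apply ge_of_tendsto (hlim _)
    filter_upwards [self_mem_nhdsWithin] with ε hε using (key ε hε).1
  · apply ge_of_tendsto (hlim _)
    filter_upwards [self_mem_nhdsWithin] with ε hε using (key ε hε).2

end Pool.Agent.NP
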