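import Pool.Agent.Lib_h26.DivBasic

/-! The local divergence theorem: slicing along a transversal direction. -/

set_option autoImplicit false

open MeasureTheory Measure Metric Set Module Filter
open scoped Topology RealInnerProductSpace ENNReal NNReal

namespace Pool.Agent.NP

theorem oneD_crossing {u q : ℝ → ℝ} {J : Set ℝ} {t0 : ℝ} (hu : ContDiff ℝ 1 u)
    (hc : HasCompactSupport u) (hsupp : ∀ t, t ∉ J → deriv u t = 0) (hq : StrictMonoOn q J)
    (ht0 : t0 ∈ J) (hq0 : q t0 = 0) :
    ∫ t, (if q t < 0 then deriv u t else 0) = u t0 := by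
  have h1 : ∀ t, (if q t < 0 then deriv u t else 0) = (Iio t0).indicator (deriv u) t := by
    intro t
    by_cases ht : t ∈ J
    · by_cases h : t < t0
      · have : q t < 0 := by rw [← hq0]; exact hq ht ht0 h
        simp [this, indicator, h]
      · have : ¬ q t < 0 := by
          rw [← hq0, not_lt]
          exact hq.monotoneOn ht0 ht (not_lt.1 h)
        simp [this, indicator, h]
    · have := hsupp t ht
      simp [indicator, this]
  simp_rw [h1]
  rw [integral_indicator measurableSet_Iio, ← integral_Iic_eq_integral_Iio]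
  exact hc.integral_Iic_deriv_eq hu t0

theorem oneD_no_crossing {u q : ℝ → ℝ} {J : Set ℝ} (hu : ContDiff ℝ 1 u)
    (hc : HasCompactSupport u) (hsupp : ∀ t, t ∉ J → deriv u t = 0) (hq : ContinuousOn q J)
    (hJ : IsPreconnected J) (hne : ∀ t ∈ J, q t ≠ 0) :
    ∫ t, (if q t < 0 then deriv u t else 0) = 0 := by
  rcases (em (∃ t ∈ J, q t < 0)) with h | h
  · have hall : ∀ t ∈ J, q t < 0 := by
      obtain ⟨s, hs, hqs⟩ := h
      intro t ht
      by_contra hcon
      push Not at hcon
      have himg := hJ.image q hq
      have hmem : (0 : ℝ) ∈ q '' J := by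
        apply himg.ordConnected.out (mem_image_of_mem q hs) (mem_image_of_mem q ht)
        exact ⟨hqs.le, hcon⟩
      obtain ⟨r, hr, hqr⟩ := hmem
      exact hne r hr hqr
    have h1 : ∀ t, (if q t < 0 then deriv u t else 0) = deriv u t := by
      intro t
      by_cases ht : t ∈ J
      · simp [hall t ht]
      · simp [hsupp t ht]
    simp_rw [h1]
    have hi : Integrable u := hu.continuous.integrable_of_hasCompactSupport hc
    have hi' : Integrable (deriv u) :=
      (hu.continuous_deriv (by norm_num)).integrable_of_hasCompactSupport hc.deriv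
    exact integral_eq_zero_of_hasDerivAt_of_integrable
      (fun t => ((hu.differentiable (by norm_num)) t).hasDerivAt) hi' hi
  · push Not at h
    have h1 : ∀ t, (if q t < 0 then deriv u t else 0) = 0 := by
      intro t
      by_cases ht : t ∈ J
      · simp [not_lt.2 (h t ht)]
      · simp [hsupp t ht]
    simp_rw [h1]
    simp

section loc

variable {g : E3 → ℝ}

theorem hasCompactSupport_line {F : E3 → ℝ} (hc : HasCompactSupport F) {v : E3} (hv : ‖v‖ = 1)
    (z : E3) : HasCompactSupport (fun t : ℝ => F (z + t • v)) := by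
  apply hc.comp_isClosedEmbedding
  have hiso : Isometry (fun t : ℝ => z + t • v) := by
    apply Isometry.of_dist_eq
    intro s t
    rw [dist_eq_norm, dist_eq_norm]
    have : z + s • v - (z + t • v) = (s - t) • v := by rw [sub_smul]; abel
    rw [this, norm_smul, hv, mul_one]
  exact hiso.isClosedEmbedding

theorem deriv_line {F : E3 → ℝ} (hF : Differentiable ℝ F) (z v : E3) (t : ℝ) :
    HasDerivAt (fun t : ℝ => F (z + t • v)) (fderiv ℝ F (z + t • v) v) t := by
  have h1 : HasDerivAt (fun t : ℝ => z + t • v) v t := by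
    simpa using ((hasDerivAt_id t).smul_const v).const_add z
  exact (hF (z + t • v)).hasFDerivAt.comp_hasDerivAt t h1

/-- local divergence theorem, unit direction with positive normal component -/
theorem Dom.div_local_unit (hg : Dom g) {x0 : E3} (hx0 : g x0 = 0) {v : E3} (hv : ‖v‖ = 1)
    (hc : 0 < (inner ℝ (nrm g x0) v : ℝ)) :
    ∃ r > 0, ∀ F : E3 → ℝ, ContDiff ℝ 1 F → HasCompactSupport F → tsupport F ⊆ ball x0 r →
      ∫ x in Om g, fderiv ℝ F x v = ∫ x, F x * inner ℝ (nrm g x) v ∂(surf g) := by
  have hfd : 0 < fderiv ℝ g x0 v := by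
    rw [inner_nrm] at hc
    exact (pos_iff_pos_of_mul_pos hc).1 (by have := hg.norm_gradient_pos hx0; positivity)
  have hfdc : Continuous (fun x => fderiv ℝ g x v) := by
    exact hg.continuous_fderiv.clm_apply continuous_const
  have hev : ∀ᶠ x in 𝓝 x0, 0 < fderiv ℝ g x v := hfdc.continuousAt.eventually_const_lt hfd
  obtain ⟨r, hr, hpos⟩ := Metric.eventually_nhds_iff_ball.1 hev
  refine ⟨r, hr, fun F hF hFc hFs => ?_⟩
  set X0 : Set E3 := {x | g x = 0} ∩ ball x0 r with hX0
  have hX0m : MeasurableSet X0 := hg.measurableSet_S.inter measurableSet_ball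
  -- strict monotonicity along lines
  have hmono : ∀ z : E3, StrictMonoOn (fun t : ℝ => g (z + t • v)) {t : ℝ | z + t • v ∈ ball x0 r} := by
    intro z
    have hconv : Convex ℝ {t : ℝ | z + t • v ∈ ball x0 r} := by
      have : {t : ℝ | z + t • v ∈ ball x0 r} = (AffineMap.lineMap z (z + v)) ⁻¹' (ball x0 r) := by
        ext t
        simp [AffineMap.lineMap_apply, add_comm]
      rw [this]
      exact (convex_ball x0 r).affine_preimage _
    apply strictMonoOn_of_deriv_pos hconv
    · have : Continuous (fun t : ℝ => g (z + t • v)) := by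
        have := hg.continuous
        fun_prop
      exact this.continuousOn
    · intro t ht
      rw [(deriv_line hg.differentiable z v t).deriv]
      exact hpos _ ((interior_subset (s := {t : ℝ | z + t • v ∈ ball x0 r}) ht))
  have hconvJ : ∀ z : E3, IsPreconnected {t : ℝ | z + t • v ∈ ball x0 r} := by
    intro z
    have : {t : ℝ | z + t • v ∈ ball x0 r} = (AffineMap.lineMap z (z + v)) ⁻¹' (ball x0 r) := by
      ext t
      simp [AffineMap.lineMap_apply, add_comm]
    rw [this]
    exact ((convex_ball x0 r).affine_preimage _).isPreconnected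
  -- injectivity of the projection
  have hinj : InjOn (prj v) X0 := by
    intro x hx y hy hxy
    have ex := prj_decomp hv x
    have ey := prj_decomp hv y
    rw [← hxy] at ey
    have h1 : g (((prj v x : Hp v) : E3) + (inner ℝ v x : ℝ) • v) = 0 := by rw [ex]; exact hx.1
    have h2 : g (((prj v x : Hp v) : E3) + (inner ℝ v y : ℝ) • v) = 0 := by rw [ey]; exact hy.1
    have h3 := (hmono ((prj v x : Hp v) : E3)).injOn
      (show (inner ℝ v x : ℝ) ∈ {t : ℝ | ((prj v x : Hp v) : E3) + t • v ∈ ball x0 r} by
        simp only [mem_ofPred_eq]; rw [ex]; exact hx.2)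
      (show (inner ℝ v y : ℝ) ∈ {t : ℝ | ((prj v x : Hp v) : E3) + t • v ∈ ball x0 r} by
        simp only [mem_ofPred_eq]; rw [ey]; exact hy.2) (h1.trans h2.symm)
    rw [← ex, ← ey, h3]
  -- positive normal component on X0
  have hw : ∀ x ∈ X0, 0 < (inner ℝ (nrm g x) v : ℝ) := by
    intro x hx
    rw [inner_nrm]
    have := hg.norm_gradient_pos hx.1
    have := hpos x hx.2
    positivity
  set w : E3 → ℝ≥0∞ := fun x => ENNReal.ofReal (inner ℝ (nrm g x) v) with hwdef
  have hwm : Measurable w := by
    apply ENNReal.measurable_ofReal.comp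
    exact (hg.measurable_nrm).inner_const
  -- the measure identity
  have hmeas : ∀ A : Set E3, A ⊆ X0 → MeasurableSet A →
      ∫⁻ x in A, w x ∂(euclideanHausdorffMeasure 2) = volume (prj v '' A) := by
    intro A hA hAm
    refine lintegral_eq_volume_image hinj ?_ hA hAm
    intro ε hε x hx
    obtain ⟨ρ, hρ, hcmp⟩ := hg.local_compare hx.1 hv (hw x hx) hε
    exact ⟨ρ, hρ, fun B hB hBb hBm => hcmp B (hB.trans inter_subset_left) hBb hBm⟩
  set μw : Measure E3 := ((euclideanHausdorffMeasure 2).restrict X0).withDensity w with hμw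
  have hmap : Measure.map (prj v) μw = (volume : Measure (Hp v)).restrict (prj v '' X0) := by
    ext D hD
    have hpm : Measurable (prj v) := (prj v).continuous.measurable
    rw [Measure.map_apply hpm hD, hμw, withDensity_apply _ (hpm hD),
      Measure.restrict_restrict (hpm hD), Measure.restrict_apply hD,
      hmeas _ inter_subset_right ((hpm hD).inter hX0m)]
    congr 1
    ext z
    constructor
    · rintro ⟨x, ⟨hx1, hx2⟩, rfl⟩
      exact ⟨hx1, x, hx2, rfl⟩
    · rintro ⟨hz, x, hx, rfl⟩
      exact ⟨x, ⟨hz, hx⟩, rfl⟩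
  -- the sliced integral
  set H : E3 → ℝ := (Om g).indicator (fun x => fderiv ℝ F x v) with hH
  have hFdc : Continuous (fun x => fderiv ℝ F x v) :=
    (hF.continuous_fderiv (by norm_num)).clm_apply continuous_const
  have hFdcs : HasCompactSupport (fun x => fderiv ℝ F x v) := by
    have := hFc.fderiv (𝕜 := ℝ)
    exact this.comp_left (g := fun L : E3 →L[ℝ] ℝ => L v) (by simp)
  have hHint : Integrable H := by
    apply Integrable.indicator _ hg.measurableSet_Om
    exact hFdc.integrable_of_hasCompactSupport hFdcs
  set I : Hp v → ℝ := fun z => ∫ t : ℝ, H ((z : E3) + t • v) with hI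
  have hIint : Integrable I := integrable_slice hv hHint
  have hIeq : ∀ z : Hp v, I z = ∫ t : ℝ, (if g ((z : E3) + t • v) < 0 then
      deriv (fun t : ℝ => F ((z : E3) + t • v)) t else 0) := by
    intro z
    simp only [hI]
    congr 1
    ext t
    rw [(deriv_line (hF.differentiable (by norm_num)) (z : E3) v t).deriv]
    simp only [hH, indicator, Om, mem_ofPred_eq]
  have hucd : ∀ z : E3, ContDiff ℝ 1 (fun t : ℝ => F (z + t • v)) := by
    intro z
    exact hF.comp (by fun_prop)
  have husupp : ∀ z : E3, ∀ t : ℝ, t ∉ {t : ℝ | z + t • v ∈ ball x0 r} →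
      deriv (fun t : ℝ => F (z + t • v)) t = 0 := by
    intro z t ht
    rw [(deriv_line (hF.differentiable (by norm_num)) z v t).deriv]
    have : z + t • v ∉ tsupport F := fun h => ht (hFs h)
    have h0 : fderiv ℝ F (z + t • v) = 0 := by
      have := fderiv_of_notMem_tsupport (𝕜 := ℝ) this
      exact this
    rw [h0]; rfl
  have hI1 : ∀ x ∈ X0, I (prj v x) = F x := by
    intro x hx
    rw [hIeq]
    have ex := prj_decomp hv x
    have := oneD_crossing (u := fun t : ℝ => F (((prj v x : Hp v) : E3) + t • v))
      (q := fun t : ℝ => g (((prj v x : Hp v) : E3) + t • v)) (t0 := inner ℝ v x)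
      (hucd _) (hasCompactSupport_line hFc hv _) (husupp _) (hmono _)
      (by simp only [mem_ofPred_eq]; rw [ex]; exact hx.2) (by rw [ex]; exact hx.1)
    rw [this, ex]
  have hI0 : ∀ z, z ∉ prj v '' X0 → I z = 0 := by
    intro z hz
    rw [hIeq]
    refine oneD_no_crossing (J := {t : ℝ | (z : E3) + t • v ∈ ball x0 r}) (hucd _)
      (hasCompactSupport_line hFc hv _) (husupp _) ?_ (hconvJ _) ?_
    · have : Continuous (fun t : ℝ => g ((z : E3) + t • v)) := by
        have := hg.continuous
        fun_prop
      exact this.continuousOn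
    · intro t ht h0
      apply hz
      exact ⟨(z : E3) + t • v, ⟨h0, ht⟩, prj_add_smul hv z t⟩
  calc ∫ x in Om g, fderiv ℝ F x v = ∫ x, H x := (integral_indicator hg.measurableSet_Om).symm
    _ = ∫ z, I z := integral_slice hv hHint
    _ = ∫ z in prj v '' X0, I z := (setIntegral_eq_integral_of_forall_compl_eq_zero hI0).symm
    _ = ∫ z, I z ∂(Measure.map (prj v) μw) := by rw [hmap]
    _ = ∫ x, I (prj v x) ∂μw := by
        apply integral_map (prj v).continuous.measurable.aemeasurable
        rw [hmap]
        exact hIint.aestronglyMeasurable.restrict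
    _ = ∫ x in X0, (w x).toReal • I (prj v x) ∂(euclideanHausdorffMeasure 2) := by
        rw [hμw]
        apply integral_withDensity_eq_integral_toReal_smul hwm
        filter_upwards with x using ENNReal.ofReal_lt_top
    _ = ∫ x in X0, F x * inner ℝ (nrm g x) v ∂(euclideanHausdorffMeasure 2) := by
        apply setIntegral_congr_fun hX0m
        intro x hx
        simp only [hwdef, smul_eq_mul]
        rw [hI1 x hx, ENNReal.toReal_ofReal (hw x hx).le, mul_comm]
    _ = ∫ x in {x | g x = 0}, F x * inner ℝ (nrm g x) v ∂(euclideanHausdorffMeasure 2) := by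
        rw [hX0]
        symm
        apply setIntegral_eq_of_subset_of_forall_sdiff_eq_zero hg.measurableSet_S inter_subset_left
        intro x hx
        have hx' : x ∉ ball x0 r := fun h => hx.2 ⟨hx.1, h⟩
        have : F x = 0 := by
          by_contra hne
          exact hx' (hFs (subset_tsupport F hne))
        simp [this]
    _ = _ := rfl

end loc

end Pool.Agent.NP
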