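import Pool.Agent.Lib_h26.DivLocal

/-! Module A: divergence theorem with respect to Hausdorff measure. -/

set_option autoImplicit false

open MeasureTheory Measure Metric Set Filter Module
open scoped Topology RealInnerProductSpace ENNReal NNReal Manifold ContDiff

namespace Pool.Agent.NP

theorem Dom.surf_lt_top {g : E3 → ℝ} (hg : Dom g) : surf g Set.univ < ⊤ := by
  unfold surf
  rw [Measure.restrict_apply_univ]
  apply hg.isCompact_S.measure_lt_top_of_nhdsWithin
  intro x0 hx0
  have hx0' : g x0 = 0 := hx0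
  obtain ⟨r, hr, hflat⟩ := hg.local_flat hx0' (show (0 : ℝ) < 1 / 2 by norm_num)
  set n := nrm g x0 with hn
  have hnn : ‖n‖ = 1 := hg.norm_nrm hx0'
  have hc : (inner ℝ n n : ℝ) = 1 := by rw [real_inner_self_eq_norm_sq, hnn]; norm_num
  refine ⟨{x | g x = 0} ∩ ball x0 r, inter_mem self_mem_nhdsWithin
    (mem_nhdsWithin_of_mem_nhds (ball_mem_nhds x0 hr)), ?_⟩
  have h1 := compare_lower (A := {x | g x = 0} ∩ ball x0 r) hnn hnn (by rw [hc]; norm_num)
    (show (0 : ℝ) ≤ 1 / 2 by norm_num) (by norm_num) (by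
      intro x hx y hy
      rw [hc, abs_one, mul_one]
      exact hflat x hx.2 y hy.2 hx.1 hy.1)
  rw [hc, abs_one, inv_one, ENNReal.ofReal_one, one_mul] at h1
  have h2 : volume (prj n '' ({x | g x = 0} ∩ ball x0 r)) < ⊤ := by
    apply Bornology.IsBounded.measure_lt_top
    have : Bornology.IsBounded ({x | g x = 0} ∩ ball x0 r) := isBounded_ball.subset inter_subset_right
    exact (prj n).lipschitz.isBounded_image this
  have h3 := lt_of_le_of_lt h1 h2
  by_contra hcon
  rw [not_lt, top_le_iff] at hcon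
  rw [hcon, ENNReal.mul_top (by norm_num)] at h3
  exact lt_irrefl _ h3

instance instFiniteSurf {g : E3 → ℝ} [h : Fact (Dom g)] : IsFiniteMeasure (surf g) :=
  ⟨h.out.surf_lt_top⟩

theorem Dom.isFiniteMeasure_surf {g : E3 → ℝ} (hg : Dom g) : IsFiniteMeasure (surf g) :=
  ⟨hg.surf_lt_top⟩

section div

variable {g : E3 → ℝ}

theorem integrable_fderiv_apply {F : E3 → ℝ} (hF : ContDiff ℝ 1 F) (hc : HasCompactSupport F)
    (v : E3) : Integrable (fun x => fderiv ℝ F x v) := by
  have hFdc : Continuous (fun x => fderiv ℝ F x v) :=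
    (hF.continuous_fderiv (by norm_num)).clm_apply continuous_const
  have hFdcs : HasCompactSupport (fun x => fderiv ℝ F x v) :=
    (hc.fderiv (𝕜 := ℝ)).comp_left (g := fun L : E3 →L[ℝ] ℝ => L v) (by simp)
  exact hFdc.integrable_of_hasCompactSupport hFdcs

theorem integral_fderiv_apply {F : E3 → ℝ} (hF : ContDiff ℝ 1 F) (hc : HasCompactSupport F)
    (v : E3) : ∫ x, fderiv ℝ F x v = 0 := by
  have h := integral_mul_fderiv_eq_neg_fderiv_mul_of_integrable (μ := (volume : Measure E3))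
    (f := fun _ : E3 => (1 : ℝ)) (g := F) (v := v) (by simp)
    (by simpa using integrable_fderiv_apply hF hc v)
    (by simpa using hF.continuous.integrable_of_hasCompactSupport hc)
    (fun x _ => differentiableAt_const _) (fun x _ => hF.differentiable (by norm_num) x)
  simpa using h

theorem Dom.integrable_mul_inner (hg : Dom g) {F : E3 → ℝ} (hF : Continuous F)
    (hc : HasCompactSupport F) (v : E3) :
    Integrable (fun x => F x * inner ℝ (nrm g x) v) (surf g) := by
  have := hg.isFiniteMeasure_surf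
  have h1 : Integrable F (surf g) := hF.integrable_of_hasCompactSupport hc
  have h2 : AEStronglyMeasurable (fun x => (inner ℝ (nrm g x) v : ℝ)) (surf g) :=
    (hg.measurable_nrm.inner_const).aestronglyMeasurable
  apply h1.mul_bdd (c := ‖v‖) h2
  filter_upwards with x
  calc ‖(inner ℝ (nrm g x) v : ℝ)‖ ≤ ‖nrm g x‖ * ‖v‖ := norm_inner_le_norm _ _
    _ ≤ 1 * ‖v‖ := by gcongr; exact hg.norm_nrm_le x
    _ = ‖v‖ := one_mul _

/-- the statement to be proved for `F` in direction `v` -/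
def DivId (g : E3 → ℝ) (F : E3 → ℝ) (v : E3) : Prop :=
  ∫ x in Om g, fderiv ℝ F x v = ∫ x, F x * inner ℝ (nrm g x) v ∂(surf g)

theorem Dom.div_local_pos (hg : Dom g) {x0 : E3} (hx0 : g x0 = 0) {v : E3}
    (hc : 0 < (inner ℝ (nrm g x0) v : ℝ)) :
    ∃ r > 0, ∀ F : E3 → ℝ, ContDiff ℝ 1 F → HasCompactSupport F → tsupport F ⊆ ball x0 r →
      DivId g F v := by
  have hv0 : v ≠ 0 := by
    rintro rfl
    simp at hc
  have hvpos : 0 < ‖v‖ := norm_pos_iff.2 hv0
  obtain ⟨r, hr, h⟩ := hg.div_local_unit hx0 (v := ‖v‖⁻¹ • v)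
    (by rw [norm_smul, norm_inv, norm_norm]; field_simp)
    (by rw [inner_smul_right]; positivity)
  refine ⟨r, hr, fun F hF hFc hFs => ?_⟩
  have h1 := h F hF hFc hFs
  unfold DivId
  simp only [map_smul, smul_eq_mul, inner_smul_right] at h1
  rw [integral_const_mul] at h1
  have h2 : ∀ x, F x * (‖v‖⁻¹ * inner ℝ (nrm g x) v) = ‖v‖⁻¹ * (F x * inner ℝ (nrm g x) v) := by
    intro x; ring
  simp_rw [h2] at h1
  rw [integral_const_mul] at h1
  exact mul_left_cancel₀ (inv_ne_zero hvpos.ne') h1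

theorem Dom.div_local_S (hg : Dom g) {x0 : E3} (hx0 : g x0 = 0) (v : E3) :
    ∃ r > 0, ∀ F : E3 → ℝ, ContDiff ℝ 1 F → HasCompactSupport F → tsupport F ⊆ ball x0 r →
      DivId g F v := by
  set n := nrm g x0 with hn
  have hnn : ‖n‖ = 1 := hg.norm_nrm hx0
  have hnn' : (inner ℝ n n : ℝ) = 1 := by rw [real_inner_self_eq_norm_sq, hnn]; norm_num
  have hnv : -‖v‖ ≤ (inner ℝ n v : ℝ) := by
    have := abs_real_inner_le_norm n v
    rw [hnn, one_mul] at this
    exact (abs_le.1 this).1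
  have hl : (0 : ℝ) < ‖v‖ + 1 := by positivity
  obtain ⟨r1, hr1, h1⟩ := hg.div_local_pos hx0 (v := v + (‖v‖ + 1) • n)
    (by rw [inner_add_right, inner_smul_right, ← hn, hnn']; linarith)
  obtain ⟨r2, hr2, h2⟩ := hg.div_local_pos hx0 (v := (‖v‖ + 1) • n)
    (by rw [inner_smul_right, ← hn, hnn']; linarith)
  refine ⟨min r1 r2, lt_min hr1 hr2, fun F hF hFc hFs => ?_⟩
  have e1 := h1 F hF hFc (hFs.trans (ball_subset_ball (min_le_left _ _)))
  have e2 := h2 F hF hFc (hFs.trans (ball_subset_ball (min_le_right _ _)))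
  unfold DivId at e1 e2 ⊢
  have l1 : ∀ x, fderiv ℝ F x v = fderiv ℝ F x (v + (‖v‖ + 1) • n) - fderiv ℝ F x ((‖v‖ + 1) • n) := by
    intro x; rw [map_add]; ring
  have l2 : ∀ x, F x * inner ℝ (nrm g x) v = F x * inner ℝ (nrm g x) (v + (‖v‖ + 1) • n)
      - F x * inner ℝ (nrm g x) ((‖v‖ + 1) • n) := by
    intro x; rw [inner_add_right]; ring
  simp_rw [l1, l2]
  rw [integral_sub (integrable_fderiv_apply hF hFc _).integrableOn
    (integrable_fderiv_apply hF hFc _).integrableOn,
    integral_sub (hg.integrable_mul_inner hF.continuous hFc _)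
    (hg.integrable_mul_inner hF.continuous hFc _), e1, e2]

theorem Dom.div_local_off (hg : Dom g) {x0 : E3} (hx0 : g x0 ≠ 0) (v : E3) :
    ∃ r > 0, ∀ F : E3 → ℝ, ContDiff ℝ 1 F → HasCompactSupport F → tsupport F ⊆ ball x0 r →
      DivId g F v := by
  have key : ∀ (F : E3 → ℝ) (U : Set E3), tsupport F ⊆ U → (∀ x ∈ U, g x ≠ 0) →
      ∫ x, F x * inner ℝ (nrm g x) v ∂(surf g) = 0 := by
    intro F U hFU hU
    unfold surf
    apply setIntegral_eq_zero_of_forall_eq_zero
    intro x hx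
    have : F x = 0 := by
      by_contra hne
      exact hU x (hFU (subset_tsupport F hne)) hx
    simp [this]
  rcases lt_or_gt_of_ne hx0 with h | h
  · have hev : ∀ᶠ x in 𝓝 x0, g x < 0 := hg.continuous.continuousAt.eventually_lt_const h
    obtain ⟨r, hr, hneg⟩ := Metric.eventually_nhds_iff_ball.1 hev
    refine ⟨r, hr, fun F hF hFc hFs => ?_⟩
    unfold DivId
    rw [key F _ hFs (fun x hx => (hneg x hx).ne)]
    rw [setIntegral_eq_integral_of_forall_compl_eq_zero, integral_fderiv_apply hF hFc]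
    intro x hx
    have hx' : x ∉ tsupport F := fun hxs => hx (hneg x (hFs hxs))
    rw [fderiv_of_notMem_tsupport (𝕜 := ℝ) hx']
    rfl
  · have hev : ∀ᶠ x in 𝓝 x0, 0 < g x := hg.continuous.continuousAt.eventually_const_lt h
    obtain ⟨r, hr, hpos⟩ := Metric.eventually_nhds_iff_ball.1 hev
    refine ⟨r, hr, fun F hF hFc hFs => ?_⟩
    unfold DivId
    rw [key F _ hFs (fun x hx => (hpos x hx).ne')]
    apply setIntegral_eq_zero_of_forall_eq_zero
    intro x hx
    have hx' : x ∉ tsupport F := fun hxs => lt_asymm hx (hpos x (hFs hxs))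
    rw [fderiv_of_notMem_tsupport (𝕜 := ℝ) hx']
    rfl

theorem Dom.divId_sum (hg : Dom g) {ι : Type*} (s : Finset ι) (G : ι → E3 → ℝ)
    (hG : ∀ i ∈ s, ContDiff ℝ 1 (G i)) (hc : ∀ i ∈ s, HasCompactSupport (G i)) (v : E3)
    (h : ∀ i ∈ s, DivId g (G i) v) : DivId g (fun x => ∑ i ∈ s, G i x) v := by
  unfold DivId at h ⊢
  have e1 : ∀ x, fderiv ℝ (fun x => ∑ i ∈ s, G i x) x v = ∑ i ∈ s, fderiv ℝ (G i) x v := by
    intro x
    rw [fderiv_fun_sum (fun i hi => (hG i hi).differentiable (by norm_num) x)]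
    simp
  simp_rw [e1, Finset.sum_mul]
  rw [integral_finsetSum _ (fun i hi => (integrable_fderiv_apply (hG i hi) (hc i hi) v).integrableOn),
    integral_finsetSum _ (fun i hi => hg.integrable_mul_inner (hG i hi).continuous (hc i hi) v)]
  exact Finset.sum_congr rfl h

/-- the divergence theorem (directional form) -/
theorem Dom.divergence (hg : Dom g) {f : E3 → ℝ} (hf : ContDiff ℝ 1 f)
    (hc : HasCompactSupport f) (v : E3) :
    ∫ x in Om g, fderiv ℝ f x v = ∫ x, f x * inner ℝ (nrm g x) v ∂(surf g) := by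
  have hloc : ∀ x0 : E3, ∃ r > 0, ∀ F : E3 → ℝ, ContDiff ℝ 1 F → HasCompactSupport F →
      tsupport F ⊆ ball x0 r → DivId g F v := by
    intro x0
    by_cases hx0 : g x0 = 0
    · exact hg.div_local_S hx0 v
    · exact hg.div_local_off hx0 v
  choose r hr hdiv using hloc
  obtain ⟨t, ht⟩ := IsCompact.elim_nhds_subcover' hc (fun x _ => ball x (r x))
    (fun x _ => ball_mem_nhds x (hr x))
  obtain ⟨ρ, hρ⟩ := SmoothPartitionOfUnity.exists_isSubordinate (𝓘(ℝ, E3)) (s := tsupport f)
    (isClosed_tsupport f) (fun i : t => ball ((i : tsupport f) : E3) (r ((i : tsupport f) : E3)))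
    (fun i => isOpen_ball) (by
      intro x hx
      have := ht hx
      simp only [mem_iUnion] at this ⊢
      obtain ⟨y, hy, hxy⟩ := this
      exact ⟨⟨y, hy⟩, hxy⟩)
  have hsum : f = fun x => ∑ i ∈ Finset.univ, (ρ i x * f x) := by
    ext x
    rw [← Finset.sum_mul]
    by_cases hx : x ∈ tsupport f
    · have := ρ.sum_eq_one hx
      rw [finsum_eq_sum_of_fintype] at this
      rw [this, one_mul]
    · rw [image_eq_zero_of_notMem_tsupport hx, mul_zero]
  have hcd : ∀ i, ContDiff ℝ 1 (fun x => ρ i x * f x) := by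
    intro i
    have h1 : ContDiff ℝ ∞ (fun x => ρ i x) := (ρ i).contMDiff.contDiff
    exact (h1.of_le (by norm_cast)).mul hf
  have hcs : ∀ i, HasCompactSupport (fun x => ρ i x * f x) := fun i => hc.mul_left
  have hmain : DivId g (fun x => ∑ i ∈ Finset.univ, (ρ i x * f x)) v := by
    apply hg.divId_sum Finset.univ (fun i x => ρ i x * f x) (fun i _ => hcd i) (fun i _ => hcs i)
    intro i _
    apply hdiv ((i : tsupport f) : E3) _ (hcd i) (hcs i)
    exact (tsupport_mul_subset_left).trans (hρ i)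
  unfold DivId at hmain
  rw [← hsum] at hmain
  exact hmain

end div

end Pool.Agent.NP
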