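import Pool.Agent.Lib_h26.Compactness

/-! Fubini for kernels with Schur bounds. -/

set_option autoImplicit false

open MeasureTheory Measure Set Filter
open scoped Topology ENNReal

namespace Pool.Agent.NP

variable {α : Type*} [MeasurableSpace α] {σ : Measure α} [IsFiniteMeasure σ]

omit [IsFiniteMeasure σ] in
theorem SchurBound.abs {k : α → α → ℝ} {C : ℝ} (hk : SchurBound σ k C) :
    SchurBound σ (fun x y => |k x y|) C where
  meas := by
    have := hk.meas.norm
    exact this
  row := by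
    filter_upwards [hk.row] with x hx
    simpa [← Real.norm_eq_abs] using hx
  col := by
    filter_upwards [hk.col] with x hx
    simpa [← Real.norm_eq_abs] using hx

theorem SchurBound.integrable_prod {k : α → α → ℝ} {C : ℝ} (hk : SchurBound σ k C)
    {φ ψ : α → ℝ} (hφ : MemLp φ 2 σ) (hψ : MemLp ψ 2 σ) :
    Integrable (fun p : α × α => k p.1 p.2 * φ p.2 * ψ p.1) (σ.prod σ) := by
  have hm : AEStronglyMeasurable (fun p : α × α => k p.1 p.2 * φ p.2 * ψ p.1) (σ.prod σ) :=
    (hk.meas.aestronglyMeasurable.mul hφ.1.comp_snd).mul hψ.1.comp_fst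
  rw [integrable_prod_iff hm]
  constructor
  · filter_upwards [hk.ae_integrable hφ] with x hx
    exact hx.mul_const _
  · have h1 := (hk.abs.memLp hφ.abs).integrable_mul hψ.abs
    refine h1.congr (Eventually.of_forall fun x => ?_)
    simp only [Pi.mul_apply, norm_mul, Real.norm_eq_abs]
    rw [integral_mul_const]
    rfl

theorem SchurBound.integrable_triple {k₁ k₂ : α → α → ℝ} {C₁ C₂ : ℝ} (hk₁ : SchurBound σ k₁ C₁)
    (hk₂ : SchurBound σ k₂ C₂) {φ ψ : α → ℝ} (hφ : MemLp φ 2 σ) (hψ : MemLp ψ 2 σ) :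
    Integrable (fun q : α × (α × α) => (k₁ q.1 q.2.1 * φ q.2.1) * (k₂ q.1 q.2.2 * ψ q.2.2))
      (σ.prod (σ.prod σ)) := by
  have hm1 : AEStronglyMeasurable (fun q : α × (α × α) => k₁ q.1 q.2.1) (σ.prod (σ.prod σ)) :=
    (hk₁.meas.comp (measurable_fst.prodMk (measurable_fst.comp measurable_snd))).aestronglyMeasurable
  have hm2 : AEStronglyMeasurable (fun q : α × (α × α) => k₂ q.1 q.2.2) (σ.prod (σ.prod σ)) :=
    (hk₂.meas.comp (measurable_fst.prodMk (measurable_snd.comp measurable_snd))).aestronglyMeasurable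
  have hm3 : AEStronglyMeasurable (fun q : α × (α × α) => φ q.2.1) (σ.prod (σ.prod σ)) :=
    (hφ.1.comp_fst (ν := σ)).comp_snd
  have hm4 : AEStronglyMeasurable (fun q : α × (α × α) => ψ q.2.2) (σ.prod (σ.prod σ)) :=
    (hψ.1.comp_snd (μ := σ)).comp_snd
  have hm : AEStronglyMeasurable (fun q : α × (α × α) => (k₁ q.1 q.2.1 * φ q.2.1) *
      (k₂ q.1 q.2.2 * ψ q.2.2)) (σ.prod (σ.prod σ)) := (hm1.mul hm3).mul (hm2.mul hm4)
  rw [integrable_prod_iff hm]
  constructor
  · filter_upwards [hk₁.ae_integrable hφ, hk₂.ae_integrable hψ] with x hx hy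
    exact hx.mul_prod hy
  · have h1 := (hk₁.abs.memLp hφ.abs).integrable_mul (hk₂.abs.memLp hψ.abs)
    refine h1.congr (Eventually.of_forall fun x => ?_)
    simp only [Pi.mul_apply, norm_mul, Real.norm_eq_abs]
    rw [← integral_prod_mul]
    rfl

end Pool.Agent.NP
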