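import Pool.Agent.Lib_h26.KernelEnergy
import Pool.Agent.Lib_h26.Schur2

/-! Module D: energy identities for potentials of `L²` densities (Fubini + module C). -/

set_option autoImplicit false

open MeasureTheory Measure Metric Set Filter
open scoped Topology ENNReal

namespace Pool.Agent.NP

variable {g : E3 → ℝ}

theorem meas_dGam {α : Type*} [MeasurableSpace α] {f h : α → E3} (hf : Measurable f)
    (hh : Measurable h) : Measurable (fun a => dGam (f a) (h a)) := by
  unfold dGam
  fun_prop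

theorem meas_Gam {α : Type*} [MeasurableSpace α] {f h : α → E3} (hf : Measurable f)
    (hh : Measurable h) : Measurable (fun a => Gam (f a) (h a)) := by
  unfold Gam
  fun_prop

theorem Dom.schur_Gam (hg : Dom g) : ∃ C : ℝ, 0 < C ∧ SchurBound (surf g) Gam C := by
  obtain ⟨C, hC, h⟩ := hg.lintegral_Gam_le
  refine ⟨C, hC, ⟨measurable_Gam', Eventually.of_forall fun x => ?_, Eventually.of_forall h⟩⟩
  have := h x
  simp_rw [Gam_comm _ x] at this
  exact this

theorem Dom.schur_kNP (hg : Dom g) : ∃ C : ℝ, 0 < C ∧ SchurBound (surf g) (kNP g) C := by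
  obtain ⟨C, hC, h1, h2⟩ := hg.lintegral_kNP_le
  refine ⟨C, hC, ⟨hg.measurable_kNP, ?_, ?_⟩⟩
  · filter_upwards [hg.ae_mem] with x hx using h2 x hx
  · filter_upwards [hg.ae_mem] with x hx using h1 x hx

theorem Dom.memLp_pot (hg : Dom g) {φ : E3 → ℝ} (hφ : MemLp φ 2 (surf g)) :
    MemLp (pot g φ) 2 (surf g) := by
  have hfin := hg.isFiniteMeasure_surf
  obtain ⟨C, hC, h⟩ := hg.schur_Gam
  exact h.memLp hφ

theorem Dom.memLp_Kst (hg : Dom g) {φ : E3 → ℝ} (hφ : MemLp φ 2 (surf g)) :
    MemLp (Kst g φ) 2 (surf g) := by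
  have hfin := hg.isFiniteMeasure_surf
  obtain ⟨C, hC, h⟩ := hg.schur_kNP
  exact h.memLp hφ

theorem Dom.ae_integrable_pot (hg : Dom g) {φ : E3 → ℝ} (hφ : MemLp φ 2 (surf g)) :
    ∀ᵐ x ∂(surf g), Integrable (fun y => Gam x y * φ y) (surf g) := by
  have hfin := hg.isFiniteMeasure_surf
  obtain ⟨C, hC, h⟩ := hg.schur_Gam
  exact h.ae_integrable hφ

theorem Dom.ae_integrable_Kst (hg : Dom g) {φ : E3 → ℝ} (hφ : MemLp φ 2 (surf g)) :
    ∀ᵐ x ∂(surf g), Integrable (fun y => kNP g x y * φ y) (surf g) := by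
  have hfin := hg.isFiniteMeasure_surf
  obtain ⟨C, hC, h⟩ := hg.schur_kNP
  exact h.ae_integrable hφ

theorem Dom.integrable_of_memLp (hg : Dom g) {φ : E3 → ℝ} (hφ : MemLp φ 2 (surf g)) :
    Integrable φ (surf g) := by
  have hfin := hg.isFiniteMeasure_surf
  exact hφ.integrable (by norm_num)

theorem Dom.pot_add (hg : Dom g) {φ ψ : E3 → ℝ} (hφ : MemLp φ 2 (surf g))
    (hψ : MemLp ψ 2 (surf g)) (a b : ℝ) :
    pot g (fun x => a * φ x + b * ψ x) =ᵐ[surf g] fun x => a * pot g φ x + b * pot g ψ x := by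
  filter_upwards [hg.ae_integrable_pot hφ, hg.ae_integrable_pot hψ] with x h1 h2
  unfold pot
  rw [← integral_const_mul, ← integral_const_mul, ← integral_add (h1.const_mul a) (h2.const_mul b)]
  congr 1
  ext y
  ring

theorem Dom.Kst_add (hg : Dom g) {φ ψ : E3 → ℝ} (hφ : MemLp φ 2 (surf g))
    (hψ : MemLp ψ 2 (surf g)) (a b : ℝ) :
    Kst g (fun x => a * φ x + b * ψ x) =ᵐ[surf g] fun x => a * Kst g φ x + b * Kst g ψ x := by
  filter_upwards [hg.ae_integrable_Kst hφ, hg.ae_integrable_Kst hψ] with x h1 h2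
  unfold Kst
  rw [← integral_const_mul, ← integral_const_mul, ← integral_add (h1.const_mul a) (h2.const_mul b)]
  congr 1
  ext y
  ring

theorem pot_congr {φ ψ : E3 → ℝ} (h : φ =ᵐ[surf g] ψ) : pot g φ = pot g ψ := by
  ext x
  unfold pot
  apply integral_congr_ae
  filter_upwards [h] with y hy
  rw [hy]

theorem Kst_congr {φ ψ : E3 → ℝ} (h : φ =ᵐ[surf g] ψ) : Kst g φ = Kst g ψ := by
  ext x
  unfold Kst
  apply integral_congr_ae
  filter_upwards [h] with y hy
  rw [hy]

theorem dpot_congr {φ ψ : E3 → ℝ} (h : φ =ᵐ[surf g] ψ) : dpot g φ = dpot g ψ := by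
  ext1 x
  unfold dpot
  apply integral_congr_ae
  filter_upwards [h] with y hy
  rw [hy]

theorem Dom.En_symm (hg : Dom g) {φ ψ : E3 → ℝ} (hφ : MemLp φ 2 (surf g))
    (hψ : MemLp ψ 2 (surf g)) : En g φ ψ = En g ψ φ := by
  have hfin := hg.isFiniteMeasure_surf
  obtain ⟨C, hC, h⟩ := hg.schur_Gam
  have h1 := h.integrable_prod hφ hψ
  unfold En pot
  have e1 : ∫ x, (∫ y, Gam x y * ψ y ∂(surf g)) * φ x ∂(surf g)
      = ∫ x, ∫ y, Gam x y * ψ y * φ x ∂(surf g) ∂(surf g) := by
    congr 1; ext x; rw [integral_mul_const]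
  have e2 : ∫ x, (∫ y, Gam x y * φ y ∂(surf g)) * ψ x ∂(surf g)
      = ∫ x, ∫ y, Gam x y * φ y * ψ x ∂(surf g) ∂(surf g) := by
    congr 1; ext x; rw [integral_mul_const]
  rw [e1, e2, integral_integral_swap h1]
  congr 1
  ext x
  congr 1
  ext y
  rw [Gam_comm]
  ring

/-- off-diagonal points have full measure -/
theorem Dom.ae_off_diag (hg : Dom g) :
    ∀ᵐ p ∂((surf g).prod (surf g)), p.1 ≠ p.2 := by
  have hfin := hg.isFiniteMeasure_surf
  rw [ae_iff]
  have hset : {p : E3 × E3 | ¬ p.1 ≠ p.2} = {p : E3 × E3 | p.1 = p.2} := by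
    ext p; simp
  rw [hset]
  have hm : MeasurableSet {p : E3 × E3 | p.1 = p.2} :=
    (isClosed_eq continuous_fst continuous_snd).measurableSet
  rw [Measure.prod_apply hm]
  have : ∀ x, surf g (Prod.mk x ⁻¹' {p : E3 × E3 | p.1 = p.2}) = 0 := by
    intro x
    have e : (Prod.mk x ⁻¹' {p : E3 × E3 | p.1 = p.2}) = {x} := by
      ext y; simp [eq_comm]
    rw [e]
    exact hg.surf_singleton x
  rw [lintegral_congr this, lintegral_zero]

/-- bound for kernels off the surface -/
theorem Dom.integrable_dGam_smul (hg : Dom g) {φ : E3 → ℝ} (hφ : Integrable φ (surf g)) {x : E3}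
    (hx : g x ≠ 0) : Integrable (fun y => φ y • dGam x y) (surf g) := by
  obtain ⟨d, hd, h⟩ := hg.exists_dist_pos hx
  refine (hφ.norm.mul_const (1 / (4 * Real.pi) * (d⁻¹) ^ 2)).mono' ?_ ?_
  · exact hφ.1.smul (meas_dGam measurable_const measurable_id).aestronglyMeasurable
  · filter_upwards [hg.ae_mem] with y hy
    rw [norm_smul, norm_dGam]
    have := h y hy x (mem_ball_self hd)
    rw [norm_sub_rev x y]
    gcongr

theorem Dom.integrable_Gam_smul (hg : Dom g) {φ : E3 → ℝ} (hφ : Integrable φ (surf g)) {x : E3}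
    (hx : g x ≠ 0) : Integrable (fun y => Gam x y * φ y) (surf g) := by
  obtain ⟨d, hd, h⟩ := hg.exists_dist_pos hx
  refine (hφ.norm.const_mul (1 / (4 * Real.pi) * d⁻¹)).mono' ?_ ?_
  · exact (meas_Gam measurable_const measurable_id).aestronglyMeasurable.mul hφ.1
  · filter_upwards [hg.ae_mem] with y hy
    rw [norm_mul, Gam_eq, Real.norm_eq_abs (1 / (4 * Real.pi) * ‖x - y‖⁻¹),
      abs_of_nonneg (show 0 ≤ 1 / (4 * Real.pi) * ‖x - y‖⁻¹ by positivity)]
    have := h y hy x (mem_ball_self hd)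
    rw [norm_sub_rev x y]
    gcongr

theorem Dom.ae_off (hg : Dom g) : ∀ᵐ x : E3, g x ≠ 0 := by
  rw [ae_iff]
  simpa using hg.volume_S

/-- the general Fubini statement for energies on a set `A` -/
theorem Dom.integral_dpot_general (hg : Dom g) {φ ψ : E3 → ℝ} (hφ : MemLp φ 2 (surf g))
    (hψ : MemLp ψ 2 (surf g)) (A : Set E3) :
    IntegrableOn (fun x => (inner ℝ (dpot g φ x) (dpot g ψ x) : ℝ)) A ∧
    ∫ x in A, inner ℝ (dpot g φ x) (dpot g ψ x)
      = ∫ p, φ p.1 * ψ p.2 * (∫ x in A, inner ℝ (dGam x p.1) (dGam x p.2)) ∂((surf g).prod (surf g)) := by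
  have hfin := hg.isFiniteMeasure_surf
  have hV := V3_pos
  obtain ⟨C, hC, hS⟩ := hg.schur_Gam
  set T : E3 × (E3 × E3) → ℝ := fun q =>
    φ q.2.1 * ψ q.2.2 * inner ℝ (dGam q.1 q.2.1) (dGam q.1 q.2.2) with hT
  have hTm : AEStronglyMeasurable T ((volume.restrict A).prod ((surf g).prod (surf g))) := by
    have hm1 : AEStronglyMeasurable (fun q : E3 × (E3 × E3) => φ q.2.1)
        ((volume.restrict A).prod ((surf g).prod (surf g))) :=
      (hφ.1.comp_fst (ν := surf g)).comp_snd
    have hm2 : AEStronglyMeasurable (fun q : E3 × (E3 × E3) => ψ q.2.2)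
        ((volume.restrict A).prod ((surf g).prod (surf g))) :=
      (hψ.1.comp_snd (μ := surf g)).comp_snd
    have hm3 : Measurable (fun q : E3 × (E3 × E3) => (inner ℝ (dGam q.1 q.2.1) (dGam q.1 q.2.2) : ℝ)) := by
      apply Measurable.inner
      · exact meas_dGam measurable_fst (measurable_fst.comp measurable_snd)
      · exact meas_dGam measurable_fst (measurable_snd.comp measurable_snd)
    exact (hm1.mul hm2).mul hm3.aestronglyMeasurable
  have hTi : Integrable T ((volume.restrict A).prod ((surf g).prod (surf g))) := by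
    rw [integrable_prod_iff' hTm]
    constructor
    · filter_upwards [hg.ae_off_diag] with p hp
      have h1 : Integrable (fun x => ‖dGam x p.1‖ * ‖dGam x p.2‖) (volume.restrict A) :=
        (integrable_dGam_mul hp.symm).integrableOn
      refine (h1.const_mul (|φ p.1 * ψ p.2|)).mono' ?_ ?_
      · have hmm : Measurable (fun x => (inner ℝ (dGam x p.1) (dGam x p.2) : ℝ)) :=
          (measurable_dGam p.1).inner (measurable_dGam p.2)
        exact (hmm.const_mul (φ p.1 * ψ p.2)).aestronglyMeasurable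
      · filter_upwards with x
        simp only [hT]
        rw [norm_mul, Real.norm_eq_abs]
        gcongr
        exact norm_inner_le_norm _ _
    · have h1 := (hS.integrable_prod hφ hψ).norm.const_mul (16 * V3 / Real.pi)
      have h2 := h1.swap
      refine h2.mono' ?_ ?_
      · exact (hTm.norm.prod_swap).integral_prod_right'
      · filter_upwards [hg.ae_off_diag] with p hp
        rw [Real.norm_eq_abs, abs_of_nonneg (integral_nonneg fun x => norm_nonneg _)]
        have h3 : ∫ x in A, ‖T (x, p)‖ ≤ ∫ x, |φ p.1 * ψ p.2| * (‖dGam x p.1‖ * ‖dGam x p.2‖) := by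
          calc ∫ x in A, ‖T (x, p)‖
              ≤ ∫ x in A, |φ p.1 * ψ p.2| * (‖dGam x p.1‖ * ‖dGam x p.2‖) := by
                apply integral_mono_of_nonneg
                · filter_upwards with x using norm_nonneg _
                · exact ((integrable_dGam_mul hp.symm).const_mul _).integrableOn
                · filter_upwards with x
                  simp only [hT]
                  rw [norm_mul, Real.norm_eq_abs]
                  gcongr
                  exact norm_inner_le_norm _ _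
            _ ≤ ∫ x, |φ p.1 * ψ p.2| * (‖dGam x p.1‖ * ‖dGam x p.2‖) := by
                apply setIntegral_le_integral
                · exact (integrable_dGam_mul hp.symm).const_mul _
                · filter_upwards with x
                  positivity
        refine h3.trans ?_
        rw [integral_const_mul]
        have h4 : ∫ x, ‖dGam x p.1‖ * ‖dGam x p.2‖ ≤ 16 * V3 / Real.pi * Gam p.1 p.2 := by
          have h5 := lintegral_dGam_mul_le hp.symm
          rw [Gam_comm p.2 p.1] at h5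
          have h6 : ∫ x, ‖dGam x p.1‖ * ‖dGam x p.2‖
              = (∫⁻ x, ‖dGam x p.1‖ₑ * ‖dGam x p.2‖ₑ).toReal := by
            rw [integral_eq_lintegral_of_nonneg_ae]
            · congr 1
              apply lintegral_congr
              intro x
              rw [ENNReal.ofReal_mul (norm_nonneg _), ofReal_norm, ofReal_norm]
            · filter_upwards with x
              positivity
            · exact ((measurable_dGam p.1).norm.mul (measurable_dGam p.2).norm).aestronglyMeasurable
          rw [h6]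
          calc (∫⁻ x, ‖dGam x p.1‖ₑ * ‖dGam x p.2‖ₑ).toReal
              ≤ (ENNReal.ofReal (16 * V3 / Real.pi) * ‖Gam p.1 p.2‖ₑ).toReal := by
                apply ENNReal.toReal_mono _ h5
                exact (ENNReal.mul_lt_top ENNReal.ofReal_lt_top (by simp)).ne
            _ = 16 * V3 / Real.pi * Gam p.1 p.2 := by
                rw [ENNReal.toReal_mul, ENNReal.toReal_ofReal (by positivity), toReal_enorm,
                  Real.norm_eq_abs, abs_of_nonneg (Gam_nonneg _ _)]
        simp only [Function.comp_apply, Prod.fst_swap, Prod.snd_swap, norm_mul, Real.norm_eq_abs]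
        rw [abs_mul, abs_of_nonneg (Gam_nonneg _ _)]
        calc |φ p.1| * |ψ p.2| * ∫ x, ‖dGam x p.1‖ * ‖dGam x p.2‖
            ≤ |φ p.1| * |ψ p.2| * (16 * V3 / Real.pi * Gam p.1 p.2) := by gcongr
          _ = 16 * V3 / Real.pi * (Gam p.2 p.1 * |φ p.1| * |ψ p.2|) := by
              rw [Gam_comm p.2 p.1]; ring
  have hinner : ∀ᵐ x ∂(volume.restrict A), ∫ p, T (x, p) ∂((surf g).prod (surf g))
      = inner ℝ (dpot g φ x) (dpot g ψ x) := by
    have h1 : ∀ᵐ x ∂(volume.restrict A), Integrable (fun p => T (x, p)) ((surf g).prod (surf g)) :=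
      hTi.prod_right_ae
    filter_upwards [h1, ae_restrict_of_ae hg.ae_off] with x hx hxo
    rw [integral_prod _ hx]
    have i1 := hg.integrable_dGam_smul (hg.integrable_of_memLp hφ) hxo
    have i2 := hg.integrable_dGam_smul (hg.integrable_of_memLp hψ) hxo
    have e1 : ∀ z, ∫ y, T (x, (z, y)) ∂(surf g) = inner ℝ (dpot g ψ x) (φ z • dGam x z) := by
      intro z
      unfold dpot
      rw [real_inner_comm, ← integral_inner i2]
      congr 1
      ext y
      simp only [hT]
      rw [inner_smul_left, inner_smul_right]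
      simp only [conj_trivial]
      ring
    simp_rw [e1]
    rw [integral_inner i1, real_inner_comm]
    rfl
  constructor
  · have h1 := hTi.integral_prod_left
    exact h1.congr hinner
  · calc ∫ x in A, inner ℝ (dpot g φ x) (dpot g ψ x)
        = ∫ x in A, ∫ p, T (x, p) ∂((surf g).prod (surf g)) :=
          (integral_congr_ae hinner).symm
      _ = ∫ p, (∫ x in A, T (x, p)) ∂((surf g).prod (surf g)) :=
          integral_integral_swap (f := fun x p => T (x, p)) hTi
      _ = _ := by
          congr 1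
          ext p
          simp only [hT]
          rw [integral_const_mul]

/-- energy in the whole space -/
theorem Dom.integral_dpot_whole (hg : Dom g) {φ ψ : E3 → ℝ} (hφ : MemLp φ 2 (surf g))
    (hψ : MemLp ψ 2 (surf g)) :
    Integrable (fun x => (inner ℝ (dpot g φ x) (dpot g ψ x) : ℝ)) ∧
    ∫ x, inner ℝ (dpot g φ x) (dpot g ψ x) = En g φ ψ := by
  have hfin := hg.isFiniteMeasure_surf
  obtain ⟨C, hC, hS⟩ := hg.schur_Gam
  obtain ⟨h1, h2⟩ := hg.integral_dpot_general hφ hψ univ
  rw [Measure.restrict_univ] at h2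
  rw [integrableOn_univ] at h1
  refine ⟨h1, ?_⟩
  rw [h2, hg.En_symm hφ hψ]
  have e1 : ∫ p, φ p.1 * ψ p.2 * (∫ x in univ, inner ℝ (dGam x p.1) (dGam x p.2)) ∂((surf g).prod (surf g))
      = ∫ p, Gam p.1 p.2 * ψ p.2 * φ p.1 ∂((surf g).prod (surf g)) := by
    apply integral_congr_ae
    filter_upwards [hg.ae_off_diag] with p hp
    rw [Measure.restrict_univ, kernel_energy_whole hp.symm, Gam_comm]
    ring
  have h3 := hS.integrable_prod hψ hφ
  rw [Measure.restrict_univ] at e1
  rw [e1, integral_prod _ h3]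
  unfold En pot
  congr 1
  ext x
  simp only
  rw [integral_mul_const]

/-- energy in `Ω`: `∫_Ω ∇V_φ·∇V_ψ = D(φ, (1/2 - K*)ψ)` -/
theorem Dom.integral_dpot_Om (hg : Dom g) {φ ψ : E3 → ℝ} (hφ : MemLp φ 2 (surf g))
    (hψ : MemLp ψ 2 (surf g)) :
    ∫ x in Om g, inner ℝ (dpot g φ x) (dpot g ψ x)
      = (1 / 2) * En g φ ψ - En g φ (Kst g ψ) := by
  have hfin := hg.isFiniteMeasure_surf
  obtain ⟨C, hC, hS⟩ := hg.schur_Gam
  obtain ⟨C', hC', hS'⟩ := hg.schur_kNP
  obtain ⟨h1, h2⟩ := hg.integral_dpot_general hφ hψ (Om g)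
  rw [h2]
  have h3 := hS.integrable_prod hψ hφ
  have h4 := hS.integrable_triple hS' hφ hψ
  set R : E3 × (E3 × E3) → ℝ := fun q => (Gam q.1 q.2.1 * φ q.2.1) * (kNP g q.1 q.2.2 * ψ q.2.2) with hR
  have hmem : ∀ᵐ p ∂((surf g).prod (surf g)), g p.1 = 0 ∧ g p.2 = 0 := by
    have a1 : ∀ᵐ p ∂((surf g).prod (surf g)), g p.1 = 0 :=
      Measure.quasiMeasurePreserving_fst.ae hg.ae_mem
    have a2 : ∀ᵐ p ∂((surf g).prod (surf g)), g p.2 = 0 :=
      Measure.quasiMeasurePreserving_snd.ae hg.ae_mem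
    filter_upwards [a1, a2] with p b1 b2 using ⟨b1, b2⟩
  have e1 : ∫ p, φ p.1 * ψ p.2 * (∫ x in Om g, inner ℝ (dGam x p.1) (dGam x p.2)) ∂((surf g).prod (surf g))
      = ∫ p, ((1 / 2) * (Gam p.1 p.2 * ψ p.2 * φ p.1) - ∫ x, R (x, p) ∂(surf g)) ∂((surf g).prod (surf g)) := by
    apply integral_congr_ae
    filter_upwards [hg.ae_off_diag, hmem] with p hp hpm
    rw [hg.kernel_energy hp.symm hpm.2]
    have e2 : ∫ x, R (x, p) ∂(surf g) = φ p.1 * ψ p.2 * ∫ x, Gam x p.1 * kNP g x p.2 ∂(surf g) := by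
      rw [← integral_const_mul]
      congr 1
      ext x
      simp only [hR]
      ring
    rw [e2, Gam_comm p.2 p.1]
    ring
  rw [e1, integral_sub (h3.const_mul _) h4.integral_prod_right, integral_const_mul,
    integral_prod _ h3]
  congr 1
  · rw [hg.En_symm hφ hψ]
    unfold En pot
    congr 2
    ext x
    simp only
    rw [integral_mul_const]
  · have e3 : ∫ p, ∫ x, R (x, p) ∂(surf g) ∂((surf g).prod (surf g))
        = ∫ x, ∫ p, R (x, p) ∂((surf g).prod (surf g)) ∂(surf g) :=
      (integral_integral_swap (f := fun x p => R (x, p)) h4).symm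
    rw [e3]
    unfold En pot Kst
    congr 1
    ext x
    simp only [hR]
    exact integral_prod_mul (fun z => Gam x z * φ z) (fun y => kNP g x y * ψ y)

theorem Dom.En_Kst_symm (hg : Dom g) {φ ψ : E3 → ℝ} (hφ : MemLp φ 2 (surf g))
    (hψ : MemLp ψ 2 (surf g)) : En g φ (Kst g ψ) = En g (Kst g φ) ψ := by
  have h1 := hg.integral_dpot_Om hφ hψ
  have h2 := hg.integral_dpot_Om hψ hφ
  have h3 : ∫ x in Om g, (inner ℝ (dpot g φ x) (dpot g ψ x) : ℝ)
      = ∫ x in Om g, inner ℝ (dpot g ψ x) (dpot g φ x) := by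
    congr 1
    ext x
    rw [real_inner_comm]
  have h4 := hg.En_symm hφ hψ
  have h5 := hg.En_symm hψ (hg.memLp_Kst hφ)
  linarith

theorem Dom.En_self_nonneg (hg : Dom g) {φ : E3 → ℝ} (hφ : MemLp φ 2 (surf g)) :
    0 ≤ En g φ φ := by
  rw [← (hg.integral_dpot_whole hφ hφ).2]
  exact integral_nonneg fun x => real_inner_self_nonneg

end Pool.Agent.NP
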