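import Pool.Agent.Lib_h26.Energy

/-! Module D, part 2: weak forms, traces, regularity off the surface, definiteness. -/

set_option autoImplicit false

open MeasureTheory Measure Metric Set Filter
open scoped Topology ENNReal

namespace Pool.Agent.NP

variable {g : E3 → ℝ}

/-- Fubini with a kernel having uniformly bounded columns -/
theorem integrable_prod_of_col {ν μ : Measure E3} [SFinite ν] [SFinite μ] {k : E3 → E3 → ℝ}
    (hk : Measurable (fun p : E3 × E3 => k p.1 p.2)) {C : ℝ}
    (hC : ∀ᵐ y ∂μ, ∫⁻ x, ‖k x y‖ₑ ∂ν ≤ ENNReal.ofReal C) {φ : E3 → ℝ} (hφ : Integrable φ μ) :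
    Integrable (fun p : E3 × E3 => k p.1 p.2 * φ p.2) (ν.prod μ) := by
  have hm : AEStronglyMeasurable (fun p : E3 × E3 => k p.1 p.2 * φ p.2) (ν.prod μ) :=
    hk.aestronglyMeasurable.mul hφ.1.comp_snd
  have hky : ∀ y, Measurable (fun x => k x y) := fun y =>
    hk.comp (measurable_id.prodMk measurable_const)
  rw [integrable_prod_iff' hm]
  constructor
  · filter_upwards [hC] with y hy
    have : Integrable (fun x => k x y) ν :=
      ⟨(hky y).aestronglyMeasurable, hy.trans_lt ENNReal.ofReal_lt_top⟩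
    exact this.mul_const _
  · refine (hφ.norm.const_mul |C|).mono' ?_ ?_
    · exact (hm.norm.prod_swap).integral_prod_right'
    · filter_upwards [hC] with y hy
      rw [Real.norm_eq_abs, abs_of_nonneg (integral_nonneg fun x => norm_nonneg _)]
      simp only [norm_mul]
      rw [integral_mul_const]
      gcongr
      rw [integral_norm_eq_lintegral_enorm (hky y).aestronglyMeasurable]
      calc (∫⁻ x, ‖k x y‖ₑ ∂ν).toReal ≤ (ENNReal.ofReal C).toReal :=
            ENNReal.toReal_mono ENNReal.ofReal_ne_top hy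
        _ ≤ |C| := by rw [ENNReal.toReal_ofReal']; exact max_le (le_abs_self C) (abs_nonneg C)

theorem fubini_col {ν μ : Measure E3} [SFinite ν] [SFinite μ] {k : E3 → E3 → ℝ}
    (hk : Measurable (fun p : E3 × E3 => k p.1 p.2)) {C : ℝ}
    (hC : ∀ᵐ y ∂μ, ∫⁻ x, ‖k x y‖ₑ ∂ν ≤ ENNReal.ofReal C) {φ : E3 → ℝ} (hφ : Integrable φ μ) :
    ∫ x, (∫ y, k x y * φ y ∂μ) ∂ν = ∫ y, (∫ x, k x y ∂ν) * φ y ∂μ := by
  have h := integrable_prod_of_col hk hC hφ
  rw [integral_integral_swap (f := fun x y => k x y * φ y) h]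
  congr 1
  ext y
  rw [integral_mul_const]

/-- uniform bounds for the kernels on bounded sets -/
theorem Dom.lintegral_dGam_bounded (hg : Dom g) {B : Set E3} (hB : Bornology.IsBounded B) :
    ∃ C : ℝ, 0 < C ∧ ∀ y, g y = 0 → ∫⁻ x in B, ‖dGam x y‖ₑ ≤ ENNReal.ofReal C := by
  have hV := V3_pos
  obtain ⟨R, hR⟩ := (hB.union hg.isCompact_S.isBounded).subset_closedBall 0
  refine ⟨2 * V3 / Real.pi * (2 * |R| + 1), by positivity, fun y hy => ?_⟩
  refine le_trans ?_ (lintegral_dGam_closedBall_le y (by positivity))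
  apply lintegral_mono_set
  intro x hx
  have h1 := hR (Or.inl hx)
  have h2 := hR (Or.inr (show g y = 0 from hy))
  rw [mem_closedBall] at h1 h2 ⊢
  have h3 := dist_triangle x 0 y
  rw [dist_comm 0 y] at h3
  linarith [le_abs_self R]

theorem Dom.lintegral_Gam_bounded (hg : Dom g) {B : Set E3} (hB : Bornology.IsBounded B) :
    ∃ C : ℝ, 0 < C ∧ ∀ y, g y = 0 → ∫⁻ x in B, ‖Gam x y‖ₑ ≤ ENNReal.ofReal C := by
  obtain ⟨C, hC, h⟩ := hg.lintegral_dGam_bounded hB
  have hfin : volume B < ⊤ := hB.measure_lt_top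
  refine ⟨1 / (4 * Real.pi) * (volume B).toReal + C, by positivity, fun y hy => ?_⟩
  calc ∫⁻ x in B, ‖Gam x y‖ₑ ≤ ∫⁻ x in B, (ENNReal.ofReal (1 / (4 * Real.pi)) + ‖dGam x y‖ₑ) := by
        apply lintegral_mono
        intro x
        simp only
        rw [← ofReal_norm, ← ofReal_norm, ← ENNReal.ofReal_add (by positivity) (norm_nonneg _)]
        apply ENNReal.ofReal_le_ofReal
        rw [Real.norm_eq_abs, abs_of_nonneg (Gam_nonneg x y), Gam_eq, norm_dGam]
        have h2 : ‖x - y‖⁻¹ ≤ 1 + (‖x - y‖⁻¹) ^ 2 := by nlinarith [sq_nonneg (‖x - y‖⁻¹ - 1 / 2)]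
        calc 1 / (4 * Real.pi) * ‖x - y‖⁻¹ ≤ 1 / (4 * Real.pi) * (1 + (‖x - y‖⁻¹) ^ 2) := by gcongr
          _ = _ := by ring
    _ = ENNReal.ofReal (1 / (4 * Real.pi)) * volume B + ∫⁻ x in B, ‖dGam x y‖ₑ := by
        rw [lintegral_add_left measurable_const, lintegral_const, Measure.restrict_apply_univ]
    _ ≤ ENNReal.ofReal (1 / (4 * Real.pi)) * volume B + ENNReal.ofReal C := by
        gcongr
        exact h y hy
    _ = _ := by
        rw [ENNReal.ofReal_add (by positivity) hC.le, ENNReal.ofReal_mul (by positivity),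
          ENNReal.ofReal_toReal hfin.ne]

theorem Dom.inner_dpot (hg : Dom g) {φ : E3 → ℝ} (hφ : Integrable φ (surf g)) {x : E3}
    (hx : g x ≠ 0) (v : E3) :
    inner ℝ (dpot g φ x) v = ∫ y, inner ℝ (dGam x y) v * φ y ∂(surf g) := by
  unfold dpot
  rw [real_inner_comm, ← integral_inner (hg.integrable_dGam_smul hφ hx)]
  congr 1
  ext y
  rw [inner_smul_right, real_inner_comm]
  ring

theorem Dom.clm_dpot (hg : Dom g) {φ : E3 → ℝ} (hφ : Integrable φ (surf g)) {x : E3}
    (hx : g x ≠ 0) (L : E3 →L[ℝ] ℝ) :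
    L (dpot g φ x) = ∫ y, L (dGam x y) * φ y ∂(surf g) := by
  unfold dpot
  rw [← L.integral_comp_comm (hg.integrable_dGam_smul hφ hx)]
  congr 1
  ext y
  rw [map_smul, smul_eq_mul]
  ring

/-- general weak form: for `A` measurable -/
theorem Dom.weak_general (hg : Dom g) {φ : E3 → ℝ} (hφ : Integrable φ (surf g)) {w : E3 → ℝ}
    (hw : ContDiff ℝ 1 w) (hc : HasCompactSupport w) (A : Set E3) :
    ∫ x in A, fderiv ℝ w x (dpot g φ x)
      = ∫ y, (∫ x in A, fderiv ℝ w x (dGam x y)) * φ y ∂(surf g) := by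
  have hfin := hg.isFiniteMeasure_surf
  have hcont : Continuous (fun x => ‖fderiv ℝ w x‖) := (hw.continuous_fderiv (by norm_num)).norm
  have hcs : HasCompactSupport (fun x => ‖fderiv ℝ w x‖) := (hc.fderiv (𝕜 := ℝ)).norm
  obtain ⟨W, hW⟩ := hcont.bounded_above_of_compact_support hcs
  obtain ⟨C, hC, h⟩ := hg.lintegral_dGam_bounded (B := tsupport w) hc.isBounded
  have hbd : ∀ y, g y = 0 → ∫⁻ x in A, ‖fderiv ℝ w x (dGam x y)‖ₑ ≤ ENNReal.ofReal (W * C) := by
    intro y hy
    have hW0 : 0 ≤ W := (norm_nonneg _).trans (hW 0)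
    calc ∫⁻ x in A, ‖fderiv ℝ w x (dGam x y)‖ₑ
        ≤ ∫⁻ x in A, (tsupport w).indicator (fun x => ENNReal.ofReal W * ‖dGam x y‖ₑ) x := by
          apply lintegral_mono
          intro x
          simp only
          by_cases hx : x ∈ tsupport w
          · rw [indicator_of_mem hx, ← ofReal_norm, ← ofReal_norm, ← ENNReal.ofReal_mul hW0]
            apply ENNReal.ofReal_le_ofReal
            refine (ContinuousLinearMap.le_opNorm _ _).trans ?_
            have := hW x
            rw [norm_norm] at this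
            gcongr
          · have e2 : fderiv ℝ w x = 0 := by
              by_contra hne
              exact hx (support_fderiv_subset ℝ hne)
            rw [e2]
            simp
      _ ≤ ∫⁻ x, (tsupport w).indicator (fun x => ENNReal.ofReal W * ‖dGam x y‖ₑ) x :=
          setLIntegral_le_lintegral _ _
      _ = ENNReal.ofReal W * ∫⁻ x in tsupport w, ‖dGam x y‖ₑ := by
          rw [lintegral_indicator (isClosed_tsupport w).measurableSet,
            lintegral_const_mul' _ _ ENNReal.ofReal_ne_top]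
      _ ≤ ENNReal.ofReal W * ENNReal.ofReal C := by gcongr; exact h y hy
      _ = _ := by rw [← ENNReal.ofReal_mul hW0]
  have hF := fubini_col (ν := volume.restrict A) (μ := surf g)
    (k := fun x y => fderiv ℝ w x (dGam x y)) (measurable_fderiv_dGam hw) (C := W * C)
    (by filter_upwards [hg.ae_mem] with y hy using hbd y hy) hφ
  rw [← hF]
  apply integral_congr_ae
  filter_upwards [ae_restrict_of_ae hg.ae_off] with x hx
  exact hg.clm_dpot hφ hx _

theorem bounded_col {k : E3 → E3 → ℝ} {C : ℝ} (hk : SchurBound (surf g) k C)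
    {w : E3 → ℝ} {W : ℝ} (hW0 : 0 ≤ W) (hW : ∀ x, |w x| ≤ W) :
    ∀ᵐ y ∂(surf g), ∫⁻ x, ‖w x * k x y‖ₑ ∂(surf g) ≤ ENNReal.ofReal (W * C) := by
  filter_upwards [hk.col] with y hy
  calc ∫⁻ x, ‖w x * k x y‖ₑ ∂(surf g) ≤ ∫⁻ x, ENNReal.ofReal W * ‖k x y‖ₑ ∂(surf g) := by
        apply lintegral_mono
        intro x
        simp only
        rw [enorm_mul]
        gcongr
        rw [← ofReal_norm]
        exact ENNReal.ofReal_le_ofReal (hW x)
    _ = ENNReal.ofReal W * ∫⁻ x, ‖k x y‖ₑ ∂(surf g) := lintegral_const_mul' _ _ ENNReal.ofReal_ne_top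
    _ ≤ ENNReal.ofReal W * ENNReal.ofReal C := by gcongr
    _ = _ := by rw [← ENNReal.ofReal_mul hW0]

/-- moving `K*` to the test function -/
theorem Dom.integral_mul_Kst (hg : Dom g) {φ : E3 → ℝ} (hφ : Integrable φ (surf g)) {w : E3 → ℝ}
    (hwm : Measurable w) {W : ℝ} (hW : ∀ x, |w x| ≤ W) :
    ∫ x, w x * Kst g φ x ∂(surf g) = ∫ y, (∫ x, w x * kNP g x y ∂(surf g)) * φ y ∂(surf g) := by
  have hfin := hg.isFiniteMeasure_surf
  have hW0 : 0 ≤ W := (abs_nonneg _).trans (hW 0)
  obtain ⟨C, hC, hk⟩ := hg.schur_kNP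
  have hF := fubini_col (ν := surf g) (μ := surf g) (k := fun x y => w x * kNP g x y)
    ((hwm.comp measurable_fst).mul hg.measurable_kNP) (C := W * C) (bounded_col hk hW0 hW) hφ
  rw [← hF]
  congr 1
  ext x
  unfold Kst
  rw [← integral_const_mul]
  congr 1
  ext y
  ring

/-- weak form in `Ω` -/
theorem Dom.weak_Om (hg : Dom g) {φ : E3 → ℝ} (hφ : Integrable φ (surf g)) {w : E3 → ℝ}
    (hw : ContDiff ℝ 1 w) (hc : HasCompactSupport w) :
    ∫ x in Om g, fderiv ℝ w x (dpot g φ x)
      = (1 / 2) * (∫ x, w x * φ x ∂(surf g)) - ∫ x, w x * Kst g φ x ∂(surf g) := by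
  have hfin := hg.isFiniteMeasure_surf
  obtain ⟨W, hW⟩ := hw.continuous.bounded_above_of_compact_support hc
  have hW0 : 0 ≤ W := (norm_nonneg _).trans (hW 0)
  obtain ⟨C, hC, hk⟩ := hg.schur_kNP
  rw [hg.weak_general hφ hw hc, hg.integral_mul_Kst hφ hw.continuous.measurable hW]
  have e1 : ∫ y, (∫ x in Om g, fderiv ℝ w x (dGam x y)) * φ y ∂(surf g)
      = ∫ y, ((1 / 2) * (w y * φ y) - (∫ x, w x * kNP g x y ∂(surf g)) * φ y) ∂(surf g) := by
    apply integral_congr_ae
    filter_upwards [hg.ae_mem] with y hy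
    rw [hg.kernel_gauss hw hc y]
    simp only [dens, hy, lt_irrefl, if_false, if_true]
    ring
  rw [e1, integral_sub, integral_const_mul]
  · apply Integrable.const_mul
    exact hφ.bdd_mul hw.continuous.aestronglyMeasurable (Eventually.of_forall hW)
  · have h1 := integrable_prod_of_col (ν := surf g) (μ := surf g) (k := fun x y => w x * kNP g x y)
      ((hw.continuous.measurable.comp measurable_fst).mul hg.measurable_kNP) (C := W * C)
      (bounded_col hk hW0 hW) hφ
    have h2 := h1.integral_prod_right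
    refine h2.congr (Eventually.of_forall fun y => ?_)
    simp only
    rw [integral_mul_const]

/-- weak form in the whole space -/
theorem Dom.weak_whole (hg : Dom g) {φ : E3 → ℝ} (hφ : Integrable φ (surf g)) {w : E3 → ℝ}
    (hw : ContDiff ℝ 1 w) (hc : HasCompactSupport w) :
    ∫ x, fderiv ℝ w x (dpot g φ x) = ∫ x, w x * φ x ∂(surf g) := by
  have h := hg.weak_general hφ hw hc univ
  rw [Measure.restrict_univ] at h
  rw [h]
  congr 1
  ext y
  rw [kernel_gauss_whole hw hc y]

/-- trace identity -/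
theorem Dom.trace_pot (hg : Dom g) {φ : E3 → ℝ} (hφ : Integrable φ (surf g)) {w : E3 → ℝ}
    (hw : ContDiff ℝ 1 w) (hc : HasCompactSupport w) (v : E3) :
    ∫ x in Om g, (fderiv ℝ w x v * pot g φ x + w x * inner ℝ (dpot g φ x) v)
      = ∫ x, w x * pot g φ x * inner ℝ (nrm g x) v ∂(surf g) := by
  have hfin := hg.isFiniteMeasure_surf
  obtain ⟨W, hW⟩ := hw.continuous.bounded_above_of_compact_support hc
  have hW0 : 0 ≤ W := (norm_nonneg _).trans (hW 0)
  have hcd : Continuous (fun x => fderiv ℝ w x v) :=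
    continuous_fderiv_apply hw continuous_const
  have hcc : HasCompactSupport (fun x => fderiv ℝ w x v) := hasCompactSupport_fderiv_apply hc _
  obtain ⟨W', hW'⟩ := hcd.bounded_above_of_compact_support hcc
  have hW0' : 0 ≤ W' := (norm_nonneg _).trans (hW' 0)
  obtain ⟨C1, hC1, h1⟩ := hg.lintegral_dGam_bounded hg.isBounded_Om
  obtain ⟨C2, hC2, h2⟩ := hg.lintegral_Gam_bounded hg.isBounded_Om
  obtain ⟨C, hC, hk⟩ := hg.schur_Gam
  -- first Fubini
  have hk1m : Measurable (fun p : E3 × E3 => fderiv ℝ w p.1 v * Gam p.1 p.2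
      + w p.1 * inner ℝ (dGam p.1 p.2) v) := by
    apply Measurable.add
    · exact (hcd.measurable.comp measurable_fst).mul measurable_Gam'
    · exact (hw.continuous.measurable.comp measurable_fst).mul (measurable_dGam'.inner_const)
  have hbd : ∀ᵐ y ∂(surf g), ∫⁻ x in Om g, ‖fderiv ℝ w x v * Gam x y + w x * inner ℝ (dGam x y) v‖ₑ
      ≤ ENNReal.ofReal (W' * C2 + W * ‖v‖ * C1) := by
    filter_upwards [hg.ae_mem] with y hy
    calc ∫⁻ x in Om g, ‖fderiv ℝ w x v * Gam x y + w x * inner ℝ (dGam x y) v‖ₑ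
        ≤ ∫⁻ x in Om g, (ENNReal.ofReal W' * ‖Gam x y‖ₑ + ENNReal.ofReal (W * ‖v‖) * ‖dGam x y‖ₑ) := by
          apply lintegral_mono
          intro x
          simp only
          rw [← ofReal_norm, ← ofReal_norm, ← ofReal_norm, ← ENNReal.ofReal_mul hW0',
            ← ENNReal.ofReal_mul (by positivity), ← ENNReal.ofReal_add (by positivity) (by positivity)]
          apply ENNReal.ofReal_le_ofReal
          refine (norm_add_le _ _).trans ?_
          rw [norm_mul, norm_mul]
          have a1 := hW' x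
          have a2 := hW x
          have a3 : ‖(inner ℝ (dGam x y) v : ℝ)‖ ≤ ‖dGam x y‖ * ‖v‖ := norm_inner_le_norm _ _
          calc ‖fderiv ℝ w x v‖ * ‖Gam x y‖ + ‖w x‖ * ‖(inner ℝ (dGam x y) v : ℝ)‖
              ≤ W' * ‖Gam x y‖ + W * (‖dGam x y‖ * ‖v‖) := by gcongr
            _ = _ := by ring
      _ = ENNReal.ofReal W' * (∫⁻ x in Om g, ‖Gam x y‖ₑ)
          + ENNReal.ofReal (W * ‖v‖) * (∫⁻ x in Om g, ‖dGam x y‖ₑ) := by
          rw [lintegral_add_left, lintegral_const_mul' _ _ ENNReal.ofReal_ne_top,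
            lintegral_const_mul' _ _ ENNReal.ofReal_ne_top]
          exact ((measurable_Gam y).enorm).const_mul _
      _ ≤ ENNReal.ofReal W' * ENNReal.ofReal C2 + ENNReal.ofReal (W * ‖v‖) * ENNReal.ofReal C1 := by
          gcongr
          · exact h2 y hy
          · exact h1 y hy
      _ = _ := by
          rw [← ENNReal.ofReal_mul hW0', ← ENNReal.ofReal_mul (by positivity),
            ← ENNReal.ofReal_add (by positivity) (by positivity)]
  have hF := fubini_col (ν := volume.restrict (Om g)) (μ := surf g)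
    (k := fun x y => fderiv ℝ w x v * Gam x y + w x * inner ℝ (dGam x y) v) hk1m hbd hφ
  -- second Fubini
  have hk2m : Measurable (fun p : E3 × E3 => (w p.1 * inner ℝ (nrm g p.1) v) * Gam p.1 p.2) := by
    apply Measurable.mul _ measurable_Gam'
    exact (hw.continuous.measurable.comp measurable_fst).mul
      ((hg.measurable_nrm.comp measurable_fst).inner_const)
  have hbd2 := bounded_col hk (w := fun x => w x * inner ℝ (nrm g x) v) (W := W * ‖v‖)
    (by positivity) (by
      intro x
      rw [abs_mul]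
      have a2 : |w x| ≤ W := hW x
      have a3 : |(inner ℝ (nrm g x) v : ℝ)| ≤ ‖v‖ := by
        refine (abs_real_inner_le_norm _ _).trans ?_
        have := hg.norm_nrm_le x
        nlinarith [norm_nonneg v]
      gcongr)
  have hF2 := fubini_col (ν := surf g) (μ := surf g)
    (k := fun x y => (w x * inner ℝ (nrm g x) v) * Gam x y) hk2m hbd2 hφ
  have e1 : ∫ x in Om g, (fderiv ℝ w x v * pot g φ x + w x * inner ℝ (dpot g φ x) v)
      = ∫ x in Om g, (∫ y, (fderiv ℝ w x v * Gam x y + w x * inner ℝ (dGam x y) v) * φ y ∂(surf g)) := by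
    apply integral_congr_ae
    filter_upwards [ae_restrict_of_ae hg.ae_off] with x hx
    have i1 := hg.integrable_Gam_smul hφ hx
    have i2 : Integrable (fun y => inner ℝ (dGam x y) v * φ y) (surf g) := by
      have := (hg.integrable_dGam_smul hφ hx).inner_const (𝕜 := ℝ) v
      refine this.congr (Eventually.of_forall fun y => ?_)
      simp only
      rw [inner_smul_left]
      simp only [conj_trivial]
      ring
    rw [hg.inner_dpot hφ hx]
    unfold pot
    rw [← integral_const_mul, ← integral_const_mul, ← integral_add (i1.const_mul _) (i2.const_mul _)]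
    congr 1
    ext y
    ring
  have e2 : ∫ x, w x * pot g φ x * inner ℝ (nrm g x) v ∂(surf g)
      = ∫ x, (∫ y, (w x * inner ℝ (nrm g x) v) * Gam x y * φ y ∂(surf g)) ∂(surf g) := by
    congr 1
    ext x
    unfold pot
    rw [show w x * (∫ y, Gam x y * φ y ∂(surf g)) * inner ℝ (nrm g x) v
      = (w x * inner ℝ (nrm g x) v) * ∫ y, Gam x y * φ y ∂(surf g) by ring, ← integral_const_mul]
    congr 1
    ext y
    ring
  rw [e1, e2, hF, hF2]
  congr 1
  ext y
  congr 1
  rw [hg.kernel_trace hw hc v y]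
  congr 1
  ext x
  ring

theorem hasFDerivAt_Gam {x y : E3} (h : x ≠ y) :
    HasFDerivAt (fun x => Gam x y) (innerSL ℝ (dGam x y)) x := by
  have h0 : 0 < ‖x - y‖ := norm_pos_iff.2 (sub_ne_zero.2 h)
  have h1 : HasFDerivAt (fun x : E3 => x - y) (ContinuousLinearMap.id ℝ E3) x :=
    (hasFDerivAt_id x).sub_const y
  have h2 := (h1.norm_sq).sqrt (by positivity)
  have e1 : (fun x : E3 => Real.sqrt (‖x - y‖ ^ 2)) = fun x => ‖x - y‖ := by
    ext z; exact Real.sqrt_sq (norm_nonneg _)
  rw [e1] at h2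
  have h3 : HasDerivAt (fun t : ℝ => t⁻¹) (-(‖x - y‖ ^ 2)⁻¹) ‖x - y‖ := hasDerivAt_inv h0.ne'
  have h4 := (h3.comp_hasFDerivAt x h2).const_mul (1 / (4 * Real.pi))
  have e2 : (fun x => Gam x y) = fun x => 1 / (4 * Real.pi) * ((fun t : ℝ => t⁻¹) ∘ fun x => ‖x - y‖) x := by
    ext z; rw [Gam_eq]; rfl
  rw [e2]
  convert! h4 using 1
  ext v
  rw [Real.sqrt_sq (norm_nonneg _)]
  simp [dGam]
  field_simp

/-- off the surface the potential is differentiable with gradient `dpot` -/
theorem Dom.hasFDerivAt_pot (hg : Dom g) {φ : E3 → ℝ} (hφ : Integrable φ (surf g)) {x : E3}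
    (hx : g x ≠ 0) : HasFDerivAt (pot g φ) (innerSL ℝ (dpot g φ x)) x := by
  obtain ⟨d, hd, h⟩ := hg.exists_dist_pos hx
  have key := hasFDerivAt_integral_of_dominated_of_fderiv_le (μ := surf g) (𝕜 := ℝ)
    (F := fun x' y => Gam x' y * φ y) (F' := fun x' y => φ y • innerSL ℝ (dGam x' y))
    (x₀ := x) (s := ball x d) (bound := fun y => |φ y| * (1 / (4 * Real.pi) * (d⁻¹) ^ 2))
    (ball_mem_nhds x hd)
    (Eventually.of_forall fun x' =>
      (meas_Gam measurable_const measurable_id).aestronglyMeasurable.mul hφ.1)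
    (hg.integrable_Gam_smul hφ hx)
    (by
      have hmm : AEStronglyMeasurable (fun y => innerSL ℝ (dGam x y)) (surf g) := by
        have h1 : AEStronglyMeasurable (fun y => dGam x y) (surf g) :=
          (meas_dGam measurable_const measurable_id).aestronglyMeasurable
        exact (innerSL ℝ (E := E3)).continuous.comp_aestronglyMeasurable h1
      exact hφ.1.smul hmm)
    (by
      filter_upwards [hg.ae_mem] with y hy
      intro x' hx'
      rw [norm_smul, innerSL_apply_norm, norm_dGam]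
      have := h y hy x' hx'
      rw [norm_sub_rev x' y, Real.norm_eq_abs]
      gcongr)
    (hφ.norm.mul_const _)
    (by
      filter_upwards [hg.ae_mem] with y hy
      intro x' hx'
      have hne : x' ≠ y := by
        rintro rfl
        have := h x' hy x' hx'
        simp at this
        linarith
      have := (hasFDerivAt_Gam hne).mul_const (φ y)
      exact this)
  have e : ∫ y, φ y • innerSL ℝ (dGam x y) ∂(surf g) = innerSL ℝ (dpot g φ x) := by
    unfold dpot
    rw [← ContinuousLinearMap.integral_comp_comm (innerSL ℝ (E := E3)) (hg.integrable_dGam_smul hφ hx)]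
    congr 1
    ext1 y
    rw [map_smul]
  rw [e] at key
  exact key

theorem continuousAt_dGam {x y : E3} (h : x ≠ y) : ContinuousAt (fun x => dGam x y) x := by
  have h0 : ‖x - y‖ ≠ 0 := (norm_pos_iff.2 (sub_ne_zero.2 h)).ne'
  have h1 : ContinuousAt (fun x : E3 => -(1 / (4 * Real.pi * ‖x - y‖ ^ 3))) x := by
    apply ContinuousAt.neg
    apply continuousAt_const.div (by fun_prop)
    have : Real.pi ≠ 0 := Real.pi_ne_zero
    positivity
  have h2 : ContinuousAt (fun x : E3 => x - y) x := by fun_prop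
  exact h1.smul h2

theorem Dom.continuousAt_dpot (hg : Dom g) {φ : E3 → ℝ} (hφ : Integrable φ (surf g)) {x : E3}
    (hx : g x ≠ 0) : ContinuousAt (dpot g φ) x := by
  obtain ⟨d, hd, h⟩ := hg.exists_dist_pos hx
  unfold dpot
  apply continuousAt_of_dominated (bound := fun y => |φ y| * (1 / (4 * Real.pi) * (d⁻¹) ^ 2))
  · filter_upwards with x'
    exact hφ.1.smul (meas_dGam measurable_const measurable_id).aestronglyMeasurable
  · filter_upwards [ball_mem_nhds x hd] with x' hx'
    filter_upwards [hg.ae_mem] with y hy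
    rw [norm_smul, norm_dGam]
    have := h y hy x' hx'
    rw [norm_sub_rev x' y, Real.norm_eq_abs]
    gcongr
  · exact hφ.norm.mul_const _
  · filter_upwards [hg.ae_mem] with y hy
    have hne : x ≠ y := by
      rintro rfl
      exact hx hy
    have hcc : ContinuousAt (fun _ : E3 => φ y) x := continuousAt_const
    exact hcc.smul (continuousAt_dGam hne)

/-- Gauss: `∫ k(x,y) dσ(x)` is the density of `Ω` at `y` -/
theorem Dom.integral_kNP (hg : Dom g) (y : E3) : ∫ x, kNP g x y ∂(surf g) = dens g y := by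
  obtain ⟨χ, U, hU, hOU, hSU, h1, hχ, hχc⟩ := hg.exists_cutoff
  have hw : ContDiff ℝ 1 χ := hχ.of_le (by norm_cast)
  have h2 := hg.kernel_gauss hw hχc y
  have e1 : ∫ x in Om g, fderiv ℝ χ x (dGam x y) = 0 := by
    apply setIntegral_eq_zero_of_forall_eq_zero
    intro x hx
    have : fderiv ℝ χ x = 0 := by
      have h3 : χ =ᶠ[𝓝 x] fun _ => (1 : ℝ) := by
        filter_upwards [hU.mem_nhds (hOU hx)] with z hz using h1 z hz
      rw [h3.fderiv_eq]
      simp
    rw [this]
    simp
  have e2 : ∫ x, χ x * kNP g x y ∂(surf g) = ∫ x, kNP g x y ∂(surf g) := by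
    apply integral_congr_ae
    filter_upwards [hg.ae_mem] with x hx
    rw [h1 x (hSU hx), one_mul]
  have e3 : dens g y * χ y = dens g y := by
    rcases lt_trichotomy (g y) 0 with h | h | h
    · rw [h1 y (hOU h), mul_one]
    · rw [h1 y (hSU h), mul_one]
    · simp [dens, not_lt.2 h.le, h.ne']
  rw [e1, e2, e3] at h2
  linarith

theorem Dom.integral_Kst (hg : Dom g) {φ : E3 → ℝ} (hφ : Integrable φ (surf g)) :
    ∫ x, Kst g φ x ∂(surf g) = (1 / 2) * ∫ x, φ x ∂(surf g) := by
  have h := hg.integral_mul_Kst hφ (w := fun _ => 1) measurable_const (W := 1) (by simp)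
  simp only [one_mul] at h
  rw [h, ← integral_const_mul]
  apply integral_congr_ae
  filter_upwards [hg.ae_mem] with y hy
  rw [hg.integral_kNP y]
  simp [dens, hy]

theorem Dom.ae_eq_zero_of_En_self (hg : Dom g) {φ : E3 → ℝ} (hφ : MemLp φ 2 (surf g))
    (h : En g φ φ = 0) : φ =ᵐ[surf g] 0 := by
  have hfin := hg.isFiniteMeasure_surf
  have hφ1 := hg.integrable_of_memLp hφ
  obtain ⟨h1, h2⟩ := hg.integral_dpot_whole hφ hφ
  rw [h] at h2
  have h3 : (fun x => (inner ℝ (dpot g φ x) (dpot g φ x) : ℝ)) =ᵐ[volume] 0 :=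
    (integral_eq_zero_iff_of_nonneg (fun x => real_inner_self_nonneg) h1).1 h2
  have h4 : ∀ᵐ x ∂(surf g), φ x = 0 := by
    apply ae_eq_zero_of_integral_contDiff_smul_eq_zero hφ1.locallyIntegrable
    intro w hw hwc
    have h5 := hg.weak_whole hφ1 (hw.of_le (by norm_cast)) hwc
    simp only [smul_eq_mul]
    rw [← h5]
    have h6 : ∫ x, fderiv ℝ w x (dpot g φ x) = ∫ _x : E3, (0 : ℝ) := by
      apply integral_congr_ae
      filter_upwards [h3] with x hx
      have : dpot g φ x = 0 := by
        simpa using hx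
      rw [this]
      simp
    rw [h6, integral_zero]
  exact h4

end Pool.Agent.NP
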