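import Pool.Agent.Lib_h26.Cutoff

/-! Module B, part 1: weakly singular integrals. -/

set_option autoImplicit false

open MeasureTheory Measure Metric Set
open scoped Topology ENNReal

namespace Pool.Agent.NP

/-- near part: a measure of dimension `a+1` integrates `|x-y|^{-a}` over small balls -/
theorem lintegral_near_le {μ : Measure E3} {C : ℝ} (hC : 0 ≤ C) (a : ℕ) (y : E3)
    (hμ : ∀ s : ℝ, 0 < s → μ (closedBall y s) ≤ ENNReal.ofReal (C * s ^ (a + 1)))
    {r : ℝ} (hr : 0 < r) :
    ∫⁻ x in closedBall y r, ENNReal.ofReal ((‖x - y‖⁻¹) ^ a) ∂μ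
      ≤ ENNReal.ofReal (C * 2 ^ (a + 1) * r) := by
  have hy0 : μ {y} = 0 := by
    have h1 : ∀ s : ℝ, 0 < s → μ {y} ≤ ENNReal.ofReal (C * s ^ (a + 1)) := fun s hs =>
      (measure_mono (by simp [hs.le])).trans (hμ s hs)
    have h2 : Filter.Tendsto (fun s : ℝ => ENNReal.ofReal (C * s ^ (a + 1))) (𝓝[>] 0)
        (𝓝 (ENNReal.ofReal (C * 0 ^ (a + 1)))) := by
      apply Filter.Tendsto.mono_left _ nhdsWithin_le_nhds
      exact (ENNReal.continuous_ofReal.comp (by fun_prop)).tendsto _
    have h3 := ge_of_tendsto h2 (Filter.eventually_of_mem self_mem_nhdsWithin (fun s hs => h1 s hs))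
    simpa using h3
  -- pointwise bound
  have hpt : ∀ᵐ x ∂(μ.restrict (closedBall y r)), ENNReal.ofReal ((‖x - y‖⁻¹) ^ a)
      ≤ ∑' n : ℕ, (closedBall y (r / 2 ^ n)).indicator
          (fun _ => ENNReal.ofReal ((2 ^ (n + 1) / r) ^ a)) x := by
    have hne : ∀ᵐ x ∂(μ.restrict (closedBall y r)), x ≠ y := by
      apply ae_restrict_of_ae
      rw [ae_iff]
      simpa using hy0
    filter_upwards [hne, ae_restrict_mem measurableSet_closedBall] with x hx hxr
    rw [mem_closedBall, dist_eq_norm] at hxr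
    have hpos : 0 < ‖x - y‖ := norm_pos_iff.2 (sub_ne_zero.2 hx)
    obtain ⟨n, hn1, hn2⟩ : ∃ n : ℕ, ‖x - y‖ ≤ r / 2 ^ n ∧ r / 2 ^ (n + 1) < ‖x - y‖ := by
      have hex : ∃ m : ℕ, r / 2 ^ m < ‖x - y‖ := by
        obtain ⟨m, hm⟩ := pow_unbounded_of_one_lt (r / ‖x - y‖) (one_lt_two (α := ℝ))
        refine ⟨m, ?_⟩
        rw [div_lt_iff₀ hpos] at hm
        rw [div_lt_iff₀ (by positivity)]
        linarith
      classical
      have hm := Nat.find_spec hex
      have hmin := fun k (hk : k < Nat.find hex) => Nat.find_min hex hk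
      rcases Nat.eq_zero_or_pos (Nat.find hex) with h0 | h0
      · rw [h0] at hm
        simp at hm
        linarith
      · refine ⟨Nat.find hex - 1, ?_, ?_⟩
        · have := hmin (Nat.find hex - 1) (by omega)
          push Not at this
          exact this
        · rw [Nat.sub_add_cancel h0]
          exact hm
    refine le_trans ?_ (ENNReal.le_tsum n)
    rw [indicator_of_mem (by rw [mem_closedBall, dist_eq_norm]; exact hn1)]
    apply ENNReal.ofReal_le_ofReal
    gcongr
    rw [inv_le_comm₀ hpos (by positivity), inv_div]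
    exact hn2.le
  calc ∫⁻ x in closedBall y r, ENNReal.ofReal ((‖x - y‖⁻¹) ^ a) ∂μ
      ≤ ∫⁻ x in closedBall y r, ∑' n : ℕ, (closedBall y (r / 2 ^ n)).indicator
          (fun _ => ENNReal.ofReal ((2 ^ (n + 1) / r) ^ a)) x ∂μ := lintegral_mono_ae hpt
    _ = ∑' n : ℕ, ∫⁻ x in closedBall y r, (closedBall y (r / 2 ^ n)).indicator
          (fun _ => ENNReal.ofReal ((2 ^ (n + 1) / r) ^ a)) x ∂μ := by
        rw [lintegral_tsum]
        intro n
        exact (measurable_const.indicator measurableSet_closedBall).aemeasurable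
    _ ≤ ∑' n : ℕ, ENNReal.ofReal (C * 2 ^ a * r * (1 / 2) ^ n) := by
        apply ENNReal.tsum_le_tsum
        intro n
        rw [lintegral_indicator_const measurableSet_closedBall]
        calc ENNReal.ofReal ((2 ^ (n + 1) / r) ^ a) * (μ.restrict (closedBall y r)) (closedBall y (r / 2 ^ n))
            ≤ ENNReal.ofReal ((2 ^ (n + 1) / r) ^ a) * ENNReal.ofReal (C * (r / 2 ^ n) ^ (a + 1)) := by
              gcongr
              exact (restrict_apply_le _ _).trans (hμ _ (by positivity))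
          _ = ENNReal.ofReal ((2 ^ (n + 1) / r) ^ a * (C * (r / 2 ^ n) ^ (a + 1))) := by
              rw [← ENNReal.ofReal_mul (by positivity)]
          _ = ENNReal.ofReal (C * 2 ^ a * r * (1 / 2) ^ n) := by
              congr 1
              rw [div_pow, div_pow, ← pow_mul, one_div, inv_pow]
              field_simp
              ring
    _ = ENNReal.ofReal (∑' n : ℕ, C * 2 ^ a * r * (1 / 2) ^ n) := by
        rw [ENNReal.ofReal_tsum_of_nonneg]
        · intro n; positivity
        · exact (summable_geometric_two).mul_left _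
    _ = ENNReal.ofReal (C * 2 ^ (a + 1) * r) := by
        rw [tsum_mul_left, tsum_geometric_two]
        congr 1
        ring

/-- far part: a measure of dimension `3` integrates `|x-y|^{-4}` away from `y` -/
theorem lintegral_far_le {μ : Measure E3} {C : ℝ} (hC : 0 ≤ C) (y : E3)
    (hμ : ∀ s : ℝ, 0 < s → μ (closedBall y s) ≤ ENNReal.ofReal (C * s ^ 3))
    {r : ℝ} (hr : 0 < r) :
    ∫⁻ x in (ball y r)ᶜ, ENNReal.ofReal ((‖x - y‖⁻¹) ^ 4) ∂μ
      ≤ ENNReal.ofReal (16 * C / r) := by
  have hpt : ∀ᵐ x ∂(μ.restrict (ball y r)ᶜ), ENNReal.ofReal ((‖x - y‖⁻¹) ^ 4)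
      ≤ ∑' n : ℕ, (closedBall y (r * 2 ^ (n + 1))).indicator
          (fun _ => ENNReal.ofReal ((1 / (r * 2 ^ n)) ^ 4)) x := by
    filter_upwards [ae_restrict_mem measurableSet_ball.compl] with x hxr
    rw [mem_compl_iff, mem_ball, dist_eq_norm, not_lt] at hxr
    have hpos : 0 < ‖x - y‖ := hr.trans_le hxr
    obtain ⟨n, hn1, hn2⟩ : ∃ n : ℕ, r * 2 ^ n ≤ ‖x - y‖ ∧ ‖x - y‖ < r * 2 ^ (n + 1) := by
      have hex : ∃ m : ℕ, ‖x - y‖ < r * 2 ^ m := by
        obtain ⟨m, hm⟩ := pow_unbounded_of_one_lt (‖x - y‖ / r) (one_lt_two (α := ℝ))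
        refine ⟨m, ?_⟩
        rw [div_lt_iff₀ hr] at hm
        linarith
      classical
      have hm := Nat.find_spec hex
      have hmin := fun k (hk : k < Nat.find hex) => Nat.find_min hex hk
      rcases Nat.eq_zero_or_pos (Nat.find hex) with h0 | h0
      · rw [h0] at hm
        simp at hm
        linarith
      · refine ⟨Nat.find hex - 1, ?_, ?_⟩
        · have := hmin (Nat.find hex - 1) (by omega)
          push Not at this
          exact this
        · rw [Nat.sub_add_cancel h0]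
          exact hm
    refine le_trans ?_ (ENNReal.le_tsum n)
    rw [indicator_of_mem (by rw [mem_closedBall, dist_eq_norm]; exact hn2.le)]
    apply ENNReal.ofReal_le_ofReal
    gcongr
    rw [inv_eq_one_div]
    gcongr
  calc ∫⁻ x in (ball y r)ᶜ, ENNReal.ofReal ((‖x - y‖⁻¹) ^ 4) ∂μ
      ≤ ∫⁻ x in (ball y r)ᶜ, ∑' n : ℕ, (closedBall y (r * 2 ^ (n + 1))).indicator
          (fun _ => ENNReal.ofReal ((1 / (r * 2 ^ n)) ^ 4)) x ∂μ := lintegral_mono_ae hpt
    _ = ∑' n : ℕ, ∫⁻ x in (ball y r)ᶜ, (closedBall y (r * 2 ^ (n + 1))).indicator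
          (fun _ => ENNReal.ofReal ((1 / (r * 2 ^ n)) ^ 4)) x ∂μ := by
        rw [lintegral_tsum]
        intro n
        exact (measurable_const.indicator measurableSet_closedBall).aemeasurable
    _ ≤ ∑' n : ℕ, ENNReal.ofReal (8 * C / r * (1 / 2) ^ n) := by
        apply ENNReal.tsum_le_tsum
        intro n
        rw [lintegral_indicator_const measurableSet_closedBall]
        calc ENNReal.ofReal ((1 / (r * 2 ^ n)) ^ 4) * (μ.restrict (ball y r)ᶜ) (closedBall y (r * 2 ^ (n + 1)))
            ≤ ENNReal.ofReal ((1 / (r * 2 ^ n)) ^ 4) * ENNReal.ofReal (C * (r * 2 ^ (n + 1)) ^ 3) := by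
              gcongr
              exact (restrict_apply_le _ _).trans (hμ _ (by positivity))
          _ = ENNReal.ofReal ((1 / (r * 2 ^ n)) ^ 4 * (C * (r * 2 ^ (n + 1)) ^ 3)) := by
              rw [← ENNReal.ofReal_mul (by positivity)]
          _ = ENNReal.ofReal (8 * C / r * (1 / 2) ^ n) := by
              congr 1
              rw [div_pow, one_div_pow, pow_succ 2 n]
              field_simp
              ring
    _ = ENNReal.ofReal (∑' n : ℕ, 8 * C / r * (1 / 2) ^ n) := by
        rw [ENNReal.ofReal_tsum_of_nonneg]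
        · intro n; positivity
        · exact (summable_geometric_two).mul_left _
    _ = ENNReal.ofReal (16 * C / r) := by
        rw [tsum_mul_left, tsum_geometric_two]
        congr 1
        ring

/-- volume of the unit ball -/
noncomputable def V3 : ℝ := Real.pi * 4 / 3

theorem V3_pos : 0 < V3 := by unfold V3; positivity

theorem volume_closedBall_E3 (y : E3) {s : ℝ} (hs : 0 ≤ s) :
    volume (closedBall y s) = ENNReal.ofReal (V3 * s ^ 3) := by
  rw [EuclideanSpace.volume_closedBall_fin_three, mul_comm, ← ENNReal.ofReal_pow hs,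
    ← ENNReal.ofReal_mul (by positivity)]
  rfl

theorem volume_closedBall_le (y : E3) (s : ℝ) (hs : 0 < s) :
    volume (closedBall y s) ≤ ENNReal.ofReal (V3 * s ^ (2 + 1)) :=
  (volume_closedBall_E3 y hs.le).le

theorem lintegral_inv_norm_sq_closedBall (y : E3) {r : ℝ} (hr : 0 < r) :
    ∫⁻ x in closedBall y r, ENNReal.ofReal ((‖x - y‖⁻¹) ^ 2) ≤ ENNReal.ofReal (8 * V3 * r) := by
  refine (lintegral_near_le V3_pos.le 2 y (volume_closedBall_le y) hr).trans (le_of_eq ?_)
  congr 1
  ring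

theorem lintegral_inv_norm_pow_four_compl_ball (y : E3) {r : ℝ} (hr : 0 < r) :
    ∫⁻ x in (ball y r)ᶜ, ENNReal.ofReal ((‖x - y‖⁻¹) ^ 4) ≤ ENNReal.ofReal (16 * V3 / r) :=
  lintegral_far_le V3_pos.le y (volume_closedBall_le y) hr

/-- two-point estimate -/
theorem lintegral_two_point_le {y z : E3} (hyz : y ≠ z) :
    ∫⁻ x, ENNReal.ofReal ((‖x - y‖⁻¹) ^ 2 * (‖x - z‖⁻¹) ^ 2)
      ≤ ENNReal.ofReal (64 * V3 / ‖y - z‖) := by
  have hV := V3_pos
  set d := ‖y - z‖ with hd
  have hd0 : 0 < d := norm_pos_iff.2 (sub_ne_zero.2 hyz)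
  have key : ∀ a b : E3, ‖a - b‖ = d →
      ∫⁻ x in closedBall a (d / 2), ENNReal.ofReal ((‖x - a‖⁻¹) ^ 2 * (‖x - b‖⁻¹) ^ 2)
        ≤ ENNReal.ofReal (16 * V3 / d) := by
    intro a b hab
    calc ∫⁻ x in closedBall a (d / 2), ENNReal.ofReal ((‖x - a‖⁻¹) ^ 2 * (‖x - b‖⁻¹) ^ 2)
        ≤ ∫⁻ x in closedBall a (d / 2), ENNReal.ofReal ((d / 2)⁻¹ ^ 2) * ENNReal.ofReal ((‖x - a‖⁻¹) ^ 2) := by
          apply lintegral_mono_ae
          filter_upwards [ae_restrict_mem measurableSet_closedBall] with x hx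
          rw [mem_closedBall, dist_eq_norm] at hx
          rw [← ENNReal.ofReal_mul (by positivity), mul_comm]
          apply ENNReal.ofReal_le_ofReal
          gcongr
          have h1 : ‖a - b‖ ≤ ‖x - a‖ + ‖x - b‖ := by
            calc ‖a - b‖ = ‖(x - b) - (x - a)‖ := by congr 1; abel
              _ ≤ ‖x - b‖ + ‖x - a‖ := norm_sub_le _ _
              _ = _ := add_comm _ _
          linarith
      _ = ENNReal.ofReal ((d / 2)⁻¹ ^ 2) * ∫⁻ x in closedBall a (d / 2), ENNReal.ofReal ((‖x - a‖⁻¹) ^ 2) := by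
          rw [lintegral_const_mul']
          exact ENNReal.ofReal_ne_top
      _ ≤ ENNReal.ofReal ((d / 2)⁻¹ ^ 2) * ENNReal.ofReal (8 * V3 * (d / 2)) := by
          gcongr
          exact lintegral_inv_norm_sq_closedBall a (by positivity)
      _ = ENNReal.ofReal (16 * V3 / d) := by
          rw [← ENNReal.ofReal_mul (by positivity)]
          congr 1
          field_simp
          ring
  have h1 := key y z rfl
  have h2 := key z y (by rw [norm_sub_rev])
  have h3 : ∫⁻ x in (ball y (d / 2))ᶜ ∩ (ball z (d / 2))ᶜ,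
      ENNReal.ofReal ((‖x - y‖⁻¹) ^ 2 * (‖x - z‖⁻¹) ^ 2) ≤ ENNReal.ofReal (32 * V3 / d) := by
    calc ∫⁻ x in (ball y (d / 2))ᶜ ∩ (ball z (d / 2))ᶜ,
          ENNReal.ofReal ((‖x - y‖⁻¹) ^ 2 * (‖x - z‖⁻¹) ^ 2)
        ≤ ∫⁻ x in (ball y (d / 2))ᶜ ∩ (ball z (d / 2))ᶜ,
          (ENNReal.ofReal (1 / 2) * ENNReal.ofReal ((‖x - y‖⁻¹) ^ 4)
            + ENNReal.ofReal (1 / 2) * ENNReal.ofReal ((‖x - z‖⁻¹) ^ 4)) := by
          apply lintegral_mono
          intro x
          simp only
          rw [← ENNReal.ofReal_mul (by positivity), ← ENNReal.ofReal_mul (by positivity),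
            ← ENNReal.ofReal_add (by positivity) (by positivity)]
          apply ENNReal.ofReal_le_ofReal
          nlinarith [sq_nonneg ((‖x - y‖⁻¹) ^ 2 - (‖x - z‖⁻¹) ^ 2)]
      _ = ENNReal.ofReal (1 / 2) * (∫⁻ x in (ball y (d / 2))ᶜ ∩ (ball z (d / 2))ᶜ, ENNReal.ofReal ((‖x - y‖⁻¹) ^ 4))
          + ENNReal.ofReal (1 / 2) * (∫⁻ x in (ball y (d / 2))ᶜ ∩ (ball z (d / 2))ᶜ, ENNReal.ofReal ((‖x - z‖⁻¹) ^ 4)) := by
          rw [lintegral_add_left (by fun_prop), lintegral_const_mul' _ _ ENNReal.ofReal_ne_top,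
            lintegral_const_mul' _ _ ENNReal.ofReal_ne_top]
      _ ≤ ENNReal.ofReal (1 / 2) * ENNReal.ofReal (16 * V3 / (d / 2))
          + ENNReal.ofReal (1 / 2) * ENNReal.ofReal (16 * V3 / (d / 2)) := by
          gcongr
          · exact (lintegral_mono_set inter_subset_left).trans
              (lintegral_inv_norm_pow_four_compl_ball y (by positivity))
          · exact (lintegral_mono_set inter_subset_right).trans
              (lintegral_inv_norm_pow_four_compl_ball z (by positivity))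
      _ = ENNReal.ofReal (32 * V3 / d) := by
          rw [← ENNReal.ofReal_mul (by positivity), ← ENNReal.ofReal_add (by positivity) (by positivity)]
          congr 1
          field_simp
          ring
  have hcover : (univ : Set E3) ⊆ closedBall y (d / 2) ∪ (closedBall z (d / 2) ∪
      ((ball y (d / 2))ᶜ ∩ (ball z (d / 2))ᶜ)) := by
    intro x _
    by_cases h1 : x ∈ ball y (d / 2)
    · exact Or.inl (ball_subset_closedBall h1)
    · by_cases h2 : x ∈ ball z (d / 2)
      · exact Or.inr (Or.inl (ball_subset_closedBall h2))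
      · exact Or.inr (Or.inr ⟨h1, h2⟩)
  calc ∫⁻ x, ENNReal.ofReal ((‖x - y‖⁻¹) ^ 2 * (‖x - z‖⁻¹) ^ 2)
      = ∫⁻ x in univ, ENNReal.ofReal ((‖x - y‖⁻¹) ^ 2 * (‖x - z‖⁻¹) ^ 2) := by
        rw [Measure.restrict_univ]
    _ ≤ ∫⁻ x in closedBall y (d / 2) ∪ (closedBall z (d / 2) ∪
      ((ball y (d / 2))ᶜ ∩ (ball z (d / 2))ᶜ)), ENNReal.ofReal ((‖x - y‖⁻¹) ^ 2 * (‖x - z‖⁻¹) ^ 2) :=
        lintegral_mono_set hcover
    _ ≤ _ := lintegral_union_le _ _ _
    _ ≤ ENNReal.ofReal (16 * V3 / d) + (ENNReal.ofReal (16 * V3 / d) + ENNReal.ofReal (32 * V3 / d)) := by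
        gcongr
        refine (lintegral_union_le _ _ _).trans ?_
        gcongr
        refine le_trans (le_of_eq ?_) h2
        congr 1
        ext x
        rw [mul_comm]
    _ = ENNReal.ofReal (64 * V3 / d) := by
        rw [← ENNReal.ofReal_add (by positivity) (by positivity),
          ← ENNReal.ofReal_add (by positivity) (by positivity)]
        congr 1
        ring

/-- points of volume zero -/
theorem Dom.volume_S {g : E3 → ℝ} (hg : Dom g) : volume {x | g x = 0} = 0 := by
  have h := hg.surf_lt_top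
  unfold surf at h
  rw [Measure.restrict_apply_univ] at h
  have h2 := euclideanHausdorffMeasure_zero_or_top (show 2 < 3 by norm_num) {x : E3 | g x = 0}
  rw [← EuclideanSpace.euclideanHausdorffMeasure_eq_volume]
  rcases h2 with h2 | h2
  · exact h2
  · exact absurd h2 h.ne

end Pool.Agent.NP
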