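import Pool.Agent.Lib_h26.EstBasic

/-! Module B: measure estimates. -/

set_option autoImplicit false

open MeasureTheory Measure Metric Set
open scoped Topology ENNReal

namespace Pool.Agent.NP

variable {g : E3 → ℝ}

theorem Dom.surf_local (hg : Dom g) {x0 : E3} (hx0 : g x0 = 0) :
    ∃ ρ > 0, ∀ (y : E3) (r : ℝ), 0 < r → closedBall y (2 * r) ⊆ ball x0 ρ →
      (surf g).real (closedBall y r) ≤ 64 * etaM * V3 * r ^ 2 := by
  have hfin := hg.isFiniteMeasure_surf
  set v := nrm g x0 with hv
  have hvn : ‖v‖ = 1 := hg.norm_nrm hx0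
  have hcont : ContinuousAt (fun x => (inner ℝ (nrm g x) v : ℝ)) x0 :=
    (hg.continuousAt_nrm hx0).inner continuousAt_const
  have hval : (inner ℝ (nrm g x0) v : ℝ) = 1 := by
    rw [← hv, real_inner_self_eq_norm_sq, hvn]; norm_num
  have hev : ∀ᶠ x in 𝓝 x0, (1 / 2 : ℝ) < inner ℝ (nrm g x) v := by
    apply hcont.eventually (lt_mem_nhds _)
    simp only [hval]; norm_num
  obtain ⟨ρ, hρ, hρ2⟩ := Metric.eventually_nhds_iff_ball.1 hev
  refine ⟨ρ, hρ, fun y r hr hsub => ?_⟩
  have hM := etaM_pos
  have hV := V3_pos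
  set f : E3 → ℝ := fun x => 1 - cut r y x with hf
  have hf0 : ∀ x, 0 ≤ f x := fun x => by simp only [hf]; linarith [cut_le_one r y x]
  have hf1 : ∀ x ∈ closedBall y r, f x = 1 := by
    intro x hx
    rw [mem_closedBall, dist_eq_norm] at hx
    simp only [hf]
    rw [cut_zero hr hx]
    simp
  have hfs : ∀ x, x ∉ closedBall y (2 * r) → f x = 0 := by
    intro x hx
    rw [mem_closedBall, dist_eq_norm, not_le] at hx
    simp only [hf]
    rw [cut_one' hr hx.le]
    simp
  have hfc : HasCompactSupport f := hasCompactSupport_one_sub_cut hr y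
  have hfd : ContDiff ℝ 1 f := contDiff_one_sub_cut r y
  have hdiv := hg.divergence hfd hfc v
  -- left side of the estimate
  have h1 : (1 / 2) * (surf g).real (closedBall y r)
      ≤ ∫ x, f x * inner ℝ (nrm g x) v ∂(surf g) := by
    have e1 : (1 / 2) * (surf g).real (closedBall y r)
        = ∫ x, (closedBall y r).indicator (fun _ => (1 / 2 : ℝ)) x ∂(surf g) := by
      rw [integral_indicator_const _ measurableSet_closedBall]
      simp [mul_comm]
    rw [e1]
    apply integral_mono_ae
    · exact (integrable_const _).indicator measurableSet_closedBall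
    · exact hg.integrable_mul_inner hfd.continuous hfc v
    · filter_upwards with x
      by_cases hxb : x ∈ closedBall y r
      · rw [indicator_of_mem hxb, hf1 x hxb, one_mul]
        exact (hρ2 x (hsub (closedBall_subset_closedBall (by linarith) hxb))).le
      · rw [indicator_of_notMem hxb]
        by_cases hxb2 : x ∈ closedBall y (2 * r)
        · exact mul_nonneg (hf0 x) (by linarith [hρ2 x (hsub hxb2)])
        · rw [hfs x hxb2]; simp
  -- right side
  have h2 : ∫ x in Om g, fderiv ℝ f x v ≤ 32 * etaM * V3 * r ^ 2 := by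
    have hz : ∀ x, x ∉ closedBall y (2 * r) → fderiv ℝ f x v = 0 := by
      intro x hx
      rw [hf, fderiv_one_sub_cut, fderiv_cut, deriv_eta_of_ge]
      · simp
      · rw [mem_closedBall, dist_eq_norm, not_le] at hx
        rw [le_div_iff₀ (by positivity)]
        nlinarith
    calc ∫ x in Om g, fderiv ℝ f x v
        ≤ ‖∫ x in Om g, fderiv ℝ f x v‖ := Real.le_norm_self _
      _ ≤ ∫ x in Om g, ‖fderiv ℝ f x v‖ := norm_integral_le_integral_norm _
      _ ≤ ∫ x, ‖fderiv ℝ f x v‖ := by
          apply setIntegral_le_integral (integrable_fderiv_apply hfd hfc v).norm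
          filter_upwards with x using norm_nonneg _
      _ ≤ ∫ x, (closedBall y (2 * r)).indicator (fun _ => 4 * etaM / r) x := by
          apply integral_mono (integrable_fderiv_apply hfd hfc v).norm
          · apply (integrable_indicator_iff measurableSet_closedBall).2
            exact integrableOn_const (by rw [volume_closedBall_E3 y (by positivity)]; exact ENNReal.ofReal_ne_top)
          · intro x
            by_cases hx : x ∈ closedBall y (2 * r)
            · simp only
              rw [indicator_of_mem hx, hf, fderiv_one_sub_cut, norm_neg, Real.norm_eq_abs]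
              have := abs_fderiv_cut_le hr y x v
              rw [hvn, mul_one] at this
              exact this
            · simp only
              rw [indicator_of_notMem hx, hz x hx]
              simp
      _ = 32 * etaM * V3 * r ^ 2 := by
          rw [integral_indicator_const _ measurableSet_closedBall, Measure.real,
            volume_closedBall_E3 y (by positivity), ENNReal.toReal_ofReal (by positivity)]
          simp only [smul_eq_mul]
          field_simp
          ring
  rw [hdiv] at h2
  linarith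

/-- upper Ahlfors regularity -/
theorem Dom.surf_closedBall_le (hg : Dom g) :
    ∃ C : ℝ, 0 < C ∧ ∀ (x : E3) (r : ℝ), 0 < r →
      surf g (closedBall x r) ≤ ENNReal.ofReal (C * r ^ 2) := by
  have hfin := hg.isFiniteMeasure_surf
  have hM := etaM_pos
  have hV := V3_pos
  choose! ρ hρ hloc using fun (x0 : E3) (hx0 : g x0 = 0) => hg.surf_local hx0
  obtain ⟨δ, hδ, hleb⟩ := lebesgue_number_lemma_of_metric hg.isCompact_S
    (c := fun x0 : {x | g x = 0} => ball (x0 : E3) (ρ x0)) (fun _ => isOpen_ball) (by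
      intro x hx
      exact mem_iUnion.2 ⟨⟨x, hx⟩, mem_ball_self (hρ x hx)⟩)
  have key : ∀ (y : E3) (r : ℝ), 0 < r → 4 * r ≤ δ →
      (surf g).real (closedBall y r) ≤ 64 * etaM * V3 * r ^ 2 := by
    intro y r hr hrδ
    by_cases hne : (closedBall y r ∩ {x | g x = 0}).Nonempty
    · obtain ⟨x, hx1, hx2⟩ := hne
      obtain ⟨x0, hx0⟩ := hleb x hx2
      apply hloc x0 x0.2 y r hr
      refine Subset.trans ?_ hx0
      intro z hz
      rw [mem_closedBall] at hx1 hz
      rw [mem_ball]
      have := dist_triangle z y x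
      rw [dist_comm y x] at this
      linarith
    · rw [not_nonempty_iff_eq_empty] at hne
      have : surf g (closedBall y r) = 0 := by
        unfold surf
        rw [Measure.restrict_apply measurableSet_closedBall, hne]
        simp
      rw [Measure.real, this]
      simp
      positivity
  refine ⟨64 * etaM * V3 + (surf g).real univ * (4 / δ) ^ 2, by positivity, fun x r hr => ?_⟩
  rw [← ENNReal.ofReal_toReal (measure_ne_top (surf g) (closedBall x r))]
  apply ENNReal.ofReal_le_ofReal
  change (surf g).real (closedBall x r) ≤ _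
  by_cases h : 4 * r ≤ δ
  · refine (key x r hr h).trans ?_
    gcongr
    have : 0 ≤ (surf g).real univ * (4 / δ) ^ 2 := by positivity
    linarith
  · push Not at h
    have h1 : (surf g).real (closedBall x r) ≤ (surf g).real univ :=
      measureReal_mono (subset_univ _)
    refine h1.trans ?_
    have h2 : 1 ≤ (4 / δ) ^ 2 * r ^ 2 := by
      rw [← mul_pow]
      apply one_le_pow₀
      rw [div_mul_eq_mul_div, one_le_div hδ]
      exact h.le
    have h3 : (surf g).real univ * 1 ≤ (surf g).real univ * ((4 / δ) ^ 2 * r ^ 2) := by gcongr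
    have h4 : 0 ≤ 64 * etaM * V3 * r ^ 2 := by positivity
    nlinarith

/-- points are null for the surface measure -/
theorem Dom.surf_singleton (hg : Dom g) (y : E3) : surf g {y} = 0 := by
  obtain ⟨C, hC, h⟩ := hg.surf_closedBall_le
  have h1 : ∀ s : ℝ, 0 < s → surf g {y} ≤ ENNReal.ofReal (C * s ^ 2) := fun s hs =>
    (measure_mono (by simp [hs.le])).trans (h y s hs)
  have h2 : Filter.Tendsto (fun s : ℝ => ENNReal.ofReal (C * s ^ 2)) (𝓝[>] 0)
      (𝓝 (ENNReal.ofReal (C * 0 ^ 2))) := by
    apply Filter.Tendsto.mono_left _ nhdsWithin_le_nhds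
    exact (ENNReal.continuous_ofReal.comp (by fun_prop)).tendsto _
  have h3 := ge_of_tendsto h2 (Filter.eventually_of_mem self_mem_nhdsWithin (fun s hs => h1 s hs))
  simpa using h3

theorem Dom.ae_ne (hg : Dom g) (y : E3) : ∀ᵐ x ∂(surf g), x ≠ y := by
  rw [ae_iff]
  simpa using hg.surf_singleton y

/-- weakly singular integrals on the surface -/
theorem Dom.lintegral_inv_norm_closedBall_le (hg : Dom g) :
    ∃ C : ℝ, 0 < C ∧ ∀ (y : E3) (r : ℝ), 0 < r →
      ∫⁻ x in closedBall y r, ENNReal.ofReal (‖x - y‖⁻¹) ∂(surf g) ≤ ENNReal.ofReal (C * r) := by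
  obtain ⟨C, hC, h⟩ := hg.surf_closedBall_le
  refine ⟨C * 2 ^ 2, by positivity, fun y r hr => ?_⟩
  have := lintegral_near_le hC.le 1 y (fun s hs => h y s hs) hr
  simpa using this

theorem Dom.lintegral_inv_norm_le (hg : Dom g) :
    ∃ C : ℝ, 0 < C ∧ ∀ y : E3,
      ∫⁻ x, ENNReal.ofReal (‖x - y‖⁻¹) ∂(surf g) ≤ ENNReal.ofReal C := by
  have hfin := hg.isFiniteMeasure_surf
  obtain ⟨C, hC, h⟩ := hg.lintegral_inv_norm_closedBall_le
  refine ⟨C + (surf g).real univ, by positivity, fun y => ?_⟩
  calc ∫⁻ x, ENNReal.ofReal (‖x - y‖⁻¹) ∂(surf g)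
      = ∫⁻ x in closedBall y 1 ∪ (closedBall y 1)ᶜ, ENNReal.ofReal (‖x - y‖⁻¹) ∂(surf g) := by
        rw [union_compl_self, Measure.restrict_univ]
    _ ≤ _ := lintegral_union_le _ _ _
    _ ≤ ENNReal.ofReal (C * 1) + surf g univ := by
        gcongr
        · exact h y 1 one_pos
        · calc ∫⁻ x in (closedBall y 1)ᶜ, ENNReal.ofReal (‖x - y‖⁻¹) ∂(surf g)
              ≤ ∫⁻ x in (closedBall y 1)ᶜ, 1 ∂(surf g) := by
                apply lintegral_mono_ae
                filter_upwards [ae_restrict_mem measurableSet_closedBall.compl] with x hx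
                rw [mem_compl_iff, mem_closedBall, dist_eq_norm, not_le] at hx
                rw [← ENNReal.ofReal_one]
                apply ENNReal.ofReal_le_ofReal
                exact inv_le_one_of_one_le₀ hx.le
            _ ≤ surf g univ := by
                rw [setLIntegral_one]
                exact measure_mono (subset_univ _)
    _ = ENNReal.ofReal (C + (surf g).real univ) := by
        rw [ENNReal.ofReal_add hC.le (by positivity), mul_one, Measure.real,
          ENNReal.ofReal_toReal (measure_ne_top _ _)]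

/-- `|⟨x-y, ν(x)⟩| ≤ C|x-y|²` on the surface -/
theorem Dom.abs_inner_sub_nrm_le (hg : Dom g) :
    ∃ C : ℝ, 0 < C ∧ ∀ x y : E3, g x = 0 → g y = 0 →
      |inner ℝ (x - y) (nrm g x)| ≤ C * ‖x - y‖ ^ 2 := by
  obtain ⟨R, hR⟩ := hg.pos_far
  have hSR : ∀ x, g x = 0 → x ∈ closedBall (0 : E3) R := by
    intro x hx
    rw [mem_closedBall, dist_zero_right]
    by_contra hcon
    push Not at hcon
    have := hR x hcon.le
    linarith
  -- second derivative bound
  have hd1 : ContDiff ℝ 1 (fderiv ℝ g) := hg.smooth.fderiv_right (m := 1) (by norm_cast)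
  have hd2 := hd1.continuous_fderiv (by norm_num)
  have hd3 : Continuous (fun x => ‖fderiv ℝ (fderiv ℝ g) x‖) := hd2.norm
  obtain ⟨M, hM⟩ : ∃ M : ℝ, ∀ x ∈ closedBall (0 : E3) R, ‖fderiv ℝ (fderiv ℝ g) x‖ ≤ M := by
    obtain ⟨M, hM⟩ := (isCompact_closedBall (0 : E3) R).exists_bound_of_continuousOn
      hd3.continuousOn
    exact ⟨M, fun x hx => (le_abs_self _).trans (hM x hx)⟩
  -- lower bound for the gradient
  obtain ⟨x1, hx1, hmin⟩ := hg.isCompact_S.exists_isMinOn hg.nonempty
    (f := fun x => ‖gradient g x‖) hg.continuous_gradient.norm.continuousOn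
  set c := ‖gradient g x1‖ with hc
  have hc0 : 0 < c := hg.norm_gradient_pos hx1
  have hM0 : 0 ≤ M := by
    have h := hM x1 (hSR x1 hx1)
    have h2 : 0 ≤ ‖fderiv ℝ (fderiv ℝ g) x1‖ := ContinuousLinearMap.opNorm_nonneg _
    linarith
  refine ⟨(M + 1) / c, by positivity, fun x y hx hy => ?_⟩
  have hxR := hSR x hx
  have hyR := hSR y hy
  have hseg : segment ℝ x y ⊆ closedBall (0 : E3) R := (convex_closedBall _ _).segment_subset hxR hyR
  have hlip : ∀ z ∈ segment ℝ x y, ‖fderiv ℝ g z - fderiv ℝ g x‖ ≤ M * ‖y - x‖ := by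
    intro z hz
    have h1 := (convex_segment x y).norm_image_sub_le_of_norm_fderiv_le (𝕜 := ℝ) (f := fderiv ℝ g)
      (C := M) (fun w _ => (hd1.differentiable (by norm_num)) w) (fun w hw => hM w (hseg hw))
      (left_mem_segment ℝ x y) hz
    refine h1.trans ?_
    gcongr
    obtain ⟨a, b, ha, hb, hab, rfl⟩ := hz
    have : a • x + b • y - x = b • (y - x) := by
      rw [show a = 1 - b by linarith]
      module
    rw [this, norm_smul, Real.norm_eq_abs, abs_of_nonneg hb]
    nlinarith [norm_nonneg (y - x)]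
  have h2 := (convex_segment x y).norm_image_sub_le_of_norm_fderiv_le' (𝕜 := ℝ) (f := g)
    (φ := fderiv ℝ g x) (C := M * ‖y - x‖) (fun w _ => hg.differentiable w) hlip
    (left_mem_segment ℝ x y) (right_mem_segment ℝ x y)
  rw [hx, hy, sub_zero, zero_sub, norm_neg] at h2
  have h3 : (inner ℝ (x - y) (nrm g x) : ℝ) = -(‖gradient g x‖⁻¹ * fderiv ℝ g x (y - x)) := by
    rw [real_inner_comm, inner_nrm, ← mul_neg, ← map_neg, neg_sub]
  rw [h3, abs_neg, abs_mul, abs_inv, abs_norm]
  have hcx : c ≤ ‖gradient g x‖ := hmin hx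
  rw [Real.norm_eq_abs] at h2
  calc ‖gradient g x‖⁻¹ * |fderiv ℝ g x (y - x)|
      ≤ c⁻¹ * (M * ‖y - x‖ * ‖y - x‖) := by gcongr
    _ ≤ (M + 1) / c * ‖x - y‖ ^ 2 := by
        rw [norm_sub_rev y x]
        have : 0 ≤ c⁻¹ * ‖x - y‖ ^ 2 := by positivity
        rw [div_eq_mul_inv]
        nlinarith

end Pool.Agent.NP
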