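import Pool.Agent.Lib_h26.Energy2

/-! Compactness of `K*`. -/

set_option autoImplicit false

open MeasureTheory Measure Metric Set Filter
open scoped Topology ENNReal

namespace Pool.Agent.NP

variable {g : E3 → ℝ}

/-- truncated gradient kernel as a function of the difference -/
noncomputable def Fcut (δ : ℝ) (z : E3) : E3 :=
  (eta (‖z‖ ^ 2 / δ ^ 2) * (-(1 / (4 * Real.pi * ‖z‖ ^ 3)))) • z

theorem Fcut_eq (δ : ℝ) (x y : E3) : Fcut δ (x - y) = cut δ y x • dGam x y := by
  unfold Fcut cut dGam
  rw [smul_smul]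

theorem continuous_Fcut {δ : ℝ} (hδ : 0 < δ) : Continuous (Fcut δ) := by
  rw [continuous_iff_continuousAt]
  intro z
  rcases eq_or_ne z 0 with h | h
  · subst h
    have h1 : Fcut δ =ᶠ[𝓝 0] fun _ => (0 : E3) := by
      filter_upwards [ball_mem_nhds (0 : E3) hδ] with z hz
      rw [mem_ball, dist_zero_right] at hz
      unfold Fcut
      rw [eta_zero]
      · simp
      · rw [div_le_one (by positivity)]
        exact pow_le_pow_left₀ (norm_nonneg _) hz.le 2
    exact (continuousAt_const (y := (0 : E3))).congr h1.symm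
  · have h0 : ‖z‖ ≠ 0 := norm_ne_zero_iff.2 h
    have hc1 : ContinuousAt (fun z : E3 => eta (‖z‖ ^ 2 / δ ^ 2)) z :=
      continuous_eta.continuousAt.comp (by fun_prop)
    have hc2 : ContinuousAt (fun z : E3 => -(1 / (4 * Real.pi * ‖z‖ ^ 3))) z := by
      apply ContinuousAt.neg
      apply continuousAt_const.div (by fun_prop)
      have : Real.pi ≠ 0 := Real.pi_ne_zero
      positivity
    exact (hc1.mul hc2).smul continuousAt_id

theorem norm_Fcut_le {δ : ℝ} (hδ : 0 < δ) (z : E3) : ‖Fcut δ z‖ ≤ 1 / (4 * Real.pi * δ ^ 2) := by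
  unfold Fcut
  rw [norm_smul, norm_mul, norm_neg, Real.norm_eq_abs, Real.norm_eq_abs, abs_of_nonneg (eta_nonneg _),
    abs_of_nonneg (show 0 ≤ 1 / (4 * Real.pi * ‖z‖ ^ 3) by positivity)]
  by_cases h : ‖z‖ ≤ δ
  · rw [eta_zero]
    · simp
      positivity
    · rw [div_le_one (by positivity)]
      exact pow_le_pow_left₀ (norm_nonneg _) h 2
  · push Not at h
    have h0 : 0 < ‖z‖ := hδ.trans h
    calc eta (‖z‖ ^ 2 / δ ^ 2) * (1 / (4 * Real.pi * ‖z‖ ^ 3)) * ‖z‖
        ≤ 1 * (1 / (4 * Real.pi * ‖z‖ ^ 3)) * ‖z‖ := by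
          gcongr
          exact eta_le_one _
      _ = 1 / (4 * Real.pi * ‖z‖ ^ 2) := by field_simp
      _ ≤ _ := by gcongr

/-- the truncated NP kernel -/
noncomputable def kcut (g : E3 → ℝ) (δ : ℝ) (x y : E3) : ℝ := - inner ℝ (nrm g x) (Fcut δ (x - y))

theorem kcut_eq (g : E3 → ℝ) (δ : ℝ) (x y : E3) : kcut g δ x y = cut δ y x * kNP g x y := by
  unfold kcut
  rw [Fcut_eq, kNP_eq, inner_smul_right]
  ring

theorem Dom.measurable_kcut (hg : Dom g) {δ : ℝ} (hδ : 0 < δ) :
    Measurable (fun p : E3 × E3 => kcut g δ p.1 p.2) := by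
  unfold kcut
  apply Measurable.neg
  apply Measurable.inner
  · exact hg.measurable_nrm.comp measurable_fst
  · exact (continuous_Fcut hδ).measurable.comp (measurable_fst.sub measurable_snd)

theorem Dom.measurable_kcut_left (hg : Dom g) {δ : ℝ} (hδ : 0 < δ) (y : E3) :
    Measurable (fun x => kcut g δ x y) := by
  unfold kcut
  apply Measurable.neg
  apply Measurable.inner hg.measurable_nrm
  exact (continuous_Fcut hδ).measurable.comp (measurable_id.sub measurable_const)

theorem Dom.near_row (hg : Dom g) : ∃ C : ℝ, 0 < C ∧ ∀ δ : ℝ, 0 < δ →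
    (∀ x, g x = 0 → ∫⁻ y, ‖kNP g x y - kcut g δ x y‖ₑ ∂(surf g) ≤ ENNReal.ofReal (C * δ)) ∧
    (∀ y, g y = 0 → ∫⁻ x, ‖kNP g x y - kcut g δ x y‖ₑ ∂(surf g) ≤ ENNReal.ofReal (C * δ)) := by
  obtain ⟨C, hC, h⟩ := hg.lintegral_inv_norm_closedBall_le
  obtain ⟨K, hK, hk⟩ := hg.abs_kNP_le
  refine ⟨K * (C * 2), by positivity, fun δ hδ => ?_⟩
  have hpt : ∀ x y, g x = 0 → g y = 0 → ‖kNP g x y - kcut g δ x y‖ₑ
      ≤ (closedBall y (2 * δ)).indicator (fun x => ENNReal.ofReal K * ENNReal.ofReal (‖x - y‖⁻¹)) x := by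
    intro x y hx hy
    rw [kcut_eq]
    by_cases hxy : x ∈ closedBall y (2 * δ)
    · rw [indicator_of_mem hxy, ← ENNReal.ofReal_mul hK.le, ← ofReal_norm]
      apply ENNReal.ofReal_le_ofReal
      have h1 : kNP g x y - cut δ y x * kNP g x y = (1 - cut δ y x) * kNP g x y := by ring
      rw [h1, norm_mul, Real.norm_eq_abs, Real.norm_eq_abs]
      have h2 : |1 - cut δ y x| ≤ 1 := by
        rw [abs_le]
        constructor <;> linarith [cut_nonneg δ y x, cut_le_one δ y x]
      calc |1 - cut δ y x| * |kNP g x y| ≤ 1 * (K * ‖x - y‖⁻¹) := by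
            gcongr
            exact hk x y hx hy
        _ = _ := one_mul _
    · rw [indicator_of_notMem hxy]
      rw [mem_closedBall, dist_eq_norm, not_le] at hxy
      rw [cut_one' hδ hxy.le]
      simp
  constructor
  · intro x hx
    calc ∫⁻ y, ‖kNP g x y - kcut g δ x y‖ₑ ∂(surf g)
        ≤ ∫⁻ y, (closedBall x (2 * δ)).indicator (fun y => ENNReal.ofReal K * ENNReal.ofReal (‖y - x‖⁻¹)) y ∂(surf g) := by
          apply lintegral_mono_ae
          filter_upwards [hg.ae_mem] with y hy
          refine (hpt x y hx hy).trans (le_of_eq ?_)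
          by_cases hxy : x ∈ closedBall y (2 * δ)
          · rw [indicator_of_mem hxy, indicator_of_mem (mem_closedBall_comm.1 hxy), norm_sub_rev]
          · rw [indicator_of_notMem hxy, indicator_of_notMem (fun h => hxy (mem_closedBall_comm.1 h))]
      _ = ENNReal.ofReal K * ∫⁻ y in closedBall x (2 * δ), ENNReal.ofReal (‖y - x‖⁻¹) ∂(surf g) := by
          rw [lintegral_indicator measurableSet_closedBall, lintegral_const_mul' _ _ ENNReal.ofReal_ne_top]
      _ ≤ ENNReal.ofReal K * ENNReal.ofReal (C * (2 * δ)) := by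
          gcongr
          exact h x (2 * δ) (by positivity)
      _ = _ := by rw [← ENNReal.ofReal_mul hK.le]; congr 1; ring
  · intro y hy
    calc ∫⁻ x, ‖kNP g x y - kcut g δ x y‖ₑ ∂(surf g)
        ≤ ∫⁻ x, (closedBall y (2 * δ)).indicator (fun x => ENNReal.ofReal K * ENNReal.ofReal (‖x - y‖⁻¹)) x ∂(surf g) := by
          apply lintegral_mono_ae
          filter_upwards [hg.ae_mem] with x hx using hpt x y hx hy
      _ = ENNReal.ofReal K * ∫⁻ x in closedBall y (2 * δ), ENNReal.ofReal (‖x - y‖⁻¹) ∂(surf g) := by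
          rw [lintegral_indicator measurableSet_closedBall, lintegral_const_mul' _ _ ENNReal.ofReal_ne_top]
      _ ≤ ENNReal.ofReal K * ENNReal.ofReal (C * (2 * δ)) := by
          gcongr
          exact h y (2 * δ) (by positivity)
      _ = _ := by rw [← ENNReal.ofReal_mul hK.le]; congr 1; ring

/-- uniform approximation of the truncated kernel by finite rank kernels -/
theorem Dom.kcut_approx (hg : Dom g) {δ : ℝ} (hδ : 0 < δ) {ε : ℝ} (hε : 0 < ε) :
    ∃ (N : ℕ) (a h : Fin N → E3 → ℝ) (M : ℝ), (∀ j, Measurable (a j)) ∧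
    (∀ j, Measurable (h j)) ∧ (∀ j x, |a j x| ≤ M) ∧ (∀ j x, |h j x| ≤ M) ∧
    ∀ x y, g x = 0 → g y = 0 → |kcut g δ x y - ∑ j, a j x * h j y| ≤ ε := by
  obtain ⟨R, hR⟩ := hg.isCompact_S.isBounded.subset_closedBall 0
  have huc := (isCompact_closedBall (0 : E3) (2 * |R|)).uniformContinuousOn_of_continuous
    (continuous_Fcut hδ).continuousOn
  rw [Metric.uniformContinuousOn_iff] at huc
  obtain ⟨ρ, hρ, hF⟩ := huc ε hε
  obtain ⟨t, ht, hfin, hcov⟩ := hg.isCompact_S.finite_cover_balls hρ
  set T := hfin.toFinset with hT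
  set e := T.equivFin with he
  set c : Fin T.card → E3 := fun j => (e.symm j : E3) with hc
  set b : Fin T.card → E3 → ℝ := fun j => (ball (c j) ρ).indicator (fun _ => 1) with hb
  set s : E3 → ℝ := fun y => ∑ i, b i y with hs
  have hb0 : ∀ j y, 0 ≤ b j y := fun j y => by
    simp only [hb]
    exact indicator_nonneg (fun _ _ => zero_le_one) y
  have hs0 : ∀ y, 0 ≤ s y := fun y => Finset.sum_nonneg fun i _ => hb0 i y
  have hle : ∀ j y, b j y ≤ s y := fun j y =>
    Finset.single_le_sum (f := fun i => b i y) (fun i _ => hb0 i y) (Finset.mem_univ j)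
  have hbm : ∀ j, Measurable (b j) := fun j => measurable_const.indicator measurableSet_ball
  have hsm : Measurable s := Finset.measurable_sum _ fun i _ => hbm i
  have hspos : ∀ y, g y = 0 → 0 < s y := by
    intro y hy
    have h1 := hcov (show y ∈ {x | g x = 0} from hy)
    simp only [mem_iUnion, exists_prop] at h1
    obtain ⟨z, hz, hyz⟩ := h1
    have hzT : z ∈ T := by rw [hT]; exact hfin.mem_toFinset.2 hz
    have h2 : b (e ⟨z, hzT⟩) y = 1 := by
      simp only [hb, hc, Equiv.symm_apply_apply]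
      exact indicator_of_mem hyz _
    have h3 := hle (e ⟨z, hzT⟩) y
    rw [h2] at h3
    linarith
  refine ⟨T.card, fun j x => kcut g δ x (c j), fun j y => b j y / s y,
    max (1 / (4 * Real.pi * δ ^ 2)) 1, fun j => ?_, fun j => ?_, fun j x => ?_, fun j y => ?_,
    fun x y hx hy => ?_⟩
  · exact hg.measurable_kcut_left hδ (c j)
  · exact (hbm j).div hsm
  · refine le_trans ?_ (le_max_left _ _)
    unfold kcut
    rw [abs_neg]
    refine (abs_real_inner_le_norm _ _).trans ?_
    have h1 := hg.norm_nrm_le x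
    have h2 := norm_Fcut_le hδ (x - c j)
    calc ‖nrm g x‖ * ‖Fcut δ (x - c j)‖ ≤ 1 * (1 / (4 * Real.pi * δ ^ 2)) := by gcongr
      _ = _ := one_mul _
  · refine le_trans ?_ (le_max_right _ _)
    rw [abs_of_nonneg (div_nonneg (hb0 j y) (hs0 y))]
    exact div_le_one_of_le₀ (hle j y) (hs0 y)
  · have h1 : ∑ j, b j y / s y = 1 := by
      rw [← Finset.sum_div]
      exact div_self (hspos y hy).ne'
    have h2 : kcut g δ x y - ∑ j, kcut g δ x (c j) * (b j y / s y)
        = ∑ j, (kcut g δ x y - kcut g δ x (c j)) * (b j y / s y) := by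
      simp_rw [sub_mul, Finset.sum_sub_distrib, ← Finset.mul_sum, h1, mul_one]
    rw [h2]
    calc |∑ j, (kcut g δ x y - kcut g δ x (c j)) * (b j y / s y)|
        ≤ ∑ j, |(kcut g δ x y - kcut g δ x (c j)) * (b j y / s y)| := Finset.abs_sum_le_sum_abs _ _
      _ ≤ ∑ j, ε * (b j y / s y) := by
          apply Finset.sum_le_sum
          intro j _
          rw [abs_mul, abs_of_nonneg (div_nonneg (hb0 j y) (hs0 y))]
          by_cases hyj : y ∈ ball (c j) ρ
          · have hcS : g (c j) = 0 := ht (hfin.mem_toFinset.1 (e.symm j).2)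
            have hin : ∀ y', g y' = 0 → x - y' ∈ closedBall (0 : E3) (2 * |R|) := by
              intro y' hy'
              have a1 := hR (show x ∈ {x | g x = 0} from hx)
              have a2 := hR (show y' ∈ {x | g x = 0} from hy')
              rw [mem_closedBall, dist_zero_right] at a1 a2 ⊢
              refine (norm_sub_le _ _).trans ?_
              linarith [le_abs_self R]
            have h3 := hF (x - y) (hin y hy) (x - c j) (hin (c j) hcS) (by
              rw [dist_eq_norm, show x - y - (x - c j) = c j - y by abel, ← dist_eq_norm, dist_comm]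
              exact hyj)
            have h4 : |kcut g δ x y - kcut g δ x (c j)| ≤ ε := by
              unfold kcut
              rw [neg_sub_neg, ← inner_sub_right]
              refine (abs_real_inner_le_norm _ _).trans ?_
              rw [hg.norm_nrm hx, one_mul, norm_sub_rev, ← dist_eq_norm]
              exact h3.le
            gcongr
            exact div_nonneg (hb0 j y) (hs0 y)
          · have : b j y = 0 := indicator_of_notMem hyj _
            rw [this]
            simp
      _ = ε := by rw [← Finset.mul_sum, h1, mul_one]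

theorem Dom.finRankApprox_kNP (hg : Dom g) : FinRankApprox (surf g) (kNP g) := by
  have hfin := hg.isFiniteMeasure_surf
  intro ε hε
  obtain ⟨C, hC, hnear⟩ := hg.near_row
  set δ : ℝ := ε / (2 * C) with hδ
  have hδ0 : 0 < δ := by positivity
  set m : ℝ := (surf g).real univ with hm
  have hm0 : 0 ≤ m := measureReal_nonneg
  set ε' : ℝ := ε / (2 * (m + 1)) with hε'
  have hε'0 : 0 < ε' := by positivity
  obtain ⟨N, a, h, M, ha, hh, haM, hhM, happ⟩ := hg.kcut_approx hδ0 hε'0
  refine ⟨N, a, h, M, ha, hh, haM, hhM, ?_⟩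
  have hsum : ENNReal.ofReal (C * δ) + ENNReal.ofReal ε' * surf g univ ≤ ENNReal.ofReal ε := by
    have h1 : surf g univ = ENNReal.ofReal m := by
      rw [hm, Measure.real, ENNReal.ofReal_toReal (measure_ne_top _ _)]
    rw [h1, ← ENNReal.ofReal_mul hε'0.le, ← ENNReal.ofReal_add (by positivity) (by positivity)]
    apply ENNReal.ofReal_le_ofReal
    have h2 : C * δ = ε / 2 := by rw [hδ]; field_simp
    have h3 : ε' * m ≤ ε / 2 := by
      rw [hε', div_mul_eq_mul_div, div_le_div_iff₀ (by positivity) (by positivity)]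
      nlinarith
    linarith
  have hkm : Measurable (Function.uncurry fun x y => kNP g x y - ∑ j, a j x * h j y) := by
    apply Measurable.sub hg.measurable_kNP
    apply Finset.measurable_sum
    intro j _
    exact ((ha j).comp measurable_fst).mul ((hh j).comp measurable_snd)
  have hpt : ∀ x y, g x = 0 → g y = 0 → ‖kNP g x y - ∑ j, a j x * h j y‖ₑ
      ≤ ‖kNP g x y - kcut g δ x y‖ₑ + ENNReal.ofReal ε' := by
    intro x y hx hy
    have h1 : kNP g x y - ∑ j, a j x * h j y
        = (kNP g x y - kcut g δ x y) + (kcut g δ x y - ∑ j, a j x * h j y) := by ring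
    rw [h1]
    refine (enorm_add_le _ _).trans ?_
    gcongr
    rw [← ofReal_norm]
    exact ENNReal.ofReal_le_ofReal (happ x y hx hy)
  refine ⟨hkm, ?_, ?_⟩
  · filter_upwards [hg.ae_mem] with x hx
    calc ∫⁻ y, ‖kNP g x y - ∑ j, a j x * h j y‖ₑ ∂(surf g)
        ≤ ∫⁻ y, (‖kNP g x y - kcut g δ x y‖ₑ + ENNReal.ofReal ε') ∂(surf g) := by
          apply lintegral_mono_ae
          filter_upwards [hg.ae_mem] with y hy using hpt x y hx hy
      _ = (∫⁻ y, ‖kNP g x y - kcut g δ x y‖ₑ ∂(surf g)) + ENNReal.ofReal ε' * surf g univ := by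
          rw [lintegral_add_right _ measurable_const, lintegral_const]
      _ ≤ ENNReal.ofReal (C * δ) + ENNReal.ofReal ε' * surf g univ := by
          gcongr
          exact (hnear δ hδ0).1 x hx
      _ ≤ _ := hsum
  · filter_upwards [hg.ae_mem] with y hy
    calc ∫⁻ x, ‖kNP g x y - ∑ j, a j x * h j y‖ₑ ∂(surf g)
        ≤ ∫⁻ x, (‖kNP g x y - kcut g δ x y‖ₑ + ENNReal.ofReal ε') ∂(surf g) := by
          apply lintegral_mono_ae
          filter_upwards [hg.ae_mem] with x hx using hpt x y hx hy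
      _ = (∫⁻ x, ‖kNP g x y - kcut g δ x y‖ₑ ∂(surf g)) + ENNReal.ofReal ε' * surf g univ := by
          rw [lintegral_add_right _ measurable_const, lintegral_const]
      _ ≤ ENNReal.ofReal (C * δ) + ENNReal.ofReal ε' * surf g univ := by
          gcongr
          exact (hnear δ hδ0).2 y hy
      _ ≤ _ := hsum

end Pool.Agent.NP
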