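import Pool.Agent.Lib_h26.KernelId

/-! Module C, part 2: kernel identities for a domain and for the whole space. -/

set_option autoImplicit false

open MeasureTheory Measure Metric Set Filter
open scoped Topology ENNReal

namespace Pool.Agent.NP

variable {g : E3 → ℝ}

theorem ae_ne_volume (y : E3) : ∀ᵐ x : E3, x ≠ y := by rw [ae_iff]; simp

theorem integrableOn_Gam {B : Set E3} (hB : Bornology.IsBounded B) (y : E3) :
    IntegrableOn (fun x => Gam x y) B := by
  obtain ⟨r, hr⟩ := hB.subset_closedBall y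
  have hfin : volume B < ⊤ := hB.measure_lt_top
  have h1 : IntegrableOn (fun x => 1 / (4 * Real.pi) + ‖dGam x y‖) B :=
    (integrableOn_const hfin.ne).add (integrableOn_dGam hB y).norm
  refine h1.mono' (measurable_Gam y).aestronglyMeasurable ?_
  filter_upwards with x
  rw [Real.norm_eq_abs, abs_of_nonneg (Gam_nonneg x y), Gam_eq, norm_dGam]
  have h2 : ‖x - y‖⁻¹ ≤ 1 + (‖x - y‖⁻¹) ^ 2 := by nlinarith [sq_nonneg (‖x - y‖⁻¹ - 1 / 2)]
  calc 1 / (4 * Real.pi) * ‖x - y‖⁻¹ ≤ 1 / (4 * Real.pi) * (1 + (‖x - y‖⁻¹) ^ 2) := by gcongr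
    _ = _ := by ring

theorem Dom.lintegral_Gam_le (hg : Dom g) :
    ∃ C : ℝ, 0 < C ∧ ∀ y : E3, ∫⁻ x, ‖Gam x y‖ₑ ∂(surf g) ≤ ENNReal.ofReal C := by
  obtain ⟨C, hC, h⟩ := hg.lintegral_inv_norm_le
  refine ⟨1 / (4 * Real.pi) * C, by positivity, fun y => ?_⟩
  calc ∫⁻ x, ‖Gam x y‖ₑ ∂(surf g)
      = ∫⁻ x, ENNReal.ofReal (1 / (4 * Real.pi)) * ENNReal.ofReal (‖x - y‖⁻¹) ∂(surf g) := by
        apply lintegral_congr
        intro x
        rw [← ENNReal.ofReal_mul (by positivity), ← Gam_eq, ← ofReal_norm, Real.norm_eq_abs,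
          abs_of_nonneg (Gam_nonneg x y)]
    _ = ENNReal.ofReal (1 / (4 * Real.pi)) * ∫⁻ x, ENNReal.ofReal (‖x - y‖⁻¹) ∂(surf g) :=
        lintegral_const_mul' _ _ ENNReal.ofReal_ne_top
    _ ≤ ENNReal.ofReal (1 / (4 * Real.pi)) * ENNReal.ofReal C := by gcongr; exact h y
    _ = _ := by rw [← ENNReal.ofReal_mul (by positivity)]

theorem Dom.integrable_Gam (hg : Dom g) (y : E3) : Integrable (fun x => Gam x y) (surf g) := by
  obtain ⟨C, hC, h⟩ := hg.lintegral_Gam_le
  exact ⟨(measurable_Gam y).aestronglyMeasurable, (h y).trans_lt ENNReal.ofReal_lt_top⟩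

theorem kNP_eq (g : E3 → ℝ) (x y : E3) : kNP g x y = - inner ℝ (nrm g x) (dGam x y) := by
  unfold kNP dGam
  rw [inner_smul_right, real_inner_comm]
  ring

theorem Dom.measurable_kNP (hg : Dom g) : Measurable (fun p : E3 × E3 => kNP g p.1 p.2) := by
  simp_rw [kNP_eq]
  exact ((hg.measurable_nrm.comp measurable_fst).inner measurable_dGam').neg

theorem Dom.measurable_kNP_left (hg : Dom g) (y : E3) : Measurable (fun x => kNP g x y) := by
  simp_rw [kNP_eq]
  exact (hg.measurable_nrm.inner (measurable_dGam y)).neg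

theorem Dom.abs_kNP_le (hg : Dom g) :
    ∃ C : ℝ, 0 < C ∧ ∀ x y : E3, g x = 0 → g y = 0 → |kNP g x y| ≤ C * ‖x - y‖⁻¹ := by
  obtain ⟨C, hC, h⟩ := hg.abs_inner_sub_nrm_le
  refine ⟨C / (4 * Real.pi), by positivity, fun x y hx hy => ?_⟩
  have := h x y hx hy
  unfold kNP
  rw [abs_div, abs_of_nonneg (show 0 ≤ 4 * Real.pi * ‖x - y‖ ^ 3 by positivity)]
  rcases eq_or_ne ‖x - y‖ 0 with h0 | h0
  · rw [h0]; simp
  · have h1 : 0 < ‖x - y‖ := lt_of_le_of_ne (norm_nonneg _) (Ne.symm h0)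
    calc |inner ℝ (x - y) (nrm g x)| / (4 * Real.pi * ‖x - y‖ ^ 3)
        ≤ C * ‖x - y‖ ^ 2 / (4 * Real.pi * ‖x - y‖ ^ 3) := by gcongr
      _ = _ := by field_simp

theorem Dom.ae_mem (_hg : Dom g) : ∀ᵐ x ∂(surf g), g x = 0 := by
  unfold surf
  exact ae_restrict_mem _hg.measurableSet_S

/-- `k(·,y)` and `k(x,·)` have uniformly bounded `L¹` norms for surface points -/
theorem Dom.lintegral_kNP_le (hg : Dom g) :
    ∃ C : ℝ, 0 < C ∧ (∀ y : E3, g y = 0 → ∫⁻ x, ‖kNP g x y‖ₑ ∂(surf g) ≤ ENNReal.ofReal C) ∧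
      (∀ x : E3, g x = 0 → ∫⁻ y, ‖kNP g x y‖ₑ ∂(surf g) ≤ ENNReal.ofReal C) := by
  obtain ⟨C, hC, h⟩ := hg.lintegral_inv_norm_le
  obtain ⟨K, hK, hk⟩ := hg.abs_kNP_le
  refine ⟨K * C, by positivity, fun y hy => ?_, fun x hx => ?_⟩
  · calc ∫⁻ x, ‖kNP g x y‖ₑ ∂(surf g)
        ≤ ∫⁻ x, ENNReal.ofReal K * ENNReal.ofReal (‖x - y‖⁻¹) ∂(surf g) := by
          apply lintegral_mono_ae
          filter_upwards [hg.ae_mem] with x hx
          rw [← ENNReal.ofReal_mul hK.le, ← ofReal_norm]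
          exact ENNReal.ofReal_le_ofReal (hk x y hx hy)
      _ = ENNReal.ofReal K * ∫⁻ x, ENNReal.ofReal (‖x - y‖⁻¹) ∂(surf g) :=
          lintegral_const_mul' _ _ ENNReal.ofReal_ne_top
      _ ≤ ENNReal.ofReal K * ENNReal.ofReal C := by gcongr; exact h y
      _ = _ := by rw [← ENNReal.ofReal_mul hK.le]
  · calc ∫⁻ y, ‖kNP g x y‖ₑ ∂(surf g)
        ≤ ∫⁻ y, ENNReal.ofReal K * ENNReal.ofReal (‖y - x‖⁻¹) ∂(surf g) := by
          apply lintegral_mono_ae
          filter_upwards [hg.ae_mem] with y hy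
          rw [← ENNReal.ofReal_mul hK.le, ← ofReal_norm, norm_sub_rev]
          exact ENNReal.ofReal_le_ofReal (hk x y hx hy)
      _ = ENNReal.ofReal K * ∫⁻ y, ENNReal.ofReal (‖y - x‖⁻¹) ∂(surf g) :=
          lintegral_const_mul' _ _ ENNReal.ofReal_ne_top
      _ ≤ ENNReal.ofReal K * ENNReal.ofReal C := by gcongr; exact h x
      _ = _ := by rw [← ENNReal.ofReal_mul hK.le]

/-- off the surface the kernels are bounded on the surface -/
theorem Dom.exists_dist_pos (hg : Dom g) {y : E3} (hy : g y ≠ 0) :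
    ∃ d : ℝ, 0 < d ∧ ∀ x, g x = 0 → ∀ y' ∈ ball y d, d ≤ ‖x - y'‖ := by
  have h1 : y ∈ {x | g x = 0}ᶜ := hy
  obtain ⟨d, hd, hsub⟩ := Metric.isOpen_iff.1 hg.isClosed_S.isOpen_compl y h1
  refine ⟨d / 2, by positivity, fun x hx y' hy' => ?_⟩
  by_contra hcon
  push Not at hcon
  have : x ∈ ball y d := by
    rw [mem_ball] at hy' ⊢
    rw [← dist_eq_norm] at hcon
    have := dist_triangle x y' y
    linarith
  exact hsub this hx

theorem Dom.integrable_kNP (hg : Dom g) (y : E3) : Integrable (fun x => kNP g x y) (surf g) := by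
  have hfin := hg.isFiniteMeasure_surf
  by_cases hy : g y = 0
  · obtain ⟨C, hC, h, _⟩ := hg.lintegral_kNP_le
    exact ⟨(hg.measurable_kNP_left y).aestronglyMeasurable, (h y hy).trans_lt ENNReal.ofReal_lt_top⟩
  · obtain ⟨d, hd, h⟩ := hg.exists_dist_pos hy
    refine Integrable.of_bound (hg.measurable_kNP_left y).aestronglyMeasurable (1 / (4 * Real.pi) * (d⁻¹) ^ 2) ?_
    filter_upwards [hg.ae_mem] with x hx
    rw [kNP_eq, norm_neg]
    refine (norm_inner_le_norm _ _).trans ?_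
    rw [hg.norm_nrm hx, one_mul, norm_dGam]
    have := h x hx y (mem_ball_self hd)
    gcongr

/-- density limits -/
theorem Dom.dens_lt (hg : Dom g) {y : E3} (hy : g y < 0) (z : E3) :
    Tendsto (fun δ : ℝ => (Om g).indicator (fun _ => (1 : ℝ)) (y + δ • z)) (𝓝[>] 0) (𝓝 1) := by
  have hc : Continuous (fun δ : ℝ => g (y + δ • z)) := hg.continuous.comp (by fun_prop)
  have h1 : ∀ᶠ δ : ℝ in 𝓝 0, g (y + δ • z) < 0 := by
    apply hc.continuousAt.eventually_lt continuousAt_const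
    simpa using hy
  apply tendsto_const_nhds.congr'
  filter_upwards [h1.filter_mono nhdsWithin_le_nhds] with δ hδ
  rw [indicator_of_mem]
  exact hδ

theorem Dom.dens_gt (hg : Dom g) {y : E3} (hy : 0 < g y) (z : E3) :
    Tendsto (fun δ : ℝ => (Om g).indicator (fun _ => (1 : ℝ)) (y + δ • z)) (𝓝[>] 0) (𝓝 0) := by
  have hc : Continuous (fun δ : ℝ => g (y + δ • z)) := hg.continuous.comp (by fun_prop)
  have h1 : ∀ᶠ δ : ℝ in 𝓝 0, 0 < g (y + δ • z) := by
    apply continuousAt_const.eventually_lt hc.continuousAt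
    simpa using hy
  apply tendsto_const_nhds.congr'
  filter_upwards [h1.filter_mono nhdsWithin_le_nhds] with δ hδ
  rw [indicator_of_notMem]
  simp only [Om, mem_ofPred_eq, not_lt]
  exact hδ.le

theorem Dom.dens_eq (hg : Dom g) {y : E3} (hy : g y = 0) :
    ∀ᵐ z : E3, Tendsto (fun δ : ℝ => (Om g).indicator (fun _ => (1 : ℝ)) (y + δ • z)) (𝓝[>] 0)
      (𝓝 ({z : E3 | (inner ℝ (gradient g y) z : ℝ) < 0}.indicator (fun _ => (1 : ℝ)) z)) := by
  have hv := hg.grad_ne y hy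
  have hnull : volume {z : E3 | (inner ℝ (gradient g y) z : ℝ) = 0} = 0 := by
    have h := Measure.addHaar_submodule (volume : Measure E3)
      (LinearMap.ker (innerSL ℝ (gradient g y)).toLinearMap) (by
      intro h
      have : gradient g y ∈ (LinearMap.ker (innerSL ℝ (gradient g y)).toLinearMap) := by
        rw [h]; trivial
      simp only [LinearMap.mem_ker, ContinuousLinearMap.coe_coe, innerSL_apply_apply,
        inner_self_eq_zero] at this
      exact hv this)
    convert! h using 2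
  have hne : ∀ᵐ z : E3, (inner ℝ (gradient g y) z : ℝ) ≠ 0 := by
    rw [ae_iff]
    simpa using hnull
  filter_upwards [hne] with z hz
  have hder : HasDerivAt (fun δ : ℝ => g (y + δ • z)) (inner ℝ (gradient g y) z) 0 := by
    have h1 : HasDerivAt (fun δ : ℝ => y + δ • z) z 0 := by
      have := ((hasDerivAt_id (0 : ℝ)).smul_const z).const_add y
      simpa using this
    have h2 : HasFDerivAt g (fderiv ℝ g y) (y + (0 : ℝ) • z) := by
      rw [zero_smul, add_zero]
      exact (hg.differentiable y).hasFDerivAt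
    have h3 := h2.comp_hasDerivAt (0 : ℝ) h1
    rw [inner_gradient]
    exact h3
  rw [hasDerivAt_iff_tendsto_slope_zero] at hder
  simp only [zero_add, zero_smul, add_zero, hy, sub_zero, smul_eq_mul] at hder
  have hder' : Tendsto (fun t : ℝ => t⁻¹ * g (y + t • z)) (𝓝[>] 0) (𝓝 (inner ℝ (gradient g y) z)) :=
    hder.mono_left (nhdsWithin_mono _ (fun t ht => ne_of_gt ht))
  rcases lt_or_gt_of_ne hz with h | h
  · rw [indicator_of_mem (by exact h)]
    apply tendsto_const_nhds.congr'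
    filter_upwards [hder'.eventually (gt_mem_nhds h), self_mem_nhdsWithin] with δ h1 h2
    rw [indicator_of_mem]
    simp only [Om, mem_ofPred_eq]
    have h3 : 0 < δ⁻¹ := inv_pos.2 h2
    by_contra hcon
    push Not at hcon
    nlinarith [mul_nonneg h3.le hcon]
  · rw [indicator_of_notMem (by simp only [mem_ofPred_eq, not_lt]; exact h.le)]
    apply tendsto_const_nhds.congr'
    filter_upwards [hder'.eventually (lt_mem_nhds h), self_mem_nhdsWithin] with δ h1 h2
    rw [indicator_of_notMem]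
    simp only [Om, mem_ofPred_eq]
    intro hcon
    have h3 : 0 < δ⁻¹ := inv_pos.2 h2
    nlinarith [mul_neg_of_pos_of_neg h3 hcon]

/-- `∫_Ω ∂_v (w Γ_y) = ∫_S w Γ_y ν·v`, every `y` -/
theorem Dom.kernel_trace (hg : Dom g) {w : E3 → ℝ} (hw : ContDiff ℝ 1 w)
    (hc : HasCompactSupport w) (v y : E3) :
    ∫ x in Om g, (fderiv ℝ w x v * Gam x y + w x * inner ℝ (dGam x y) v)
      = ∫ x, w x * Gam x y * inner ℝ (nrm g x) v ∂(surf g) :=
  hg.divTriple.trace hw hc v y (hg.surf_singleton y) (hg.integrable_Gam y)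
    (fun _ hB => integrableOn_Gam hB y)

/-- `∫_Ω ∇w·∇Γ_y = θ(y) w(y) - ∫_S w k(·,y)`, every `y` -/
theorem Dom.kernel_gauss (hg : Dom g) {w : E3 → ℝ} (hw : ContDiff ℝ 1 w)
    (hc : HasCompactSupport w) (y : E3) :
    ∫ x in Om g, fderiv ℝ w x (dGam x y)
      = dens g y * w y - ∫ x, w x * kNP g x y ∂(surf g) := by
  have hs : Integrable (fun x => inner ℝ (nrm g x) (dGam x y)) (surf g) := by
    have := (hg.integrable_kNP y).neg
    refine this.congr (Eventually.of_forall fun x => ?_)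
    simp [kNP_eq]
  have e1 : ∫ x, w x * kNP g x y ∂(surf g) = - ∫ x, w x * inner ℝ (nrm g x) (dGam x y) ∂(surf g) := by
    rw [← integral_neg]
    congr 1
    ext x
    rw [kNP_eq]
    ring
  rw [e1]
  rcases lt_trichotomy (g y) 0 with h | h | h
  · rw [hg.divTriple.gauss hw hc y (θ := fun _ => 1) (Eventually.of_forall (hg.dens_lt h)) hs]
    simp only [one_mul, integral_rho, dens, h, if_true]
    ring
  · rw [hg.divTriple.gauss hw hc y (hg.dens_eq h) hs, integral_rho_half (hg.grad_ne y h)]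
    simp only [dens, h, lt_irrefl, if_false, if_true]
    ring
  · rw [hg.divTriple.gauss hw hc y (θ := fun _ => 0) (Eventually.of_forall (hg.dens_gt h)) hs]
    simp only [zero_mul, integral_zero, dens, not_lt.2 h.le, h.ne', if_false]
    ring

/-- whole space version: `∫ ∇w·∇Γ_y = w(y)` -/
theorem kernel_gauss_whole {w : E3 → ℝ} (hw : ContDiff ℝ 1 w)
    (hc : HasCompactSupport w) (y : E3) :
    ∫ x, fderiv ℝ w x (dGam x y) = w y := by
  have := divTriple_univ.gauss hw hc y (θ := fun _ => 1) (Eventually.of_forall fun z => by simp) (by simp)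
  simp only [one_mul, integral_rho] at this
  simpa using this

/-- integrability of the product of two gradients -/
theorem integrable_dGam_mul {y z : E3} (hyz : y ≠ z) :
    Integrable (fun x => ‖dGam x z‖ * ‖dGam x y‖) := by
  refine ⟨((measurable_dGam z).norm.mul (measurable_dGam y).norm).aestronglyMeasurable, ?_⟩
  unfold HasFiniteIntegral
  calc ∫⁻ x, ‖‖dGam x z‖ * ‖dGam x y‖‖ₑ
      = ∫⁻ x, ENNReal.ofReal ((1 / (4 * Real.pi)) ^ 2) *
          ENNReal.ofReal ((‖x - y‖⁻¹) ^ 2 * (‖x - z‖⁻¹) ^ 2) := by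
        apply lintegral_congr
        intro x
        rw [← ENNReal.ofReal_mul (by positivity), ← ofReal_norm]
        congr 1
        rw [Real.norm_eq_abs, abs_of_nonneg (by positivity), norm_dGam, norm_dGam]
        ring
    _ = ENNReal.ofReal ((1 / (4 * Real.pi)) ^ 2) *
          ∫⁻ x, ENNReal.ofReal ((‖x - y‖⁻¹) ^ 2 * (‖x - z‖⁻¹) ^ 2) :=
        lintegral_const_mul' _ _ ENNReal.ofReal_ne_top
    _ < ⊤ := ENNReal.mul_lt_top ENNReal.ofReal_lt_top
        ((lintegral_two_point_le hyz).trans_lt ENNReal.ofReal_lt_top)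

/-- the quantitative two-point bound for the gradients -/
theorem lintegral_dGam_mul_le {y z : E3} (hyz : y ≠ z) :
    ∫⁻ x, ‖dGam x z‖ₑ * ‖dGam x y‖ₑ ≤ ENNReal.ofReal (16 * V3 / Real.pi) * ‖Gam y z‖ₑ := by
  have hV := V3_pos
  have h0 : 0 < ‖y - z‖ := norm_pos_iff.2 (sub_ne_zero.2 hyz)
  calc ∫⁻ x, ‖dGam x z‖ₑ * ‖dGam x y‖ₑ
      = ∫⁻ x, ENNReal.ofReal ((1 / (4 * Real.pi)) ^ 2) *
          ENNReal.ofReal ((‖x - y‖⁻¹) ^ 2 * (‖x - z‖⁻¹) ^ 2) := by
        apply lintegral_congr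
        intro x
        rw [← ENNReal.ofReal_mul (by positivity), ← ofReal_norm, ← ofReal_norm,
          ← ENNReal.ofReal_mul (by positivity)]
        congr 1
        rw [norm_dGam, norm_dGam]
        ring
    _ = ENNReal.ofReal ((1 / (4 * Real.pi)) ^ 2) *
          ∫⁻ x, ENNReal.ofReal ((‖x - y‖⁻¹) ^ 2 * (‖x - z‖⁻¹) ^ 2) :=
        lintegral_const_mul' _ _ ENNReal.ofReal_ne_top
    _ ≤ ENNReal.ofReal ((1 / (4 * Real.pi)) ^ 2) * ENNReal.ofReal (64 * V3 / ‖y - z‖) := by
        gcongr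
        exact lintegral_two_point_le hyz
    _ = ENNReal.ofReal (16 * V3 / Real.pi) * ‖Gam y z‖ₑ := by
        rw [← ofReal_norm, ← ENNReal.ofReal_mul (by positivity), ← ENNReal.ofReal_mul (by positivity)]
        congr 1
        rw [Real.norm_eq_abs, abs_of_nonneg (Gam_nonneg y z)]
        unfold Gam
        field_simp
        ring

end Pool.Agent.NP
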