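import Pool.Agent.Lib_h26.KernelDom

/-! Module C, part 3: energy identities for the kernels. -/

set_option autoImplicit false

open MeasureTheory Measure Metric Set Filter
open scoped Topology ENNReal

namespace Pool.Agent.NP

variable {g : E3 → ℝ}

/-- a cut-off which is one near `Ω ∪ S` -/
theorem Dom.exists_cutoff (hg : Dom g) : ∃ (χ : E3 → ℝ) (U : Set E3), IsOpen U ∧ Om g ⊆ U ∧
    {x | g x = 0} ⊆ U ∧ (∀ x ∈ U, χ x = 1) ∧ ContDiff ℝ ((⊤ : ℕ∞) : WithTop ℕ∞) χ ∧
    HasCompactSupport χ := by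
  obtain ⟨R, hR⟩ := hg.pos_far
  let b : ContDiffBump (0 : E3) := ⟨|R| + 1, |R| + 2, by positivity, by linarith⟩
  have hin : ∀ x, g x ≤ 0 → x ∈ ball (0 : E3) (|R| + 1) := by
    intro x hx
    rw [mem_ball, dist_zero_right]
    by_contra hcon
    push Not at hcon
    have := hR x (by linarith [le_abs_self R])
    linarith
  refine ⟨b, ball 0 (|R| + 1), isOpen_ball, fun x hx => hin x (le_of_lt hx),
    fun x hx => hin x (le_of_eq hx), fun x hx => ?_, b.contDiff, b.hasCompactSupport⟩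
  exact b.one_of_mem_closedBall (ball_subset_closedBall hx)

theorem fderiv_mul_of_one {χ F : E3 → ℝ} {U : Set E3} (hU : IsOpen U) (h1 : ∀ x ∈ U, χ x = 1)
    {x : E3} (hx : x ∈ U) : fderiv ℝ (fun x => χ x * F x) x = fderiv ℝ F x := by
  apply Filter.EventuallyEq.fderiv_eq
  filter_upwards [hU.mem_nhds hx] with z hz
  rw [h1 z hz, one_mul]

theorem measurable_fderiv_dGam {w : E3 → ℝ} (hw : ContDiff ℝ 1 w) :
    Measurable (fun p : E3 × E3 => fderiv ℝ w p.1 (dGam p.1 p.2)) := by
  simp_rw [← inner_gradient]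
  have hc : Continuous (gradient w) := by
    unfold gradient
    exact (InnerProductSpace.toDual ℝ E3).symm.continuous.comp (hw.continuous_fderiv (by norm_num))
  exact (hc.measurable.comp measurable_fst).inner measurable_dGam'

theorem inv_mul_inv_le {x y z : E3} (hyz : y ≠ z) (hxy : x ≠ y) (hxz : x ≠ z) :
    ‖x - z‖⁻¹ * ‖x - y‖⁻¹ ≤ ‖y - z‖⁻¹ * (‖x - z‖⁻¹ + ‖x - y‖⁻¹) := by
  have h1 : 0 < ‖x - y‖ := norm_pos_iff.2 (sub_ne_zero.2 hxy)
  have h2 : 0 < ‖x - z‖ := norm_pos_iff.2 (sub_ne_zero.2 hxz)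
  have h3 : 0 < ‖y - z‖ := norm_pos_iff.2 (sub_ne_zero.2 hyz)
  have h4 : ‖y - z‖ ≤ ‖x - y‖ + ‖x - z‖ := by
    calc ‖y - z‖ = ‖(x - z) - (x - y)‖ := by congr 1; abel
      _ ≤ ‖x - z‖ + ‖x - y‖ := norm_sub_le _ _
      _ = _ := add_comm _ _
  rw [inv_eq_one_div, inv_eq_one_div, inv_eq_one_div]
  rw [div_mul_div_comm, div_add_div _ _ h2.ne' h1.ne', div_mul_div_comm]
  rw [div_le_div_iff₀ (by positivity) (by positivity)]
  nlinarith [mul_pos h1 h2]

theorem Dom.integrable_Gam_mul_kNP (hg : Dom g) {y z : E3} (hyz : y ≠ z) (hy : g y = 0) :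
    Integrable (fun x => Gam x z * |kNP g x y|) (surf g) := by
  obtain ⟨K, hK, hk⟩ := hg.abs_kNP_le
  have h1 : Integrable (fun x => K * ‖y - z‖⁻¹ * (Gam x z + Gam x y)) (surf g) :=
    ((hg.integrable_Gam z).add (hg.integrable_Gam y)).const_mul _
  refine h1.mono' ((measurable_Gam z).mul (hg.measurable_kNP_left y).norm).aestronglyMeasurable ?_
  filter_upwards [hg.ae_mem, hg.ae_ne y, hg.ae_ne z] with x hx hxy hxz
  have hG := Gam_nonneg x z
  rw [Real.norm_eq_abs, abs_of_nonneg (by positivity)]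
  calc Gam x z * |kNP g x y| ≤ Gam x z * (K * ‖x - y‖⁻¹) := by
        gcongr
        exact hk x y hx hy
    _ = 1 / (4 * Real.pi) * K * (‖x - z‖⁻¹ * ‖x - y‖⁻¹) := by rw [Gam_eq]; ring
    _ ≤ 1 / (4 * Real.pi) * K * (‖y - z‖⁻¹ * (‖x - z‖⁻¹ + ‖x - y‖⁻¹)) := by
        gcongr 1 / (4 * Real.pi) * K * ?_
        exact inv_mul_inv_le hyz hxy hxz
    _ = _ := by rw [Gam_eq, Gam_eq]; ring

/-- `∫_Ω ∇Γ_z·∇Γ_y = Γ(y-z)/2 - ∫_S Γ_z k(·,y)` for distinct surface points -/
theorem Dom.kernel_energy (hg : Dom g) {y z : E3} (hyz : y ≠ z) (hy : g y = 0) :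
    ∫ x in Om g, inner ℝ (dGam x z) (dGam x y)
      = (1 / 2) * Gam y z - ∫ x, Gam x z * kNP g x y ∂(surf g) := by
  obtain ⟨χ, U, hU, hOU, hSU, h1, hχ, hχc⟩ := hg.exists_cutoff
  have key : ∀ δ : ℝ, 0 < δ → ∫ x in Om g, inner ℝ (dGd δ x z) (dGam x y)
      = (1 / 2) * Gd δ y z - ∫ x, Gd δ x z * kNP g x y ∂(surf g) := by
    intro δ hδ
    have hw : ContDiff ℝ 1 (fun x => χ x * Gd δ x z) :=
      (hχ.of_le (by norm_cast)).mul (contDiff_Gd hδ z)
    have h2 := hg.kernel_gauss hw hχc.mul_right y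
    have e1 : ∫ x in Om g, fderiv ℝ (fun x => χ x * Gd δ x z) x (dGam x y)
        = ∫ x in Om g, inner ℝ (dGd δ x z) (dGam x y) := by
      apply setIntegral_congr_fun hg.measurableSet_Om
      intro x hx
      simp only
      rw [fderiv_mul_of_one hU h1 (hOU hx), (hasFDerivAt_Gd hδ x z).fderiv]
      simp
    have e2 : ∫ x, (χ x * Gd δ x z) * kNP g x y ∂(surf g) = ∫ x, Gd δ x z * kNP g x y ∂(surf g) := by
      apply integral_congr_ae
      filter_upwards [hg.ae_mem] with x hx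
      rw [h1 x (hSU hx), one_mul]
    rw [e1, e2, h1 y (hSU hy), one_mul] at h2
    rw [h2]
    simp [dens, hy]
  have t1 : Tendsto (fun δ : ℝ => ∫ x in Om g, inner ℝ (dGd δ x z) (dGam x y)) (𝓝[>] 0)
      (𝓝 (∫ x in Om g, inner ℝ (dGam x z) (dGam x y))) := by
    apply tendsto_integral_filter_of_dominated_convergence (fun x => ‖dGam x z‖ * ‖dGam x y‖)
    · filter_upwards [self_mem_nhdsWithin] with δ hδ
      exact ((continuous_dGd hδ z).measurable.inner (measurable_dGam y)).aestronglyMeasurable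
    · filter_upwards with δ
      filter_upwards with x
      exact (norm_inner_le_norm _ _).trans (by gcongr; exact norm_dGd_le x z)
    · exact (integrable_dGam_mul hyz).integrableOn
    · filter_upwards with x
      exact (tendsto_dGd x z).inner tendsto_const_nhds
  have t2 : Tendsto (fun δ : ℝ => ∫ x, Gd δ x z * kNP g x y ∂(surf g)) (𝓝[>] 0)
      (𝓝 (∫ x, Gam x z * kNP g x y ∂(surf g))) := by
    apply tendsto_integral_filter_of_dominated_convergence (fun x => Gam x z * |kNP g x y|)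
    · filter_upwards [self_mem_nhdsWithin] with δ hδ
      exact ((contDiff_Gd (n := 0) hδ z).continuous.measurable.mul
        (hg.measurable_kNP_left y)).aestronglyMeasurable
    · filter_upwards with δ
      filter_upwards [hg.ae_ne z] with x hx
      rw [norm_mul, Real.norm_eq_abs, Real.norm_eq_abs, abs_of_nonneg (Gd_nonneg δ x z)]
      gcongr
      exact Gd_le_Gam hx
    · exact hg.integrable_Gam_mul_kNP hyz hy
    · filter_upwards [hg.ae_ne z] with x hx
      exact (tendsto_Gd hx).mul_const _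
  have t3 := ((tendsto_Gd hyz).const_mul (1 / 2)).sub t2
  refine tendsto_nhds_unique t1 (t3.congr' ?_)
  filter_upwards [self_mem_nhdsWithin] with δ hδ
  exact (key δ hδ).symm

theorem abs_fderiv_cut_dGam_le {R : ℝ} (hR : 0 < R) (y x : E3) :
    |fderiv ℝ (cut R y) x (dGam x y)|
      ≤ (ball y R)ᶜ.indicator (fun x => 2 * etaM / Real.pi * (‖x - y‖⁻¹) ^ 3) x := by
  have hM := etaM_pos
  by_cases h1 : ‖x - y‖ < R
  · rw [indicator_of_notMem (by simp [dist_eq_norm, h1]), fderiv_cut, deriv_eta_of_le]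
    · simp
    · rw [div_le_one (by positivity)]
      nlinarith [norm_nonneg (x - y)]
  · push Not at h1
    have h0 : 0 < ‖x - y‖ := hR.trans_le h1
    rw [indicator_of_mem (by simp [dist_eq_norm, h1])]
    by_cases h2 : ‖x - y‖ ≤ 2 * R
    · refine (abs_fderiv_cut_le hR y x (dGam x y)).trans ?_
      rw [norm_dGam]
      have h3 : 1 / R ≤ 2 * ‖x - y‖⁻¹ := by
        rw [← div_eq_mul_inv, div_le_div_iff₀ hR h0]
        linarith
      calc 4 * etaM / R * (1 / (4 * Real.pi) * ‖x - y‖⁻¹ ^ 2)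
          = etaM / Real.pi * ‖x - y‖⁻¹ ^ 2 * (1 / R) := by field_simp
        _ ≤ etaM / Real.pi * ‖x - y‖⁻¹ ^ 2 * (2 * ‖x - y‖⁻¹) := by gcongr
        _ = _ := by ring
    · push Not at h2
      rw [fderiv_cut, deriv_eta_of_ge]
      · simp
        positivity
      · rw [le_div_iff₀ (by positivity)]
        nlinarith

/-- `∫ ∇Γ_z·∇Γ_y = Γ(y-z)` over the whole space -/
theorem kernel_energy_whole {y z : E3} (hyz : y ≠ z) :
    ∫ x, inner ℝ (dGam x z) (dGam x y) = Gam y z := by
  have hM := etaM_pos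
  have hV := V3_pos
  have hd : 0 < ‖y - z‖ := norm_pos_iff.2 (sub_ne_zero.2 hyz)
  -- error term
  set C : ℝ := 2 * etaM / Real.pi * (1 / (2 * Real.pi)) with hC
  have hC0 : 0 < C := by positivity
  have hint : ∀ δ : ℝ, 0 < δ → δ * (2 * ‖y - z‖) ≤ 1 →
      ∀ᵐ x : E3, |fderiv ℝ (cut (1 / δ) y) x (dGam x y) * Gd δ x z|
        ≤ (ball y (1 / δ))ᶜ.indicator (fun x => C * (‖x - y‖⁻¹) ^ 4) x := by
    intro δ hδ hδ2
    filter_upwards [ae_ne_volume z] with x hxz
    rw [abs_mul]
    have h1 := abs_fderiv_cut_dGam_le (show 0 < 1 / δ by positivity) y x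
    by_cases hx : x ∈ (ball y (1 / δ))ᶜ
    · rw [indicator_of_mem hx] at h1 ⊢
      rw [mem_compl_iff, mem_ball, dist_eq_norm, not_lt] at hx
      have h2 : ‖x - y‖ ≤ 2 * ‖x - z‖ := by
        have h3 : 2 * ‖y - z‖ ≤ ‖x - y‖ := by
          refine le_trans ?_ hx
          rw [le_div_iff₀ hδ]
          linarith
        have h4 : ‖x - y‖ ≤ ‖x - z‖ + ‖y - z‖ := by
          calc ‖x - y‖ = ‖(x - z) - (y - z)‖ := by congr 1; abel
            _ ≤ _ := norm_sub_le _ _
        linarith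
      have h5 : 0 < ‖x - y‖ := lt_of_lt_of_le (by positivity) hx
      have h6 : 0 < ‖x - z‖ := by linarith
      have h7 : |Gd δ x z| ≤ 1 / (2 * Real.pi) * ‖x - y‖⁻¹ := by
        rw [abs_of_nonneg (Gd_nonneg δ x z)]
        refine (Gd_le_Gam hxz).trans ?_
        rw [Gam_eq]
        have h8 : ‖x - z‖⁻¹ ≤ 2 * ‖x - y‖⁻¹ := by
          rw [← div_eq_mul_inv, inv_eq_one_div, div_le_div_iff₀ h6 h5]
          linarith
        calc 1 / (4 * Real.pi) * ‖x - z‖⁻¹ ≤ 1 / (4 * Real.pi) * (2 * ‖x - y‖⁻¹) := by gcongr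
          _ = _ := by field_simp; ring
      calc |fderiv ℝ (cut (1 / δ) y) x (dGam x y)| * |Gd δ x z|
          ≤ (2 * etaM / Real.pi * ‖x - y‖⁻¹ ^ 3) * (1 / (2 * Real.pi) * ‖x - y‖⁻¹) := by gcongr
        _ = _ := by rw [hC]; ring
    · rw [indicator_of_notMem hx] at h1 ⊢
      have : |fderiv ℝ (cut (1 / δ) y) x (dGam x y)| = 0 := le_antisymm h1 (abs_nonneg _)
      rw [this, zero_mul]
  have hfar : ∀ δ : ℝ, 0 < δ → δ * (2 * ‖y - z‖) ≤ 1 →
      ∫⁻ x, ‖fderiv ℝ (cut (1 / δ) y) x (dGam x y) * Gd δ x z‖ₑ ≤ ENNReal.ofReal (16 * V3 * C * δ) := by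
    intro δ hδ hδ2
    calc ∫⁻ x, ‖fderiv ℝ (cut (1 / δ) y) x (dGam x y) * Gd δ x z‖ₑ
        ≤ ∫⁻ x, (ball y (1 / δ))ᶜ.indicator
            (fun x => ENNReal.ofReal C * ENNReal.ofReal ((‖x - y‖⁻¹) ^ 4)) x := by
          apply lintegral_mono_ae
          filter_upwards [hint δ hδ hδ2] with x hx
          rw [← ofReal_norm, Real.norm_eq_abs]
          refine (ENNReal.ofReal_le_ofReal hx).trans ?_
          by_cases hxb : x ∈ (ball y (1 / δ))ᶜ
          · rw [indicator_of_mem hxb, indicator_of_mem hxb, ← ENNReal.ofReal_mul hC0.le]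
          · rw [indicator_of_notMem hxb, indicator_of_notMem hxb]
            simp
      _ = ENNReal.ofReal C * ∫⁻ x in (ball y (1 / δ))ᶜ, ENNReal.ofReal ((‖x - y‖⁻¹) ^ 4) := by
          rw [lintegral_indicator measurableSet_ball.compl, lintegral_const_mul' _ _ ENNReal.ofReal_ne_top]
      _ ≤ ENNReal.ofReal C * ENNReal.ofReal (16 * V3 / (1 / δ)) := by
          gcongr
          exact lintegral_inv_norm_pow_four_compl_ball y (by positivity)
      _ = _ := by
          rw [← ENNReal.ofReal_mul hC0.le]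
          congr 1
          field_simp
  have hdelta : ∀ᶠ δ : ℝ in 𝓝[>] 0, 0 < δ ∧ δ * (2 * ‖y - z‖) ≤ 1 := by
    have h1 : ∀ᶠ δ : ℝ in 𝓝[>] 0, δ < 1 / (2 * ‖y - z‖) := by
      apply Filter.Eventually.filter_mono nhdsWithin_le_nhds
      exact gt_mem_nhds (by positivity)
    filter_upwards [self_mem_nhdsWithin, h1] with δ h2 h3
    refine ⟨h2, ?_⟩
    rw [lt_div_iff₀ (by positivity)] at h3
    exact h3.le
  -- main identity
  have key : ∀ δ : ℝ, 0 < δ → δ * (2 * ‖y - z‖) ≤ 1 →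
      ∫ x, (1 - cut (1 / δ) y x) * inner ℝ (dGd δ x z) (dGam x y)
        = Gd δ y z + ∫ x, fderiv ℝ (cut (1 / δ) y) x (dGam x y) * Gd δ x z := by
    intro δ hδ hδ2
    have hR : 0 < 1 / δ := by positivity
    set w : E3 → ℝ := fun x => (1 - cut (1 / δ) y x) * Gd δ x z with hw
    have hwd : ContDiff ℝ 1 w := (contDiff_one_sub_cut (1 / δ) y).mul (contDiff_Gd hδ z)
    have hwc : HasCompactSupport w := (hasCompactSupport_one_sub_cut hR y).mul_right
    have h1 := kernel_gauss_whole hwd hwc y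
    have hwy : w y = Gd δ y z := by
      simp only [hw]
      rw [cut_zero hR (by simp [hδ.le])]
      ring
    have hder : ∀ x, fderiv ℝ w x (dGam x y)
        = (1 - cut (1 / δ) y x) * inner ℝ (dGd δ x z) (dGam x y)
          - fderiv ℝ (cut (1 / δ) y) x (dGam x y) * Gd δ x z := by
      intro x
      have d1 : HasFDerivAt (fun x => 1 - cut (1 / δ) y x) (-(fderiv ℝ (cut (1 / δ) y) x)) x := by
        have h3 := hasFDerivAt_cut (1 / δ) y x
        rw [h3.fderiv]
        exact h3.const_sub 1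
      have d2 := (d1.mul (hasFDerivAt_Gd hδ x z)).fderiv
      change fderiv ℝ ((fun x => 1 - cut (1 / δ) y x) * (fun x => Gd δ x z)) x (dGam x y) = _
      rw [d2]
      simp only [_root_.add_apply, _root_.smul_apply, smul_eq_mul, innerSL_apply_apply,
        _root_.neg_apply]
      ring
    have i1 : Integrable (fun x => fderiv ℝ (cut (1 / δ) y) x (dGam x y) * Gd δ x z) := by
      refine ⟨?_, (hfar δ hδ hδ2).trans_lt ENNReal.ofReal_lt_top⟩
      apply Measurable.aestronglyMeasurable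
      apply Measurable.mul
      · simp_rw [fderiv_cut]
        apply Measurable.mul
        · apply Measurable.mul_const
          exact continuous_deriv_eta.measurable.comp (by fun_prop)
        · exact (measurable_id.sub_const y).inner (measurable_dGam y)
      · exact (contDiff_Gd (n := 0) hδ z).continuous.measurable
    have i2 : Integrable (fun x => fderiv ℝ w x (dGam x y)) := by
      refine (integrable_fderiv_dGam hwd hwc y).mono' ?_ ?_
      · apply Measurable.aestronglyMeasurable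
        exact (measurable_fderiv_dGam hwd).comp (measurable_id.prodMk measurable_const)
      · filter_upwards with x
        exact ContinuousLinearMap.le_opNorm _ _
    have h4 : ∫ x, (1 - cut (1 / δ) y x) * inner ℝ (dGd δ x z) (dGam x y)
        = ∫ x, (fderiv ℝ w x (dGam x y) + fderiv ℝ (cut (1 / δ) y) x (dGam x y) * Gd δ x z) := by
      congr 1
      ext x
      rw [hder x]
      ring
    rw [h4, integral_add i2 i1, h1, hwy]
  have t1 : Tendsto (fun δ : ℝ => ∫ x, (1 - cut (1 / δ) y x) * inner ℝ (dGd δ x z) (dGam x y))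
      (𝓝[>] 0) (𝓝 (∫ x, inner ℝ (dGam x z) (dGam x y))) := by
    apply tendsto_integral_filter_of_dominated_convergence (fun x => ‖dGam x z‖ * ‖dGam x y‖)
    · filter_upwards [self_mem_nhdsWithin] with δ hδ
      exact ((continuous_const.sub (continuous_cut (1 / δ) y)).measurable.mul
        ((continuous_dGd hδ z).measurable.inner (measurable_dGam y))).aestronglyMeasurable
    · filter_upwards with δ
      filter_upwards with x
      rw [norm_mul]
      have h1 : ‖1 - cut (1 / δ) y x‖ ≤ 1 := by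
        rw [Real.norm_eq_abs, abs_le]
        constructor <;> linarith [cut_nonneg (1 / δ) y x, cut_le_one (1 / δ) y x]
      have h2 : ‖(inner ℝ (dGd δ x z) (dGam x y) : ℝ)‖ ≤ ‖dGam x z‖ * ‖dGam x y‖ :=
        (norm_inner_le_norm _ _).trans (by gcongr; exact norm_dGd_le x z)
      calc ‖1 - cut (1 / δ) y x‖ * ‖(inner ℝ (dGd δ x z) (dGam x y) : ℝ)‖
          ≤ 1 * (‖dGam x z‖ * ‖dGam x y‖) := by gcongr
        _ = _ := one_mul _
    · exact integrable_dGam_mul hyz
    · filter_upwards with x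
      have h1 : Tendsto (fun δ : ℝ => (1 - cut (1 / δ) y x)) (𝓝[>] 0) (𝓝 1) := by
        apply tendsto_const_nhds.congr'
        have h3 : ∀ᶠ δ : ℝ in 𝓝[>] 0, δ < 1 / (‖x - y‖ + 1) := by
          apply Filter.Eventually.filter_mono nhdsWithin_le_nhds
          exact gt_mem_nhds (by positivity)
        filter_upwards [self_mem_nhdsWithin, h3] with δ h4 h5
        have h4' : 0 < δ := h4
        rw [cut_zero (by positivity)]
        · ring
        · rw [le_div_iff₀ h4']
          rw [lt_div_iff₀ (by positivity)] at h5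
          nlinarith [norm_nonneg (x - y)]
      have h2 := h1.mul ((tendsto_dGd x z).inner (tendsto_const_nhds (x := dGam x y)))
      rw [one_mul] at h2
      exact h2
  have t2 : Tendsto (fun δ : ℝ => ∫ x, fderiv ℝ (cut (1 / δ) y) x (dGam x y) * Gd δ x z)
      (𝓝[>] 0) (𝓝 0) := by
    apply squeeze_zero_norm' (a := fun δ => 16 * V3 * C * δ)
    · filter_upwards [hdelta] with δ hδ
      have h1 := (enorm_integral_le_lintegral_enorm
        (fun x => fderiv ℝ (cut (1 / δ) y) x (dGam x y) * Gd δ x z)).trans (hfar δ hδ.1 hδ.2)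
      rw [← ofReal_norm] at h1
      exact (ENNReal.ofReal_le_ofReal_iff (by have := hδ.1; positivity)).1 h1
    · have h1 : Continuous (fun δ : ℝ => 16 * V3 * C * δ) := by fun_prop
      have h2 := h1.tendsto 0
      rw [mul_zero] at h2
      exact h2.mono_left nhdsWithin_le_nhds
  have t3 := (tendsto_Gd hyz).add t2
  rw [add_zero] at t3
  refine tendsto_nhds_unique t1 (t3.congr' ?_)
  filter_upwards [hdelta] with δ hδ
  exact (key δ hδ.1 hδ.2).symm

end Pool.Agent.NP
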