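import Pool.Agent.Lib_h26.Moll

/-! Module C: identities for the kernels, from the divergence theorem with regularised kernels. -/

set_option autoImplicit false

open MeasureTheory Measure Metric Set Filter
open scoped Topology ENNReal

namespace Pool.Agent.NP

/-- abstract divergence theorem on a set `A` with normal `N` and boundary measure `s` -/
structure DivTriple (A : Set E3) (N : E3 → E3) (s : Measure E3) : Prop where
  measA : MeasurableSet A
  measN : Measurable N
  bdN : ∀ x, ‖N x‖ ≤ 1
  fin : IsFiniteMeasure s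
  div : ∀ (F : E3 → ℝ) (v : E3), ContDiff ℝ 1 F → HasCompactSupport F →
    ∫ x in A, fderiv ℝ F x v = ∫ x, F x * inner ℝ (N x) v ∂s

theorem Dom.divTriple {g : E3 → ℝ} (hg : Dom g) : DivTriple (Om g) (nrm g) (surf g) where
  measA := hg.measurableSet_Om
  measN := hg.measurable_nrm
  bdN := hg.norm_nrm_le
  fin := hg.isFiniteMeasure_surf
  div := fun _ v hF hc => hg.divergence hF hc v

theorem divTriple_univ : DivTriple univ (fun _ => 0) 0 where
  measA := MeasurableSet.univ
  measN := measurable_const
  bdN := by simp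
  fin := inferInstance
  div := fun F v hF hc => by
    rw [Measure.restrict_univ, integral_fderiv_apply hF hc v]
    simp

variable {A : Set E3} {N : E3 → E3} {s : Measure E3}

theorem DivTriple.integrable_mul_inner (h : DivTriple A N s) {F : E3 → ℝ} (hF : Continuous F)
    (hc : HasCompactSupport F) (v : E3) :
    Integrable (fun x => F x * inner ℝ (N x) v) s := by
  have := h.fin
  have h1 : Integrable F s := hF.integrable_of_hasCompactSupport hc
  have h2 : AEStronglyMeasurable (fun x => (inner ℝ (N x) v : ℝ)) s :=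
    (h.measN.inner_const).aestronglyMeasurable
  apply h1.mul_bdd (c := ‖v‖) h2
  filter_upwards with x
  calc ‖(inner ℝ (N x) v : ℝ)‖ ≤ ‖N x‖ * ‖v‖ := norm_inner_le_norm _ _
    _ ≤ 1 * ‖v‖ := by gcongr; exact h.bdN x
    _ = ‖v‖ := one_mul _

theorem sum_inner_smul_fderiv (L : E3 →L[ℝ] ℝ) (D : E3) (b : OrthonormalBasis (Fin 3) ℝ E3) :
    ∑ i, L (b i) * inner ℝ D (b i) = L D := by
  conv_rhs => rw [← b.sum_repr' D]
  rw [_root_.map_sum]
  apply Finset.sum_congr rfl
  intro i _
  rw [map_smul, smul_eq_mul, real_inner_comm, mul_comm]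

theorem continuous_fderiv_apply {w : E3 → ℝ} (hw : ContDiff ℝ 1 w) {D : E3 → E3}
    (hD : Continuous D) : Continuous (fun x => fderiv ℝ w x (D x)) :=
  (hw.continuous_fderiv (by norm_num)).clm_apply hD

theorem hasCompactSupport_fderiv_apply {w : E3 → ℝ} (hc : HasCompactSupport w) (D : E3 → E3) :
    HasCompactSupport (fun x => fderiv ℝ w x (D x)) := by
  apply HasCompactSupport.intro' (K := tsupport w) hc (isClosed_tsupport w)
  intro x hx
  have : fderiv ℝ w x = 0 := by
    by_contra hne
    exact hx (support_fderiv_subset ℝ hne)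
  rw [this]
  simp

theorem DivTriple.gauss_reg (h : DivTriple A N s) {w : E3 → ℝ} (hw : ContDiff ℝ 1 w)
    (hc : HasCompactSupport w) {δ : ℝ} (hδ : 0 < δ) (y : E3) :
    (∫ x in A, fderiv ℝ w x (dGd δ x y)) - ∫ x in A, w x * rho δ (x - y)
      = ∫ x, w x * inner ℝ (N x) (dGd δ x y) ∂s := by
  have hfin := h.fin
  let b := EuclideanSpace.basisFun (Fin 3) ℝ
  set F : Fin 3 → E3 → ℝ := fun i x => w x * inner ℝ (dGd δ x y) (b i) with hF
  have hFd : ∀ i, ContDiff ℝ 1 (F i) := fun i => hw.mul (contDiff_inner_dGd hδ y (b i))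
  have hFc : ∀ i, HasCompactSupport (F i) := fun i => hc.mul_right
  have h1 : ∑ i, ∫ x in A, fderiv ℝ (F i) x (b i) = ∑ i, ∫ x, F i x * inner ℝ (N x) (b i) ∂s :=
    Finset.sum_congr rfl fun i _ => h.div (F i) (b i) (hFd i) (hFc i)
  rw [← integral_finsetSum _ (fun i _ => (integrable_fderiv_apply (hFd i) (hFc i) (b i)).integrableOn),
    ← integral_finsetSum _ (fun i _ => h.integrable_mul_inner (hFd i).continuous (hFc i) (b i))] at h1
  have e1 : ∀ x, ∑ i, fderiv ℝ (F i) x (b i) = fderiv ℝ w x (dGd δ x y) - w x * rho δ (x - y) := by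
    intro x
    have e2 : ∀ i, fderiv ℝ (F i) x (b i) = fderiv ℝ w x (b i) * inner ℝ (dGd δ x y) (b i)
        + w x * fderiv ℝ (fun x => (inner ℝ (dGd δ x y) (b i) : ℝ)) x (b i) := by
      intro i
      have d1 := (hw.differentiable (by norm_num) x)
      have d2 := ((contDiff_inner_dGd hδ y (b i) (n := 1)).differentiable (by norm_num) x)
      have := (d1.hasFDerivAt.mul d2.hasFDerivAt).fderiv
      change fderiv ℝ (w * fun x => (inner ℝ (dGd δ x y) (b i) : ℝ)) x (b i) = _
      rw [this]
      simp only [_root_.add_apply, _root_.smul_apply, smul_eq_mul]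
      ring
    simp_rw [e2, Finset.sum_add_distrib, ← Finset.mul_sum]
    rw [sum_fderiv_dGd hδ x y b, sum_inner_smul_fderiv]
    ring
  have e3 : ∀ x, ∑ i, F i x * inner ℝ (N x) (b i) = w x * inner ℝ (N x) (dGd δ x y) := by
    intro x
    simp only [hF]
    simp_rw [mul_assoc, ← Finset.mul_sum]
    congr 1
    rw [← b.sum_inner_mul_inner (N x) (dGd δ x y)]
    apply Finset.sum_congr rfl
    intro i _
    rw [real_inner_comm (b i) (dGd δ x y), mul_comm]
  simp_rw [e1, e3] at h1
  rw [← h1, integral_sub]
  · exact ((continuous_fderiv_apply hw (continuous_dGd hδ y)).integrable_of_hasCompactSupport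
      (hasCompactSupport_fderiv_apply hc _)).integrableOn
  · apply Integrable.integrableOn
    apply Continuous.integrable_of_hasCompactSupport
    · exact hw.continuous.mul ((continuous_rho hδ).comp (continuous_id.sub continuous_const))
    · exact hc.mul_right

theorem measurable_dGam (y : E3) : Measurable (fun x => dGam x y) := by
  unfold dGam
  fun_prop

theorem measurable_dGam' : Measurable (fun p : E3 × E3 => dGam p.1 p.2) := by
  unfold dGam
  fun_prop

theorem measurable_Gam (y : E3) : Measurable (fun x => Gam x y) := by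
  unfold Gam
  fun_prop

theorem measurable_Gam' : Measurable (fun p : E3 × E3 => Gam p.1 p.2) := by
  unfold Gam
  fun_prop

theorem abs_inner_dGd_le (δ : ℝ) (x y v : E3) : |inner ℝ v (dGd δ x y)| ≤ |inner ℝ v (dGam x y)| := by
  unfold dGd dGam
  rw [inner_smul_right, inner_smul_right, abs_mul, abs_mul, abs_neg, abs_neg]
  rcases eq_or_ne x y with h | h
  · subst h; simp
  · have h0 : 0 < ‖x - y‖ := norm_pos_iff.2 (sub_ne_zero.2 h)
    have h1 := norm_le_sd δ x y
    have h2 : 0 < sd δ x y := h0.trans_le h1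
    rw [abs_of_nonneg (show 0 ≤ 1 / (4 * Real.pi * sd δ x y ^ 3) by positivity),
      abs_of_nonneg (show 0 ≤ 1 / (4 * Real.pi * ‖x - y‖ ^ 3) by positivity)]
    gcongr

/-- `|dGam|` is integrable on bounded sets -/
theorem lintegral_dGam_closedBall_le (y : E3) {r : ℝ} (hr : 0 < r) :
    ∫⁻ x in closedBall y r, ‖dGam x y‖ₑ ≤ ENNReal.ofReal (2 * V3 / Real.pi * r) := by
  have hV := V3_pos
  calc ∫⁻ x in closedBall y r, ‖dGam x y‖ₑ
      = ∫⁻ x in closedBall y r, ENNReal.ofReal (1 / (4 * Real.pi)) * ENNReal.ofReal ((‖x - y‖⁻¹) ^ 2) := by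
        apply lintegral_congr
        intro x
        rw [← ENNReal.ofReal_mul (by positivity), ← norm_dGam, ofReal_norm]
    _ = ENNReal.ofReal (1 / (4 * Real.pi)) * ∫⁻ x in closedBall y r, ENNReal.ofReal ((‖x - y‖⁻¹) ^ 2) :=
        lintegral_const_mul' _ _ ENNReal.ofReal_ne_top
    _ ≤ ENNReal.ofReal (1 / (4 * Real.pi)) * ENNReal.ofReal (8 * V3 * r) := by
        gcongr
        exact lintegral_inv_norm_sq_closedBall y hr
    _ = ENNReal.ofReal (2 * V3 / Real.pi * r) := by
        rw [← ENNReal.ofReal_mul (by positivity)]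
        congr 1
        field_simp
        ring

theorem integrableOn_dGam {B : Set E3} (hB : Bornology.IsBounded B) (y : E3) :
    IntegrableOn (fun x => dGam x y) B := by
  obtain ⟨r, hr⟩ := hB.subset_closedBall y
  have h1 : IntegrableOn (fun x => dGam x y) (closedBall y (max r 1)) := by
    refine ⟨(measurable_dGam y).aestronglyMeasurable, ?_⟩
    unfold HasFiniteIntegral
    exact (lintegral_dGam_closedBall_le y (by positivity)).trans_lt ENNReal.ofReal_lt_top
  exact h1.mono_set (hr.trans (closedBall_subset_closedBall (le_max_left _ _)))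

theorem integrable_fderiv_dGam {w : E3 → ℝ} (hw : ContDiff ℝ 1 w) (hc : HasCompactSupport w)
    (y : E3) : Integrable (fun x => ‖fderiv ℝ w x‖ * ‖dGam x y‖) := by
  have hcont : Continuous (fun x => ‖fderiv ℝ w x‖) := (hw.continuous_fderiv (by norm_num)).norm
  have hcs : HasCompactSupport (fun x => ‖fderiv ℝ w x‖) := (hc.fderiv (𝕜 := ℝ)).norm
  obtain ⟨W, hW⟩ := hcont.bounded_above_of_compact_support hcs
  have h1 : IntegrableOn (fun x => ‖fderiv ℝ w x‖ * ‖dGam x y‖)
      (tsupport (fun x => ‖fderiv ℝ w x‖)) := by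
    apply Integrable.bdd_mul (c := W)
    · exact (integrableOn_dGam hcs.isBounded y).norm
    · exact hcont.aestronglyMeasurable
    · filter_upwards with x
      exact hW x
  rw [← integrableOn_iff_integrable_of_support_subset (s := tsupport (fun x => ‖fderiv ℝ w x‖))]
  · exact h1
  · intro x hx
    apply subset_tsupport
    rw [Function.mem_support] at hx ⊢
    exact left_ne_zero_of_mul hx

theorem DivTriple.gauss (h : DivTriple A N s) {w : E3 → ℝ} (hw : ContDiff ℝ 1 w)
    (hc : HasCompactSupport w) (y : E3) {θ : E3 → ℝ}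
    (hθ : ∀ᵐ z, Tendsto (fun δ : ℝ => A.indicator (fun _ => (1 : ℝ)) (y + δ • z)) (𝓝[>] 0) (𝓝 (θ z)))
    (hs : Integrable (fun x => inner ℝ (N x) (dGam x y)) s) :
    ∫ x in A, fderiv ℝ w x (dGam x y)
      = w y * (∫ z, θ z * rho 1 z) + ∫ x, w x * inner ℝ (N x) (dGam x y) ∂s := by
  have hfin := h.fin
  have t1 : Tendsto (fun δ : ℝ => ∫ x in A, fderiv ℝ w x (dGd δ x y)) (𝓝[>] 0)
      (𝓝 (∫ x in A, fderiv ℝ w x (dGam x y))) := by
    apply tendsto_integral_filter_of_dominated_convergence (fun x => ‖fderiv ℝ w x‖ * ‖dGam x y‖)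
    · filter_upwards [self_mem_nhdsWithin] with δ hδ
      exact (continuous_fderiv_apply hw (continuous_dGd hδ y)).aestronglyMeasurable
    · filter_upwards with δ
      filter_upwards with x
      exact (ContinuousLinearMap.le_opNorm _ _).trans (by gcongr; exact norm_dGd_le x y)
    · exact (integrable_fderiv_dGam hw hc y).integrableOn
    · filter_upwards with x
      exact ((fderiv ℝ w x).continuous.tendsto _).comp (tendsto_dGd x y)
  have t2 := tendsto_mollify h.measA hw.continuous hc y hθ
  obtain ⟨W, hW⟩ := hw.continuous.bounded_above_of_compact_support hc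
  have t3 : Tendsto (fun δ : ℝ => ∫ x, w x * inner ℝ (N x) (dGd δ x y) ∂s) (𝓝[>] 0)
      (𝓝 (∫ x, w x * inner ℝ (N x) (dGam x y) ∂s)) := by
    apply tendsto_integral_filter_of_dominated_convergence (fun x => W * |inner ℝ (N x) (dGam x y)|)
    · filter_upwards [self_mem_nhdsWithin] with δ hδ
      exact (hw.continuous.measurable.mul
        (h.measN.inner (continuous_dGd hδ y).measurable)).aestronglyMeasurable
    · filter_upwards with δ
      filter_upwards with x
      rw [norm_mul]
      have := hW x
      have h2 := abs_inner_dGd_le δ x y (N x)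
      rw [Real.norm_eq_abs (inner ℝ (N x) (dGd δ x y))]
      have hW0 : 0 ≤ W := (norm_nonneg _).trans this
      gcongr
    · exact hs.abs.const_mul W
    · filter_upwards with x
      exact tendsto_const_nhds.mul (tendsto_const_nhds.inner (tendsto_dGd x y))
  have t4 := t1.sub t2
  have t5 : Tendsto (fun δ : ℝ => ∫ x, w x * inner ℝ (N x) (dGd δ x y) ∂s) (𝓝[>] 0)
      (𝓝 ((∫ x in A, fderiv ℝ w x (dGam x y)) - w y * ∫ z, θ z * rho 1 z)) := by
    refine t4.congr' ?_
    filter_upwards [self_mem_nhdsWithin] with δ hδ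
    exact h.gauss_reg hw hc hδ y
  have := tendsto_nhds_unique t3 t5
  linarith

theorem DivTriple.trace (h : DivTriple A N s) {w : E3 → ℝ} (hw : ContDiff ℝ 1 w)
    (hc : HasCompactSupport w) (v y : E3) (hy : s {y} = 0)
    (hs : Integrable (fun x => Gam x y) s) (hG : ∀ B : Set E3, Bornology.IsBounded B →
      IntegrableOn (fun x => Gam x y) B) :
    ∫ x in A, (fderiv ℝ w x v * Gam x y + w x * inner ℝ (dGam x y) v)
      = ∫ x, w x * Gam x y * inner ℝ (N x) v ∂s := by
  have hfin := h.fin
  obtain ⟨W, hW⟩ := hw.continuous.bounded_above_of_compact_support hc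
  have hcd : Continuous (fun x => fderiv ℝ w x v) :=
    continuous_fderiv_apply hw continuous_const
  have hcc : HasCompactSupport (fun x => fderiv ℝ w x v) := hasCompactSupport_fderiv_apply hc _
  obtain ⟨W', hW'⟩ := hcd.bounded_above_of_compact_support hcc
  have hW0 : 0 ≤ W := (norm_nonneg _).trans (hW 0)
  have hW0' : 0 ≤ W' := (norm_nonneg _).trans (hW' 0)
  have hvol : ∀ᵐ x : E3, x ≠ y := by rw [ae_iff]; simp
  have hsne : ∀ᵐ x ∂s, x ≠ y := by rw [ae_iff]; simpa using hy
  have key : ∀ δ : ℝ, 0 < δ →
      ∫ x in A, (fderiv ℝ w x v * Gd δ x y + w x * inner ℝ (dGd δ x y) v)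
        = ∫ x, w x * Gd δ x y * inner ℝ (N x) v ∂s := by
    intro δ hδ
    have hF : ContDiff ℝ 1 (fun x => w x * Gd δ x y) := hw.mul (contDiff_Gd hδ y)
    have h1 := h.div _ v hF hc.mul_right
    rw [← h1]
    congr 1
    ext x
    have d1 := (hw.differentiable (by norm_num) x).hasFDerivAt
    have d2 := hasFDerivAt_Gd hδ x y
    have := (d1.mul d2).fderiv
    change _ = fderiv ℝ (w * fun x => Gd δ x y) x v
    rw [this]
    simp only [_root_.add_apply, _root_.smul_apply, smul_eq_mul, innerSL_apply_apply]
    ring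
  have t1 : Tendsto (fun δ : ℝ => ∫ x in A, (fderiv ℝ w x v * Gd δ x y + w x * inner ℝ (dGd δ x y) v))
      (𝓝[>] 0) (𝓝 (∫ x in A, (fderiv ℝ w x v * Gam x y + w x * inner ℝ (dGam x y) v))) := by
    apply tendsto_integral_filter_of_dominated_convergence
      (fun x => (tsupport w).indicator (fun x => W' * Gam x y + W * (‖dGam x y‖ * ‖v‖)) x)
    · filter_upwards [self_mem_nhdsWithin] with δ hδ
      exact ((hcd.mul (contDiff_Gd (n := 0) hδ y).continuous).add
        (hw.continuous.mul ((continuous_dGd hδ y).inner continuous_const))).aestronglyMeasurable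
    · filter_upwards with δ
      apply ae_restrict_of_ae
      filter_upwards [hvol] with x hx
      by_cases hxs : x ∈ tsupport w
      · rw [indicator_of_mem hxs]
        refine (norm_add_le _ _).trans ?_
        rw [norm_mul, norm_mul]
        gcongr
        · exact hW' x
        · rw [Real.norm_eq_abs, abs_of_nonneg (Gd_nonneg δ x y)]
          exact Gd_le_Gam hx
        · exact hW x
        · exact (norm_inner_le_norm _ _).trans (by gcongr; exact norm_dGd_le x y)
      · rw [indicator_of_notMem hxs]
        have e1 : w x = 0 := image_eq_zero_of_notMem_tsupport hxs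
        have e2 : fderiv ℝ w x = 0 := by
          by_contra hne
          exact hxs (support_fderiv_subset ℝ hne)
        rw [e1, e2]
        simp
    · apply Integrable.integrableOn
      rw [integrable_indicator_iff (isClosed_tsupport w).measurableSet]
      have hb : Bornology.IsBounded (tsupport w) := hc.isBounded
      exact ((hG _ hb).const_mul W').add (((integrableOn_dGam hb y).norm.mul_const _).const_mul W)
    · apply ae_restrict_of_ae
      filter_upwards [hvol] with x hx
      exact (tendsto_const_nhds.mul (tendsto_Gd hx)).add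
        (tendsto_const_nhds.mul ((tendsto_dGd x y).inner tendsto_const_nhds))
  have t2 : Tendsto (fun δ : ℝ => ∫ x, w x * Gd δ x y * inner ℝ (N x) v ∂s)
      (𝓝[>] 0) (𝓝 (∫ x, w x * Gam x y * inner ℝ (N x) v ∂s)) := by
    apply tendsto_integral_filter_of_dominated_convergence (fun x => W * Gam x y * ‖v‖)
    · filter_upwards [self_mem_nhdsWithin] with δ hδ
      exact ((hw.continuous.mul (contDiff_Gd (n := 0) hδ y).continuous).measurable.mul
        h.measN.inner_const).aestronglyMeasurable
    · filter_upwards with δ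
      filter_upwards [hsne] with x hx
      rw [norm_mul, norm_mul]
      have hGam := Gam_nonneg x y
      have e1 : ‖Gd δ x y‖ ≤ Gam x y := by
        rw [Real.norm_eq_abs, abs_of_nonneg (Gd_nonneg δ x y)]
        exact Gd_le_Gam hx
      have e2 : ‖(inner ℝ (N x) v : ℝ)‖ ≤ ‖v‖ := by
        refine (norm_inner_le_norm _ _).trans ?_
        have := h.bdN x
        nlinarith [norm_nonneg v]
      have e3 := hW x
      gcongr
    · exact (hs.const_mul W).mul_const _
    · filter_upwards [hsne] with x hx
      exact (tendsto_const_nhds.mul (tendsto_Gd hx)).mul_const _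
  refine tendsto_nhds_unique t1 (t2.congr' ?_)
  filter_upwards [self_mem_nhdsWithin] with δ hδ
  exact (key δ hδ).symm

end Pool.Agent.NP
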