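import Pool.Agent.Lib_h26.Defs

/-! Linear algebra and measure theory of the decomposition `E3 = v^⊥ × ℝ v`. -/

set_option autoImplicit false

open MeasureTheory Measure Metric Set Module
open scoped Topology RealInnerProductSpace

namespace Pool.Agent.NP

/-- the plane orthogonal to `v` -/
noncomputable abbrev Hp (v : E3) : Submodule ℝ E3 := (ℝ ∙ v)ᗮ

theorem mem_Hp {v x : E3} : x ∈ Hp v ↔ inner ℝ v x = 0 := by
  rw [Submodule.mem_orthogonal_singleton_iff_inner_right]

theorem finrank_Hp {v : E3} (hv : ‖v‖ = 1) : finrank ℝ (Hp v) = 2 := by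
  have hv0 : v ≠ 0 := by
    rintro rfl
    simp at hv
  have : Fact (finrank ℝ E3 = 2 + 1) := ⟨by simp⟩
  exact Submodule.finrank_orthogonal_span_singleton (𝕜 := ℝ) (n := 2) hv0

/-- projection onto the plane orthogonal to the unit vector `v` -/
noncomputable def prj (v : E3) : E3 →L[ℝ] Hp v := (Hp v).orthogonalProjectionOnto

theorem prj_coe {v : E3} (hv : ‖v‖ = 1) (x : E3) :
    ((prj v x : Hp v) : E3) = x - (inner ℝ v x : ℝ) • v := by
  have h : ((prj v x : Hp v) : E3) = (Hp v).starProjection x := rfl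
  rw [h, Submodule.starProjection_orthogonal_val, Submodule.starProjection_unit_singleton ℝ hv]

theorem prj_add_smul {v : E3} (hv : ‖v‖ = 1) (z : Hp v) (t : ℝ) :
    prj v ((z : E3) + t • v) = z := by
  apply Subtype.ext
  rw [prj_coe hv, inner_add_right, inner_smul_right, real_inner_self_eq_norm_sq, hv,
    mem_Hp.1 z.2]
  simp

theorem inner_add_smul {v : E3} (hv : ‖v‖ = 1) (z : Hp v) (t : ℝ) :
    inner ℝ v ((z : E3) + t • v) = t := by
  rw [inner_add_right, inner_smul_right, real_inner_self_eq_norm_sq, hv, mem_Hp.1 z.2]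
  simp

theorem prj_decomp {v : E3} (hv : ‖v‖ = 1) (x : E3) :
    ((prj v x : Hp v) : E3) + (inner ℝ v x : ℝ) • v = x := by
  rw [prj_coe hv]; simp

/-- the isometry `v^⊥ × ℝ ≃ E3` -/
noncomputable def dec (v : E3) (hv : ‖v‖ = 1) : WithLp 2 (Hp v × ℝ) ≃ₗᵢ[ℝ] E3 where
  toFun p := ((WithLp.ofLp p).1 : E3) + (WithLp.ofLp p).2 • v
  invFun x := WithLp.toLp 2 (prj v x, inner ℝ v x)
  map_add' p q := by
    simp only [WithLp.ofLp_add, Prod.fst_add, Prod.snd_add, Submodule.coe_add, add_smul]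
    abel
  map_smul' c p := by
    simp [smul_smul]
  left_inv p := by
    apply (WithLp.equiv 2 (Hp v × ℝ)).injective
    simp only [WithLp.equiv_apply]
    rw [prj_add_smul hv, inner_add_smul hv]
  right_inv x := by
    simp only
    exact prj_decomp hv x
  norm_map' p := by
    have h1 : ‖((WithLp.ofLp p).1 : E3) + (WithLp.ofLp p).2 • v‖ ^ 2
        = ‖(WithLp.ofLp p).1‖ ^ 2 + ‖(WithLp.ofLp p).2‖ ^ 2 := by
      rw [norm_add_sq_real, inner_smul_right]
      have : inner ℝ ((WithLp.ofLp p).1 : E3) v = 0 := by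
        rw [real_inner_comm]; exact mem_Hp.1 (WithLp.ofLp p).1.2
      rw [this, norm_smul, hv]
      simp
    have h2 := WithLp.prod_norm_sq_eq_of_L2 p
    have h3 : ‖((WithLp.ofLp p).1 : E3) + (WithLp.ofLp p).2 • v‖ ^ 2 = ‖p‖ ^ 2 := by
      rw [h1, h2]; rfl
    exact (sq_eq_sq₀ (norm_nonneg _) (norm_nonneg _)).1 h3

theorem measurePreserving_dec {v : E3} (hv : ‖v‖ = 1) :
    MeasurePreserving (fun p : Hp v × ℝ => (p.1 : E3) + p.2 • v) := by
  have h1 := (dec v hv).measurePreserving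
  have h2 := WithLp.volume_preserving_toLp (Hp v) ℝ
  exact h1.comp h2

/-- the homeomorphism version -/
noncomputable def decHomeo (v : E3) (hv : ‖v‖ = 1) : (Hp v × ℝ) ≃ₜ E3 where
  toFun p := (p.1 : E3) + p.2 • v
  invFun x := (prj v x, inner ℝ v x)
  left_inv p := by
    simp only
    rw [prj_add_smul hv, inner_add_smul hv]
  right_inv x := by
    simp only
    exact prj_decomp hv x
  continuous_toFun := by fun_prop
  continuous_invFun := by fun_prop

theorem integral_slice {v : E3} (hv : ‖v‖ = 1) {H : E3 → ℝ} (hH : Integrable H) :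
    ∫ x, H x = ∫ z : Hp v, ∫ t : ℝ, H ((z : E3) + t • v) := by
  have hm := measurePreserving_dec hv
  have he : MeasurableEmbedding (fun p : Hp v × ℝ => (p.1 : E3) + p.2 • v) :=
    (decHomeo v hv).measurableEmbedding
  rw [← hm.integral_comp he]
  have hint : Integrable (fun p : Hp v × ℝ => H ((p.1 : E3) + p.2 • v)) :=
    (hm.integrable_comp_emb he).2 hH
  exact integral_prod _ hint

theorem integrable_slice {v : E3} (hv : ‖v‖ = 1) {H : E3 → ℝ} (hH : Integrable H) :
    Integrable (fun z : Hp v => ∫ t : ℝ, H ((z : E3) + t • v)) := by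
  have hm := measurePreserving_dec hv
  have he : MeasurableEmbedding (fun p : Hp v × ℝ => (p.1 : E3) + p.2 • v) :=
    (decHomeo v hv).measurableEmbedding
  have hint : Integrable (fun p : Hp v × ℝ => H ((p.1 : E3) + p.2 • v)) :=
    (hm.integrable_comp_emb he).2 hH
  exact hint.integral_prod_left

/-- the linear parametrisation of the plane `n^⊥` over `v^⊥` -/
noncomputable def tanMap (v n : E3) : Hp v →ₗ[ℝ] E3 :=
  (Hp v).subtype - ((((inner ℝ n v : ℝ)⁻¹) • (innerₛₗ ℝ n)).comp (Hp v).subtype).smulRight v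

theorem tanMap_apply (v n : E3) (z : Hp v) :
    tanMap v n z = (z : E3) - ((inner ℝ n v : ℝ)⁻¹ * inner ℝ n (z : E3)) • v := by
  simp [tanMap]

theorem sub_tanMap_prj {v n : E3} (hv : ‖v‖ = 1) (hc : (inner ℝ n v : ℝ) ≠ 0) (x : E3) :
    x - tanMap v n (prj v x) = ((inner ℝ n v : ℝ)⁻¹ * inner ℝ n x) • v := by
  rw [tanMap_apply, prj_coe hv, inner_sub_right, inner_smul_right]
  have : (inner ℝ n v : ℝ)⁻¹ * (inner ℝ n x - inner ℝ v x * inner ℝ n v)
      = (inner ℝ n v : ℝ)⁻¹ * inner ℝ n x - inner ℝ v x := by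
    field_simp
  rw [this, sub_smul]
  abel

theorem normDet_tanMap {v n : E3} (hv : ‖v‖ = 1) (hn : ‖n‖ = 1) (hc : (inner ℝ n v : ℝ) ≠ 0) :
    (tanMap v n).normDet = |(inner ℝ n v : ℝ)|⁻¹ := by
  set c : ℝ := inner ℝ n v with hcdef
  have hfr := finrank_Hp hv
  let b : OrthonormalBasis (Fin 2) ℝ (Hp v) :=
    (stdOrthonormalBasis ℝ (Hp v)).reindex (finCongr hfr)
  have hsq := LinearMap.normDet_sq_eq_det_gram (tanMap v n) b
  -- inner products
  have hin : ∀ z w : Hp v, inner ℝ (tanMap v n z) (tanMap v n w)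
      = inner ℝ (z : E3) (w : E3) + (c⁻¹ * inner ℝ n (z : E3)) * (c⁻¹ * inner ℝ n (w : E3)) := by
    intro z w
    rw [tanMap_apply, tanMap_apply, inner_sub_left, inner_sub_right, inner_sub_right,
      inner_smul_left, inner_smul_right, inner_smul_left, inner_smul_right,
      real_inner_self_eq_norm_sq, hv, mem_Hp.1 w.2, real_inner_comm v (z : E3), mem_Hp.1 z.2]
    simp [hcdef]
  have h00 : inner ℝ ((b 0 : Hp v) : E3) ((b 0 : Hp v) : E3) = 1 := by
    have := b.orthonormal.1 0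
    rw [real_inner_self_eq_norm_sq]
    have h' : ‖((b 0 : Hp v) : E3)‖ = 1 := this
    rw [h']; norm_num
  have h11 : inner ℝ ((b 1 : Hp v) : E3) ((b 1 : Hp v) : E3) = 1 := by
    have := b.orthonormal.1 1
    rw [real_inner_self_eq_norm_sq]
    have h' : ‖((b 1 : Hp v) : E3)‖ = 1 := this
    rw [h']; norm_num
  have h01 : inner ℝ ((b 0 : Hp v) : E3) ((b 1 : Hp v) : E3) = 0 := by
    have := b.orthonormal.2 (show (0 : Fin 2) ≠ 1 by decide)
    exact this
  have h10 : inner ℝ ((b 1 : Hp v) : E3) ((b 0 : Hp v) : E3) = 0 := by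
    have := b.orthonormal.2 (show (1 : Fin 2) ≠ 0 by decide)
    exact this
  set p : ℝ := inner ℝ n ((b 0 : Hp v) : E3) with hp
  set q : ℝ := inner ℝ n ((b 1 : Hp v) : E3) with hq
  have hdet : (Matrix.gram ℝ (fun i => tanMap v n (b i))).det = 1 + (c⁻¹ * p) ^ 2 + (c⁻¹ * q) ^ 2 := by
    rw [Matrix.det_fin_two]
    simp only [Matrix.gram_apply, hin, h00, h11, h01, h10]
    rw [← hp, ← hq]
    ring
  -- Parseval
  have hpars : p ^ 2 + q ^ 2 = 1 - c ^ 2 := by
    have h1 : ‖prj v n‖ ^ 2 = p ^ 2 + q ^ 2 := by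
      rw [← b.sum_sq_inner_right (prj v n), Fin.sum_univ_two]
      have e0 : inner ℝ (b 0) (prj v n) = p := by
        have : (inner ℝ (b 0) (prj v n) : ℝ) = inner ℝ ((b 0 : Hp v) : E3) ((prj v n : Hp v) : E3) := rfl
        rw [this, prj_coe hv, inner_sub_right, inner_smul_right, real_inner_comm v,
          mem_Hp.1 (b 0).2, real_inner_comm, ← hp]
        simp
      have e1 : inner ℝ (b 1) (prj v n) = q := by
        have : (inner ℝ (b 1) (prj v n) : ℝ) = inner ℝ ((b 1 : Hp v) : E3) ((prj v n : Hp v) : E3) := rfl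
        rw [this, prj_coe hv, inner_sub_right, inner_smul_right, real_inner_comm v,
          mem_Hp.1 (b 1).2, real_inner_comm, ← hq]
        simp
      rw [e0, e1]
    have h2 : ‖prj v n‖ ^ 2 = 1 - c ^ 2 := by
      have : ‖prj v n‖ = ‖((prj v n : Hp v) : E3)‖ := rfl
      rw [this, prj_coe hv, norm_sub_sq_real, inner_smul_right, norm_smul, hn, hv,
        real_inner_comm n v, ← hcdef]
      simp
      ring
    rw [← h1, h2]
  have hfin : (tanMap v n).normDet ^ 2 = (|c|⁻¹) ^ 2 := by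
    have : ((tanMap v n).normDet ^ 2 : ℝ) = (Matrix.gram ℝ (fun i => tanMap v n (b i))).det := by
      exact_mod_cast hsq
    rw [this, hdet]
    have e : 1 + (c⁻¹ * p) ^ 2 + (c⁻¹ * q) ^ 2 = 1 + (c⁻¹) ^ 2 * (p ^ 2 + q ^ 2) := by ring
    rw [e, hpars, inv_pow, inv_pow, sq_abs]
    field_simp
    ring
  exact (sq_eq_sq₀ (LinearMap.normDet_nonneg _) (by positivity)).1 hfin

end Pool.Agent.NP
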