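import Pool.Agent.Lib_h26.Reg

/-! The mollifier `rho` and its limit. -/

set_option autoImplicit false

open MeasureTheory Measure Metric Set Filter
open scoped Topology ENNReal

namespace Pool.Agent.NP

theorem rho_eq (z : E3) : rho 1 z = (fun r : ℝ => 3 / (4 * Real.pi * Real.sqrt (r ^ 2 + 1) ^ 5)) ‖z‖ := by
  unfold rho
  simp

theorem hasDerivAt_radial (r : ℝ) :
    HasDerivAt (fun r : ℝ => (r / Real.sqrt (r ^ 2 + 1)) ^ 3)
      (3 * r ^ 2 / Real.sqrt (r ^ 2 + 1) ^ 5) r := by
  have hp : 0 < Real.sqrt (r ^ 2 + 1) := Real.sqrt_pos.2 (by positivity)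
  have hs : Real.sqrt (r ^ 2 + 1) ^ 2 = r ^ 2 + 1 := Real.sq_sqrt (by positivity)
  have h1 : HasDerivAt (fun r : ℝ => r ^ 2 + 1) (2 * r) r := by
    have := (hasDerivAt_pow 2 r).add_const 1
    simpa using this
  have h2 := h1.sqrt (by positivity)
  have h3 := ((hasDerivAt_id r).div h2 hp.ne').pow 3
  convert! h3 using 1
  simp only [id_eq, Pi.div_apply, div_pow]
  have h4 : Real.sqrt (r ^ 2 + 1) - r * (2 * r / (2 * Real.sqrt (r ^ 2 + 1)))
      = 1 / Real.sqrt (r ^ 2 + 1) := by
    field_simp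
    rw [hs]
    ring
  rw [one_mul, h4]
  field_simp
  norm_num
  ring

theorem tendsto_radial : Tendsto (fun r : ℝ => (r / Real.sqrt (r ^ 2 + 1)) ^ 3) atTop (𝓝 1) := by
  have h1 : Tendsto (fun r : ℝ => 1 - 1 / (r ^ 2 + 1)) atTop (𝓝 (1 - 0)) := by
    apply tendsto_const_nhds.sub
    simp only [one_div]
    apply Tendsto.inv_tendsto_atTop
    apply tendsto_atTop_add_const_right
    exact tendsto_pow_atTop (by norm_num)
  have h2 : Tendsto (fun r : ℝ => Real.sqrt (1 - 1 / (r ^ 2 + 1))) atTop (𝓝 (Real.sqrt (1 - 0))) :=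
    (Real.continuous_sqrt.tendsto _).comp h1
  have h3 := h2.pow 3
  simp only [sub_zero, Real.sqrt_one, one_pow] at h3
  refine h3.congr' ?_
  filter_upwards [eventually_gt_atTop 0] with r hr
  congr 1
  rw [Real.sqrt_eq_iff_eq_sq]
  · rw [div_pow, Real.sq_sqrt (by positivity)]
    field_simp
    ring
  · rw [sub_nonneg, div_le_one (by positivity)]
    nlinarith [sq_nonneg r]
  · positivity

theorem radial_integrable :
    IntegrableOn (fun r : ℝ => 3 * r ^ 2 / Real.sqrt (r ^ 2 + 1) ^ 5) (Ioi 0) :=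
  integrableOn_Ioi_deriv_of_nonneg' (fun x _ => hasDerivAt_radial x) (fun x _ => by positivity)
    tendsto_radial

theorem radial_integral :
    ∫ r in Ioi (0 : ℝ), 3 * r ^ 2 / Real.sqrt (r ^ 2 + 1) ^ 5 = 1 := by
  rw [integral_Ioi_of_hasDerivAt_of_nonneg' (fun x _ => hasDerivAt_radial x)
    (fun x _ => by positivity) tendsto_radial]
  simp

theorem integrable_rho : Integrable (rho 1) := by
  have h : rho 1 = fun z : E3 => (fun r : ℝ => 3 / (4 * Real.pi * Real.sqrt (r ^ 2 + 1) ^ 5)) ‖z‖ := by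
    ext z; exact rho_eq z
  rw [h]
  apply (integrable_fun_norm_addHaar (volume : Measure E3)
    (f := fun r : ℝ => 3 / (4 * Real.pi * Real.sqrt (r ^ 2 + 1) ^ 5))).2
  simp only [finrank_euclideanSpace, Fintype.card_fin]
  have h2 : IntegrableOn (fun r : ℝ => 1 / (4 * Real.pi) * (3 * r ^ 2 / Real.sqrt (r ^ 2 + 1) ^ 5)) (Ioi 0) :=
    radial_integrable.const_mul (1 / (4 * Real.pi))
  refine h2.congr_fun ?_ measurableSet_Ioi
  intro r _
  have hp : 0 < Real.sqrt (r ^ 2 + 1) := Real.sqrt_pos.2 (by positivity)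
  simp only [smul_eq_mul]
  field_simp

theorem integral_rho : ∫ z, rho 1 z = 1 := by
  simp_rw [rho_eq]
  rw [integral_fun_norm_addHaar (volume : Measure E3)
    (fun r : ℝ => 3 / (4 * Real.pi * Real.sqrt (r ^ 2 + 1) ^ 5))]
  simp only [finrank_euclideanSpace, Fintype.card_fin]
  have h1 : ∫ r in Ioi (0 : ℝ), r ^ (3 - 1) • (3 / (4 * Real.pi * Real.sqrt (r ^ 2 + 1) ^ 5))
      = 1 / (4 * Real.pi) := by
    have h2 : ∫ r in Ioi (0 : ℝ), r ^ (3 - 1) • (3 / (4 * Real.pi * Real.sqrt (r ^ 2 + 1) ^ 5))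
        = ∫ r in Ioi (0 : ℝ), 1 / (4 * Real.pi) * (3 * r ^ 2 / Real.sqrt (r ^ 2 + 1) ^ 5) := by
      apply setIntegral_congr_fun measurableSet_Ioi
      intro r _
      have hp : 0 < Real.sqrt (r ^ 2 + 1) := Real.sqrt_pos.2 (by positivity)
      simp only [smul_eq_mul]
      field_simp
    rw [h2, integral_const_mul, radial_integral, mul_one]
  rw [h1, Measure.real, EuclideanSpace.volume_ball_fin_three]
  simp only [ENNReal.ofReal_one, one_pow, one_mul]
  rw [ENNReal.toReal_ofReal (by positivity)]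
  simp only [smul_eq_mul, nsmul_eq_mul]
  have := Real.pi_pos
  field_simp
  norm_num

theorem rho_nonneg (δ : ℝ) (z : E3) : 0 ≤ rho δ z := by unfold rho; positivity

theorem rho_neg (δ : ℝ) (z : E3) : rho δ (-z) = rho δ z := by unfold rho; rw [norm_neg]

theorem continuous_rho {δ : ℝ} (hδ : 0 < δ) : Continuous (rho δ) := by
  unfold rho
  apply continuous_const.div (by fun_prop)
  intro z
  have : 0 < Real.sqrt (‖z‖ ^ 2 + δ ^ 2) := Real.sqrt_pos.2 (by positivity)
  positivity

theorem rho_smul {δ : ℝ} (hδ : 0 < δ) (z : E3) : rho δ (δ • z) = (δ ^ 3)⁻¹ * rho 1 z := by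
  unfold rho
  rw [norm_smul, Real.norm_eq_abs, abs_of_pos hδ]
  have h1 : Real.sqrt ((δ * ‖z‖) ^ 2 + δ ^ 2) = δ * Real.sqrt (‖z‖ ^ 2 + 1) := by
    rw [show (δ * ‖z‖) ^ 2 + δ ^ 2 = δ ^ 2 * (‖z‖ ^ 2 + 1) by ring,
      Real.sqrt_mul (by positivity), Real.sqrt_sq hδ.le]
  rw [h1]
  have : 0 < Real.sqrt (‖z‖ ^ 2 + 1) := Real.sqrt_pos.2 (by positivity)
  simp only [one_pow, mul_one]
  field_simp

/-- change of variables -/
theorem integral_scale (f : E3 → ℝ) {δ : ℝ} (hδ : 0 < δ) (y : E3) :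
    ∫ x, f x = δ ^ 3 * ∫ z, f (y + δ • z) := by
  have h1 : ∫ x, f x = ∫ x, f (y + x) := (integral_add_left_eq_self f y).symm
  rw [h1, Measure.integral_comp_smul (volume : Measure E3) (fun x => f (y + x)) δ]
  simp only [finrank_euclideanSpace, Fintype.card_fin, smul_eq_mul]
  rw [abs_of_pos (by positivity)]
  field_simp

theorem integral_mul_rho (A : Set E3) (hA : MeasurableSet A) (w : E3 → ℝ) {δ : ℝ} (hδ : 0 < δ) (y : E3) :
    ∫ x in A, w x * rho δ (x - y)
      = ∫ z, (A.indicator (fun _ => (1 : ℝ)) (y + δ • z)) * w (y + δ • z) * rho 1 z := by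
  rw [← integral_indicator hA, integral_scale _ hδ y, ← integral_const_mul]
  apply integral_congr_ae
  filter_upwards with z
  by_cases h : y + δ • z ∈ A
  · rw [indicator_of_mem h, indicator_of_mem h]
    rw [add_sub_cancel_left, rho_smul hδ]
    field_simp
  · rw [indicator_of_notMem h, indicator_of_notMem h]
    simp

/-- limit of mollifications -/
theorem tendsto_mollify {A : Set E3} (hA : MeasurableSet A) {w : E3 → ℝ} (hw : Continuous w)
    (hc : HasCompactSupport w) (y : E3) {θ : E3 → ℝ}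
    (hθ : ∀ᵐ z, Tendsto (fun δ : ℝ => A.indicator (fun _ => (1 : ℝ)) (y + δ • z)) (𝓝[>] 0) (𝓝 (θ z))) :
    Tendsto (fun δ : ℝ => ∫ x in A, w x * rho δ (x - y)) (𝓝[>] 0)
      (𝓝 (w y * ∫ z, θ z * rho 1 z)) := by
  obtain ⟨W, hW⟩ := hw.bounded_above_of_compact_support hc
  have h1 : Tendsto (fun δ : ℝ => ∫ z, (A.indicator (fun _ => (1 : ℝ)) (y + δ • z)) * w (y + δ • z) * rho 1 z)
      (𝓝[>] 0) (𝓝 (∫ z, θ z * w y * rho 1 z)) := by
    apply tendsto_integral_filter_of_dominated_convergence (fun z => W * rho 1 z)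
    · filter_upwards with δ
      apply Measurable.aestronglyMeasurable
      have hm : Measurable (fun z : E3 => y + δ • z) := by fun_prop
      exact (((measurable_const.indicator hA).comp hm).mul (hw.measurable.comp hm)).mul
        (continuous_rho one_pos).measurable
    · filter_upwards with δ
      filter_upwards with z
      rw [norm_mul, norm_mul, Real.norm_eq_abs (rho 1 z), abs_of_nonneg (rho_nonneg _ _)]
      have h2 : ‖A.indicator (fun _ => (1 : ℝ)) (y + δ • z)‖ ≤ 1 := by
        by_cases h : y + δ • z ∈ A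
        · rw [indicator_of_mem h]; simp
        · rw [indicator_of_notMem h]; simp
      have h3 := hW (y + δ • z)
      have h4 := rho_nonneg 1 z
      have h5 : ‖A.indicator (fun _ => (1 : ℝ)) (y + δ • z)‖ * ‖w (y + δ • z)‖ ≤ 1 * W := by gcongr
      rw [one_mul] at h5
      gcongr
    · exact integrable_rho.const_mul W
    · filter_upwards [hθ] with z hz
      have h2 : Tendsto (fun δ : ℝ => w (y + δ • z)) (𝓝[>] 0) (𝓝 (w y)) := by
        have h3 : Continuous (fun δ : ℝ => w (y + δ • z)) := by fun_prop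
        have h4 := h3.tendsto 0
        simp only [zero_smul, add_zero] at h4
        exact h4.mono_left nhdsWithin_le_nhds
      exact (hz.mul h2).mul_const _
  have e1 : ∫ z, θ z * w y * rho 1 z = w y * ∫ z, θ z * rho 1 z := by
    rw [← integral_const_mul]
    apply integral_congr_ae
    filter_upwards with z
    ring
  rw [e1] at h1
  refine h1.congr' ?_
  filter_upwards [self_mem_nhdsWithin] with δ hδ
  exact (integral_mul_rho A hA w hδ y).symm

/-- half space integral -/
theorem integral_rho_half {v : E3} (hv : v ≠ 0) :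
    ∫ z, ({z : E3 | (inner ℝ v z : ℝ) < 0}.indicator (fun _ => (1 : ℝ)) z) * rho 1 z = 1 / 2 := by
  set H : Set E3 := {z : E3 | (inner ℝ v z : ℝ) < 0} with hH
  have hcont : Continuous (fun z : E3 => (inner ℝ v z : ℝ)) := by fun_prop
  have hHm : MeasurableSet H := (isOpen_lt hcont continuous_const).measurableSet
  have hnull : volume {z : E3 | (inner ℝ v z : ℝ) = 0} = 0 := by
    have h := Measure.addHaar_submodule (volume : Measure E3) (LinearMap.ker (innerSL ℝ v).toLinearMap) (by
      intro h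
      have : v ∈ (LinearMap.ker (innerSL ℝ v).toLinearMap) := by rw [h]; trivial
      simp at this
      exact hv this)
    convert! h using 2
  have h1 : ∀ z, H.indicator (fun _ => (1 : ℝ)) z * rho 1 z = H.indicator (rho 1) z := by
    intro z
    by_cases h : z ∈ H
    · rw [indicator_of_mem h, indicator_of_mem h, one_mul]
    · rw [indicator_of_notMem h, indicator_of_notMem h, zero_mul]
  simp_rw [h1]
  rw [integral_indicator hHm]
  have h2 : ∫ z in H, rho 1 z = ∫ z in Hᶜ, rho 1 z := by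
    have h3 : ∫ z in Hᶜ, rho 1 z = ∫ z, Hᶜ.indicator (rho 1) z := (integral_indicator hHm.compl).symm
    have h4 : ∫ z, Hᶜ.indicator (rho 1) z = ∫ z, Hᶜ.indicator (rho 1) (-z) :=
      (integral_neg_eq_self (Hᶜ.indicator (rho 1)) volume).symm
    rw [h3, h4, ← integral_indicator hHm]
    apply integral_congr_ae
    have hne : ∀ᵐ z : E3, (inner ℝ v z : ℝ) ≠ 0 := by
      rw [ae_iff]
      simpa using hnull
    filter_upwards [hne] with z hz
    by_cases h : z ∈ H
    · have h5 : -z ∈ Hᶜ := by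
        simp only [hH, mem_compl_iff, mem_ofPred_eq, inner_neg_right, not_lt] at h ⊢
        linarith
      rw [indicator_of_mem h, indicator_of_mem h5, rho_neg]
    · have h5 : -z ∉ Hᶜ := by
        simp only [hH, mem_compl_iff, mem_ofPred_eq, inner_neg_right, not_lt, not_le] at h ⊢
        have : 0 < (inner ℝ v z : ℝ) := lt_of_le_of_ne h (Ne.symm hz)
        linarith
      rw [indicator_of_notMem h, indicator_of_notMem h5]
  have h6 := integral_add_compl hHm integrable_rho
  rw [integral_rho] at h6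
  linarith

end Pool.Agent.NP
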