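import Pool.Agent.Lib_h26.Estimates

/-! Regularised Newtonian kernels. -/

set_option autoImplicit false

open MeasureTheory Measure Metric Set Filter
open scoped Topology ENNReal

namespace Pool.Agent.NP

/-- regularised distance -/
noncomputable def sd (δ : ℝ) (x y : E3) : ℝ := Real.sqrt (‖x - y‖ ^ 2 + δ ^ 2)

/-- regularised Newtonian kernel -/
noncomputable def Gd (δ : ℝ) (x y : E3) : ℝ := 1 / (4 * Real.pi * sd δ x y)

/-- its gradient -/
noncomputable def dGd (δ : ℝ) (x y : E3) : E3 := (-(1 / (4 * Real.pi * sd δ x y ^ 3))) • (x - y)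

/-- minus its Laplacian -/
noncomputable def rho (δ : ℝ) (z : E3) : ℝ :=
  3 * δ ^ 2 / (4 * Real.pi * Real.sqrt (‖z‖ ^ 2 + δ ^ 2) ^ 5)

theorem sd_pos {δ : ℝ} (hδ : 0 < δ) (x y : E3) : 0 < sd δ x y :=
  Real.sqrt_pos.2 (by positivity)

theorem sd_sq (δ : ℝ) (x y : E3) : sd δ x y ^ 2 = ‖x - y‖ ^ 2 + δ ^ 2 :=
  Real.sq_sqrt (by positivity)

theorem norm_le_sd (δ : ℝ) (x y : E3) : ‖x - y‖ ≤ sd δ x y :=
  Real.le_sqrt_of_sq_le (by nlinarith [sq_nonneg δ])

theorem le_sd {δ : ℝ} (x y : E3) : δ ≤ sd δ x y :=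
  Real.le_sqrt_of_sq_le (by nlinarith [sq_nonneg ‖x - y‖])

theorem contDiff_sd {δ : ℝ} (hδ : 0 < δ) (y : E3) {n : WithTop ℕ∞} :
    ContDiff ℝ n (fun x => sd δ x y) := by
  unfold sd
  apply ContDiff.sqrt
  · exact ((contDiff_id.sub contDiff_const).norm_sq ℝ).add contDiff_const
  · intro x
    positivity

theorem hasFDerivAt_sd {δ : ℝ} (hδ : 0 < δ) (x y : E3) :
    HasFDerivAt (fun x => sd δ x y) ((1 / sd δ x y) • innerSL ℝ (x - y)) x := by
  have h1 : HasFDerivAt (fun x : E3 => x - y) (ContinuousLinearMap.id ℝ E3) x :=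
    (hasFDerivAt_id x).sub_const y
  have h2 := ((h1.norm_sq).add_const (δ ^ 2)).sqrt (by positivity)
  convert! h2 using 1
  ext v
  have := sd_pos hδ x y
  unfold sd at *
  simp
  field_simp

theorem hasFDerivAt_sd_pow {δ : ℝ} (hδ : 0 < δ) (x y : E3) (n : ℕ) :
    HasFDerivAt (fun x => (sd δ x y ^ n)⁻¹)
      ((-(n : ℝ) / sd δ x y ^ (n + 2)) • innerSL ℝ (x - y)) x := by
  have hp := sd_pos hδ x y
  have h1 := (hasFDerivAt_sd hδ x y)
  have h2 : HasDerivAt (fun t : ℝ => (t ^ n)⁻¹) (-(n : ℝ) / sd δ x y ^ (n + 1)) (sd δ x y) := by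
    have := (hasDerivAt_pow n (sd δ x y)).inv (pow_ne_zero _ hp.ne')
    convert! this using 1
    rcases n with _ | n
    · simp
    · simp only [Nat.add_sub_cancel]
      field_simp
      ring
  have h3 := h2.comp_hasFDerivAt x h1
  convert! h3 using 1
  rw [smul_smul]
  congr 1
  field_simp
  ring

theorem contDiff_Gd {δ : ℝ} (hδ : 0 < δ) (y : E3) {n : WithTop ℕ∞} :
    ContDiff ℝ n (fun x => Gd δ x y) := by
  unfold Gd
  apply contDiff_const.div (contDiff_const.mul (contDiff_sd hδ y))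
  intro x
  have := sd_pos hδ x y
  positivity

theorem hasFDerivAt_Gd {δ : ℝ} (hδ : 0 < δ) (x y : E3) :
    HasFDerivAt (fun x => Gd δ x y) (innerSL ℝ (dGd δ x y)) x := by
  have hp := sd_pos hδ x y
  have h := (hasFDerivAt_sd_pow hδ x y 1).const_mul (1 / (4 * Real.pi))
  have e : (fun x => Gd δ x y) = fun x => 1 / (4 * Real.pi) * (sd δ x y ^ 1)⁻¹ := by
    ext x
    unfold Gd
    rw [pow_one]
    field_simp
  rw [e]
  convert! h using 1
  ext v
  simp [dGd]
  field_simp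

theorem hasFDerivAt_inner_dGd {δ : ℝ} (hδ : 0 < δ) (x y v : E3) :
    HasFDerivAt (fun x => (inner ℝ (dGd δ x y) v : ℝ))
      ((-(1 / (4 * Real.pi * sd δ x y ^ 3))) • innerSL ℝ v
        + (3 * inner ℝ (x - y) v / (4 * Real.pi * sd δ x y ^ 5)) • innerSL ℝ (x - y)) x := by
  have hp := sd_pos hδ x y
  have h := (hasFDerivAt_sd_pow hδ x y 3).const_mul (-(1 / (4 * Real.pi)))
  have h1 : HasFDerivAt (fun x : E3 => (inner ℝ (x - y) v : ℝ)) (innerSL ℝ v) x := by
    have h0 : HasFDerivAt (fun x : E3 => innerSL ℝ v (x - y)) (innerSL ℝ v) x := by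
      have := (innerSL ℝ v).hasFDerivAt.comp x ((hasFDerivAt_id x).sub_const y)
      rw [ContinuousLinearMap.comp_id] at this
      exact this
    refine h0.congr_of_eventuallyEq (Eventually.of_forall fun x => ?_)
    simp [real_inner_comm]
  have h2 := h.mul h1
  have e : (fun x => (inner ℝ (dGd δ x y) v : ℝ))
      = fun x => (-(1 / (4 * Real.pi)) * (sd δ x y ^ 3)⁻¹) * inner ℝ (x - y) v := by
    ext x
    unfold dGd
    rw [inner_smul_left]
    simp only [conj_trivial]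
    congr 1
    field_simp
  rw [e]
  convert! h2 using 1
  ext u
  simp
  field_simp

theorem contDiff_inner_dGd {δ : ℝ} (hδ : 0 < δ) (y v : E3) {n : WithTop ℕ∞} :
    ContDiff ℝ n (fun x => (inner ℝ (dGd δ x y) v : ℝ)) := by
  have h1 : ContDiff ℝ n (fun x => -(1 / (4 * Real.pi * sd δ x y ^ 3))) := by
    apply ContDiff.neg
    apply contDiff_const.div (contDiff_const.mul ((contDiff_sd hδ y).pow 3))
    intro x
    have := sd_pos hδ x y
    positivity
  have h2 : ContDiff ℝ n (fun x : E3 => x - y) := contDiff_id.sub contDiff_const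
  have h3 : ContDiff ℝ n (fun x => dGd δ x y) := h1.smul h2
  exact h3.inner ℝ contDiff_const

theorem continuous_dGd {δ : ℝ} (hδ : 0 < δ) (y : E3) : Continuous (fun x => dGd δ x y) := by
  have h1 : Continuous (fun x => -(1 / (4 * Real.pi * sd δ x y ^ 3))) := by
    apply Continuous.neg
    apply continuous_const.div (continuous_const.mul ((contDiff_sd (n := 0) hδ y).continuous.pow 3))
    intro x
    have := sd_pos hδ x y
    have h : 4 * Real.pi * sd δ x y ^ 3 ≠ 0 := by positivity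
    exact h
  have h2 : Continuous (fun x : E3 => x - y) := continuous_id.sub continuous_const
  exact h1.smul h2

theorem sum_fderiv_dGd {δ : ℝ} (hδ : 0 < δ) (x y : E3) (b : OrthonormalBasis (Fin 3) ℝ E3) :
    ∑ i, fderiv ℝ (fun x => (inner ℝ (dGd δ x y) (b i) : ℝ)) x (b i) = - rho δ (x - y) := by
  have hp := sd_pos hδ x y
  have h1 : ∀ i, fderiv ℝ (fun x => (inner ℝ (dGd δ x y) (b i) : ℝ)) x (b i)
      = -(1 / (4 * Real.pi * sd δ x y ^ 3))
        + 3 / (4 * Real.pi * sd δ x y ^ 5) * (inner ℝ (x - y) (b i)) ^ 2 := by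
    intro i
    rw [(hasFDerivAt_inner_dGd hδ x y (b i)).fderiv]
    simp [inner_sub_left]
    ring
  simp_rw [h1, Finset.sum_add_distrib, ← Finset.mul_sum]
  have h2 : ∑ i, (inner ℝ (x - y) (b i) : ℝ) ^ 2 = ‖x - y‖ ^ 2 := by
    have := b.sum_sq_norm_inner_right (x - y)
    simp only [Real.norm_eq_abs, sq_abs] at this
    rw [← this]
    exact Finset.sum_congr rfl fun i _ => by rw [real_inner_comm]
  rw [h2]
  unfold rho
  have h3 : Real.sqrt (‖x - y‖ ^ 2 + δ ^ 2) = sd δ x y := rfl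
  rw [h3]
  have h4 : ‖x - y‖ ^ 2 = sd δ x y ^ 2 - δ ^ 2 := by rw [sd_sq]; ring
  rw [h4]
  simp only [Finset.sum_const, Finset.card_univ, Fintype.card_fin, nsmul_eq_mul]
  field_simp
  push_cast
  ring

theorem norm_dGd (δ : ℝ) (x y : E3) :
    ‖dGd δ x y‖ = ‖x - y‖ / (4 * Real.pi * sd δ x y ^ 3) := by
  unfold dGd
  rw [norm_smul, norm_neg, Real.norm_eq_abs, abs_of_nonneg]
  · ring
  · have : 0 ≤ sd δ x y := Real.sqrt_nonneg _
    positivity

theorem norm_dGam (x y : E3) : ‖dGam x y‖ = 1 / (4 * Real.pi) * (‖x - y‖⁻¹) ^ 2 := by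
  unfold dGam
  rw [norm_smul, norm_neg, Real.norm_eq_abs, abs_of_nonneg (by positivity)]
  rcases eq_or_ne ‖x - y‖ 0 with h | h
  · rw [h]; simp
  · field_simp

theorem norm_dGd_le {δ : ℝ} (x y : E3) : ‖dGd δ x y‖ ≤ ‖dGam x y‖ := by
  rw [norm_dGd, norm_dGam]
  rcases eq_or_ne ‖x - y‖ 0 with h | h
  · rw [h]; simp
  · have h1 : 0 < ‖x - y‖ := lt_of_le_of_ne (norm_nonneg _) (Ne.symm h)
    calc ‖x - y‖ / (4 * Real.pi * sd δ x y ^ 3) ≤ ‖x - y‖ / (4 * Real.pi * ‖x - y‖ ^ 3) := by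
          gcongr
          exact norm_le_sd δ x y
      _ = _ := by field_simp

theorem Gam_nonneg (x y : E3) : 0 ≤ Gam x y := by unfold Gam; positivity

theorem Gam_eq (x y : E3) : Gam x y = 1 / (4 * Real.pi) * ‖x - y‖⁻¹ := by
  unfold Gam
  rw [one_div, mul_inv, one_div]

theorem Gam_comm (x y : E3) : Gam x y = Gam y x := by
  unfold Gam; rw [norm_sub_rev]

theorem dGam_comm (x y : E3) : dGam x y = - dGam y x := by
  unfold dGam
  rw [norm_sub_rev, ← smul_neg, neg_sub]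

theorem Gd_nonneg (δ : ℝ) (x y : E3) : 0 ≤ Gd δ x y := by
  unfold Gd
  have : 0 ≤ sd δ x y := Real.sqrt_nonneg _
  positivity

theorem Gd_le_Gam {δ : ℝ} {x y : E3} (h : x ≠ y) : Gd δ x y ≤ Gam x y := by
  unfold Gd Gam
  have : 0 < ‖x - y‖ := norm_pos_iff.2 (sub_ne_zero.2 h)
  gcongr
  exact norm_le_sd δ x y

theorem tendsto_sd {x y : E3} : Tendsto (fun δ : ℝ => sd δ x y) (𝓝[>] 0) (𝓝 ‖x - y‖) := by
  have h : Continuous (fun δ : ℝ => sd δ x y) := by unfold sd; fun_prop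
  have h2 := h.tendsto 0
  have e : sd 0 x y = ‖x - y‖ := by
    unfold sd
    simp
  rw [e] at h2
  exact h2.mono_left nhdsWithin_le_nhds

theorem tendsto_Gd {x y : E3} (h : x ≠ y) :
    Tendsto (fun δ : ℝ => Gd δ x y) (𝓝[>] 0) (𝓝 (Gam x y)) := by
  have : 0 < ‖x - y‖ := norm_pos_iff.2 (sub_ne_zero.2 h)
  unfold Gd Gam
  exact tendsto_const_nhds.div (tendsto_const_nhds.mul tendsto_sd) (by positivity)

theorem tendsto_dGd (x y : E3) :
    Tendsto (fun δ : ℝ => dGd δ x y) (𝓝[>] 0) (𝓝 (dGam x y)) := by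
  rcases eq_or_ne x y with h | h
  · subst h
    simp [dGd, dGam]
  · have : 0 < ‖x - y‖ := norm_pos_iff.2 (sub_ne_zero.2 h)
    unfold dGd dGam
    exact ((tendsto_const_nhds.div (tendsto_const_nhds.mul (tendsto_sd.pow 3))
      (by positivity)).neg).smul_const _

end Pool.Agent.NP
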