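import Pool.Agent.Lib_h26.SumRules
import Pool.Agent.Lib_h26.Connected

/-! Module I: rigidity. -/

set_option autoImplicit false

open MeasureTheory Measure Metric Set Filter
open scoped Topology ENNReal

namespace Pool.Agent.NP

variable {g : E3 → ℝ}

/-- the field `∫_Ω (x-y)/(4π|x-y|³) dy` -/
noncomputable def field (g : E3 → ℝ) (x : E3) : E3 := ∫ y in Om g, dGam y x

theorem dGam_translate (x z : E3) : dGam (x + z) x = dGam z 0 := by
  unfold dGam
  simp

theorem Dom.field_eq_conv (hg : Dom g) (x : E3) :
    field g x = ∫ z, (Om g).indicator (fun _ => (1 : ℝ)) (x + z) • dGam z 0 := by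
  unfold field
  rw [← integral_indicator hg.measurableSet_Om,
    ← integral_add_left_eq_self ((Om g).indicator fun y => dGam y x) x]
  congr 1
  ext1 z
  by_cases h : x + z ∈ Om g
  · rw [indicator_of_mem h, indicator_of_mem h, one_smul, dGam_translate]
  · rw [indicator_of_notMem h, indicator_of_notMem h, zero_smul]

theorem Dom.continuous_field (hg : Dom g) : Continuous (field g) := by
  rw [continuous_iff_continuousAt]
  intro x
  have e : field g = fun x => ∫ z, (Om g).indicator (fun _ => (1 : ℝ)) (x + z) • dGam z 0 := by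
    ext1 x; exact hg.field_eq_conv x
  rw [e]
  obtain ⟨R, hR⟩ := hg.isBounded_Om.subset_closedBall 0
  have hm : ∀ x' : E3, Measurable (fun z : E3 => (Om g).indicator (fun _ => (1 : ℝ)) (x' + z)) :=
    fun x' => (measurable_const.indicator hg.measurableSet_Om).comp (measurable_const.add measurable_id)
  apply continuousAt_of_dominated
    (bound := fun z => (closedBall (0 : E3) (|R| + ‖x‖ + 1)).indicator (fun z => ‖dGam z 0‖) z)
  · filter_upwards with x'
    exact ((hm x').smul (measurable_dGam 0)).aestronglyMeasurable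
  · filter_upwards [ball_mem_nhds x one_pos] with x' hx'
    filter_upwards with z
    by_cases h : x' + z ∈ Om g
    · have h1 := hR h
      rw [mem_closedBall, dist_zero_right] at h1
      rw [mem_ball, dist_eq_norm] at hx'
      have h2 : z ∈ closedBall (0 : E3) (|R| + ‖x‖ + 1) := by
        rw [mem_closedBall, dist_zero_right]
        have h3 : z = (x' + z) - (x' - x) - x := by abel
        calc ‖z‖ = ‖(x' + z) - (x' - x) - x‖ := by rw [← h3]
          _ ≤ ‖(x' + z) - (x' - x)‖ + ‖x‖ := norm_sub_le _ _
          _ ≤ ‖x' + z‖ + ‖x' - x‖ + ‖x‖ := by gcongr; exact norm_sub_le _ _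
          _ ≤ _ := by linarith [le_abs_self R]
      rw [indicator_of_mem h, indicator_of_mem h2, one_smul]
    · rw [indicator_of_notMem h, zero_smul, norm_zero]
      exact indicator_nonneg (fun _ _ => norm_nonneg _) z
  · rw [integrable_indicator_iff measurableSet_closedBall]
    exact (integrableOn_dGam isBounded_closedBall 0).norm
  · have h1 : ∀ᵐ z : E3, g (x + z) ≠ 0 := by
      have h2 : volume ((fun z : E3 => x + z) ⁻¹' {y | g y = 0}) = 0 := by
        rw [measure_preimage_add]
        exact hg.volume_S
      rw [ae_iff]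
      convert! h2 using 2
      ext z
      simp
    filter_upwards [h1] with z hz
    have h3 : ContinuousAt (fun x' : E3 => (Om g).indicator (fun _ => (1 : ℝ)) (x' + z)) x := by
      rcases lt_or_gt_of_ne hz with h | h
      · have h4 : ∀ᶠ x' in 𝓝 x, g (x' + z) < 0 := by
          apply (hg.continuous.comp (by fun_prop : Continuous fun x' : E3 => x' + z)).continuousAt.eventually_lt
            continuousAt_const
          exact h
        apply (continuousAt_const (y := (1 : ℝ))).congr
        filter_upwards [h4] with x' hx'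
        rw [indicator_of_mem]
        exact hx'
      · have h4 : ∀ᶠ x' in 𝓝 x, 0 < g (x' + z) := by
          apply ContinuousAt.eventually_lt continuousAt_const
            (hg.continuous.comp (by fun_prop : Continuous fun x' : E3 => x' + z)).continuousAt
          exact h
        apply (continuousAt_const (y := (0 : ℝ))).congr
        filter_upwards [h4] with x' hx'
        rw [indicator_of_notMem]
        simp only [Om, mem_ofPred_eq, not_lt]
        exact hx'.le
    have h5 : ContinuousAt (fun _ : E3 => dGam z 0) x := continuousAt_const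
    exact h3.smul h5

theorem Dom.pot_nu_field (hg : Dom g) (v x : E3) :
    pot g (nu g v) x = inner ℝ (field g x) v := by
  rw [hg.pot_nu]
  unfold field
  rw [real_inner_comm, ← integral_inner (integrableOn_dGam hg.isBounded_Om x)]
  congr 1
  ext y
  rw [real_inner_comm]

/-- the field is affine on the closure -/
theorem Dom.field_affine (hg : Dom g) (hc : IsPreconnected (Om g))
    (b : OrthonormalBasis (Fin 3) ℝ E3)
    (h : ∀ i, ∀ x ∈ Om g, dpot g (nu g (b i)) x = (1 / 3 : ℝ) • b i) :
    ∃ x0 : E3, ∀ x ∈ closure (Om g), field g x = (1 / 3 : ℝ) • (x - x0) := by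
  obtain ⟨a, ha⟩ := hg.nonempty_Om
  refine ⟨a - (3 : ℝ) • field g a, ?_⟩
  have hΩ : ∀ x ∈ Om g, field g x = (1 / 3 : ℝ) • (x - (a - (3 : ℝ) • field g a)) := by
    intro x hx
    have key : ∀ i, inner ℝ (field g x - (1 / 3 : ℝ) • x) (b i)
        = (inner ℝ (field g a - (1 / 3 : ℝ) • a) (b i) : ℝ) := by
      intro i
      have hφ : Integrable (nu g (b i)) (surf g) := hg.integrable_of_memLp (hg.memLp_nu (b i))
      set q : E3 → ℝ := fun x => inner ℝ (field g x - (1 / 3 : ℝ) • x) (b i) with hq
      have hqe : q = fun x => pot g (nu g (b i)) x - (1 / 3) * innerSL ℝ (b i) x := by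
        ext x
        simp only [hq]
        rw [hg.pot_nu_field, inner_sub_left, inner_smul_left, innerSL_apply_apply, real_inner_comm x]
        simp
      have hder : ∀ x ∈ Om g, HasFDerivAt q (0 : E3 →L[ℝ] ℝ) x := by
        intro x hx
        rw [hqe]
        have h1 := hg.hasFDerivAt_pot hφ (ne_of_lt hx)
        rw [h i x hx] at h1
        have h2 : HasFDerivAt (fun x : E3 => (1 / 3 : ℝ) * innerSL ℝ (b i) x) ((1 / 3 : ℝ) • innerSL ℝ (b i)) x :=
          ((innerSL ℝ (b i) : E3 →L[ℝ] ℝ).hasFDerivAt (x := x)).const_mul (1 / 3 : ℝ)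
        have h3 := h1.sub h2
        rw [map_smul, sub_self] at h3
        exact h3
      exact hg.isOpen_Om.is_const_of_fderiv_eq_zero hc
        (fun x hx => (hder x hx).differentiableAt.differentiableWithinAt)
        (fun x hx => (hder x hx).fderiv) hx ha
    have key2 : field g x - (1 / 3 : ℝ) • x = field g a - (1 / 3 : ℝ) • a := by
      rw [← b.sum_repr' (field g x - (1 / 3 : ℝ) • x), ← b.sum_repr' (field g a - (1 / 3 : ℝ) • a)]
      apply Finset.sum_congr rfl
      intro i _
      rw [real_inner_comm, key i, real_inner_comm]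
    have : field g x = (field g a - (1 / 3 : ℝ) • a) + (1 / 3 : ℝ) • x := by
      rw [← key2]; abel
    rw [this]
    module
  have hclosed : IsClosed {x | field g x = (1 / 3 : ℝ) • (x - (a - (3 : ℝ) • field g a))} :=
    isClosed_eq hg.continuous_field (by fun_prop)
  intro x hx
  exact (hclosed.closure_subset_iff.2 hΩ) hx

/-! ### the ball -/

theorem inner_sphere {c x p : E3} {r : ℝ} (hx : ‖x - c‖ = r) (hp : ‖p - c‖ = r) :
    inner ℝ (x - p) (x - c) = ‖x - p‖ ^ 2 / 2 := by
  have h1 : x - p = (x - c) - (p - c) := by abel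
  rw [h1, @norm_sub_sq_real, inner_sub_left, real_inner_self_eq_norm_sq, hx, hp,
    real_inner_comm (x - c) (p - c)]
  ring

theorem kNP_gB {c : E3} {r : ℝ} (hr : 0 < r) {x p : E3} (hx : ‖x - c‖ = r) (hp : ‖p - c‖ = r) :
    kNP (gB c r) x p = (1 / (2 * r)) * Gam x p := by
  unfold kNP Gam
  rw [nrm_gB hr ((gB_eq_zero_iff hr).2 hx), inner_smul_right, inner_sphere hx hp]
  rcases eq_or_ne ‖x - p‖ 0 with h | h
  · rw [h]; simp
  · field_simp

theorem ae_mem_sphere {c : E3} {r : ℝ} (hr : 0 < r) : ∀ᵐ x ∂(surf (gB c r)), ‖x - c‖ = r := by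
  filter_upwards [(dom_gB c hr).ae_mem] with x hx
  exact (gB_eq_zero_iff hr).1 hx

theorem integral_Gam_sphere {c : E3} {r : ℝ} (hr : 0 < r) {p : E3} (hp : ‖p - c‖ = r) :
    ∫ x, Gam x p ∂(surf (gB c r)) = r := by
  have h1 := (dom_gB c hr).integral_kNP p
  have h2 : ∫ x, kNP (gB c r) x p ∂(surf (gB c r)) = (1 / (2 * r)) * ∫ x, Gam x p ∂(surf (gB c r)) := by
    rw [← integral_const_mul]
    apply integral_congr_ae
    filter_upwards [ae_mem_sphere hr] with x hx
    exact kNP_gB hr hx hp
  have h3 : dens (gB c r) p = 1 / 2 := by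
    simp [dens, (gB_eq_zero_iff hr).2 hp]
  rw [h2, h3] at h1
  field_simp at h1
  linarith

theorem ball_field {c : E3} {r : ℝ} (hr : 0 < r) {p : E3} (hp : ‖p - c‖ = r) :
    ∫ x in ball c r, inner ℝ (dGam x p) (p - c) = r ^ 2 / 3 := by
  set G := gB c r with hG
  have hg : Dom G := dom_gB c hr
  have hfin := hg.isFiniteMeasure_surf
  have hΩ : Om G = ball c r := Om_gB hr
  have hGp : G p = 0 := (gB_eq_zero_iff hr).2 hp
  obtain ⟨χ, U, hU, hOU, hSU, h1, hχ, hχc⟩ := hg.exists_cutoff
  have hχ1 : ContDiff ℝ 1 χ := hχ.of_le (by norm_cast)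
  rw [hΩ] at hOU
  -- (a)
  have ha : ∫ x in ball c r, inner ℝ (x - c) (dGam x p) = 0 := by
    have hn : ContDiff ℝ 1 (fun x : E3 => ‖x - c‖ ^ 2) := (contDiff_id.sub contDiff_const).norm_sq ℝ
    have h2 := hg.kernel_gauss (hχ1.mul hn) hχc.mul_right p
    rw [hΩ] at h2
    have e1 : ∫ x in ball c r, fderiv ℝ (fun x : E3 => χ x * ‖x - c‖ ^ 2) x (dGam x p)
        = 2 * ∫ x in ball c r, inner ℝ (x - c) (dGam x p) := by
      rw [← integral_const_mul]
      apply setIntegral_congr_fun measurableSet_ball
      intro x hx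
      have h3 : HasFDerivAt (fun x : E3 => ‖x - c‖ ^ 2) (2 • innerSL ℝ (x - c)) x := by
        have h4 : HasFDerivAt (fun x : E3 => x - c) (ContinuousLinearMap.id ℝ E3) x :=
          (hasFDerivAt_id x).sub_const c
        have h5 := h4.norm_sq
        rw [ContinuousLinearMap.comp_id] at h5
        exact h5
      have h6 : fderiv ℝ (fun x : E3 => χ x * ‖x - c‖ ^ 2) x = fderiv ℝ (fun x : E3 => ‖x - c‖ ^ 2) x :=
        fderiv_mul_of_one (F := fun x : E3 => ‖x - c‖ ^ 2) hU h1 (hOU hx)
      simp only
      rw [h6, h3.fderiv]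
      simp [inner_sub_left]
    have e2 : ∫ x, (χ x * ‖x - c‖ ^ 2) * kNP G x p ∂(surf G) = r ^ 2 * (1 / 2) := by
      have h3 : dens G p = 1 / 2 := by simp [dens, hGp]
      rw [← h3, ← hg.integral_kNP p, ← integral_const_mul]
      apply integral_congr_ae
      filter_upwards [hg.ae_mem, ae_mem_sphere hr] with x hx hx2
      rw [h1 x (hSU hx), hx2, one_mul]
    have e3 : χ p * ‖p - c‖ ^ 2 = r ^ 2 := by
      rw [h1 p (hSU hGp), hp, one_mul]
    rw [e1, e2, e3] at h2
    have h3 : dens G p = 1 / 2 := by simp [dens, hGp]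
    rw [h3] at h2
    linarith
  -- (b)
  have hb : 3 * ∫ x in ball c r, Gam x p = r ^ 2 := by
    let b := EuclideanSpace.basisFun (Fin 3) ℝ
    have hlin : ∀ i, ContDiff ℝ 1 (fun x : E3 => (inner ℝ (b i) (x - c) : ℝ)) := fun i =>
      (innerSL ℝ (b i)).contDiff.comp (contDiff_id.sub contDiff_const)
    have h2 : ∀ i, ∫ x in ball c r, (inner ℝ (b i) (b i) * Gam x p
          + inner ℝ (b i) (x - c) * inner ℝ (dGam x p) (b i))
        = ∫ x, inner ℝ (b i) (x - c) * Gam x p * inner ℝ (nrm G x) (b i) ∂(surf G) := by
      intro i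
      have h3 := hg.kernel_trace (hχ1.mul (hlin i)) hχc.mul_right (b i) p
      rw [hΩ] at h3
      have e1 : ∫ x in ball c r, (fderiv ℝ (fun x : E3 => χ x * (inner ℝ (b i) (x - c) : ℝ)) x (b i) * Gam x p
            + (χ x * inner ℝ (b i) (x - c)) * inner ℝ (dGam x p) (b i))
          = ∫ x in ball c r, (inner ℝ (b i) (b i) * Gam x p
            + inner ℝ (b i) (x - c) * inner ℝ (dGam x p) (b i)) := by
        apply setIntegral_congr_fun measurableSet_ball
        intro x hx
        have h4 : HasFDerivAt (fun x : E3 => (inner ℝ (b i) (x - c) : ℝ)) (innerSL ℝ (b i)) x := by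
          have h5 : HasFDerivAt (fun x : E3 => x - c) (ContinuousLinearMap.id ℝ E3) x :=
            (hasFDerivAt_id x).sub_const c
          have h6 := (innerSL ℝ (b i)).hasFDerivAt.comp x h5
          rw [ContinuousLinearMap.comp_id] at h6
          exact h6
        have h6 : fderiv ℝ (fun x : E3 => χ x * (inner ℝ (b i) (x - c) : ℝ)) x
            = fderiv ℝ (fun x : E3 => (inner ℝ (b i) (x - c) : ℝ)) x :=
          fderiv_mul_of_one (F := fun x : E3 => (inner ℝ (b i) (x - c) : ℝ)) hU h1 (hOU hx)
        simp only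
        rw [h6, h4.fderiv, h1 x (hOU hx), one_mul, innerSL_apply_apply]
      have e2 : ∫ x, (χ x * inner ℝ (b i) (x - c)) * Gam x p * inner ℝ (nrm G x) (b i) ∂(surf G)
          = ∫ x, inner ℝ (b i) (x - c) * Gam x p * inner ℝ (nrm G x) (b i) ∂(surf G) := by
        apply integral_congr_ae
        filter_upwards [hg.ae_mem] with x hx
        rw [h1 x (hSU hx), one_mul]
      rw [e1, e2] at h3
      exact h3
    have hsum := Finset.sum_congr rfl (fun i (_ : i ∈ (Finset.univ : Finset (Fin 3))) => h2 i)
    have hbB : Bornology.IsBounded (ball c r) := isBounded_ball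
    have iG : IntegrableOn (fun x => Gam x p) (ball c r) := integrableOn_Gam hbB p
    have iD : ∀ i, IntegrableOn (fun x => inner ℝ (b i) (x - c) * inner ℝ (dGam x p) (b i)) (ball c r) := by
      intro i
      have h3 : IntegrableOn (fun x => (inner ℝ (dGam x p) (b i) : ℝ)) (ball c r) :=
        (integrableOn_dGam hbB p).inner_const (𝕜 := ℝ) (b i)
      refine Integrable.bdd_mul (c := ‖b i‖ * r) h3 ?_ ?_
      · exact (hlin i).continuous.aestronglyMeasurable
      · filter_upwards [ae_restrict_mem measurableSet_ball] with x hx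
        rw [mem_ball, dist_eq_norm] at hx
        refine (norm_inner_le_norm _ _).trans ?_
        gcongr
    have iS : ∀ i, Integrable (fun x => inner ℝ (b i) (x - c) * Gam x p * inner ℝ (nrm G x) (b i)) (surf G) := by
      intro i
      have h3 : Integrable (fun x => inner ℝ (b i) (x - c) * Gam x p) (surf G) := by
        refine Integrable.bdd_mul (c := ‖b i‖ * r) (hg.integrable_Gam p) ?_ ?_
        · exact (hlin i).continuous.aestronglyMeasurable
        · filter_upwards [ae_mem_sphere hr] with x hx
          refine (norm_inner_le_norm _ _).trans ?_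
          rw [hx]
      refine h3.mul_bdd (c := ‖b i‖) ?_ ?_
      · exact (hg.measurable_nu (b i)).aestronglyMeasurable
      · exact Eventually.of_forall fun x => hg.abs_nu_le (b i) x
    have iGD : ∀ i, Integrable (fun x => inner ℝ (b i) (b i) * Gam x p
        + inner ℝ (b i) (x - c) * inner ℝ (dGam x p) (b i)) (volume.restrict (ball c r)) := fun i =>
      Integrable.add (iG.const_mul _) (iD i)
    rw [← integral_finsetSum _ (fun i _ => iGD i),
      ← integral_finsetSum _ (fun i _ => iS i)] at hsum
    have e1 : ∀ x, ∑ i, (inner ℝ (b i) (b i) * Gam x p + inner ℝ (b i) (x - c) * inner ℝ (dGam x p) (b i))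
        = 3 * Gam x p + inner ℝ (x - c) (dGam x p) := by
      intro x
      rw [Finset.sum_add_distrib]
      congr 1
      · have : ∀ i, (inner ℝ (b i) (b i) : ℝ) = 1 := fun i => by
          rw [real_inner_self_eq_norm_sq, b.norm_eq_one]; norm_num
        simp_rw [this]
        simp
      · rw [← b.sum_inner_mul_inner (x - c) (dGam x p)]
        apply Finset.sum_congr rfl
        intro i _
        rw [real_inner_comm (x - c) (b i), real_inner_comm (dGam x p) (b i)]
    have e2 : ∫ x, ∑ i, (inner ℝ (b i) (x - c) * Gam x p * inner ℝ (nrm G x) (b i)) ∂(surf G) = r ^ 2 := by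
      have h3 : ∫ x, ∑ i, (inner ℝ (b i) (x - c) * Gam x p * inner ℝ (nrm G x) (b i)) ∂(surf G)
          = ∫ x, r * Gam x p ∂(surf G) := by
        apply integral_congr_ae
        filter_upwards [hg.ae_mem, ae_mem_sphere hr] with x hx hx2
        have h4 : ∀ i, inner ℝ (b i) (x - c) * Gam x p * inner ℝ (nrm G x) (b i)
            = Gam x p * (inner ℝ (nrm G x) (b i) * inner ℝ (b i) (x - c)) := fun i => by ring
        simp_rw [h4, ← Finset.mul_sum]
        rw [b.sum_inner_mul_inner, nrm_gB hr hx, inner_smul_left, real_inner_self_eq_norm_sq, hx2]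
        simp only [conj_trivial]
        field_simp
      rw [h3, integral_const_mul, integral_Gam_sphere hr hp]
      ring
    simp_rw [e1] at hsum
    rw [e2, integral_add (iG.const_mul 3), integral_const_mul, ha, add_zero] at hsum
    · exact hsum
    · have h3 : IntegrableOn (fun x => ∑ i, inner ℝ (b i) (x - c) * inner ℝ (dGam x p) (b i)) (ball c r) :=
        integrable_finsetSum _ (fun i _ => iD i)
      refine h3.congr (Eventually.of_forall fun x => ?_)
      simp only
      rw [← b.sum_inner_mul_inner (x - c) (dGam x p)]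
      apply Finset.sum_congr rfl
      intro i _
      rw [real_inner_comm (x - c) (b i), real_inner_comm (dGam x p) (b i)]
  -- (d)
  have hd : ∫ x in ball c r, inner ℝ (dGam x p) (p - c)
      = ∫ x in ball c r, (inner ℝ (x - c) (dGam x p) + Gam x p) := by
    congr 1
    ext x
    have h2 : (inner ℝ (x - p) (dGam x p) : ℝ) = - Gam x p := by
      unfold dGam Gam
      rw [inner_smul_right, real_inner_self_eq_norm_sq]
      rcases eq_or_ne ‖x - p‖ 0 with h | h
      · rw [h]; simp
      · field_simp
    have h3 : p - c = (x - c) - (x - p) := by abel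
    rw [h3, inner_sub_right, real_inner_comm (x - p) (dGam x p), h2, real_inner_comm (x - c) (dGam x p)]
    ring
  rw [hd, integral_add, ha]
  · linarith
  · have h3 : IntegrableOn (fun x => (dGam x p)) (ball c r) := integrableOn_dGam isBounded_ball p
    have h4 : IntegrableOn (fun x => r * ‖dGam x p‖) (ball c r) := h3.norm.const_mul r
    refine h4.mono' ?_ ?_
    · exact ((measurable_id.sub measurable_const).inner (measurable_dGam p)).aestronglyMeasurable
    · filter_upwards [ae_restrict_mem measurableSet_ball] with x hx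
      rw [mem_ball, dist_eq_norm] at hx
      refine (norm_inner_le_norm _ _).trans ?_
      gcongr
  · exact integrableOn_Gam isBounded_ball p

/-- if the field is affine on the closure, the surface is a sphere -/
theorem Dom.sphere_of_field (hg : Dom g) {x0 : E3}
    (h : ∀ x ∈ closure (Om g), field g x = (1 / 3 : ℝ) • (x - x0)) :
    ∃ r : ℝ, 0 < r ∧ {x | g x = 0} = sphere x0 r := by
  have hcl : closure (Om g) ⊆ {x | g x ≤ 0} :=
    (isClosed_le hg.continuous continuous_const).closure_subset_iff.2 fun x hx =>
      show g x ≤ 0 from le_of_lt hx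
  have hcomp : IsCompact (closure (Om g)) := hg.isBounded_Om.isCompact_closure
  obtain ⟨p, hp, hmax⟩ := hcomp.exists_isMaxOn hg.nonempty_Om.closure
    (f := fun x => ‖x - x0‖) (by fun_prop)
  set R := ‖p - x0‖ with hR
  have hle : ∀ x ∈ closure (Om g), ‖x - x0‖ ≤ R := fun x hx => hmax hx
  -- interior points are strictly inside
  have hlt : ∀ x ∈ Om g, ‖x - x0‖ < R := by
    intro x hx
    obtain ⟨ε, hε, hball⟩ := Metric.isOpen_iff.1 hg.isOpen_Om x hx
    by_cases hx0 : x = x0
    · -- move in some direction
      let e : E3 := EuclideanSpace.single 0 1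
      have he : ‖e‖ = 1 := by simp [e]
      have h1 : x + (ε / 2) • e ∈ Om g := by
        apply hball
        rw [mem_ball, dist_eq_norm, add_sub_cancel_left, norm_smul, he, Real.norm_eq_abs,
          abs_of_pos (by positivity)]
        linarith
      have h2 := hle _ (subset_closure h1)
      rw [hx0, add_sub_cancel_left, norm_smul, he, Real.norm_eq_abs, abs_of_pos (by positivity)] at h2
      rw [hx0, sub_self, norm_zero]
      linarith
    · have hpos : 0 < ‖x - x0‖ := norm_pos_iff.2 (sub_ne_zero.2 hx0)
      set s : ℝ := ε / (2 * ‖x - x0‖) with hs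
      have hs0 : 0 < s := by positivity
      have h1 : x + s • (x - x0) ∈ Om g := by
        apply hball
        rw [mem_ball, dist_eq_norm, add_sub_cancel_left, norm_smul, Real.norm_eq_abs, abs_of_pos hs0, hs]
        have : ε / (2 * ‖x - x0‖) * ‖x - x0‖ = ε / 2 := by field_simp
        rw [this]
        linarith
      have h2 := hle _ (subset_closure h1)
      have h3 : x + s • (x - x0) - x0 = (1 + s) • (x - x0) := by module
      rw [h3, norm_smul, Real.norm_eq_abs, abs_of_pos (by positivity)] at h2
      nlinarith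
  have hR0 : 0 < R := by
    obtain ⟨a, ha⟩ := hg.nonempty_Om
    exact (norm_nonneg _).trans_lt (hlt a ha)
  have hsub : Om g ⊆ ball x0 R := fun x hx => by
    rw [mem_ball, dist_eq_norm]; exact hlt x hx
  -- the integral over the difference vanishes
  have hF := h p hp
  have h1 : ∫ x in Om g, inner ℝ (dGam x p) (p - x0) = R ^ 2 / 3 := by
    have h2 : ∫ x in Om g, inner ℝ (dGam x p) (p - x0) = inner ℝ (field g p) (p - x0) := by
      unfold field
      rw [real_inner_comm, ← integral_inner (integrableOn_dGam hg.isBounded_Om p)]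
      congr 1
      ext y
      rw [real_inner_comm]
    rw [h2, hF, inner_smul_left, real_inner_self_eq_norm_sq, ← hR]
    simp
    ring
  have h2 := ball_field hR0 (c := x0) (p := p) rfl
  have iB : IntegrableOn (fun x => (inner ℝ (dGam x p) (p - x0) : ℝ)) (ball x0 R) :=
    (integrableOn_dGam isBounded_ball p).inner_const (𝕜 := ℝ) (p - x0)
  have h3 : ∫ x in ball x0 R \ Om g, inner ℝ (dGam x p) (p - x0) = 0 := by
    rw [setIntegral_sdiff hg.measurableSet_Om iB hsub, h1, h2]
    ring
  have hposi : ∀ x ∈ ball x0 R, 0 < (inner ℝ (dGam x p) (p - x0) : ℝ) := by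
    intro x hx
    rw [mem_ball, dist_eq_norm] at hx
    have hxp : x ≠ p := by
      rintro rfl
      exact lt_irrefl _ hx
    have hn : 0 < ‖x - p‖ := norm_pos_iff.2 (sub_ne_zero.2 hxp)
    unfold dGam
    rw [inner_smul_left]
    have h4 : (inner ℝ (x - p) (p - x0) : ℝ) < 0 := by
      have h5 : x - p = (x - x0) - (p - x0) := by abel
      rw [h5, inner_sub_left, real_inner_self_eq_norm_sq]
      have h6 := real_inner_le_norm (x - x0) (p - x0)
      have h7 : ‖x - x0‖ * ‖p - x0‖ < ‖p - x0‖ * ‖p - x0‖ := by
        apply mul_lt_mul_of_pos_right hx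
        rw [← hR]; exact hR0
      nlinarith
    have h8 : 0 < 1 / (4 * Real.pi * ‖x - p‖ ^ 3) := by positivity
    simp only [conj_trivial]
    nlinarith
  have hnull : volume (ball x0 R \ Om g) = 0 := by
    have h4 : 0 ≤ᵐ[volume.restrict (ball x0 R \ Om g)] fun x => (inner ℝ (dGam x p) (p - x0) : ℝ) := by
      filter_upwards [ae_restrict_mem (measurableSet_ball.diff hg.measurableSet_Om)] with x hx
      exact (hposi x hx.1).le
    rw [setIntegral_eq_zero_iff_of_nonneg_ae h4 (iB.mono_set sdiff_subset)] at h3
    have h5 : ∀ᵐ x ∂(volume.restrict (ball x0 R \ Om g)), False := by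
      filter_upwards [h3, ae_restrict_mem (measurableSet_ball.diff hg.measurableSet_Om)] with x hx hx2
      have := hposi x hx2.1
      simp only [Pi.zero_apply] at hx
      rw [hx] at this
      exact lt_irrefl _ this
    have h6 : volume.restrict (ball x0 R \ Om g) = 0 := by
      rw [← ae_eq_bot]
      exact Filter.eventually_false_iff_eq_bot.1 h5
    rwa [Measure.restrict_eq_zero] at h6
  -- ball ⊆ closure
  have hballcl : ball x0 R ⊆ closure (Om g) := by
    have hopen : IsOpen (ball x0 R \ closure (Om g)) := isOpen_ball.sdiff isClosed_closure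
    have hz : volume (ball x0 R \ closure (Om g)) = 0 :=
      measure_mono_null (sdiff_subset_sdiff_right subset_closure) hnull
    have he : ball x0 R \ closure (Om g) = ∅ := by
      by_contra hne
      rw [← Ne, ← nonempty_iff_ne_empty] at hne
      exact (hopen.measure_pos volume hne).ne' hz
    exact sdiff_eq_empty.1 he
  have hball : ball x0 R ⊆ Om g := by
    intro x hx
    have hx1 : g x ≤ 0 := hcl (hballcl hx)
    rcases lt_or_eq_of_le hx1 with h4 | h4
    · exact h4
    · exfalso
      have hmaxl : IsLocalMax g x := by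
        filter_upwards [isOpen_ball.mem_nhds hx] with y hy
        rw [h4]
        exact hcl (hballcl hy)
      have h5 := hmaxl.fderiv_eq_zero
      apply hg.grad_ne x h4
      unfold gradient
      rw [h5]
      simp
  have hEq : Om g = ball x0 R := Subset.antisymm hsub hball
  refine ⟨R, hR0, ?_⟩
  ext x
  simp only [mem_ofPred_eq, mem_sphere]
  constructor
  · intro hx
    have h4 := hg.S_subset_closure hx
    have h5 : dist x x0 ≤ R := by
      rw [dist_eq_norm]; exact hle x h4
    rcases lt_or_eq_of_le h5 with h6 | h6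
    · have h7 : x ∈ Om g := hball h6
      have h8 : g x < 0 := h7
      linarith
    · exact h6
  · intro hx
    have h4 : x ∈ closure (Om g) := by
      rw [hEq, closure_ball x0 hR0.ne', mem_closedBall]
      exact hx.le
    have h5 : g x ≤ 0 := hcl h4
    rcases lt_or_eq_of_le h5 with h6 | h6
    · have h7 : x ∈ Om g := h6
      rw [hEq, mem_ball, hx] at h7
      exact absurd h7 (lt_irrefl _)
    · exact h6

end Pool.Agent.NP
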