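import Pool.Agent.Lib_h26.Rigidity

/-! Module J: the spectrum for the sphere. -/

set_option autoImplicit false

open MeasureTheory Measure Metric Set Filter
open scoped Topology ENNReal

namespace Pool.Agent.NP

variable {g : E3 → ℝ}

/-! ### calculus for the exact kernels -/

theorem hasFDerivAt_norm_pow_inv {x y : E3} (h : x ≠ y) (n : ℕ) :
    HasFDerivAt (fun x : E3 => (‖x - y‖ ^ n)⁻¹)
      ((-(n : ℝ) / ‖x - y‖ ^ (n + 2)) • innerSL ℝ (x - y)) x := by
  have h0 : 0 < ‖x - y‖ := norm_pos_iff.2 (sub_ne_zero.2 h)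
  have h1 : HasFDerivAt (fun x : E3 => x - y) (ContinuousLinearMap.id ℝ E3) x :=
    (hasFDerivAt_id x).sub_const y
  have h2 := (h1.norm_sq).sqrt (by positivity)
  have e1 : (fun x : E3 => Real.sqrt (‖x - y‖ ^ 2)) = fun x => ‖x - y‖ := by
    ext z; exact Real.sqrt_sq (norm_nonneg _)
  rw [e1, Real.sqrt_sq (norm_nonneg _)] at h2
  have h3 : HasDerivAt (fun t : ℝ => (t ^ n)⁻¹) (-(n : ℝ) / ‖x - y‖ ^ (n + 1)) ‖x - y‖ := by
    have := (hasDerivAt_pow n ‖x - y‖).inv (pow_ne_zero _ h0.ne')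
    convert! this using 1
    rcases n with _ | n
    · simp
    · simp only [Nat.add_sub_cancel]
      field_simp
      ring
  have h4 := h3.comp_hasFDerivAt x h2
  convert! h4 using 1
  ext v
  simp
  field_simp
  ring

theorem hasFDerivAt_inner_dGam {x y : E3} (h : x ≠ y) (v : E3) :
    HasFDerivAt (fun x => (inner ℝ (dGam x y) v : ℝ))
      ((-(1 / (4 * Real.pi * ‖x - y‖ ^ 3))) • innerSL ℝ v
        + (3 * inner ℝ (x - y) v / (4 * Real.pi * ‖x - y‖ ^ 5)) • innerSL ℝ (x - y)) x := by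
  have hp : 0 < ‖x - y‖ := norm_pos_iff.2 (sub_ne_zero.2 h)
  have h' := (hasFDerivAt_norm_pow_inv h 3).const_mul (-(1 / (4 * Real.pi)))
  have h1 : HasFDerivAt (fun x : E3 => (inner ℝ (x - y) v : ℝ)) (innerSL ℝ v) x := by
    have h0 : HasFDerivAt (fun x : E3 => innerSL ℝ v (x - y)) (innerSL ℝ v) x := by
      have := (innerSL ℝ v).hasFDerivAt.comp x ((hasFDerivAt_id x).sub_const y)
      rw [ContinuousLinearMap.comp_id] at this
      exact this
    refine h0.congr_of_eventuallyEq (Eventually.of_forall fun x => ?_)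
    simp [real_inner_comm]
  have h2 := h'.mul h1
  have e : (fun x => (inner ℝ (dGam x y) v : ℝ))
      = fun x => (-(1 / (4 * Real.pi)) * (‖x - y‖ ^ 3)⁻¹) * inner ℝ (x - y) v := by
    ext x
    unfold dGam
    rw [inner_smul_left]
    simp only [conj_trivial]
    congr 1
    rw [one_div, mul_inv, one_div, neg_mul]
  rw [e]
  convert! h2 using 1
  ext u
  simp
  field_simp

theorem sum_fderiv_dGam {x y : E3} (h : x ≠ y) (b : OrthonormalBasis (Fin 3) ℝ E3) :
    ∑ i, fderiv ℝ (fun x => (inner ℝ (dGam x y) (b i) : ℝ)) x (b i) = 0 := by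
  have hp : 0 < ‖x - y‖ := norm_pos_iff.2 (sub_ne_zero.2 h)
  have h1 : ∀ i, fderiv ℝ (fun x => (inner ℝ (dGam x y) (b i) : ℝ)) x (b i)
      = -(1 / (4 * Real.pi * ‖x - y‖ ^ 3))
        + 3 / (4 * Real.pi * ‖x - y‖ ^ 5) * (inner ℝ (x - y) (b i)) ^ 2 := by
    intro i
    rw [(hasFDerivAt_inner_dGam h (b i)).fderiv]
    simp [inner_sub_left]
    ring
  simp_rw [h1, Finset.sum_add_distrib, ← Finset.mul_sum]
  have h2 : ∑ i, (inner ℝ (x - y) (b i) : ℝ) ^ 2 = ‖x - y‖ ^ 2 := by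
    have := b.sum_sq_norm_inner_right (x - y)
    simp only [Real.norm_eq_abs, sq_abs] at this
    rw [← this]
    exact Finset.sum_congr rfl fun i _ => by rw [real_inner_comm]
  rw [h2]
  simp only [Finset.sum_const, Finset.card_univ, Fintype.card_fin, nsmul_eq_mul]
  field_simp
  push_cast
  ring

theorem contDiffAt_dGam {x y : E3} (h : x ≠ y) {n : WithTop ℕ∞} :
    ContDiffAt ℝ n (fun x => dGam x y) x := by
  have h0 : x - y ≠ 0 := sub_ne_zero.2 h
  have h1 : ContDiffAt ℝ n (fun x : E3 => x - y) x := contDiffAt_id.sub contDiffAt_const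
  have h2 : ContDiffAt ℝ n (fun x : E3 => ‖x - y‖) x := h1.norm ℝ h0
  have h3 : ContDiffAt ℝ n (fun x : E3 => -(1 / (4 * Real.pi * ‖x - y‖ ^ 3))) x := by
    apply ContDiffAt.neg
    apply contDiffAt_const.div (contDiffAt_const.mul (h2.pow 3))
    have : 0 < ‖x - y‖ := norm_pos_iff.2 h0
    positivity
  exact h3.smul h1

theorem contDiffAt_Gam {x y : E3} (h : x ≠ y) {n : WithTop ℕ∞} :
    ContDiffAt ℝ n (fun x => Gam x y) x := by
  have h0 : x - y ≠ 0 := sub_ne_zero.2 h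
  have h1 : ContDiffAt ℝ n (fun x : E3 => x - y) x := contDiffAt_id.sub contDiffAt_const
  have h2 : ContDiffAt ℝ n (fun x : E3 => ‖x - y‖) x := h1.norm ℝ h0
  unfold Gam
  apply contDiffAt_const.div (contDiffAt_const.mul h2)
  have : 0 < ‖x - y‖ := norm_pos_iff.2 h0
  positivity

theorem contDiff_cut_mul {ε : ℝ} (hε : 0 < ε) (y : E3) {F : E3 → ℝ}
    (hF : ∀ x, x ≠ y → ContDiffAt ℝ 1 F x) : ContDiff ℝ 1 (fun x => cut ε y x * F x) := by
  rw [contDiff_iff_contDiffAt]
  intro x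
  rcases eq_or_ne x y with h | h
  · subst h
    have h1 : (fun z => cut ε x z * F z) =ᶠ[𝓝 x] fun _ => (0 : ℝ) := by
      filter_upwards [ball_mem_nhds x hε] with z hz
      rw [mem_ball, dist_eq_norm] at hz
      rw [cut_zero hε hz.le, zero_mul]
    exact contDiffAt_const.congr_of_eventuallyEq h1
  · exact (contDiff_cut_one ε y).contDiffAt.mul (hF x h)

/-! ### integrability inside -/

theorem Dom.integrableOn_pot (hg : Dom g) {φ : E3 → ℝ} (hφ : Integrable φ (surf g)) :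
    IntegrableOn (pot g φ) (Om g) := by
  have hfin := hg.isFiniteMeasure_surf
  obtain ⟨C, hC, h⟩ := hg.lintegral_Gam_bounded hg.isBounded_Om
  have h1 := integrable_prod_of_col (ν := volume.restrict (Om g)) (μ := surf g) (k := Gam)
    measurable_Gam' (C := C) (by filter_upwards [hg.ae_mem] with y hy using h y hy) hφ
  exact h1.integral_prod_left

theorem Dom.integrableOn_inner_dpot (hg : Dom g) {φ : E3 → ℝ} (hφ : Integrable φ (surf g)) (v : E3) :
    IntegrableOn (fun x => (inner ℝ (dpot g φ x) v : ℝ)) (Om g) := by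
  have hfin := hg.isFiniteMeasure_surf
  obtain ⟨C, hC, h⟩ := hg.lintegral_dGam_bounded hg.isBounded_Om
  have hbd : ∀ᵐ y ∂(surf g), ∫⁻ x in Om g, ‖(inner ℝ (dGam x y) v : ℝ)‖ₑ ≤ ENNReal.ofReal (‖v‖ * C) := by
    filter_upwards [hg.ae_mem] with y hy
    calc ∫⁻ x in Om g, ‖(inner ℝ (dGam x y) v : ℝ)‖ₑ
        ≤ ∫⁻ x in Om g, ENNReal.ofReal ‖v‖ * ‖dGam x y‖ₑ := by
          apply lintegral_mono
          intro x
          simp only
          rw [← ofReal_norm, ← ofReal_norm, ← ENNReal.ofReal_mul (norm_nonneg _)]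
          apply ENNReal.ofReal_le_ofReal
          refine (norm_inner_le_norm _ _).trans ?_
          rw [mul_comm]
      _ = ENNReal.ofReal ‖v‖ * ∫⁻ x in Om g, ‖dGam x y‖ₑ := lintegral_const_mul' _ _ ENNReal.ofReal_ne_top
      _ ≤ ENNReal.ofReal ‖v‖ * ENNReal.ofReal C := by gcongr; exact h y hy
      _ = _ := by rw [← ENNReal.ofReal_mul (norm_nonneg _)]
  have h1 := integrable_prod_of_col (ν := volume.restrict (Om g)) (μ := surf g)
    (k := fun x y => inner ℝ (dGam x y) v) (measurable_dGam'.inner_const) hbd hφ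
  refine h1.integral_prod_left.congr ?_
  filter_upwards [ae_restrict_of_ae hg.ae_off] with x hx
  rw [hg.inner_dpot hφ hx]

/-- Green's identity in `Ω` with an exterior singularity -/
theorem Dom.green (hg : Dom g) {φ : E3 → ℝ} (hφ : MemLp φ 2 (surf g)) {ζ : E3} (hζ : 0 < g ζ) :
    ∫ x, pot g φ x * inner ℝ (nrm g x) (dGam x ζ) ∂(surf g)
      = (1 / 2) * pot g φ ζ - ∫ x, Gam x ζ * Kst g φ x ∂(surf g) := by
  have hfin := hg.isFiniteMeasure_surf
  have hφ1 := hg.integrable_of_memLp hφ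
  obtain ⟨χ, U, hU, hOU, hSU, h1, hχ, hχc⟩ := hg.exists_cutoff
  have hχ1 : ContDiff ℝ 1 χ := hχ.of_le (by norm_cast)
  -- distance from ζ
  obtain ⟨d, hd, hdist⟩ : ∃ d : ℝ, 0 < d ∧ ∀ x, g x ≤ 0 → 2 * d < ‖x - ζ‖ := by
    have hop : IsOpen {x | 0 < g x} := isOpen_lt continuous_const hg.continuous
    obtain ⟨ε, hε, hb⟩ := Metric.isOpen_iff.1 hop ζ hζ
    refine ⟨ε / 4, by positivity, fun x hx => ?_⟩
    by_contra hcon
    push Not at hcon
    have : x ∈ ball ζ ε := by
      rw [mem_ball, dist_eq_norm]; linarith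
    have h2 : 0 < g x := hb this
    linarith
  set V : Set E3 := {x | 2 * d < ‖x - ζ‖} with hV
  have hVo : IsOpen V := isOpen_lt continuous_const (by fun_prop)
  have hcV : ∀ x ∈ V, cut d ζ x = 1 := fun x hx => cut_one' hd (le_of_lt hx)
  have hUV : IsOpen (U ∩ V) := hU.inter hVo
  have hOUV : Om g ⊆ U ∩ V := fun x hx => ⟨hOU hx, hdist x (le_of_lt hx)⟩
  have hSUV : {x | g x = 0} ⊆ U ∩ V := fun x hx => ⟨hSU hx, hdist x (le_of_eq hx)⟩
  have hne : ∀ x ∈ U ∩ V, x ≠ ζ := by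
    rintro x hx rfl
    have := hx.2
    simp only [hV, mem_ofPred_eq, sub_self, norm_zero] at this
    linarith
  have hone : ∀ x ∈ U ∩ V, χ x * cut d ζ x = 1 := fun x hx => by
    rw [h1 x hx.1, hcV x hx.2, one_mul]
  have hwd : ∀ F : E3 → ℝ, (∀ x, x ≠ ζ → ContDiffAt ℝ 1 F x) →
      ContDiff ℝ 1 (fun x => χ x * (cut d ζ x * F x)) := fun F hF =>
    hχ1.mul (contDiff_cut_mul hd ζ hF)
  have hwc : ∀ F : E3 → ℝ, HasCompactSupport (fun x => χ x * (cut d ζ x * F x)) := fun F =>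
    hχc.mul_right
  have hweq : ∀ F : E3 → ℝ, ∀ x ∈ U ∩ V, χ x * (cut d ζ x * F x) = F x := fun F x hx => by
    rw [← mul_assoc, hone x hx, one_mul]
  have hwf : ∀ F : E3 → ℝ, ∀ x ∈ U ∩ V, fderiv ℝ (fun x => χ x * (cut d ζ x * F x)) x = fderiv ℝ F x := by
    intro F x hx
    apply Filter.EventuallyEq.fderiv_eq
    filter_upwards [hUV.mem_nhds hx] with z hz
    exact hweq F z hz
  -- (α)
  have hα := hg.weak_Om hφ1 (hwd (fun x => Gam x ζ) (fun x hx => contDiffAt_Gam hx)) (hwc _)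
  have e1 : ∫ x in Om g, fderiv ℝ (fun x => χ x * (cut d ζ x * Gam x ζ)) x (dpot g φ x)
      = ∫ x in Om g, inner ℝ (dGam x ζ) (dpot g φ x) := by
    apply setIntegral_congr_fun hg.measurableSet_Om
    intro x hx
    simp only
    rw [hwf (fun x => Gam x ζ) x (hOUV hx), (hasFDerivAt_Gam (hne x (hOUV hx))).fderiv,
      innerSL_apply_apply]
  have e2 : ∫ x, (χ x * (cut d ζ x * Gam x ζ)) * φ x ∂(surf g) = pot g φ ζ := by
    unfold pot
    apply integral_congr_ae
    filter_upwards [hg.ae_mem] with x hx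
    rw [hweq (fun x => Gam x ζ) x (hSUV hx), Gam_comm]
  have e3 : ∫ x, (χ x * (cut d ζ x * Gam x ζ)) * Kst g φ x ∂(surf g)
      = ∫ x, Gam x ζ * Kst g φ x ∂(surf g) := by
    apply integral_congr_ae
    filter_upwards [hg.ae_mem] with x hx
    rw [hweq (fun x => Gam x ζ) x (hSUV hx)]
  rw [e1, e2, e3] at hα
  rw [← hα]
  -- (β)
  let b := EuclideanSpace.basisFun (Fin 3) ℝ
  have hFd : ∀ i, ∀ x, x ≠ ζ → ContDiffAt ℝ 1 (fun x => (inner ℝ (dGam x ζ) (b i) : ℝ)) x := fun i x hx =>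
    (contDiffAt_dGam hx).inner ℝ contDiffAt_const
  have hβ : ∀ i, ∫ x in Om g, (fderiv ℝ (fun x => (inner ℝ (dGam x ζ) (b i) : ℝ)) x (b i) * pot g φ x
        + inner ℝ (dGam x ζ) (b i) * inner ℝ (dpot g φ x) (b i))
      = ∫ x, inner ℝ (dGam x ζ) (b i) * pot g φ x * inner ℝ (nrm g x) (b i) ∂(surf g) := by
    intro i
    have h2 := hg.trace_pot hφ1 (hwd _ (hFd i)) (hwc _) (b i)
    have f1 : ∫ x in Om g, (fderiv ℝ (fun x => χ x * (cut d ζ x * inner ℝ (dGam x ζ) (b i))) x (b i) * pot g φ x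
          + (χ x * (cut d ζ x * inner ℝ (dGam x ζ) (b i))) * inner ℝ (dpot g φ x) (b i))
        = ∫ x in Om g, (fderiv ℝ (fun x => (inner ℝ (dGam x ζ) (b i) : ℝ)) x (b i) * pot g φ x
        + inner ℝ (dGam x ζ) (b i) * inner ℝ (dpot g φ x) (b i)) := by
      apply setIntegral_congr_fun hg.measurableSet_Om
      intro x hx
      simp only
      rw [hwf (fun x => (inner ℝ (dGam x ζ) (b i) : ℝ)) x (hOUV hx),
        hweq (fun x => (inner ℝ (dGam x ζ) (b i) : ℝ)) x (hOUV hx)]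
    have f2 : ∫ x, (χ x * (cut d ζ x * inner ℝ (dGam x ζ) (b i))) * pot g φ x * inner ℝ (nrm g x) (b i) ∂(surf g)
        = ∫ x, inner ℝ (dGam x ζ) (b i) * pot g φ x * inner ℝ (nrm g x) (b i) ∂(surf g) := by
      apply integral_congr_ae
      filter_upwards [hg.ae_mem] with x hx
      rw [hweq (fun x => (inner ℝ (dGam x ζ) (b i) : ℝ)) x (hSUV hx)]
    rw [f1, f2] at h2
    exact h2
  have hsum := Finset.sum_congr rfl (fun i (_ : i ∈ (Finset.univ : Finset (Fin 3))) => hβ i)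
  -- integrability
  have hi1 : ∀ i, IntegrableOn (fun x => fderiv ℝ (fun x => (inner ℝ (dGam x ζ) (b i) : ℝ)) x (b i) * pot g φ x
        + inner ℝ (dGam x ζ) (b i) * inner ℝ (dpot g φ x) (b i)) (Om g) := by
    intro i
    have hw1 := hwd _ (hFd i)
    have hw2 := hwc (fun x => (inner ℝ (dGam x ζ) (b i) : ℝ))
    obtain ⟨W, hW⟩ := hw1.continuous.bounded_above_of_compact_support hw2
    have hcd : Continuous (fun x => fderiv ℝ (fun x => χ x * (cut d ζ x * inner ℝ (dGam x ζ) (b i))) x (b i)) :=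
      continuous_fderiv_apply hw1 continuous_const
    obtain ⟨W', hW'⟩ := hcd.bounded_above_of_compact_support (hasCompactSupport_fderiv_apply hw2 _)
    have j1 : Integrable (fun x => fderiv ℝ (fun x => χ x * (cut d ζ x * inner ℝ (dGam x ζ) (b i))) x (b i) * pot g φ x)
        (volume.restrict (Om g)) :=
      Integrable.bdd_mul (c := W') (hg.integrableOn_pot hφ1) hcd.aestronglyMeasurable
        (Eventually.of_forall hW')
    have j2 : Integrable (fun x => (χ x * (cut d ζ x * inner ℝ (dGam x ζ) (b i))) * inner ℝ (dpot g φ x) (b i))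
        (volume.restrict (Om g)) :=
      Integrable.bdd_mul (c := W) (hg.integrableOn_inner_dpot hφ1 (b i)) hw1.continuous.aestronglyMeasurable
        (Eventually.of_forall hW)
    refine (j1.add j2).congr ?_
    filter_upwards [ae_restrict_mem hg.measurableSet_Om] with x hx
    simp only [Pi.add_apply]
    rw [hwf (fun x => (inner ℝ (dGam x ζ) (b i) : ℝ)) x (hOUV hx),
      hweq (fun x => (inner ℝ (dGam x ζ) (b i) : ℝ)) x (hOUV hx)]
  have hi2 : ∀ i, Integrable (fun x => inner ℝ (dGam x ζ) (b i) * pot g φ x * inner ℝ (nrm g x) (b i)) (surf g) := by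
    intro i
    have hw1 := hwd _ (hFd i)
    have hw2 := hwc (fun x => (inner ℝ (dGam x ζ) (b i) : ℝ))
    obtain ⟨W, hW⟩ := hw1.continuous.bounded_above_of_compact_support hw2
    have j1 : Integrable (fun x => (χ x * (cut d ζ x * inner ℝ (dGam x ζ) (b i))) * pot g φ x) (surf g) :=
      Integrable.bdd_mul (c := W) (hg.integrable_of_memLp (hg.memLp_pot hφ))
        hw1.continuous.aestronglyMeasurable (Eventually.of_forall hW)
    have j2 : Integrable (fun x => inner ℝ (dGam x ζ) (b i) * pot g φ x) (surf g) := by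
      refine j1.congr ?_
      filter_upwards [hg.ae_mem] with x hx
      rw [hweq (fun x => (inner ℝ (dGam x ζ) (b i) : ℝ)) x (hSUV hx)]
    exact j2.mul_bdd (c := ‖b i‖) (hg.measurable_nu (b i)).aestronglyMeasurable
      (Eventually.of_forall fun x => hg.abs_nu_le (b i) x)
  rw [← integral_finsetSum _ (fun i _ => hi1 i), ← integral_finsetSum _ (fun i _ => hi2 i)] at hsum
  have s1 : ∫ x in Om g, ∑ i, (fderiv ℝ (fun x => (inner ℝ (dGam x ζ) (b i) : ℝ)) x (b i) * pot g φ x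
        + inner ℝ (dGam x ζ) (b i) * inner ℝ (dpot g φ x) (b i))
      = ∫ x in Om g, inner ℝ (dGam x ζ) (dpot g φ x) := by
    apply setIntegral_congr_fun hg.measurableSet_Om
    intro x hx
    simp only
    rw [Finset.sum_add_distrib, ← Finset.sum_mul, sum_fderiv_dGam (hne x (hOUV hx)) b, zero_mul, zero_add]
    rw [← b.sum_inner_mul_inner (dGam x ζ) (dpot g φ x)]
    apply Finset.sum_congr rfl
    intro i _
    rw [real_inner_comm (dpot g φ x) (b i)]
  have s2 : ∫ x, ∑ i, (inner ℝ (dGam x ζ) (b i) * pot g φ x * inner ℝ (nrm g x) (b i)) ∂(surf g)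
      = ∫ x, pot g φ x * inner ℝ (nrm g x) (dGam x ζ) ∂(surf g) := by
    congr 1
    ext x
    rw [← b.sum_inner_mul_inner (nrm g x) (dGam x ζ), Finset.mul_sum]
    apply Finset.sum_congr rfl
    intro i _
    rw [real_inner_comm (dGam x ζ) (b i)]
    ring
  rw [s1, s2] at hsum
  exact hsum.symm

end Pool.Agent.NP
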