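import Pool.Agent.Lib_h26.Sphere

/-! Module J, part 2: the eigenvalue bound for the sphere. -/

set_option autoImplicit false

open MeasureTheory Measure Metric Set Filter
open scoped Topology ENNReal

namespace Pool.Agent.NP

variable {c : E3} {r : ℝ} {φ : E3 → ℝ} {t : ℝ}

theorem Kst_sphere (hr : 0 < r) :
    Kst (gB c r) φ =ᵐ[surf (gB c r)] fun x => (1 / (2 * r)) * pot (gB c r) φ x := by
  filter_upwards [ae_mem_sphere hr] with x hx
  unfold Kst pot
  rw [← integral_const_mul]
  apply integral_congr_ae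
  filter_upwards [ae_mem_sphere hr] with y hy
  rw [kNP_gB hr hx hy]
  ring

theorem mean_zero_of_eig {g : E3 → ℝ} (hg : Dom g) {φ : E3 → ℝ} (hφ : Integrable φ (surf g))
    (ht : Kst g φ =ᵐ[surf g] fun x => t * φ x) (ht2 : t ≠ 1 / 2) : ∫ x, φ x ∂(surf g) = 0 := by
  have h1 := hg.integral_Kst hφ
  rw [integral_congr_ae ht, integral_const_mul] at h1
  have h2 : (t - 1 / 2) * ∫ x, φ x ∂(surf g) = 0 := by linarith
  rcases mul_eq_zero.1 h2 with h | h
  · exact absurd (by linarith) ht2
  · exact h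

/-- the Euler identity for the exterior potential -/
theorem euler_sphere (hr : 0 < r) (hφ : MemLp φ 2 (surf (gB c r)))
    (ht : Kst (gB c r) φ =ᵐ[surf (gB c r)] fun x => t * φ x) (ht0 : 0 < t) {ζ : E3}
    (hζ : r < ‖ζ - c‖) :
    inner ℝ (dpot (gB c r) φ ζ) (ζ - c) = -(1 / (4 * t) + 1 / 2) * pot (gB c r) φ ζ := by
  have hg : Dom (gB c r) := dom_gB c hr
  have hfin := hg.isFiniteMeasure_surf
  have hφ1 := hg.integrable_of_memLp hφ
  have hGζ : 0 < gB c r ζ := by
    unfold gB
    nlinarith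
  have hgreen := hg.green hφ hGζ
  -- potential on the sphere
  have hpot : pot (gB c r) φ =ᵐ[surf (gB c r)] fun x => 2 * r * t * φ x := by
    filter_upwards [Kst_sphere (φ := φ) (c := c) hr, ht] with x h1 h2
    rw [h1] at h2
    have h3 : pot (gB c r) φ x = 2 * r * ((1 / (2 * r)) * pot (gB c r) φ x) := by field_simp
    rw [h3, h2]
    ring
  have e1 : ∫ x, pot (gB c r) φ x * inner ℝ (nrm (gB c r) x) (dGam x ζ) ∂(surf (gB c r))
      = 2 * r * t * ∫ x, inner ℝ (nrm (gB c r) x) (dGam x ζ) * φ x ∂(surf (gB c r)) := by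
    rw [← integral_const_mul]
    apply integral_congr_ae
    filter_upwards [hpot] with x hx
    rw [hx]
    ring
  have e2 : ∫ x, Gam x ζ * Kst (gB c r) φ x ∂(surf (gB c r)) = t * pot (gB c r) φ ζ := by
    unfold pot
    rw [← integral_const_mul]
    apply integral_congr_ae
    filter_upwards [ht] with x hx
    rw [hx, Gam_comm x ζ]
    ring
  rw [e1, e2] at hgreen
  set J := ∫ x, inner ℝ (nrm (gB c r) x) (dGam x ζ) * φ x ∂(surf (gB c r)) with hJ
  -- pointwise identity
  have hζne : gB c r ζ ≠ 0 := hGζ.ne'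
  have e3 : inner ℝ (dpot (gB c r) φ ζ) (ζ - c) = - pot (gB c r) φ ζ - r * J := by
    rw [hg.inner_dpot hφ1 hζne, hJ, ← integral_const_mul]
    unfold pot
    rw [← integral_neg, ← integral_sub]
    · apply integral_congr_ae
      filter_upwards [ae_mem_sphere hr, hg.ae_mem] with x hx hx0
      rw [nrm_gB hr hx0, inner_smul_left]
      have h1 : (inner ℝ (dGam ζ x) (ζ - c) : ℝ) = - Gam ζ x - inner ℝ (x - c) (dGam x ζ) := by
        have h2 : ζ - c = (ζ - x) + (x - c) := by abel
        have h3 : (inner ℝ (dGam ζ x) (ζ - x) : ℝ) = - Gam ζ x := by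
          unfold dGam Gam
          rw [inner_smul_left, real_inner_self_eq_norm_sq]
          rcases eq_or_ne ‖ζ - x‖ 0 with h | h
          · rw [h]; simp
          · simp only [conj_trivial]
            field_simp
        rw [h2, inner_add_right, h3, dGam_comm ζ x, inner_neg_left, real_inner_comm]
        ring
      rw [h1]
      simp only [conj_trivial]
      field_simp
    · exact (hg.integrable_Gam_smul hφ1 hζne).neg
    · apply Integrable.const_mul
      have h1 := hg.integrable_dGam_smul hφ1 hζne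
      refine h1.norm.mono' ?_ ?_
      · exact ((hg.measurable_nrm.inner (measurable_dGam ζ)).aestronglyMeasurable).mul hφ1.1
      · filter_upwards with x
        rw [norm_mul, norm_smul, mul_comm]
        gcongr
        refine (norm_inner_le_norm _ _).trans ?_
        have h2 := hg.norm_nrm_le x
        rw [dGam_comm x ζ, norm_neg]
        calc ‖nrm (gB c r) x‖ * ‖dGam ζ x‖ ≤ 1 * ‖dGam ζ x‖ := by gcongr
          _ = _ := one_mul _
  have e4 : J = (1 / 2 - t) / (2 * r * t) * pot (gB c r) φ ζ := by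
    field_simp
    linarith
  rw [e3, e4]
  field_simp
  ring

theorem abs_pot_far (hr : 0 < r) (hφ : Integrable φ (surf (gB c r)))
    (h0 : ∫ x, φ x ∂(surf (gB c r)) = 0) {x : E3} (hx : 2 * r ≤ ‖x - c‖) :
    |pot (gB c r) φ x| ≤ (r / (2 * Real.pi) * ∫ y, |φ y| ∂(surf (gB c r))) / ‖x - c‖ ^ 2 := by
  have hg : Dom (gB c r) := dom_gB c hr
  have hs : 0 < ‖x - c‖ := by linarith
  have hGx : gB c r x ≠ 0 := by
    intro h
    rw [gB_eq_zero_iff hr] at h
    linarith
  have h1 : pot (gB c r) φ x = ∫ y, (Gam x y - Gam x c) * φ y ∂(surf (gB c r)) := by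
    have h2 : ∫ y, (Gam x y - Gam x c) * φ y ∂(surf (gB c r))
        = ∫ y, (Gam x y * φ y - Gam x c * φ y) ∂(surf (gB c r)) := by
      congr 1; ext y; ring
    rw [h2, integral_sub (hg.integrable_Gam_smul hφ hGx) (hφ.const_mul _), integral_const_mul, h0,
      mul_zero, sub_zero]
    rfl
  rw [h1]
  have h3 : ∀ᵐ y ∂(surf (gB c r)), ‖(Gam x y - Gam x c) * φ y‖ ≤ (r / (2 * Real.pi * ‖x - c‖ ^ 2)) * |φ y| := by
    filter_upwards [ae_mem_sphere hr] with y hy
    rw [norm_mul, Real.norm_eq_abs, Real.norm_eq_abs]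
    gcongr
    have h4 : ‖x - c‖ / 2 ≤ ‖x - y‖ := by
      have h5 : ‖x - c‖ ≤ ‖x - y‖ + ‖y - c‖ := by
        calc ‖x - c‖ = ‖(x - y) + (y - c)‖ := by congr 1; abel
          _ ≤ _ := norm_add_le _ _
      linarith
    have h6 : 0 < ‖x - y‖ := by linarith
    rw [Gam_eq, Gam_eq, ← mul_sub, abs_mul, abs_of_pos (by positivity : (0 : ℝ) < 1 / (4 * Real.pi))]
    have h7 : |‖x - y‖⁻¹ - ‖x - c‖⁻¹| ≤ 2 * r / ‖x - c‖ ^ 2 := by
      have h8 : ‖x - y‖⁻¹ - ‖x - c‖⁻¹ = (‖x - c‖ - ‖x - y‖) / (‖x - y‖ * ‖x - c‖) := by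
        field_simp
      rw [h8, abs_div, abs_of_pos (by positivity : 0 < ‖x - y‖ * ‖x - c‖)]
      have h9 : |‖x - c‖ - ‖x - y‖| ≤ r := by
        have := abs_norm_sub_norm_le (x - c) (x - y)
        rw [show (x - c) - (x - y) = y - c by abel, hy] at this
        exact this
      calc |‖x - c‖ - ‖x - y‖| / (‖x - y‖ * ‖x - c‖) ≤ r / (‖x - c‖ / 2 * ‖x - c‖) := by gcongr
        _ = _ := by field_simp
    calc 1 / (4 * Real.pi) * |‖x - y‖⁻¹ - ‖x - c‖⁻¹| ≤ 1 / (4 * Real.pi) * (2 * r / ‖x - c‖ ^ 2) := by gcongr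
      _ = _ := by field_simp; ring
  calc |∫ y, (Gam x y - Gam x c) * φ y ∂(surf (gB c r))|
      ≤ ∫ y, ‖(Gam x y - Gam x c) * φ y‖ ∂(surf (gB c r)) := by
        rw [← Real.norm_eq_abs]; exact norm_integral_le_integral_norm _
    _ ≤ ∫ y, (r / (2 * Real.pi * ‖x - c‖ ^ 2)) * |φ y| ∂(surf (gB c r)) := by
        apply integral_mono_ae
        · have h2 : Integrable (fun y => Gam x y * φ y - Gam x c * φ y) (surf (gB c r)) :=
            (hg.integrable_Gam_smul hφ hGx).sub (hφ.const_mul _)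
          refine (h2.congr (Eventually.of_forall fun y => ?_)).norm
          simp only
          ring
        · exact hφ.abs.const_mul _
        · exact h3
    _ = _ := by
        rw [integral_const_mul]
        field_simp

/-- the exterior potential vanishes when `t > 1/6` -/
theorem pot_exterior_zero (hr : 0 < r) (hφ : MemLp φ 2 (surf (gB c r)))
    (ht : Kst (gB c r) φ =ᵐ[surf (gB c r)] fun x => t * φ x) (ht6 : 1 / 6 < t) (ht2 : t ≠ 1 / 2)
    {ζ : E3} (hζ : r < ‖ζ - c‖) : pot (gB c r) φ ζ = 0 := by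
  have hg : Dom (gB c r) := dom_gB c hr
  have hfin := hg.isFiniteMeasure_surf
  have hφ1 := hg.integrable_of_memLp hφ
  have ht0 : 0 < t := by linarith
  have h0 := mean_zero_of_eig hg hφ1 ht ht2
  set κ : ℝ := 1 / (4 * t) + 1 / 2 with hκ
  have hκ2 : κ < 2 := by
    rw [hκ]
    have : 1 / (4 * t) < 3 / 2 := by
      rw [div_lt_div_iff₀ (by positivity) (by norm_num)]
      linarith
    linarith
  set s0 := ‖ζ - c‖ with hs0
  have hs0p : 0 < s0 := hr.trans hζ
  set θ : E3 := s0⁻¹ • (ζ - c) with hθ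
  have hθn : ‖θ‖ = 1 := by
    rw [hθ, norm_smul, norm_inv, Real.norm_eq_abs, abs_of_pos hs0p, ← hs0]
    field_simp
  set h : ℝ → ℝ := fun s => pot (gB c r) φ (c + s • θ) with hh
  have hnorm : ∀ s : ℝ, 0 < s → ‖c + s • θ - c‖ = s := by
    intro s hs
    rw [add_sub_cancel_left, norm_smul, hθn, Real.norm_eq_abs, abs_of_pos hs, mul_one]
  have hderiv : ∀ s : ℝ, r < s → HasDerivAt h (-(κ / s) * h s) s := by
    intro s hs
    have hs' : 0 < s := hr.trans hs
    have hext : gB c r (c + s • θ) ≠ 0 := by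
      intro hcon
      rw [gB_eq_zero_iff hr, hnorm s hs'] at hcon
      linarith
    have h1 := hg.hasFDerivAt_pot hφ1 hext
    have h2 : HasDerivAt (fun s : ℝ => c + s • θ) θ s := by
      have := ((hasDerivAt_id s).smul_const θ).const_add c
      simpa using this
    have h3 := h1.comp_hasDerivAt s h2
    have h4 := euler_sphere hr hφ ht ht0 (ζ := c + s • θ) (by rw [hnorm s hs']; exact hs)
    rw [add_sub_cancel_left, inner_smul_right] at h4
    have h5 : innerSL ℝ (dpot (gB c r) φ (c + s • θ)) θ = -(κ / s) * h s := by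
      rw [innerSL_apply_apply]
      have : inner ℝ (dpot (gB c r) φ (c + s • θ)) θ
          = (s * inner ℝ (dpot (gB c r) φ (c + s • θ)) θ) / s := by field_simp
      rw [this, h4]
      simp only [hh, hκ]
      ring
    rw [← h5]
    exact h3
  set m : ℝ → ℝ := fun s => s ^ κ * h s with hm
  have hmder : ∀ s : ℝ, r < s → HasDerivAt m 0 s := by
    intro s hs
    have hs' : 0 < s := hr.trans hs
    have h1 := (Real.hasDerivAt_rpow_const (x := s) (p := κ) (Or.inl hs'.ne')).mul (hderiv s hs)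
    convert! h1 using 1
    have h2 : s ^ κ = s ^ (κ - 1) * s := by
      rw [← Real.rpow_add_one hs'.ne']
      congr 1
      ring
    rw [h2]
    field_simp
    ring
  have hconst : ∀ s : ℝ, r < s → m s = m s0 := by
    intro s hs
    exact isOpen_Ioi.is_const_of_deriv_eq_zero isPreconnected_Ioi
      (fun x hx => (hmder x hx).differentiableAt.differentiableWithinAt)
      (fun x hx => (hmder x hx).deriv) (show s ∈ Ioi r from hs) (show s0 ∈ Ioi r from hζ)
  -- decay
  set C := r / (2 * Real.pi) * ∫ y, |φ y| ∂(surf (gB c r)) with hC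
  have hC0 : 0 ≤ C := by
    have : 0 ≤ ∫ y, |φ y| ∂(surf (gB c r)) := integral_nonneg fun y => abs_nonneg _
    positivity
  have hbd : ∀ᶠ s in atTop, ‖m s‖ ≤ C * s ^ (-(2 - κ)) := by
    filter_upwards [eventually_ge_atTop (2 * r)] with s hs
    have hs' : 0 < s := by linarith
    have h1 := abs_pot_far hr hφ1 h0 (x := c + s • θ) (by rw [hnorm s hs']; exact hs)
    rw [hnorm s hs'] at h1
    simp only [hm, hh]
    rw [norm_mul, Real.norm_eq_abs, Real.norm_eq_abs, abs_of_pos (Real.rpow_pos_of_pos hs' κ)]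
    have h2 : s ^ (-(2 - κ)) = s ^ κ / s ^ 2 := by
      rw [show -(2 - κ) = κ - 2 by ring, Real.rpow_sub hs', Real.rpow_two]
    rw [h2]
    calc s ^ κ * |pot (gB c r) φ (c + s • θ)| ≤ s ^ κ * (C / s ^ 2) := by
          have := Real.rpow_pos_of_pos hs' κ
          gcongr
      _ = _ := by ring
  have hlim : Tendsto (fun s : ℝ => C * s ^ (-(2 - κ))) atTop (𝓝 0) := by
    have := (tendsto_rpow_neg_atTop (show 0 < 2 - κ by linarith)).const_mul C
    simpa using this
  have hm0 : Tendsto m atTop (𝓝 0) := squeeze_zero_norm' hbd hlim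
  have hm1 : Tendsto m atTop (𝓝 (m s0)) := by
    apply tendsto_const_nhds.congr'
    filter_upwards [eventually_gt_atTop r] with s hs
    exact (hconst s hs).symm
  have hms0 : m s0 = 0 := tendsto_nhds_unique hm1 hm0
  have hpos := Real.rpow_pos_of_pos hs0p κ
  simp only [hm] at hms0
  have hh0 : h s0 = 0 := by
    rcases mul_eq_zero.1 hms0 with h1 | h1
    · exact absurd h1 hpos.ne'
    · exact h1
  have hζe : c + s0 • θ = ζ := by
    rw [hθ, smul_smul, mul_inv_cancel₀ hs0p.ne', one_smul]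
    abel
  simp only [hh] at hh0
  rwa [hζe] at hh0

theorem eig_sphere_zero (hr : 0 < r) (hφ : MemLp φ 2 (surf (gB c r)))
    (ht : Kst (gB c r) φ =ᵐ[surf (gB c r)] fun x => t * φ x) (ht6 : 1 / 6 < t) (ht2 : t ≠ 1 / 2) :
    φ =ᵐ[surf (gB c r)] 0 := by
  have hg : Dom (gB c r) := dom_gB c hr
  have hfin := hg.isFiniteMeasure_surf
  have hφ1 := hg.integrable_of_memLp hφ
  apply hg.ae_eq_zero_of_En_self hφ
  obtain ⟨hi, hw⟩ := hg.integral_dpot_whole hφ hφ
  have hO := hg.integral_dpot_Om hφ hφ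
  -- exterior gradient vanishes
  have hext : ∀ ζ : E3, r < ‖ζ - c‖ → dpot (gB c r) φ ζ = 0 := by
    intro ζ hζ
    have hne : gB c r ζ ≠ 0 := by
      intro hcon
      rw [gB_eq_zero_iff hr] at hcon
      linarith
    have h1 := hg.hasFDerivAt_pot hφ1 hne
    have h2 : pot (gB c r) φ =ᶠ[𝓝 ζ] fun _ => (0 : ℝ) := by
      have hop : IsOpen {x : E3 | r < ‖x - c‖} := isOpen_lt continuous_const (by fun_prop)
      filter_upwards [hop.mem_nhds hζ] with x hx
      exact pot_exterior_zero hr hφ ht ht6 ht2 hx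
    have h3 : HasFDerivAt (pot (gB c r) φ) (0 : E3 →L[ℝ] ℝ) ζ :=
      (hasFDerivAt_const (0 : ℝ) ζ).congr_of_eventuallyEq h2
    have h4 := h1.unique h3
    have h5 : (inner ℝ (dpot (gB c r) φ ζ) (dpot (gB c r) φ ζ) : ℝ) = 0 := by
      have := congrArg (fun L : E3 →L[ℝ] ℝ => L (dpot (gB c r) φ ζ)) h4
      simpa using this
    simpa using h5
  have h1 : ∫ x, (inner ℝ (dpot (gB c r) φ x) (dpot (gB c r) φ x) : ℝ)
      = ∫ x in Om (gB c r), inner ℝ (dpot (gB c r) φ x) (dpot (gB c r) φ x) := by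
    rw [← integral_add_compl hg.measurableSet_Om hi]
    have h2 : ∫ x in (Om (gB c r))ᶜ, (inner ℝ (dpot (gB c r) φ x) (dpot (gB c r) φ x) : ℝ) = 0 := by
      have h6 : ∫ _x in (Om (gB c r))ᶜ, (0 : ℝ) = 0 := by simp
      rw [← h6]
      apply integral_congr_ae
      filter_upwards [ae_restrict_mem hg.measurableSet_Om.compl, ae_restrict_of_ae hg.ae_off] with x hx hx2
      have hx3 : r < ‖x - c‖ := by
        rw [Om_gB hr, mem_compl_iff, mem_ball, dist_eq_norm, not_lt] at hx
        rcases lt_or_eq_of_le hx with h | h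
        · exact h
        · exact absurd ((gB_eq_zero_iff hr).2 h.symm) hx2
      rw [hext x hx3]
      simp
    rw [h2, add_zero]
  have h3 : En (gB c r) φ (Kst (gB c r) φ) = t * En (gB c r) φ φ := by
    unfold En
    rw [← integral_const_mul]
    apply integral_congr_ae
    filter_upwards [ht] with x hx
    rw [hx]
    ring
  rw [h3] at hO
  rw [h1, hO] at hw
  have h4 : (1 / 2 + t) * En (gB c r) φ φ = 0 := by linarith
  rcases mul_eq_zero.1 h4 with h | h
  · linarith
  · exact h

/-! ### transfer to an arbitrary defining function -/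

theorem Dom.Om_eq_ball {g : E3 → ℝ} (hg : Dom g) (hr : 0 < r) (hS : {x | g x = 0} = sphere c r) :
    Om g = ball c r := by
  have hSi : ∀ x, g x = 0 ↔ ‖x - c‖ = r := by
    intro x
    have : x ∈ {x | g x = 0} ↔ x ∈ sphere c r := by rw [hS]
    simpa [mem_sphere, dist_eq_norm] using this
  -- exterior
  have hext : ∀ x, r < ‖x - c‖ → 0 < g x := by
    intro x hx
    obtain ⟨R, hR⟩ := hg.pos_far
    by_contra hcon
    push Not at hcon
    -- go to infinity along the ray
    set ψ : ℝ → ℝ := fun s => g (c + s • (x - c)) with hψ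
    have hψc : Continuous ψ := hg.continuous.comp (by fun_prop)
    have h1 : ψ 1 ≤ 0 := by
      simp only [hψ, one_smul]
      rw [add_sub_cancel]
      exact hcon
    have hxc : 0 < ‖x - c‖ := hr.trans hx
    set s1 : ℝ := max 1 ((|R| + ‖c‖) / ‖x - c‖) with hs1
    have h2 : 0 < ψ s1 := by
      apply hR
      have h3 : (|R| + ‖c‖) ≤ s1 * ‖x - c‖ := by
        rw [← div_le_iff₀ hxc]
        exact le_max_right _ _
      have hs1p : 0 < s1 := lt_of_lt_of_le one_pos (le_max_left _ _)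
      have h4 : s1 * ‖x - c‖ - ‖c‖ ≤ ‖c + s1 • (x - c)‖ := by
        have h5 : ‖s1 • (x - c)‖ ≤ ‖c + s1 • (x - c)‖ + ‖c‖ := by
          calc ‖s1 • (x - c)‖ = ‖(c + s1 • (x - c)) - c‖ := by congr 1; abel
            _ ≤ _ := norm_sub_le _ _
        rw [norm_smul, Real.norm_eq_abs, abs_of_pos hs1p] at h5
        linarith
      linarith [le_abs_self R]
    obtain ⟨s, hs, hs0⟩ := intermediate_value_Icc (le_max_left 1 ((|R| + ‖c‖) / ‖x - c‖))
      hψc.continuousOn (show (0 : ℝ) ∈ Icc (ψ 1) (ψ s1) from ⟨h1, h2.le⟩)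
    have h6 := (hSi _).1 hs0
    rw [add_sub_cancel_left, norm_smul, Real.norm_eq_abs, abs_of_pos (by linarith [hs.1])] at h6
    nlinarith [hs.1]
  -- interior
  have hint : ∀ x ∈ ball c r, ∀ y ∈ ball c r, g x < 0 → g y < 0 := by
    intro x hx y hy hgx
    by_contra hcon
    push Not at hcon
    have hpre : IsPreconnected (ball c r) := (convex_ball c r).isPreconnected
    obtain ⟨z, hz, hz0⟩ := hpre.intermediate_value hx hy hg.continuous.continuousOn
      (show (0 : ℝ) ∈ Icc (g x) (g y) from ⟨hgx.le, hcon⟩)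
    have h1 := (hSi z).1 hz0
    rw [mem_ball, dist_eq_norm] at hz
    linarith
  obtain ⟨a, ha⟩ := hg.nonempty_Om
  have hgoodΩ : ∀ x ∈ Om g, x ∈ ball c r := by
    intro x hx
    have hx' : g x < 0 := hx
    rw [mem_ball, dist_eq_norm]
    by_contra hcon
    push Not at hcon
    rcases lt_or_eq_of_le hcon with h | h
    · have := hext x h
      linarith
    · have := (hSi x).2 h.symm
      linarith
  apply Subset.antisymm hgoodΩ
  intro y hy
  exact hint a (hgoodΩ a ha) y hy ha

theorem Dom.surf_eq_sphere {g : E3 → ℝ} (hr : 0 < r) (hS : {x | g x = 0} = sphere c r) :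
    surf g = surf (gB c r) := by
  unfold surf
  rw [hS, zeroSet_gB hr]

theorem Dom.nrm_eq_sphere {g : E3 → ℝ} (hg : Dom g) (hr : 0 < r)
    (hS : {x | g x = 0} = sphere c r) : nrm g =ᵐ[surf g] nrm (gB c r) := by
  have hG : Dom (gB c r) := dom_gB c hr
  have hfin := hg.isFiniteMeasure_surf
  have hsurf : surf g = surf (gB c r) := Dom.surf_eq_sphere hr hS
  have hOm : Om g = Om (gB c r) := by rw [hg.Om_eq_ball hr hS, Om_gB hr]
  have hkey : ∀ v : E3, ∀ᵐ x ∂(surf g), nu g v x - nu (gB c r) v x = 0 := by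
    intro v
    have hint : Integrable (fun x => nu g v x - nu (gB c r) v x) (surf g) := by
      apply (hg.integrable_of_memLp (hg.memLp_nu v)).sub
      rw [hsurf]
      exact hG.integrable_of_memLp (hG.memLp_nu v)
    apply ae_eq_zero_of_integral_contDiff_smul_eq_zero hint.locallyIntegrable
    intro w hw hwc
    have hw1 : ContDiff ℝ 1 w := hw.of_le (by norm_cast)
    have h1 := hg.divergence hw1 hwc v
    have h2 := hG.divergence hw1 hwc v
    rw [← hOm, h1, ← hsurf] at h2
    have i1 := hg.integrable_mul_inner hw1.continuous hwc v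
    have i2 := hG.integrable_mul_inner hw1.continuous hwc v
    rw [← hsurf] at i2
    have h3 : ∫ x, w x • (nu g v x - nu (gB c r) v x) ∂(surf g)
        = ∫ x, (w x * inner ℝ (nrm g x) v - w x * inner ℝ (nrm (gB c r) x) v) ∂(surf g) := by
      congr 1
      ext x
      simp only [nu, smul_eq_mul]
      ring
    rw [h3, integral_sub i1 i2, h2, sub_self]
  let b := EuclideanSpace.basisFun (Fin 3) ℝ
  have hall : ∀ᵐ x ∂(surf g), ∀ i, nu g (b i) x - nu (gB c r) (b i) x = 0 :=
    ae_all_iff.2 fun i => hkey (b i)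
  filter_upwards [hall] with x hx
  rw [← b.sum_repr' (nrm g x), ← b.sum_repr' (nrm (gB c r) x)]
  apply Finset.sum_congr rfl
  intro i _
  have := hx i
  unfold nu at this
  rw [real_inner_comm (nrm g x), real_inner_comm (nrm (gB c r) x), sub_eq_zero.1 this]

/-- for a sphere every eigenvalue other than `1/2` is at most `1/6` -/
theorem Dom.sphere_eigenvalue_le {g : E3 → ℝ} (hg : Dom g) (hr : 0 < r)
    (hS : {x | g x = 0} = sphere c r) {φ : E3 → ℝ} (hφ : MemLp φ 2 (surf g))
    (hφ0 : ¬ φ =ᵐ[surf g] 0) {t : ℝ} (ht : Kst g φ =ᵐ[surf g] fun x => t * φ x)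
    (ht2 : t ≠ 1 / 2) : t ≤ 1 / 6 := by
  by_contra hcon
  push Not at hcon
  apply hφ0
  have hsurf : surf g = surf (gB c r) := Dom.surf_eq_sphere hr hS
  have hn := hg.nrm_eq_sphere hr hS
  have hK : Kst (gB c r) φ =ᵐ[surf g] fun x => t * φ x := by
    filter_upwards [ht, hn] with x hx hnx
    rw [← hx]
    unfold Kst kNP
    rw [hnx, ← hsurf]
  rw [hsurf] at hφ hK ⊢
  exact eig_sphere_zero hr hφ hK hcon ht2

end Pool.Agent.NP
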