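import Pool.Agent.Lib_h26.Divergence

/-! Balls as domains, area of spheres, the measure of the problem statement. -/

set_option autoImplicit false

open MeasureTheory Measure Metric Set Filter Module
open scoped Topology RealInnerProductSpace ENNReal NNReal ContDiff

namespace Pool.Agent.NP

/-- defining function of a ball -/
noncomputable def gB (c : E3) (r : ℝ) (x : E3) : ℝ := ‖x - c‖ ^ 2 - r ^ 2

theorem hasGradientAt_gB (c : E3) (r : ℝ) (x : E3) : HasGradientAt (gB c r) ((2 : ℝ) • (x - c)) x := by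
  rw [hasGradientAt_iff_hasFDerivAt]
  have h1 : HasFDerivAt (fun x : E3 => x - c) (ContinuousLinearMap.id ℝ E3) x :=
    (hasFDerivAt_id x).sub_const c
  have h2 := (h1.norm_sq).sub_const (r ^ 2)
  convert! h2 using 1
  ext v
  simp

theorem gradient_gB (c : E3) (r : ℝ) (x : E3) : gradient (gB c r) x = (2 : ℝ) • (x - c) :=
  (hasGradientAt_gB c r x).gradient

theorem gB_eq_zero_iff {c : E3} {r : ℝ} (hr : 0 < r) {x : E3} : gB c r x = 0 ↔ ‖x - c‖ = r := by
  unfold gB
  rw [sub_eq_zero, sq_eq_sq₀ (norm_nonneg _) hr.le]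

theorem zeroSet_gB {c : E3} {r : ℝ} (hr : 0 < r) : {x | gB c r x = 0} = sphere c r := by
  ext x
  simp only [mem_ofPred_eq, mem_sphere, dist_eq_norm]
  exact gB_eq_zero_iff hr

theorem Om_gB {c : E3} {r : ℝ} (hr : 0 < r) : Om (gB c r) = ball c r := by
  ext x
  simp only [Om, mem_ofPred_eq, mem_ball, dist_eq_norm, gB]
  rw [sub_neg, sq_lt_sq₀ (norm_nonneg _) hr.le]

theorem dom_gB (c : E3) {r : ℝ} (hr : 0 < r) : Dom (gB c r) where
  smooth := by
    unfold gB
    exact ((contDiff_id.sub contDiff_const).norm_sq ℝ).sub contDiff_const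
  grad_ne := by
    intro x hx
    rw [gradient_gB]
    rw [gB_eq_zero_iff hr] at hx
    have : x - c ≠ 0 := by
      rw [← norm_pos_iff, hx]; exact hr
    simpa using this
  pos_far := by
    refine ⟨‖c‖ + r + 1, fun x hx => ?_⟩
    have h1 : r < ‖x - c‖ := by
      have := norm_sub_norm_le x c
      linarith
    unfold gB
    have := norm_nonneg (x - c)
    nlinarith
  nonempty := by
    rw [zeroSet_gB hr]
    exact NormedSpace.sphere_nonempty.2 hr.le

theorem nrm_gB {c : E3} {r : ℝ} (hr : 0 < r) {x : E3} (hx : gB c r x = 0) :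
    nrm (gB c r) x = r⁻¹ • (x - c) := by
  unfold nrm
  rw [gradient_gB, norm_smul, (gB_eq_zero_iff hr).1 hx, smul_smul]
  congr 1
  simp

/-- sum over an orthonormal basis of the divergence theorem for `x - c` -/
theorem surf_gB_univ {c : E3} {r : ℝ} (hr : 0 < r) :
    surf (gB c r) univ = ENNReal.ofReal (4 * Real.pi * r ^ 2) := by
  have hg := dom_gB c hr
  have hfin := hg.isFiniteMeasure_surf
  let b := stdOrthonormalBasis ℝ E3
  let χ : ContDiffBump c := ⟨r + 1, r + 2, by linarith, by linarith⟩
  have hχ1 : ∀ x ∈ ball c (r + 1), χ x = 1 := fun x hx => χ.one_of_mem_closedBall (ball_subset_closedBall hx)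
  have hχc : HasCompactSupport (χ : E3 → ℝ) := χ.hasCompactSupport
  have hχs : ContDiff ℝ 1 (χ : E3 → ℝ) := χ.contDiff
  have hlin : ∀ i, ContDiff ℝ 1 (fun x : E3 => (inner ℝ (x - c) (b i) : ℝ)) := by
    intro i
    exact (contDiff_id.sub contDiff_const).inner ℝ contDiff_const
  have hdiv : ∀ i, ∫ x in Om (gB c r), fderiv ℝ (fun x => (inner ℝ (x - c) (b i) : ℝ) * χ x) x (b i)
      = ∫ x, ((inner ℝ (x - c) (b i) : ℝ) * χ x) * inner ℝ (nrm (gB c r) x) (b i) ∂(surf (gB c r)) :=
    fun i => hg.divergence ((hlin i).mul hχs) hχc.mul_left (b i)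
  have hL : ∀ i, ∫ x in Om (gB c r), fderiv ℝ (fun x => (inner ℝ (x - c) (b i) : ℝ) * χ x) x (b i)
      = (volume (ball c r)).toReal := by
    intro i
    rw [Om_gB hr]
    have : ∀ x ∈ ball c r, fderiv ℝ (fun x => (inner ℝ (x - c) (b i) : ℝ) * χ x) x (b i) = 1 := by
      intro x hx
      have hev : (fun x => (inner ℝ (x - c) (b i) : ℝ) * χ x) =ᶠ[𝓝 x]
          fun x => (inner ℝ (x - c) (b i) : ℝ) := by
        have hx' : x ∈ ball c (r + 1) := ball_subset_ball (by linarith) hx
        filter_upwards [isOpen_ball.mem_nhds hx'] with y hy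
        rw [hχ1 y hy, mul_one]
      rw [hev.fderiv_eq]
      have h1 : HasFDerivAt (fun x : E3 => (inner ℝ (x - c) (b i) : ℝ)) (innerSL ℝ (b i)) x := by
        have := ((innerSL ℝ (b i)).hasFDerivAt (x := x - c)).comp x
          ((hasFDerivAt_id x).sub_const c)
        convert! this using 1
        ext y
        simp [real_inner_comm]
      rw [h1.fderiv]
      simp only [innerSL_apply_apply]
      rw [real_inner_self_eq_norm_sq, b.orthonormal.1 i]
      norm_num
    rw [setIntegral_congr_fun measurableSet_ball this]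
    simp [Measure.real]
  have hR : ∑ i, ∫ x, ((inner ℝ (x - c) (b i) : ℝ) * χ x) * inner ℝ (nrm (gB c r) x) (b i)
        ∂(surf (gB c r)) = r * (surf (gB c r) univ).toReal := by
    rw [← integral_finsetSum]
    · have : ∀ x ∈ {x | gB c r x = 0}, ∑ i, ((inner ℝ (x - c) (b i) : ℝ) * χ x) *
          inner ℝ (nrm (gB c r) x) (b i) = r := by
        intro x hx
        have hx0 : ‖x - c‖ = r := (gB_eq_zero_iff hr).1 hx
        have hχx : χ x = 1 := hχ1 x (by rw [mem_ball, dist_eq_norm, hx0]; linarith)
        rw [hχx, nrm_gB hr hx]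
        have h1 : ∀ i, ((inner ℝ (x - c) (b i) : ℝ) * 1) * inner ℝ (r⁻¹ • (x - c)) (b i)
            = r⁻¹ * (inner ℝ (x - c) (b i) * inner ℝ (b i) (x - c)) := by
          intro i
          rw [inner_smul_left, real_inner_comm (b i) (x - c)]
          simp
          ring
        simp_rw [h1]
        rw [← Finset.mul_sum, b.sum_inner_mul_inner, real_inner_self_eq_norm_sq, hx0]
        field_simp
      unfold surf
      rw [setIntegral_congr_fun hg.measurableSet_S this]
      simp [Measure.real, mul_comm]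
    · intro i _
      exact hg.integrable_mul_inner ((hlin i).mul hχs).continuous hχc.mul_left (b i)
  have hcard : (Finset.univ : Finset (Fin (finrank ℝ E3))).card = 3 := by simp
  have hsum : ∑ i : Fin (finrank ℝ E3), (volume (ball c r)).toReal = 3 * (volume (ball c r)).toReal := by
    rw [Finset.sum_const, hcard]; simp
  have hfinal : 3 * (volume (ball c r)).toReal = r * (surf (gB c r) univ).toReal := by
    rw [← hR, ← hsum]
    exact Finset.sum_congr rfl (fun i _ => (hL i).symm.trans (hdiv i))
  rw [EuclideanSpace.volume_ball_fin_three, ENNReal.toReal_mul, ENNReal.toReal_pow,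
    ENNReal.toReal_ofReal hr.le, ENNReal.toReal_ofReal (by positivity)] at hfinal
  have h4 : (surf (gB c r) univ).toReal = 4 * Real.pi * r ^ 2 := by
    field_simp at hfinal
    nlinarith [hfinal]
  rw [← h4, ENNReal.ofReal_toReal (measure_ne_top _ _)]

/-- area of the unit sphere -/
theorem euclideanHausdorffMeasure_sphere :
    (euclideanHausdorffMeasure 2 : Measure E3) (sphere (0 : E3) 1)
      = ENNReal.ofReal (4 * Real.pi) := by
  have h := surf_gB_univ (c := 0) (r := 1) one_pos
  unfold surf at h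
  rw [Measure.restrict_apply_univ, zeroSet_gB one_pos] at h
  rw [h]
  norm_num

/-- the measure of the problem statement is `surf g` -/
theorem surf_eq_of_statement (g : E3 → ℝ) (σ : Measure E3)
    (hσ : σ = (ENNReal.ofReal (4 * Real.pi) /
              Measure.hausdorffMeasure 2 (Metric.sphere (0 : EuclideanSpace ℝ (Fin 3)) 1)) •
            (Measure.hausdorffMeasure 2).restrict {x | g x = 0}) : σ = surf g := by
  have h := euclideanHausdorffMeasure_sphere
  have hs0 := addHaarScalarFactor_volume_hausdorffMeasure_ne_zero 2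
  set s : ℝ≥0 := addHaarScalarFactor (volume : Measure (EuclideanSpace ℝ (Fin 2))) μH[(2:ℕ)] with hs
  have e1 : (euclideanHausdorffMeasure 2 : Measure E3) = s • (Measure.hausdorffMeasure 2) := by
    rw [euclideanHausdorffMeasure_def, hs]
    norm_num
  rw [e1, Measure.smul_apply, ENNReal.smul_def, smul_eq_mul] at h
  have hs0' : (s : ℝ≥0∞) ≠ 0 := by exact_mod_cast hs0
  have hm0 : (Measure.hausdorffMeasure 2 : Measure E3) (sphere 0 1) ≠ 0 := by
    intro h0
    rw [h0, mul_zero] at h
    have : (0 : ℝ) < 4 * Real.pi := by positivity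
    exact (ENNReal.ofReal_pos.2 this).ne h
  have hmt : (Measure.hausdorffMeasure 2 : Measure E3) (sphere 0 1) ≠ ⊤ := by
    intro h0
    rw [h0, ENNReal.mul_top hs0'] at h
    exact ENNReal.ofReal_ne_top h.symm
  rw [hσ, ← h, ENNReal.mul_div_cancel_right hm0 hmt]
  unfold surf
  rw [e1, Measure.restrict_smul]
  rfl

end Pool.Agent.NP
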