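import Pool.Agent.Lib_h26.KCompact

/-! Sum rules. -/

set_option autoImplicit false

open MeasureTheory Measure Metric Set Filter
open scoped Topology ENNReal

namespace Pool.Agent.NP

variable {g : E3 → ℝ}

/-- normal component -/
noncomputable def nu (g : E3 → ℝ) (v : E3) (x : E3) : ℝ := inner ℝ (nrm g x) v

theorem Dom.abs_nu_le (hg : Dom g) (v x : E3) : |nu g v x| ≤ ‖v‖ := by
  unfold nu
  refine (abs_real_inner_le_norm _ _).trans ?_
  have := hg.norm_nrm_le x
  nlinarith [norm_nonneg v]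

theorem Dom.measurable_nu (hg : Dom g) (v : E3) : Measurable (nu g v) :=
  hg.measurable_nrm.inner_const

theorem Dom.memLp_nu (hg : Dom g) (v : E3) : MemLp (nu g v) 2 (surf g) := by
  have hfin := hg.isFiniteMeasure_surf
  exact MemLp.of_bound (hg.measurable_nu v).aestronglyMeasurable ‖v‖
    (Eventually.of_forall fun x => hg.abs_nu_le v x)

theorem Dom.volume_Om_lt_top (hg : Dom g) : volume (Om g) < ⊤ := hg.isBounded_Om.measure_lt_top

/-- a cut-off times a smooth function -/
theorem Dom.integral_nu (hg : Dom g) (v : E3) : ∫ x, nu g v x ∂(surf g) = 0 := by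
  obtain ⟨χ, U, hU, hOU, hSU, h1, hχ, hχc⟩ := hg.exists_cutoff
  have hw : ContDiff ℝ 1 χ := hχ.of_le (by norm_cast)
  have h2 := hg.divergence hw hχc v
  have e1 : ∫ x in Om g, fderiv ℝ χ x v = 0 := by
    apply setIntegral_eq_zero_of_forall_eq_zero
    intro x hx
    have : fderiv ℝ χ x = 0 := by
      have h3 : χ =ᶠ[𝓝 x] fun _ => (1 : ℝ) := by
        filter_upwards [hU.mem_nhds (hOU hx)] with z hz using h1 z hz
      rw [h3.fderiv_eq]
      simp
    rw [this]
    simp
  rw [e1] at h2
  rw [h2]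
  apply integral_congr_ae
  filter_upwards [hg.ae_mem] with x hx
  rw [h1 x (hSU hx), one_mul]
  rfl

/-- potential of a normal component -/
theorem Dom.pot_nu (hg : Dom g) (v x : E3) :
    pot g (nu g v) x = ∫ y in Om g, inner ℝ (dGam y x) v := by
  obtain ⟨χ, U, hU, hOU, hSU, h1, hχ, hχc⟩ := hg.exists_cutoff
  have hw : ContDiff ℝ 1 χ := hχ.of_le (by norm_cast)
  have h2 := hg.kernel_trace hw hχc v x
  have e1 : ∫ y in Om g, (fderiv ℝ χ y v * Gam y x + χ y * inner ℝ (dGam y x) v)
      = ∫ y in Om g, inner ℝ (dGam y x) v := by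
    apply setIntegral_congr_fun hg.measurableSet_Om
    intro y hy
    have : fderiv ℝ χ y = 0 := by
      have h3 : χ =ᶠ[𝓝 y] fun _ => (1 : ℝ) := by
        filter_upwards [hU.mem_nhds (hOU hy)] with z hz using h1 z hz
      rw [h3.fderiv_eq]
      simp
    simp only
    rw [this, h1 y (hOU hy)]
    simp
  rw [e1] at h2
  rw [h2]
  unfold pot
  apply integral_congr_ae
  filter_upwards [hg.ae_mem] with y hy
  rw [h1 y (hSU hy), one_mul, Gam_comm]
  rfl

theorem Dom.integrableOn_inner_dGam (hg : Dom g) (v x : E3) :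
    IntegrableOn (fun y => (inner ℝ (dGam y x) v : ℝ)) (Om g) :=
  (integrableOn_dGam hg.isBounded_Om x).inner_const (𝕜 := ℝ) v

/-- `Σ D(ν_i, ν_i) = |Ω|` -/
theorem Dom.sum_rule_nu (hg : Dom g) (b : OrthonormalBasis (Fin 3) ℝ E3) :
    ∑ i, En g (nu g (b i)) (nu g (b i)) = (volume (Om g)).toReal := by
  have hfin := hg.isFiniteMeasure_surf
  have hvol := hg.volume_Om_lt_top
  obtain ⟨C, hC, h⟩ := hg.lintegral_dGam_bounded hg.isBounded_Om
  have hkm : Measurable (fun p : E3 × E3 => (inner ℝ (dGam p.1 p.2) (nrm g p.2) : ℝ)) :=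
    measurable_dGam'.inner (hg.measurable_nrm.comp measurable_snd)
  have hbd : ∀ᵐ x ∂(surf g), ∫⁻ y in Om g, ‖(inner ℝ (dGam y x) (nrm g x) : ℝ)‖ₑ ≤ ENNReal.ofReal C := by
    filter_upwards [hg.ae_mem] with x hx
    refine le_trans ?_ (h x hx)
    apply lintegral_mono
    intro y
    simp only
    rw [← ofReal_norm, ← ofReal_norm]
    apply ENNReal.ofReal_le_ofReal
    refine (norm_inner_le_norm _ _).trans ?_
    rw [hg.norm_nrm hx, mul_one]
  have hF := fubini_col (ν := volume.restrict (Om g)) (μ := surf g)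
    (k := fun y x => inner ℝ (dGam y x) (nrm g x)) hkm hbd (φ := fun _ => 1) (integrable_const _)
  simp only [mul_one] at hF
  -- left side
  have e1 : ∀ y ∈ Om g, ∫ x, inner ℝ (dGam y x) (nrm g x) ∂(surf g) = 1 := by
    intro y hy
    have h1 := hg.integral_kNP y
    have hyd : dens g y = 1 := by
      have : g y < 0 := hy
      simp [dens, this]
    rw [hyd] at h1
    rw [← h1]
    congr 1
    ext x
    rw [kNP_eq, dGam_comm, inner_neg_left, real_inner_comm]
  have e2 : ∫ y in Om g, (∫ x, inner ℝ (dGam y x) (nrm g x) ∂(surf g)) = (volume (Om g)).toReal := by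
    rw [setIntegral_congr_fun hg.measurableSet_Om e1]
    simp [Measure.real]
  rw [e2] at hF
  rw [hF]
  -- right side
  have e3 : ∀ i, En g (nu g (b i)) (nu g (b i))
      = ∫ x, (∫ y in Om g, inner ℝ (dGam y x) (b i)) * nu g (b i) x ∂(surf g) := by
    intro i
    unfold En
    congr 1
    ext x
    rw [hg.pot_nu]
  simp_rw [e3]
  rw [← integral_finsetSum]
  · congr 1
    ext x
    have e4 : ∀ i, (∫ y in Om g, inner ℝ (dGam y x) (b i)) * nu g (b i) x
        = ∫ y in Om g, inner ℝ (dGam y x) (b i) * inner ℝ (b i) (nrm g x) := by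
      intro i
      rw [← integral_mul_const]
      unfold nu
      congr 1
      ext y
      rw [real_inner_comm (nrm g x) (b i)]
    simp_rw [e4]
    rw [← integral_finsetSum]
    · congr 1
      ext y
      exact b.sum_inner_mul_inner _ _
    · intro i _
      exact (hg.integrableOn_inner_dGam (b i) x).mul_const _
  · intro i _
    have h1 := (hg.memLp_pot (hg.memLp_nu (b i))).integrable_mul (hg.memLp_nu (b i))
    refine h1.congr (Eventually.of_forall fun x => ?_)
    simp only [Pi.mul_apply]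
    rw [hg.pot_nu]

/-- both computations of `∫_Ω ∇V_u·e` -/
theorem Dom.integral_inner_dpot (hg : Dom g) {φ : E3 → ℝ} (hφ : Integrable φ (surf g)) (v : E3) :
    ∫ x in Om g, inner ℝ (dpot g φ x) v = ∫ x, pot g φ x * nu g v x ∂(surf g) := by
  obtain ⟨χ, U, hU, hOU, hSU, h1, hχ, hχc⟩ := hg.exists_cutoff
  have hw : ContDiff ℝ 1 χ := hχ.of_le (by norm_cast)
  have h2 := hg.trace_pot hφ hw hχc v
  have e1 : ∫ x in Om g, (fderiv ℝ χ x v * pot g φ x + χ x * inner ℝ (dpot g φ x) v)
      = ∫ x in Om g, inner ℝ (dpot g φ x) v := by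
    apply setIntegral_congr_fun hg.measurableSet_Om
    intro x hx
    have : fderiv ℝ χ x = 0 := by
      have h3 : χ =ᶠ[𝓝 x] fun _ => (1 : ℝ) := by
        filter_upwards [hU.mem_nhds (hOU hx)] with z hz using h1 z hz
      rw [h3.fderiv_eq]
      simp
    simp only
    rw [this, h1 x (hOU hx)]
    simp
  rw [e1] at h2
  rw [h2]
  apply integral_congr_ae
  filter_upwards [hg.ae_mem] with x hx
  rw [h1 x (hSU hx), one_mul]
  rfl

theorem Dom.integral_inner_dpot' (hg : Dom g) {φ : E3 → ℝ} (hφ : MemLp φ 2 (surf g)) (v : E3)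
    (h : (fun x => (1 / 2) * φ x - Kst g φ x) =ᵐ[surf g] nu g v) :
    ∫ x in Om g, inner ℝ (dpot g φ x) v = ‖v‖ ^ 2 * (volume (Om g)).toReal := by
  have hfin := hg.isFiniteMeasure_surf
  have hφ1 := hg.integrable_of_memLp hφ
  obtain ⟨χ, U, hU, hOU, hSU, h1, hχ, hχc⟩ := hg.exists_cutoff
  have hχ1 : ContDiff ℝ 1 χ := hχ.of_le (by norm_cast)
  have hl : ContDiff ℝ 1 (fun x : E3 => (inner ℝ v x : ℝ)) := (innerSL ℝ v).contDiff
  have hw : ContDiff ℝ 1 (fun x : E3 => χ x * inner ℝ v x) := hχ1.mul hl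
  have hwc : HasCompactSupport (fun x : E3 => χ x * inner ℝ v x) := hχc.mul_right
  have hfd : ∀ x ∈ Om g, fderiv ℝ (fun x : E3 => χ x * inner ℝ v x) x = innerSL ℝ v := by
    intro x hx
    rw [fderiv_mul_of_one (F := fun x : E3 => (inner ℝ v x : ℝ)) hU h1 (hOU hx)]
    exact (innerSL ℝ v).fderiv
  have h2 := hg.weak_Om hφ1 hw hwc
  have h3 := hg.divergence hw hwc v
  have e1 : ∫ x in Om g, fderiv ℝ (fun x : E3 => χ x * inner ℝ v x) x (dpot g φ x)
      = ∫ x in Om g, inner ℝ (dpot g φ x) v := by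
    apply setIntegral_congr_fun hg.measurableSet_Om
    intro x hx
    simp only
    rw [hfd x hx, innerSL_apply_apply, real_inner_comm]
  have e2 : ∫ x in Om g, fderiv ℝ (fun x : E3 => χ x * inner ℝ v x) x v
      = ‖v‖ ^ 2 * (volume (Om g)).toReal := by
    have : ∀ x ∈ Om g, fderiv ℝ (fun x : E3 => χ x * inner ℝ v x) x v = ‖v‖ ^ 2 := by
      intro x hx
      rw [hfd x hx, innerSL_apply_apply, real_inner_self_eq_norm_sq]
    rw [setIntegral_congr_fun hg.measurableSet_Om this]
    simp [Measure.real, mul_comm]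
  obtain ⟨W, hW⟩ := hw.continuous.bounded_above_of_compact_support hwc
  have i1 : Integrable (fun x => (χ x * inner ℝ v x) * φ x) (surf g) :=
    hφ1.bdd_mul hw.continuous.aestronglyMeasurable (Eventually.of_forall hW)
  have i2 : Integrable (fun x => (χ x * inner ℝ v x) * Kst g φ x) (surf g) :=
    (hg.integrable_of_memLp (hg.memLp_Kst hφ)).bdd_mul hw.continuous.aestronglyMeasurable
      (Eventually.of_forall hW)
  rw [e1] at h2
  rw [h2, ← e2, h3, ← integral_const_mul, ← integral_sub (i1.const_mul _) i2]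
  apply integral_congr_ae
  filter_upwards [h] with x hx
  unfold nu at hx
  rw [← hx]
  ring

/-- the solution `u` has `∇V_u = e` inside -/
theorem Dom.dpot_eq_of_solution (hg : Dom g) {φ : E3 → ℝ} (hφ : MemLp φ 2 (surf g)) {v : E3}
    (hv : ‖v‖ = 1) (h : (fun x => (1 / 2) * φ x - Kst g φ x) =ᵐ[surf g] nu g v) :
    En g φ (nu g v) = (volume (Om g)).toReal ∧ ∀ x ∈ Om g, dpot g φ x = v := by
  have hfin := hg.isFiniteMeasure_surf
  have hφ1 := hg.integrable_of_memLp hφ
  have hvol := hg.volume_Om_lt_top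
  have h1 := hg.integral_inner_dpot hφ1 v
  have h2 := hg.integral_inner_dpot' hφ v h
  rw [hv, one_pow, one_mul] at h2
  have hEn : En g φ (nu g v) = (volume (Om g)).toReal := by
    unfold En
    rw [← h1, h2]
  refine ⟨hEn, ?_⟩
  obtain ⟨hi, _⟩ := hg.integral_dpot_general hφ hφ (Om g)
  have h3 := hg.integral_dpot_Om hφ hφ
  have h4 : (1 / 2) * En g φ φ - En g φ (Kst g φ) = En g φ (nu g v) := by
    unfold En
    rw [← integral_const_mul, ← integral_sub]
    · apply integral_congr_ae
      filter_upwards [h] with x hx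
      rw [← hx]
      ring
    · exact ((hg.memLp_pot hφ).integrable_mul hφ).const_mul _
    · exact (hg.memLp_pot hφ).integrable_mul (hg.memLp_Kst hφ)
  rw [h4, hEn] at h3
  -- integrability of the gradient
  have hdm : ContinuousOn (dpot g φ) (Om g) := fun x hx =>
    (hg.continuousAt_dpot hφ1 (ne_of_lt hx)).continuousWithinAt
  have hdms : AEStronglyMeasurable (dpot g φ) (volume.restrict (Om g)) :=
    hdm.aestronglyMeasurable hg.measurableSet_Om
  have hvolr : IsFiniteMeasure (volume.restrict (Om g)) := ⟨by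
    rw [Measure.restrict_apply_univ]; exact hvol⟩
  have hL2 : MemLp (dpot g φ) 2 (volume.restrict (Om g)) := by
    rw [memLp_two_iff_integrable_sq_norm hdms]
    refine hi.congr (Eventually.of_forall fun x => ?_)
    simp only
    rw [real_inner_self_eq_norm_sq]
  have hd1 : Integrable (dpot g φ) (volume.restrict (Om g)) := hL2.integrable (by norm_num)
  have hiv : Integrable (fun x => (inner ℝ (dpot g φ x) v : ℝ)) (volume.restrict (Om g)) :=
    hd1.inner_const (𝕜 := ℝ) v
  have h5 : ∫ x in Om g, ‖dpot g φ x - v‖ ^ 2 = 0 := by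
    have e1 : ∀ x, ‖dpot g φ x - v‖ ^ 2
        = (inner ℝ (dpot g φ x) (dpot g φ x) - 2 * inner ℝ (dpot g φ x) v) + 1 := by
      intro x
      rw [@norm_sub_sq_real, hv, real_inner_self_eq_norm_sq]
      ring
    simp_rw [e1]
    rw [integral_add, integral_sub, integral_const_mul, h3, h2]
    · simp [Measure.real]
      ring
    · exact hi
    · exact hiv.const_mul 2
    · exact Integrable.sub hi (hiv.const_mul 2)
    · exact integrable_const _
  have h6 : (fun x => ‖dpot g φ x - v‖ ^ 2) =ᵐ[volume.restrict (Om g)] 0 := by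
    apply (integral_eq_zero_iff_of_nonneg (fun x => by positivity) _).1 h5
    have := (hL2.sub (memLp_const v)).integrable_norm_pow (by norm_num)
    simpa using this
  -- continuity
  intro x hx
  by_contra hne
  have hopen : IsOpen {y | y ∈ Om g ∧ dpot g φ y ≠ v} := by
    have h7 : {y | y ∈ Om g ∧ dpot g φ y ≠ v} = Om g ∩ (dpot g φ) ⁻¹' {v}ᶜ := by
      ext y; rfl
    rw [h7]
    exact hdm.isOpen_inter_preimage hg.isOpen_Om isOpen_compl_singleton
  have hpos : 0 < volume {y | y ∈ Om g ∧ dpot g φ y ≠ v} :=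
    hopen.measure_pos volume ⟨x, hx, hne⟩
  have hzero : volume {y | y ∈ Om g ∧ dpot g φ y ≠ v} = 0 := by
    have h8 : ∀ᵐ y, y ∈ Om g → dpot g φ y = v := by
      rw [← ae_restrict_iff' hg.measurableSet_Om]
      filter_upwards [h6] with y hy
      have : ‖dpot g φ y - v‖ = 0 := by simpa using hy
      rwa [norm_eq_zero, sub_eq_zero] at this
    rw [ae_iff] at h8
    convert! h8 using 2
    ext y
    simp
  rw [hzero] at hpos
  exact lt_irrefl _ hpos

end Pool.Agent.NP
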